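import Mathlib

/-! `sl3`, the products `[X,Y]`, `{X,Y}`, `(1/3) tr(XY)` and the cubic identities between them. -/

open LieAlgebra.SpecialLinear

namespace Pool.Agent.Work.MP_894cc0_al

noncomputable section

variable (K : Type*) [Field K] [CharZero K]

/-- `sl3`: traceless 3 x 3 matrices over `K`. -/
abbrev Sl3 : Type _ := sl (Fin 3) K

/-- `[X,Y]` as a bilinear map on `sl3`. -/
def slLie : Sl3 K →ₗ[K] Sl3 K →ₗ[K] Sl3 K :=
  LinearMap.mk₂ K (fun X Y => ⁅X, Y⁆) add_lie smul_lie lie_add (fun c X Y => lie_smul c X Y)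

/-- `(1/3) tr(XY)` as a bilinear form on `sl3`. -/
def slTr : Sl3 K →ₗ[K] Sl3 K →ₗ[K] K :=
  LinearMap.mk₂ K (fun X Y => (1 / 3 : K) * Matrix.trace (X.val * Y.val))
    (fun X X' Y => by simp [add_mul, mul_add])
    (fun c X Y => by simp; ring)
    (fun X Y Y' => by simp [mul_add])
    (fun c X Y => by simp; ring)

theorem slTr_apply (X Y : Sl3 K) : slTr K X Y = (1 / 3 : K) * Matrix.trace (X.val * Y.val) := rfl

theorem slSym_mem (X Y : Sl3 K) :
    (1 / 2 : K) • (X.val * Y.val + Y.val * X.val) - slTr K X Y • (1 : Matrix (Fin 3) (Fin 3) K)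
      ∈ sl (Fin 3) K := by
  change Matrix.trace (_ : Matrix (Fin 3) (Fin 3) K) = 0
  rw [Matrix.trace_sub, Matrix.trace_smul, Matrix.trace_smul, Matrix.trace_add,
    Matrix.trace_mul_comm Y.val X.val, slTr_apply, Matrix.trace_one]
  simp only [smul_eq_mul, Fintype.card_fin]
  push_cast
  ring

/-- `{X,Y} = (1/2)(XY+YX) - (1/3) tr(XY) I` as a bilinear map on `sl3`. -/
def slSym : Sl3 K →ₗ[K] Sl3 K →ₗ[K] Sl3 K :=
  LinearMap.mk₂ K (fun X Y => ⟨_, slSym_mem K X Y⟩)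
    (fun X X' Y => Subtype.ext (by simp [add_mul, mul_add, add_smul]; abel))
    (fun c X Y => Subtype.ext (by simp [smul_sub, smul_smul, mul_comm]))
    (fun X Y Y' => Subtype.ext (by simp [add_mul, mul_add, add_smul]; abel))
    (fun c X Y => Subtype.ext (by simp [smul_sub, smul_smul, mul_comm]))

theorem slSym_val (X Y : Sl3 K) : (slSym K X Y).val =
    (1 / 2 : K) • (X.val * Y.val + Y.val * X.val) - slTr K X Y • (1 : Matrix (Fin 3) (Fin 3) K) :=
  rfl

theorem slLie_apply (X Y : Sl3 K) : slLie K X Y = ⁅X, Y⁆ := rfl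

theorem slSym_comm (X Y : Sl3 K) : slSym K Y X = slSym K X Y :=
  Subtype.ext (by rw [slSym_val, slSym_val, slTr_apply, slTr_apply, add_comm,
    Matrix.trace_mul_comm])

theorem slTr_comm (X Y : Sl3 K) : slTr K Y X = slTr K X Y := by
  rw [slTr_apply, slTr_apply, Matrix.trace_mul_comm]

theorem sl_22 (X : Sl3 K) : X.val 2 2 = -X.val 0 0 - X.val 1 1 := by
  have : Matrix.trace X.val = 0 := X.2
  simp only [Matrix.trace, Matrix.diag, Fin.sum_univ_three] at this
  linear_combination this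

theorem sl60_val (X Y Z : Sl3 K) : slTr K (slSym K X Y) Z = (1 / 6 : K) *
    (Matrix.trace (X.val * Y.val * Z.val) + Matrix.trace (Y.val * X.val * Z.val)) := by
  have h : Matrix.trace Z.val = 0 := Z.2
  rw [slTr_apply, slSym_val, sub_mul, smul_mul_assoc, smul_mul_assoc, one_mul, add_mul,
    Matrix.trace_sub, Matrix.trace_smul, Matrix.trace_smul, Matrix.trace_add, h, smul_zero,
    smul_eq_mul]
  ring

theorem sl60_sym (X Y Z : Sl3 K) : slTr K (slSym K Y Z) X = slTr K (slSym K X Y) Z := by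
  rw [sl60_val, sl60_val, Matrix.trace_mul_cycle Y.val Z.val X.val,
    Matrix.trace_mul_cycle Z.val Y.val X.val, Matrix.trace_mul_cycle X.val Z.val Y.val]

theorem sl60_lie (X Y Z : Sl3 K) : slTr K ⁅Y, Z⁆ X = slTr K ⁅X, Y⁆ Z := by
  rw [slTr_apply, slTr_apply, sl_bracket, sl_bracket, sub_mul, sub_mul, Matrix.trace_sub,
    Matrix.trace_sub, Matrix.trace_mul_cycle Y.val Z.val X.val,
    Matrix.trace_mul_cycle Z.val Y.val X.val, Matrix.trace_mul_cycle X.val Z.val Y.val]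

theorem sl60_ch (X Y Z : Sl3 K) :
    Z.val * (X.val * Y.val) + Z.val * (Y.val * X.val) + X.val * (Y.val * Z.val) +
      X.val * (Z.val * Y.val) + Y.val * (Z.val * X.val) + Y.val * (X.val * Z.val) =
    (3 * slTr K X Y) • Z.val + (3 * slTr K Y Z) • X.val + (3 * slTr K Z X) • Y.val +
      (6 * slTr K (slSym K X Y) Z) • (1 : Matrix (Fin 3) (Fin 3) K) := by
  have e3 : ∀ t : K, 3 * (1 / 3 * t) = t := fun t => by ring
  have e6 : ∀ t : K, 6 * (1 / 6 * t) = t := fun t => by ring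
  rw [sl60_val, slTr_apply, slTr_apply, slTr_apply, e3, e3, e3, e6]
  have hx := sl_22 K X
  have hy := sl_22 K Y
  have hz := sl_22 K Z
  generalize X.val = A at hx ⊢
  generalize Y.val = B at hy ⊢
  generalize Z.val = C at hz ⊢
  refine Matrix.ext fun i j => ?_
  simp only [Matrix.add_apply, Matrix.smul_apply, smul_eq_mul, Matrix.trace, Matrix.diag,
    Matrix.mul_apply, Fin.sum_univ_three, Matrix.one_apply]
  fin_cases i <;> fin_cases j <;>
    simp only [Fin.zero_eta, Fin.mk_one, Fin.reduceFinMk, Fin.isValue, Fin.reduceEq, if_true,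
      if_false, mul_zero, add_zero, hx, hy, hz] <;>
    ring

theorem sl_id1 (X Y Z : Sl3 K) :
    ((1 / 4 : K) • ⁅⁅X, Y⁆, Z⁆ + (1 / 2 : K) • slSym K ⁅X, Y⁆ Z + (1 / 2 : K) • ⁅slSym K X Y, Z⁆
      + slSym K (slSym K X Y) Z + slTr K X Y • Z)
    + ((1 / 4 : K) • ⁅⁅Y, Z⁆, X⁆ - (1 / 2 : K) • slSym K ⁅Y, Z⁆ X + (1 / 2 : K) • ⁅slSym K Y Z, X⁆
      - slSym K (slSym K Y Z) X - slTr K Y Z • X) = 0 := by
  refine Subtype.ext ?_
  simp only [AddMemClass.coe_add, AddSubgroupClass.coe_sub, SetLike.val_smul, sl_bracket,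
    slSym_val, ZeroMemClass.coe_zero, mul_sub, sub_mul, mul_add, add_mul, mul_smul_comm,
    smul_mul_assoc, mul_one, one_mul, mul_assoc, sl60_sym K X Y Z, sl60_lie K X Y Z]
  module

theorem sl_id2 (X Y Z : Sl3 K) :
    ((1 / 4 : K) • ⁅⁅Y, Z⁆, X⁆ + (1 / 2 : K) • slSym K ⁅Y, Z⁆ X - (1 / 2 : K) • ⁅slSym K Y Z, X⁆
      - slSym K (slSym K Y Z) X - slTr K Y Z • X)
    + ((1 / 4 : K) • ⁅⁅X, Y⁆, Z⁆ - (1 / 2 : K) • slSym K ⁅X, Y⁆ Z - (1 / 2 : K) • ⁅slSym K X Y, Z⁆
      + slSym K (slSym K X Y) Z + slTr K X Y • Z) = 0 := by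
  refine Subtype.ext ?_
  simp only [AddMemClass.coe_add, AddSubgroupClass.coe_sub, SetLike.val_smul, sl_bracket,
    slSym_val, ZeroMemClass.coe_zero, mul_sub, sub_mul, mul_add, add_mul, mul_smul_comm,
    smul_mul_assoc, mul_one, one_mul, mul_assoc, sl60_sym K X Y Z, sl60_lie K X Y Z]
  module

theorem sl_id3 (X Y Z : Sl3 K) :
    (2 : K) • slSym K (slSym K X Y) Z - ⁅slSym K X Y, Z⁆ - slTr K X Y • Z
    + ((2 : K) • slSym K (slSym K Y Z) X - ⁅slSym K Y Z, X⁆ - slTr K Y Z • X)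
    + ((2 : K) • slSym K (slSym K Z X) Y - ⁅slSym K Z X, Y⁆ - slTr K Z X • Y) = 0 := by
  refine Subtype.ext ?_
  simp only [AddMemClass.coe_add, AddSubgroupClass.coe_sub, SetLike.val_smul, sl_bracket,
    slSym_val, ZeroMemClass.coe_zero, mul_sub, sub_mul, mul_add, add_mul, mul_smul_comm,
    smul_mul_assoc, mul_one, one_mul, mul_assoc, sl60_sym K X Y Z, sl60_lie K X Y Z,
    ← sl60_sym K Z X Y]
  linear_combination (norm := module) sl60_ch K X Y Z

theorem lie_slTr (Z X Y : Sl3 K) : slTr K ⁅Z, X⁆ Y + slTr K X ⁅Z, Y⁆ = 0 := by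
  simp only [slTr_apply, sl_bracket, Matrix.trace, Matrix.diag, Fin.sum_univ_three,
    Matrix.mul_apply, Matrix.sub_apply]; ring

theorem lie_slSym (Z X Y : Sl3 K) :
    ⁅Z, slSym K X Y⁆ = slSym K ⁅Z, X⁆ Y + slSym K X ⁅Z, Y⁆ := by
  refine Subtype.ext ?_
  have h := congrArg (fun c : K => c • (1 : Matrix (Fin 3) (Fin 3) K)) (lie_slTr K Z X Y)
  simp only [add_smul, zero_smul] at h
  simp only [AddMemClass.coe_add, sl_bracket, slSym_val, mul_sub, sub_mul, mul_add, add_mul,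
    mul_smul_comm, smul_mul_assoc, mul_one, one_mul, mul_assoc]
  linear_combination (norm := module) h

end

end Pool.Agent.Work.MP_894cc0_al
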