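import Pool.Agent.Work.MP_894cc0_al.AltId
import Pool.Agent.Work.MP_894cc0_al.Sl

/-! The Allison-Benkart-Gao Lie algebra `ABG K A = sl3 ⊗ A ⊕ B(A)` of an alternative algebra. -/

open scoped TensorProduct
open LieAlgebra.SpecialLinear

namespace Pool.Agent.Work.MP_894cc0_al

noncomputable section

variable (K : Type*) [Field K] [CharZero K]

variable (A : Type*) [NonUnitalNonAssocRing A] [Module K A] [IsScalarTower K A A]
  [SMulCommClass K A A]

/-- `p · q = (1/2)(pq+qp)`. -/
def jor : A →ₗ[K] A →ₗ[K] A := (1 / 2 : K) • (LinearMap.mul K A + (LinearMap.mul K A).flip)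

/-- `[p,q] = pq-qp`. -/
def com : A →ₗ[K] A →ₗ[K] A := LinearMap.mul K A - (LinearMap.mul K A).flip

theorem jor_apply (p q : A) : jor K A p q = (1 / 2 : K) • (p * q + q * p) := rfl

theorem com_apply (p q : A) : com K A p q = p * q - q * p := rfl

/-- `D_{p,q} = [L_p,L_q] + [R_p,R_q] + [L_p,R_q]`. -/
def Dop : A →ₗ[K] A →ₗ[K] Module.End K A :=
  LinearMap.mk₂ K
    (fun p q => ⁅LinearMap.mulLeft K p, LinearMap.mulLeft K q⁆
      + ⁅LinearMap.mulRight K p, LinearMap.mulRight K q⁆
      + ⁅LinearMap.mulLeft K p, LinearMap.mulRight K q⁆)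
    (fun p p' q => by ext r; simp [Ring.lie_def, add_mul, mul_add]; abel)
    (fun c p q => by ext r; simp [Ring.lie_def, smul_sub, mul_smul_comm, smul_mul_assoc])
    (fun p q q' => by ext r; simp [Ring.lie_def, add_mul, mul_add]; abel)
    (fun c p q => by ext r; simp [Ring.lie_def, smul_sub, mul_smul_comm, smul_mul_assoc])

theorem Dop_apply (p q r : A) : Dop K A p q r =
    p * (q * r) - q * (p * r) + (r * q * p - r * p * q) + (p * (r * q) - p * r * q) := by
  simp [Dop, Ring.lie_def]

/-- The relations defining `B(A)` in `A ⊗ A`: `p ⊗ p` (this gives `Λ²A`) and the cyclic ones. -/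
def relB : Submodule K (A ⊗[K] A) :=
  Submodule.span K ({x | ∃ p : A, x = p ⊗ₜ[K] p} ∪
    {x | ∃ p q r : A, x = (p * q) ⊗ₜ[K] r + (q * r) ⊗ₜ[K] p + (r * p) ⊗ₜ[K] q})

/-- `B(A) = Λ²(A) / span {pq ∧ r + qr ∧ p + rp ∧ q}`. -/
def BB : Type _ := (A ⊗[K] A) ⧸ relB K A

instance : AddCommGroup (BB K A) := Submodule.Quotient.addCommGroup (relB K A)

instance : Module K (BB K A) := Submodule.Quotient.module (relB K A)

/-- The class `p ∧ q` in `B(A)`. -/
def wedge : A →ₗ[K] A →ₗ[K] BB K A := (TensorProduct.mk K A A).compr₂ (relB K A).mkQ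

variable {K A}

theorem wedge_self (p : A) : wedge K A p p = 0 :=
  (Submodule.Quotient.mk_eq_zero _).2 (Submodule.subset_span (Or.inl ⟨p, rfl⟩))

theorem wedge_cyc (p q r : A) :
    wedge K A (p * q) r + wedge K A (q * r) p + wedge K A (r * p) q = 0 :=
  (Submodule.Quotient.mk_eq_zero (relB K A)).2 (Submodule.subset_span (Or.inr ⟨p, q, r, rfl⟩))

theorem wedge_comm (p q : A) : wedge K A q p = -wedge K A p q := by
  have h := wedge_self (K := K) (p + q)
  simp only [map_add, LinearMap.add_apply, wedge_self] at h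
  linear_combination (norm := abel1) h

/-- Universal property of `B(A)`. -/
def liftB {M : Type*} [AddCommGroup M] [Module K M] (f : A →ₗ[K] A →ₗ[K] M)
    (h1 : ∀ p, f p p = 0) (h2 : ∀ p q r, f (p * q) r + f (q * r) p + f (r * p) q = 0) :
    BB K A →ₗ[K] M :=
  (relB K A).liftQ (TensorProduct.lift f) (Submodule.span_le.2 (by
    rintro x (⟨p, rfl⟩ | ⟨p, q, r, rfl⟩)
    · simpa using h1 p
    · simpa using h2 p q r))

@[simp] theorem liftB_wedge {M : Type*} [AddCommGroup M] [Module K M] (f : A →ₗ[K] A →ₗ[K] M)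
    (h1 : ∀ p, f p p = 0) (h2 : ∀ p q r, f (p * q) r + f (q * r) p + f (r * p) q = 0) (p q : A) :
    liftB f h1 h2 (wedge K A p q) = f p q := rfl

theorem BB_ind {P : BB K A → Prop} (h0 : P 0) (hw : ∀ p q, P (wedge K A p q))
    (ha : ∀ x y, P x → P y → P (x + y)) (b : BB K A) : P b := by
  obtain ⟨x, rfl⟩ := (relB K A).mkQ_surjective b
  induction x using TensorProduct.induction_on with
  | zero => exact h0
  | tmul p q => exact hw p q
  | add x y hx hy => exact ha _ _ hx hy

theorem BB_ext {M : Type*} [AddCommGroup M] [Module K M] {f g : BB K A →ₗ[K] M}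
    (h : ∀ p q, f (wedge K A p q) = g (wedge K A p q)) : f = g :=
  LinearMap.ext (BB_ind (by simp) h (fun x y hx hy => by simp [hx, hy]))

variable (K A)

/-- Derivations of `A`. -/
def Der : Submodule K (Module.End K A) where
  carrier := {δ | ∀ r s, δ (r * s) = δ r * s + r * δ s}
  add_mem' := fun {a b} ha hb r s => by
    simp only [LinearMap.add_apply, ha r s, hb r s, add_mul, mul_add]; abel
  zero_mem' := fun r s => by simp
  smul_mem' := fun c a ha r s => by
    simp only [LinearMap.smul_apply, ha r s, smul_add, mul_smul_comm, smul_mul_assoc]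

/-- A derivation `δ` acts on `B(A)` by `r ∧ s ↦ δ r ∧ s + r ∧ δ s`. -/
def derB : Der K A →ₗ[K] Module.End K (BB K A) where
  toFun δ := liftB ((wedge K A).comp δ.1 + (wedge K A).compl₂ δ.1)
    (fun p => by simp [wedge_comm (K := K) p (δ.1 p)])
    (fun p q r => by
      simp only [LinearMap.add_apply, LinearMap.comp_apply, LinearMap.compl₂_apply, δ.2 _ _,
        map_add]
      linear_combination (norm := abel1) wedge_cyc (K := K) (δ.1 p) q r
        + wedge_cyc (K := K) p (δ.1 q) r + wedge_cyc (K := K) p q (δ.1 r))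
  map_add' δ δ' := BB_ext fun p q => by simp; abel
  map_smul' c δ := BB_ext fun p q => by simp

theorem derB_wedge (δ : Der K A) (r s : A) :
    derB K A δ (wedge K A r s) = wedge K A (δ.1 r) s + wedge K A r (δ.1 s) := rfl

variable [IsAlt A]

theorem Dop_eq (p q r : A) : Dop K A p q r =
    (p * q - q * p) * r - r * (p * q - q * p) - 3 • asc p q r := by
  have h1 := s213 p q r
  have h2 := s321 p q r
  have h3 := s312 p q r
  have h4 := s132 p q r
  rw [Dop_apply]
  simp only [asc, mul_sub, sub_mul] at *
  linear_combination (norm := abel1) h1 + h2 - h3 - h4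

theorem Dop_mem (p q : A) : Dop K A p q ∈ Der K A := fun r s => by
  have h := asc_der p q r s
  have h1 := s231 (p * q) r s
  have h2 := s213 (p * q) r s
  have h3 := s231 (q * p) r s
  have h4 := s213 (q * p) r s
  simp only [Dop_eq]
  generalize asc p q (r * s) = a1 at *
  generalize asc p q r = a2 at *
  generalize asc p q s = a3 at *
  simp only [asc, mul_sub, sub_mul, smul_mul_assoc, mul_smul_comm] at *
  linear_combination (norm := abel1) -(3 • h) - h1 + h2 + h3 - h4

theorem Dop_self (p : A) : Dop K A p p = 0 := by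
  ext r; simp [Dop_eq, asc_aab]

theorem Dop_cyc (p q r : A) : Dop K A (p * q) r + Dop K A (q * r) p + Dop K A (r * p) q = 0 := by
  ext s
  have h := asc_cyc p q r s
  have h1 : p * q * r - r * (p * q) + (q * r * p - p * (q * r)) + (r * p * q - q * (r * p))
      = 3 • asc p q r := by
    have h1 := s231 p q r
    have h2 := s312 p q r
    simp only [asc] at *
    linear_combination (norm := abel1) h1 + h2
  have h2 := congrArg (fun x => x * s - s * x) h1
  simp only [add_mul, mul_add, smul_mul_assoc, mul_smul_comm] at h2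
  simp only [LinearMap.add_apply, Dop_eq, LinearMap.zero_apply]
  linear_combination (norm := abel1) h2 + 3 • h

/-- `p ∧ q ↦ D_{p,q}` as a map from `B(A)` to derivations of `A`. -/
def DB : BB K A →ₗ[K] Der K A :=
  (liftB (Dop K A) (Dop_self K A) (Dop_cyc K A)).codRestrict (Der K A)
    (BB_ind (by simp) (Dop_mem K A) (fun x y hx hy => by simpa using add_mem hx hy))

theorem DB_wedge (p q : A) : (DB K A (wedge K A p q)).1 = Dop K A p q := rfl

/-- The underlying space `sl3 ⊗ A ⊕ B(A)`. -/
def ABG : Type _ := (Sl3 K ⊗[K] A) × BB K A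

instance : AddCommGroup (ABG K A) := Prod.instAddCommGroup (G := Sl3 K ⊗[K] A) (H := BB K A)

instance : Module K (ABG K A) := Prod.instModule (R := K) (M := Sl3 K ⊗[K] A) (N := BB K A)

/-- `sl3 ⊗ A`-part of `[X ⊗ p, Y ⊗ q]`: `[X,Y] ⊗ (p · q) + {X,Y} ⊗ [p,q]`. -/
def brT : Sl3 K ⊗[K] A →ₗ[K] Sl3 K ⊗[K] A →ₗ[K] Sl3 K ⊗[K] A :=
  TensorProduct.map₂ (slLie K) (jor K A) + TensorProduct.map₂ (slSym K) (com K A)

/-- `B(A)`-part of `[X ⊗ p, Y ⊗ q]`: `(1/3) tr(XY) p ∧ q`. -/
def brB : Sl3 K ⊗[K] A →ₗ[K] Sl3 K ⊗[K] A →ₗ[K] BB K A :=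
  (TensorProduct.map₂ (slTr K) (wedge K A)).compr₂ (TensorProduct.lid K (BB K A)).toLinearMap

/-- `[p ∧ q, X ⊗ r] = X ⊗ D_{p,q} r`. -/
def actT : BB K A →ₗ[K] Sl3 K ⊗[K] A →ₗ[K] Sl3 K ⊗[K] A :=
  (LinearMap.lTensorHom (Sl3 K)) ∘ₗ (Der K A).subtype ∘ₗ DB K A

/-- `[p ∧ q, r ∧ s] = D_{p,q} r ∧ s + r ∧ D_{p,q} s`. -/
def actB : BB K A →ₗ[K] BB K A →ₗ[K] BB K A := derB K A ∘ₗ DB K A

instance : Bracket (ABG K A) (ABG K A) :=
  ⟨fun x y => (brT K A x.1 y.1 + actT K A x.2 y.1 - actT K A y.2 x.1,
    brB K A x.1 y.1 + actB K A x.2 y.2)⟩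

theorem brT_tmul (X Y : Sl3 K) (p q : A) : brT K A (X ⊗ₜ p) (Y ⊗ₜ q) =
    ⁅X, Y⁆ ⊗ₜ ((1 / 2 : K) • (p * q + q * p)) + slSym K X Y ⊗ₜ (p * q - q * p) := rfl

theorem brB_tmul (X Y : Sl3 K) (p q : A) :
    brB K A (X ⊗ₜ p) (Y ⊗ₜ q) = slTr K X Y • wedge K A p q := rfl

theorem actT_tmul (b : BB K A) (X : Sl3 K) (r : A) :
    actT K A b (X ⊗ₜ r) = X ⊗ₜ (DB K A b).1 r := rfl

theorem actB_wedge (b : BB K A) (r s : A) : actB K A b (wedge K A r s) =
    wedge K A ((DB K A b).1 r) s + wedge K A r ((DB K A b).1 s) := rfl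

theorem br_fst (x y : ABG K A) :
    (⁅x, y⁆ : ABG K A).1 = brT K A x.1 y.1 + actT K A x.2 y.1 - actT K A y.2 x.1 := rfl

theorem br_snd (x y : ABG K A) :
    (⁅x, y⁆ : ABG K A).2 = brB K A x.1 y.1 + actB K A x.2 y.2 := rfl

theorem brT_skew (u v : Sl3 K ⊗[K] A) : brT K A v u = -brT K A u v := by
  induction u using TensorProduct.induction_on with
  | zero => simp
  | add x y hx hy => simp only [map_add, LinearMap.add_apply, hx, hy]; abel
  | tmul X p =>
    induction v using TensorProduct.induction_on with
    | zero => simp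
    | add x y hx hy => simp only [map_add, LinearMap.add_apply, hx, hy]; abel
    | tmul Y q =>
      rw [brT_tmul, brT_tmul, ← lie_skew X Y, slSym_comm K X Y, add_comm (q * p),
        ← neg_sub (p * q), TensorProduct.neg_tmul, TensorProduct.tmul_neg]
      abel

theorem brB_skew (u v : Sl3 K ⊗[K] A) : brB K A v u = -brB K A u v := by
  induction u using TensorProduct.induction_on with
  | zero => simp
  | add x y hx hy => simp only [map_add, LinearMap.add_apply, hx, hy]; abel
  | tmul X p =>
    induction v using TensorProduct.induction_on with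
    | zero => simp
    | add x y hx hy => simp only [map_add, LinearMap.add_apply, hx, hy]; abel
    | tmul Y q => rw [brB_tmul, brB_tmul, slTr_comm K X Y, wedge_comm p q, smul_neg]

theorem wedge_asc (a b c d : A) : wedge K A (asc a b c) d - wedge K A (asc b c d) a
    + wedge K A (asc c d a) b - wedge K A (asc d a b) c = 0 := by
  have h1 := wedge_cyc (K := K) (a * b) c d
  have h2 := wedge_cyc (K := K) (b * c) d a
  have h3 := wedge_cyc (K := K) (c * d) a b
  have h4 := wedge_cyc (K := K) (d * a) b c
  have h5 := wedge_comm (K := K) (a * b) (c * d)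
  have h6 := wedge_comm (K := K) (b * c) (d * a)
  simp only [asc, map_sub, LinearMap.sub_apply]
  linear_combination (norm := abel1) h1 - h2 + h3 - h4 - h5 + h6

theorem wedge_com (u r s : A) : wedge K A (u * r - r * u) s + wedge K A r (u * s - s * u)
    = wedge K A u (r * s - s * r) := by
  have h1 := wedge_cyc (K := K) u r s
  have h2 := wedge_cyc (K := K) r u s
  have h3 := wedge_comm (K := K) r (u * s)
  have h4 := wedge_comm (K := K) r (s * u)
  have h5 := wedge_comm (K := K) u (r * s)
  have h6 := wedge_comm (K := K) u (s * r)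
  simp only [map_sub, LinearMap.sub_apply]
  linear_combination (norm := abel1) h1 - h2 + h3 - h4 - h5 + h6

theorem actB_skew (b b' : BB K A) : actB K A b' b = -actB K A b b' := by
  induction b using BB_ind with
  | h0 => simp
  | ha x y hx hy => simp only [map_add, LinearMap.add_apply, hx, hy]; abel
  | hw p q =>
    induction b' using BB_ind with
    | h0 => simp
    | ha x y hx hy => simp only [map_add, LinearMap.add_apply, hx, hy]; abel
    | hw r s =>
      have h1 := wedge_com K A (p * q - q * p) r s
      have h2 := wedge_com K A (r * s - s * r) p q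
      have h3 := wedge_comm (K := K) (p * q - q * p) (r * s - s * r)
      have h4 := wedge_asc K A p q r s
      have h5 := wedge_comm (K := K) r (asc p q s)
      have h6 := wedge_comm (K := K) p (asc r s q)
      rw [s312 p q s, ← s231 q r s] at h4
      rw [actB_wedge, actB_wedge, DB_wedge, DB_wedge]
      simp only [Dop_eq]
      generalize p * q - q * p = u at *
      generalize r * s - s * r = v at *
      simp only [map_sub, LinearMap.sub_apply, map_nsmul, LinearMap.smul_apply] at *
      linear_combination (norm := abel1) h1 + h2 + h3 - 3 • h4 - 3 • h5 - 3 • h6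

theorem br_skew (x y : ABG K A) : (⁅y, x⁆ : ABG K A) = -⁅x, y⁆ := by
  refine Prod.ext ?_ ?_
  · change _ = -(⁅x, y⁆ : ABG K A).1
    rw [br_fst, br_fst, brT_skew]; abel
  · change _ = -(⁅x, y⁆ : ABG K A).2
    rw [br_snd, br_snd, brB_skew, actB_skew]; abel

theorem DB_derB (δ : Der K A) (b : BB K A) (r : A) :
    (DB K A (derB K A δ b)).1 r = δ.1 ((DB K A b).1 r) - (DB K A b).1 (δ.1 r) := by
  induction b using BB_ind with
  | h0 => simp
  | ha x y hx hy =>
    simp only [map_add, Submodule.coe_add, LinearMap.add_apply, hx, hy]; abel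
  | hw p q =>
    simp only [derB_wedge, map_add, Submodule.coe_add, LinearMap.add_apply, DB_wedge, Dop_apply,
      map_sub, δ.2 _ _, add_mul, mul_add]
    abel

theorem der_brT (δ : Der K A) (u v : Sl3 K ⊗[K] A) :
    δ.1.lTensor (Sl3 K) (brT K A u v) =
      brT K A (δ.1.lTensor (Sl3 K) u) v + brT K A u (δ.1.lTensor (Sl3 K) v) := by
  induction u using TensorProduct.induction_on with
  | zero => simp
  | add x y hx hy => simp only [map_add, LinearMap.add_apply, hx, hy]; abel
  | tmul X p =>
    induction v using TensorProduct.induction_on with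
    | zero => simp
    | add x y hx hy => simp only [map_add, LinearMap.add_apply, hx, hy]; abel
    | tmul Y q =>
      simp only [brT_tmul, map_add, LinearMap.lTensor_tmul, map_smul, map_sub, δ.2 _ _,
        TensorProduct.tmul_add, TensorProduct.tmul_sub, TensorProduct.tmul_smul, smul_add]
      abel

theorem der_brB (δ : Der K A) (u v : Sl3 K ⊗[K] A) :
    derB K A δ (brB K A u v) =
      brB K A (δ.1.lTensor (Sl3 K) u) v + brB K A u (δ.1.lTensor (Sl3 K) v) := by
  induction u using TensorProduct.induction_on with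
  | zero => simp
  | add x y hx hy => simp only [map_add, LinearMap.add_apply, hx, hy]; abel
  | tmul X p =>
    induction v using TensorProduct.induction_on with
    | zero => simp
    | add x y hx hy => simp only [map_add, LinearMap.add_apply, hx, hy]; abel
    | tmul Y q => simp only [brB_tmul, LinearMap.lTensor_tmul, map_smul, derB_wedge, smul_add]

theorem der_actT (δ : Der K A) (b : BB K A) (v : Sl3 K ⊗[K] A) :
    δ.1.lTensor (Sl3 K) (actT K A b v) =
      actT K A (derB K A δ b) v + actT K A b (δ.1.lTensor (Sl3 K) v) := by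
  induction v using TensorProduct.induction_on with
  | zero => simp
  | add x y hx hy => simp only [map_add, hx, hy]; abel
  | tmul Y q => simp only [actT_tmul, LinearMap.lTensor_tmul, DB_derB, TensorProduct.tmul_sub]; abel

theorem der_actB (δ : Der K A) (b v : BB K A) :
    derB K A δ (actB K A b v) = actB K A (derB K A δ b) v + actB K A b (derB K A δ v) := by
  induction v using BB_ind with
  | h0 => simp
  | ha x y hx hy => simp only [map_add, hx, hy]; abel
  | hw r s =>
    simp only [actB_wedge, derB_wedge, DB_derB, map_add, map_sub, LinearMap.sub_apply]; abel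

theorem jac_brB (u v w : Sl3 K ⊗[K] A) :
    brB K A (brT K A u v) w + brB K A (brT K A v w) u + brB K A (brT K A w u) v = 0 := by
  induction u using TensorProduct.induction_on with
  | zero => simp
  | add x y hx hy =>
    simp only [map_add, LinearMap.add_apply]; linear_combination (norm := abel1) hx + hy
  | tmul X p =>
  induction v using TensorProduct.induction_on with
  | zero => simp
  | add x y hx hy =>
    simp only [map_add, LinearMap.add_apply]; linear_combination (norm := abel1) hx + hy
  | tmul Y q =>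
  induction w using TensorProduct.induction_on with
  | zero => simp
  | add x y hx hy =>
    simp only [map_add, LinearMap.add_apply]; linear_combination (norm := abel1) hx + hy
  | tmul Z r =>
    have a1 := sl60_lie K X Y Z
    have a2 := (sl60_lie K Z X Y).symm
    have a3 := sl60_sym K X Y Z
    have a4 := (sl60_sym K Z X Y).symm
    have h1 := wedge_cyc (K := K) p q r
    have h2 := wedge_cyc (K := K) q p r
    simp only [brT_tmul, map_add, LinearMap.add_apply, brB_tmul, a1, a2, a3, a4, map_smul,
      map_sub, LinearMap.smul_apply, LinearMap.sub_apply]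
    linear_combination (norm := module)
      (slTr K ⁅X, Y⁆ Z / 2 + slTr K (slSym K X Y) Z) • h1
      + (slTr K ⁅X, Y⁆ Z / 2 - slTr K (slSym K X Y) Z) • h2

theorem jac_brT (u v w : Sl3 K ⊗[K] A) :
    brT K A (brT K A u v) w + actT K A (brB K A u v) w
      + (brT K A (brT K A v w) u + actT K A (brB K A v w) u)
      + (brT K A (brT K A w u) v + actT K A (brB K A w u) v) = 0 := by
  induction u using TensorProduct.induction_on with
  | zero => simp
  | add x y hx hy =>
    simp only [map_add, LinearMap.add_apply]; linear_combination (norm := abel1) hx + hy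
  | tmul X p =>
  induction v using TensorProduct.induction_on with
  | zero => simp
  | add x y hx hy =>
    simp only [map_add, LinearMap.add_apply]; linear_combination (norm := abel1) hx + hy
  | tmul Y q =>
  induction w using TensorProduct.induction_on with
  | zero => simp
  | add x y hx hy =>
    simp only [map_add, LinearMap.add_apply]; linear_combination (norm := abel1) hx + hy
  | tmul Z r =>
    have e1 : p * (q * r) = p * q * r - asc p q r := by simp [asc]
    have e2 : q * (p * r) = q * p * r + asc p q r := by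
      rw [← neg_neg (asc p q r), ← s213]; simp [asc]
    have e3 : q * (r * p) = q * r * p - asc p q r := by rw [← s231]; simp [asc]
    have e4 : r * (q * p) = r * q * p + asc p q r := by
      rw [← neg_neg (asc p q r), ← s321]; simp [asc]
    have e5 : r * (p * q) = r * p * q - asc p q r := by rw [← s312]; simp [asc]
    have e6 : p * (r * q) = p * r * q + asc p q r := by
      rw [← neg_neg (asc p q r), ← s132]; simp [asc]
    have c1 := congrArg (fun S => S ⊗ₜ[K] (p * q * r)) (sl_id1 K X Y Z)
    have c3 := congrArg (fun S => S ⊗ₜ[K] (q * r * p)) (sl_id1 K Y Z X)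
    have c5 := congrArg (fun S => S ⊗ₜ[K] (r * p * q)) (sl_id1 K Z X Y)
    have c4 := congrArg (fun S => S ⊗ₜ[K] (r * q * p)) (sl_id2 K X Y Z)
    have c6 := congrArg (fun S => S ⊗ₜ[K] (p * r * q)) (sl_id2 K Y Z X)
    have c2 := congrArg (fun S => S ⊗ₜ[K] (q * p * r)) (sl_id2 K Z X Y)
    have c7 := congrArg (fun S => S ⊗ₜ[K] (asc p q r)) (sl_id3 K X Y Z)
    simp only [TensorProduct.add_tmul, TensorProduct.sub_tmul, ← TensorProduct.smul_tmul',
      TensorProduct.zero_tmul] at c1 c2 c3 c4 c5 c6 c7
    simp only [brT_tmul, brB_tmul, map_add, LinearMap.add_apply, map_smul, LinearMap.smul_apply,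
      actT_tmul, DB_wedge, Dop_apply, add_mul, mul_add, sub_mul, mul_sub, smul_mul_assoc,
      mul_smul_comm, e1, e2, e3, e4, e5, e6, map_sub, LinearMap.sub_apply, TensorProduct.tmul_add, TensorProduct.tmul_sub,
      TensorProduct.tmul_smul]
    linear_combination (norm := module) c1 + c2 + c3 + c4 + c5 + c6 + c7

theorem actT_eq (b : BB K A) : actT K A b = (DB K A b).1.lTensor (Sl3 K) := rfl

theorem actB_eq (b : BB K A) : actB K A b = derB K A (DB K A b) := rfl

theorem act_actT (a b : BB K A) (v : Sl3 K ⊗[K] A) : actT K A a (actT K A b v) =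
    actT K A (actB K A a b) v + actT K A b (actT K A a v) := der_actT K A (DB K A a) b v

theorem act_actB (a b v : BB K A) : actB K A a (actB K A b v) =
    actB K A (actB K A a b) v + actB K A b (actB K A a v) := der_actB K A (DB K A a) b v

theorem act_brT (a : BB K A) (u v : Sl3 K ⊗[K] A) : actT K A a (brT K A u v) =
    brT K A (actT K A a u) v + brT K A u (actT K A a v) := der_brT K A (DB K A a) u v

theorem act_brB (a : BB K A) (u v : Sl3 K ⊗[K] A) : actB K A a (brB K A u v) =
    brB K A (actT K A a u) v + brB K A u (actT K A a v) := der_brB K A (DB K A a) u v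

theorem br_leibniz (x y z : ABG K A) :
    (⁅x, (⁅y, z⁆ : ABG K A)⁆ : ABG K A) = ⁅(⁅x, y⁆ : ABG K A), z⁆ + ⁅y, (⁅x, z⁆ : ABG K A)⁆ := by
  obtain ⟨u, a⟩ := x
  obtain ⟨v, b⟩ := y
  obtain ⟨w, c⟩ := z
  refine Prod.ext ?_ ?_
  · change _ = (⁅_, _⁆ : ABG K A).1 + (⁅_, _⁆ : ABG K A).1
    simp only [br_fst, br_snd, map_add, map_sub, LinearMap.add_apply, LinearMap.sub_apply]
    have j := jac_brT K A u v w
    have h1 := act_brT K A a v w
    have h2 := act_brT K A b u w
    have h3 := act_brT K A c u v
    have h4 := act_actT K A a b w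
    have h5 := act_actT K A a c v
    have h6 := act_actT K A b c u
    have s1 := brT_skew K A u (brT K A v w)
    have s2 := brT_skew K A v (brT K A u w)
    have s3 := brT_skew K A v (actT K A c u)
    rw [brT_skew K A u w, brB_skew K A u w] at j
    simp only [map_neg, LinearMap.neg_apply] at j
    linear_combination (norm := abel1) h1 - h2 + h3 + h4 - h5 + h6 - j + s1 - s2 + s3
  · change _ = (⁅_, _⁆ : ABG K A).2 + (⁅_, _⁆ : ABG K A).2
    simp only [br_fst, br_snd, map_add, map_sub, LinearMap.add_apply, LinearMap.sub_apply]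
    have j := jac_brB K A u v w
    have h1 := act_brB K A a v w
    have h2 := act_brB K A b u w
    have h3 := act_brB K A c u v
    have h4 := act_actB K A a b c
    have s1 := brB_skew K A u (brT K A v w)
    have s2 := brB_skew K A v (brT K A u w)
    have s3 := brB_skew K A v (actT K A c u)
    have s4 := actB_skew K A c (brB K A u v)
    rw [brT_skew K A u w] at j
    simp only [map_neg, LinearMap.neg_apply] at j
    linear_combination (norm := abel1) h1 - h2 + h3 + h4 - j + s1 - s2 + s3 - s4

/-- The Allison-Benkart-Gao Lie ring structure. -/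
instance : LieRing (ABG K A) where
  add_lie x y z := Prod.ext
    (by change _ = (⁅x, z⁆ : ABG K A).1 + (⁅y, z⁆ : ABG K A).1
        change brT K A (x.1 + y.1) z.1 + actT K A (x.2 + y.2) z.1 - actT K A z.2 (x.1 + y.1) = _
        simp only [br_fst, map_add, LinearMap.add_apply]; abel)
    (by change _ = (⁅x, z⁆ : ABG K A).2 + (⁅y, z⁆ : ABG K A).2
        change brB K A (x.1 + y.1) z.1 + actB K A (x.2 + y.2) z.2 = _
        simp only [br_snd, map_add, LinearMap.add_apply]; abel)
  lie_add x y z := Prod.ext
    (by change _ = (⁅x, y⁆ : ABG K A).1 + (⁅x, z⁆ : ABG K A).1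
        change brT K A x.1 (y.1 + z.1) + actT K A x.2 (y.1 + z.1) - actT K A (y.2 + z.2) x.1 = _
        simp only [br_fst, map_add, LinearMap.add_apply]; abel)
    (by change _ = (⁅x, y⁆ : ABG K A).2 + (⁅x, z⁆ : ABG K A).2
        change brB K A x.1 (y.1 + z.1) + actB K A x.2 (y.2 + z.2) = _
        simp only [br_snd, map_add, LinearMap.add_apply]; abel)
  lie_self x := by
    have h : (2 : K) • (⁅x, x⁆ : ABG K A) = 0 := by
      rw [two_smul]; exact eq_neg_iff_add_eq_zero.1 (br_skew K A x x)
    exact (smul_eq_zero.1 h).resolve_left two_ne_zero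
  leibniz_lie := br_leibniz K A

/-- The Allison-Benkart-Gao Lie algebra. -/
instance : LieAlgebra K (ABG K A) where
  lie_smul c x y := Prod.ext
    (by change brT K A x.1 (c • y.1) + actT K A x.2 (c • y.1) - actT K A (c • y.2) x.1
          = c • (⁅x, y⁆ : ABG K A).1
        simp only [br_fst, map_smul, LinearMap.smul_apply, smul_add, smul_sub])
    (by change brB K A x.1 (c • y.1) + actB K A x.2 (c • y.2) = c • (⁅x, y⁆ : ABG K A).2
        simp only [br_snd, map_smul, smul_add])

/-- `sl3` acts by the adjoint action on the factor `sl3` and trivially on `A` and `B(A)`. -/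
instance : Bracket (Sl3 K) (ABG K A) := ⟨fun Z x => ((slLie K Z).rTensor A x.1, 0)⟩

theorem sl_lie_def (Z : Sl3 K) (x : ABG K A) :
    (⁅Z, x⁆ : ABG K A) = ((slLie K Z).rTensor A x.1, 0) := rfl

instance : LieRingModule (Sl3 K) (ABG K A) where
  add_lie Z W x := Prod.ext
    (by change (slLie K (Z + W)).rTensor A x.1 = (slLie K Z).rTensor A x.1 + (slLie K W).rTensor A x.1
        simp)
    (add_zero (0 : BB K A)).symm
  lie_add Z x y := Prod.ext (map_add ((slLie K Z).rTensor A) x.1 y.1) (add_zero (0 : BB K A)).symm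
  leibniz_lie Z W x := Prod.ext
    (by change (slLie K Z).rTensor A ((slLie K W).rTensor A x.1) =
          (slLie K ⁅Z, W⁆).rTensor A x.1 + (slLie K W).rTensor A ((slLie K Z).rTensor A x.1)
        induction x.1 using TensorProduct.induction_on with
        | zero => simp
        | add x y hx hy => simp only [map_add, hx, hy]; abel
        | tmul X p =>
          simp only [LinearMap.rTensor_tmul, slLie_apply]
          rw [← TensorProduct.add_tmul, ← leibniz_lie])
    (add_zero (0 : BB K A)).symm

instance : LieModule K (Sl3 K) (ABG K A) where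
  smul_lie c Z x := Prod.ext
    (by change (slLie K (c • Z)).rTensor A x.1 = c • (slLie K Z).rTensor A x.1
        simp)
    (smul_zero c).symm
  lie_smul c Z x := Prod.ext (map_smul ((slLie K Z).rTensor A) c x.1) (smul_zero c).symm

theorem sl_brT (Z : Sl3 K) (u v : Sl3 K ⊗[K] A) : (slLie K Z).rTensor A (brT K A u v) =
    brT K A ((slLie K Z).rTensor A u) v + brT K A u ((slLie K Z).rTensor A v) := by
  induction u using TensorProduct.induction_on with
  | zero => simp
  | add x y hx hy => simp only [map_add, LinearMap.add_apply, hx, hy]; abel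
  | tmul X p =>
    induction v using TensorProduct.induction_on with
    | zero => simp
    | add x y hx hy => simp only [map_add, LinearMap.add_apply, hx, hy]; abel
    | tmul Y q =>
      simp only [brT_tmul, map_add, LinearMap.rTensor_tmul, slLie_apply]
      rw [leibniz_lie Z X Y, lie_slSym, TensorProduct.add_tmul, TensorProduct.add_tmul]
      abel

theorem sl_brB (Z : Sl3 K) (u v : Sl3 K ⊗[K] A) :
    brB K A ((slLie K Z).rTensor A u) v + brB K A u ((slLie K Z).rTensor A v) = 0 := by
  induction u using TensorProduct.induction_on with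
  | zero => simp
  | add x y hx hy =>
    simp only [map_add, LinearMap.add_apply]; linear_combination (norm := abel1) hx + hy
  | tmul X p =>
    induction v using TensorProduct.induction_on with
    | zero => simp
    | add x y hx hy =>
      simp only [map_add, LinearMap.add_apply]; linear_combination (norm := abel1) hx + hy
    | tmul Y q =>
      simp only [brB_tmul, LinearMap.rTensor_tmul, slLie_apply]
      rw [← add_smul, lie_slTr, zero_smul]

theorem sl_actT (Z : Sl3 K) (b : BB K A) (v : Sl3 K ⊗[K] A) :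
    (slLie K Z).rTensor A (actT K A b v) = actT K A b ((slLie K Z).rTensor A v) := by
  induction v using TensorProduct.induction_on with
  | zero => simp
  | add x y hx hy => simp only [map_add, hx, hy]
  | tmul Y q => simp only [actT_tmul, LinearMap.rTensor_tmul]

/-- `sl3` acts by derivations. -/
instance : IsLieTower (Sl3 K) (ABG K A) (ABG K A) where
  leibniz_lie Z x y := Prod.ext
    (by change (slLie K Z).rTensor A (⁅x, y⁆ : ABG K A).1 =
          (⁅(⁅Z, x⁆ : ABG K A), y⁆ : ABG K A).1 + (⁅x, (⁅Z, y⁆ : ABG K A)⁆ : ABG K A).1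
        simp only [br_fst, sl_lie_def, map_add, map_sub, sl_brT, sl_actT, map_zero,
          LinearMap.zero_apply]
        abel)
    (by change (0 : BB K A) =
          (⁅(⁅Z, x⁆ : ABG K A), y⁆ : ABG K A).2 + (⁅x, (⁅Z, y⁆ : ABG K A)⁆ : ABG K A).2
        simp only [br_snd, sl_lie_def, map_zero, LinearMap.zero_apply, add_zero]
        exact (sl_brB K A Z x.1 y.1).symm)

variable {K A} {A' : Type*} [NonUnitalNonAssocRing A'] [Module K A'] [IsScalarTower K A' A']
  [SMulCommClass K A' A'] [IsAlt A']

/-- The map `B(A) → B(A')`, `p ∧ q ↦ f p ∧ f q`, induced by an algebra homomorphism. -/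
def mapB (f : A →ₙₐ[K] A') : BB K A →ₗ[K] BB K A' :=
  liftB ((wedge K A').compl₁₂ (f : A →ₗ[K] A') (f : A →ₗ[K] A')) (fun p => wedge_self (f p))
    (fun p q r => by simpa using wedge_cyc (K := K) (f p) (f q) (f r))

theorem mapB_wedge (f : A →ₙₐ[K] A') (p q : A) :
    mapB f (wedge K A p q) = wedge K A' (f p) (f q) := rfl

theorem map_DB (f : A →ₙₐ[K] A') (b : BB K A) (r : A) :
    f ((DB K A b).1 r) = (DB K A' (mapB f b)).1 (f r) := by
  induction b using BB_ind with
  | h0 => simp
  | ha x y hx hy => simp only [map_add, Submodule.coe_add, LinearMap.add_apply, hx, hy]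
  | hw p q => simp only [mapB_wedge, DB_wedge, Dop_apply, map_add, map_sub, map_mul]

theorem map_brT (f : A →ₙₐ[K] A') (u v : Sl3 K ⊗[K] A) :
    (f : A →ₗ[K] A').lTensor (Sl3 K) (brT K A u v) =
      brT K A' ((f : A →ₗ[K] A').lTensor (Sl3 K) u) ((f : A →ₗ[K] A').lTensor (Sl3 K) v) := by
  induction u using TensorProduct.induction_on with
  | zero => simp
  | add x y hx hy => simp only [map_add, LinearMap.add_apply, hx, hy]
  | tmul X p =>
    induction v using TensorProduct.induction_on with
    | zero => simp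
    | add x y hx hy => simp only [map_add, LinearMap.add_apply, hx, hy]
    | tmul Y q => simp [brT_tmul]

theorem map_brB (f : A →ₙₐ[K] A') (u v : Sl3 K ⊗[K] A) :
    mapB f (brB K A u v) =
      brB K A' ((f : A →ₗ[K] A').lTensor (Sl3 K) u) ((f : A →ₗ[K] A').lTensor (Sl3 K) v) := by
  induction u using TensorProduct.induction_on with
  | zero => simp
  | add x y hx hy => simp only [map_add, LinearMap.add_apply, hx, hy]
  | tmul X p =>
    induction v using TensorProduct.induction_on with
    | zero => simp
    | add x y hx hy => simp only [map_add, LinearMap.add_apply, hx, hy]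
    | tmul Y q => simp [brB_tmul, mapB_wedge]

theorem map_actT (f : A →ₙₐ[K] A') (b : BB K A) (v : Sl3 K ⊗[K] A) :
    (f : A →ₗ[K] A').lTensor (Sl3 K) (actT K A b v) =
      actT K A' (mapB f b) ((f : A →ₗ[K] A').lTensor (Sl3 K) v) := by
  induction v using TensorProduct.induction_on with
  | zero => simp
  | add x y hx hy => simp only [map_add, hx, hy]
  | tmul Y q => simp [actT_tmul, map_DB]

theorem map_actB (f : A →ₙₐ[K] A') (b v : BB K A) :
    mapB f (actB K A b v) = actB K A' (mapB f b) (mapB f v) := by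
  induction v using BB_ind with
  | h0 => simp
  | ha x y hx hy => simp only [map_add, hx, hy]
  | hw r s => simp only [actB_wedge, map_add, mapB_wedge, map_DB]

/-- `ABG` is a functor: `X ⊗ p ↦ X ⊗ f p`, `p ∧ q ↦ f p ∧ f q`. -/
def ABG.map (f : A →ₙₐ[K] A') : ABG K A →ₗ⁅K⁆ ABG K A' where
  toLinearMap := ((f : A →ₗ[K] A').lTensor (Sl3 K)).prodMap (mapB f)
  map_lie' := fun {x y} => Prod.ext
    (by change (f : A →ₗ[K] A').lTensor (Sl3 K) (⁅x, y⁆ : ABG K A).1 = _
        rw [br_fst, br_fst, map_sub, map_add, map_brT, map_actT, map_actT]; rfl)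
    (by change mapB f (⁅x, y⁆ : ABG K A).2 = _
        rw [br_snd, br_snd, map_add, map_brB, map_actB]; rfl)

theorem ABG.map_apply (f : A →ₙₐ[K] A') (x : ABG K A) :
    ABG.map f x = ((f : A →ₗ[K] A').lTensor (Sl3 K) x.1, mapB f x.2) := rfl

end

end Pool.Agent.Work.MP_894cc0_al
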