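import Mathlib

/-! Alternative rings and the associator identities used for the Allison-Benkart-Gao algebra. -/

namespace Pool.Agent.Work.MP_894cc0_al

/-- `A` is alternative: `(pp)q = p(pq)` and `(qp)p = q(pp)`. -/
class IsAlt (A : Type*) [Mul A] : Prop where
  left : ∀ p q : A, p * p * q = p * (p * q)
  right : ∀ p q : A, q * p * p = q * (p * p)

variable {A : Type*} [NonUnitalNonAssocRing A]

/-- The associator. -/
def asc (a b c : A) : A := a * b * c - a * (b * c)

theorem teich (w x y z : A) :
    asc (w * x) y z - asc w (x * y) z + asc w x (y * z) = w * asc x y z + asc w x y * z := by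
  simp only [asc, mul_sub, sub_mul]; abel

variable [IsAlt A]

theorem s213 (a b c : A) : asc b a c = -asc a b c := by
  have h := IsAlt.left (a + b) c
  have ha := IsAlt.left a c
  have hb := IsAlt.left b c
  simp only [mul_add, add_mul] at h
  simp only [asc]
  linear_combination (norm := abel1) h - ha - hb

theorem s132 (a b c : A) : asc a c b = -asc a b c := by
  have h := IsAlt.right (b + c) a
  have ha := IsAlt.right b a
  have hb := IsAlt.right c a
  simp only [mul_add, add_mul] at h
  simp only [asc]
  linear_combination (norm := abel1) h - ha - hb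

theorem s231 (a b c : A) : asc b c a = asc a b c := by
  rw [s132 b a c, s213 a b c, neg_neg]

theorem s312 (a b c : A) : asc c a b = asc a b c := by
  rw [s213 a c b, s132 a b c, neg_neg]

theorem s321 (a b c : A) : asc c b a = -asc a b c := by
  rw [s132 c a b, s312 a b c]

theorem asc_aab (a b : A) : asc a a b = 0 := by simp [asc, IsAlt.left]

theorem asc_abb (a b : A) : asc a b b = 0 := by simp [asc, IsAlt.right]

theorem asc_aba (a b : A) : asc a b a = 0 := by rw [s132 a a b, asc_aab, neg_zero]

theorem asc_der (p q r s : A) :
    asc p q (r * s) - asc p q r * s - r * asc p q s + asc (p * q) r s - asc (q * p) r s = 0 := by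
  have h0 := teich p q r s
  have h1 := teich p q s r
  have h2 := teich q p s r
  have h3 := teich q r p s
  have h4 := teich r p q s
  simp only [s231 (r * s) p q, s213 (q * r) p s, s132 (p * q) r s, s213 (q * s) p r, s231 (s * r) p q, s132 q r s, s132 (q * p) r s, s213 (p * s) q r, s321 (s * r) p q, s132 p r s, s213 p q s, s213 (r * p) q s, s231 (p * s) q r, s213 p r s, s231 p q r, s213 (p * q) r s, s321 (q * s) p r, s312 p q r, mul_neg, neg_mul] at h0 h1 h2 h3 h4 ⊢
  linear_combination (norm := abel1) h0 + h1 + h2 - h3 + h4

theorem asc_cyc (p q r s : A) :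
    asc p q r * s - s * asc p q r - asc (p * q) r s - asc (q * r) p s - asc (r * p) q s = 0 := by
  have h0 := teich p q r s
  have h1 := teich p q s r
  have h2 := teich q r s p
  have h3 := teich q s r p
  have h4 := teich s p q r
  simp only [s213 (q * r) p s, s231 (r * s) p q, s132 (p * q) r s, s213 (q * s) p r, s231 (s * r) p q, s132 q r s, s132 (q * r) p s, s312 (r * s) p q, s231 (s * p) q r, s231 p r s, s132 (q * s) p r, s312 (s * r) p q, s231 (r * p) q s, s321 p r s, s312 (p * q) r s, s321 (q * r) p s, s312 p q s, mul_neg, neg_mul] at h0 h1 h2 h3 h4 ⊢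
  linear_combination (norm := abel1) - h0 - h1 - h2 - h3 + h4

/-- Linearised Moufang-type identity used in Artin's theorem. -/
theorem asc_mouf (p q r s : A) :
    asc p (q * r) s + asc p (s * r) q + asc p q r * s + asc p s r * q = 0 := by
  have h0 := teich p q s r
  have h1 := teich p r q s
  have h2 := teich s p q r
  have h3 := teich s p r q
  simp only [s213 (q * r) p s, s213 (s * r) p q, s132 p r s, s132 (p * q) r s, s213 (q * s) p r, s231 (s * r) p q, s132 q r s, s213 (r * q) p s, s231 (q * s) p r, s213 q r s, s132 p q r, s312 (p * q) r s, s321 (q * r) p s, s312 p q s, s132 (s * p) q r, s312 (p * r) q s, s321 (r * q) p s, s312 p r s, mul_neg, neg_mul] at h0 h1 h2 h3 ⊢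
  linear_combination (norm := abel1) - h0 + h1 + h2 + h3

end Pool.Agent.Work.MP_894cc0_al
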