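import Pool.Agent.Work.MP_894cc0_al.AnDefs

/-! Lower bounds for the torus integrals. -/

open MeasureTheory

namespace Pool.Agent.Work.MP_894cc0_al

theorem An5_int {E : Type} [NormedAddCommGroup E] {f : TT → E} (hf : Continuous f) :
    Integrable f mT := hf.integrable_of_hasCompactSupport (HasCompactSupport.of_compactSpace f)

theorem An5_pt : ∃ z, 0 < wf z ∧ 1 < xf z := by
  obtain ⟨t, ht⟩ := (AddCircle.homeomorphCircle (T := (1 : ℝ)) one_ne_zero).surjective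
    ⟨⟨3 / 5, 4 / 5⟩, mem_sphere_zero_iff_norm.2 (by
      rw [← sq_eq_sq₀ (norm_nonneg _) zero_le_one, Complex.sq_norm, Complex.normSq_mk]; norm_num)⟩
  have h1 : fourier 1 t = (⟨3 / 5, 4 / 5⟩ : ℂ) := by
    rw [fourier_one, ← AddCircle.homeomorphCircle_apply one_ne_zero, ht]
  have h2 : fourier 2 t = (⟨3 / 5, 4 / 5⟩ : ℂ) * ⟨3 / 5, 4 / 5⟩ := by
    rw [← h1, ← fourier_add]; rfl
  have hm : fourier (-1) t = (⟨3 / 5, -(4 / 5)⟩ : ℂ) := by rw [fourier_neg, h1]; rfl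
  refine ⟨(t, t), ?_, ?_⟩
  · simp only [wf, ContinuousMap.coe_mk, chr_apply, h1, h2, hm, Complex.sq_norm,
      Complex.normSq_apply]
    norm_num
  · simp only [xf, ContinuousMap.coe_mk, chr_apply, h1, hm, fourier_zero, Complex.sq_norm,
      Complex.normSq_apply]
    norm_num

theorem An5_pos {f : TT → ℝ} (hf : Continuous f) (h0 : ∀ z, 0 ≤ f z) {z : TT} (hz : 0 < f z) :
    0 < ∫ z, f z ∂mT :=
  hf.integral_pos_of_hasCompactSupport_nonneg_nonzero (HasCompactSupport.of_compactSpace f) h0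
    hz.ne'

theorem An5_ineq {x σ γ g : ℝ} (hx : 0 ≤ x) (hσ : 0 ≤ σ) (hγ : |γ| ≤ g) :
    Real.exp σ * (σ * Real.exp (-g) * max (x - 1) 0 ^ 2 - Real.exp g) ≤
      (x - 1) * Real.exp (σ * x + γ) := by
  obtain ⟨h1, h2⟩ := abs_le.1 hγ
  rcases le_total 1 x with h | h
  · rw [max_eq_left (sub_nonneg.2 h), show σ * x + γ = σ + (σ * (x - 1) + γ) by ring, Real.exp_add,
      Real.exp_add, mul_left_comm]
    refine mul_le_mul_of_nonneg_left ?_ (Real.exp_pos _).le
    have e : σ * (x - 1) * Real.exp (-g) ≤ Real.exp (σ * (x - 1)) * Real.exp γ :=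
      mul_le_mul (by linarith [Real.add_one_le_exp (σ * (x - 1))]) (Real.exp_le_exp.2 h1)
        (Real.exp_pos _).le (Real.exp_pos _).le
    nlinarith [mul_le_mul_of_nonneg_left e (sub_nonneg.2 h), Real.exp_pos g]
  · have e : Real.exp (σ * x + γ) ≤ Real.exp σ * Real.exp g := by
      rw [← Real.exp_add]
      exact Real.exp_le_exp.2 (by nlinarith)
    rw [max_eq_right (sub_nonpos.2 h)]
    nlinarith [mul_nonneg hx (Real.exp_pos (σ * x + γ)).le]

theorem lower {l : ℤ × ℤ} (hl : Good l) (g : ℝ) :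
    ∃ δ : ℝ, 0 < δ ∧ ∃ σ0 : ℝ, ∀ σ, σ0 ≤ σ → ∀ γ : C(TT, ℝ), (∀ z, |γ z| ≤ g) →
      δ ≤ ∫ z, Wf l z * Real.exp (σ * xf z + γ z) ∂mT := by
  obtain ⟨z0, hw, hx⟩ := An5_pt
  rcases hl with rfl | rfl
  · refine ⟨Real.exp (-g) * ∫ z, wf z ∂mT, mul_pos (Real.exp_pos _)
      (An5_pos wf.continuous wf_nonneg hw), 0, fun σ hσ γ hγ => ?_⟩
    rw [← integral_const_mul]
    refine integral_mono (An5_int (by fun_prop)) (An5_int (by fun_prop)) fun z => ?_
    simp only [Wf, if_true, mul_comm (wf z)]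
    refine mul_le_mul_of_nonneg_right (Real.exp_le_exp.2 ?_) (wf_nonneg z)
    linarith [(abs_le.1 (hγ z)).1, mul_nonneg hσ (xf_nonneg z)]
  · have hc : 0 < ∫ z, wf z * max (xf z - 1) 0 ^ 2 ∂mT := An5_pos (by fun_prop)
      (fun z => mul_nonneg (wf_nonneg z) (sq_nonneg _)) (z := z0)
      (mul_pos hw (pow_pos (lt_max_of_lt_left (sub_pos.2 hx)) 2))
    have hM : 0 ≤ ∫ z, wf z ∂mT := integral_nonneg wf_nonneg
    have hp := mul_pos (Real.exp_pos (-g)) hc
    refine ⟨1, one_pos, (1 + Real.exp g * ∫ z, wf z ∂mT) /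
      (Real.exp (-g) * ∫ z, wf z * max (xf z - 1) 0 ^ 2 ∂mT), fun σ hσ γ hγ => ?_⟩
    have h0 : 0 ≤ σ := le_trans
      (div_nonneg (add_nonneg zero_le_one (mul_nonneg (Real.exp_pos g).le hM)) hp.le) hσ
    rw [div_le_iff₀ hp] at hσ
    have e : ∫ z, Real.exp σ * (σ * Real.exp (-g) * (wf z * max (xf z - 1) 0 ^ 2) -
        Real.exp g * wf z) ∂mT ≤ ∫ z, Wf (1, 1) z * Real.exp (σ * xf z + γ z) ∂mT := by
      refine integral_mono (An5_int (by fun_prop)) (An5_int (by fun_prop)) fun z => ?_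
      have := mul_le_mul_of_nonneg_left (An5_ineq (xf_nonneg z) h0 (hγ z)) (wf_nonneg z)
      have hW : Wf (1, 1) z = wf z * (xf z - 1) := by rw [Wf, if_neg (by decide)]; rfl
      simp only [hW]
      linarith
    rw [integral_const_mul, integral_sub (An5_int (by fun_prop)) (An5_int (by fun_prop)),
      integral_const_mul, integral_const_mul] at e
    refine le_trans ?_ e
    exact one_le_mul_of_one_le_of_one_le (Real.one_le_exp h0) (by linarith)

end Pool.Agent.Work.MP_894cc0_al
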