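import Pool.Agent.Work.MP_894cc0_al.An1
import Pool.Agent.Work.MP_894cc0_al.An3
import Pool.Agent.Work.MP_894cc0_al.An4
import Pool.Agent.Work.MP_894cc0_al.An5

/-! Exponential growth of the Euler characteristic. -/

open MeasureTheory Filter

namespace Pool.Agent.Work.MP_894cc0_al

/-- Integration against a weight. -/
noncomputable def An6_L (u : C(TT, ℝ)) : C(TT, ℂ) →L[ℂ] ℂ :=
  LinearMap.mkContinuous
    { toFun := fun F => ∫ z, ((u z : ℝ) : ℂ) * F z ∂mT
      map_add' := fun F G => by
        simp only [ContinuousMap.add_apply, mul_add]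
        exact integral_add (An5_int (by fun_prop)) (An5_int (by fun_prop))
      map_smul' := fun c F => by
        simp only [ContinuousMap.smul_apply, smul_eq_mul, RingHom.id_apply, mul_left_comm _ c,
          integral_const_mul] } ‖u‖ fun F => by
    refine (norm_integral_le_of_norm_le_const (C := ‖u‖ * ‖F‖) (.of_forall fun z => ?_)).trans_eq
      (by simp)
    rw [norm_mul, Complex.norm_real]
    exact mul_le_mul (u.norm_coe_le_norm z) (F.norm_coe_le_norm z) (norm_nonneg _) (norm_nonneg _)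

theorem An6_L_apply (u : C(TT, ℝ)) (F : C(TT, ℂ)) :
    An6_L u F = ∫ z, ((u z : ℝ) : ℂ) * F z ∂mT := rfl

theorem growth {W J : Type*} {len : W → ℕ} {dg : J → ℕ} (h : Counts len dg) {l : ℤ × ℤ}
    (hl : Good l) (c : ℝ) (h0 : 0 ≤ c) (hc : c < 2) :
    ∃ᶠ n in atTop, c ^ n ≤ ((|phi (pc (ideg len dg) (iwt W J) n) l| : ℤ) : ℝ) := by
  obtain ⟨G, h1, h2, h3, h4⟩ := h.exists_G
  have hp : 0 < (c + 2) / 2 := by linarith
  have key := sing (Wf l) G h1 h2 h3 (fun n => 6 * (phi (pc (ideg len dg) (iwt W J) n) l : ℂ))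
    (fun t ht => by
      obtain ⟨F, hF, hz⟩ := h4 t ht
      refine ⟨An6_L (Wf l) F, ?_, ?_⟩
      · have := (An6_L (Wf l)).hasSum hF
        simp only [map_smul, smul_eq_mul, mul_comm (t ^ _)] at this
        simpa only [An6_L_apply _ (Pn _ _ _), integral_Wf_Pn h hl] using this
      · simp only [An6_L_apply, ← integral_const_mul, ← hz, mul_left_comm])
    (lower hl) ((c + 2) / 2) hp.le (by linarith)
  have ev := (tendsto_pow_atTop_nhds_zero_of_lt_one (div_nonneg h0 hp.le)
    ((div_lt_one hp).2 (by linarith))).eventually (ge_mem_nhds (show (0 : ℝ) < 1 / 6 by norm_num))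
  refine (key.and_eventually ev).mono fun n hn => ?_
  obtain ⟨e1, e2⟩ := hn
  rw [div_pow, div_le_iff₀ (pow_pos hp n)] at e2
  rw [norm_mul, Complex.norm_intCast, Complex.norm_ofNat] at e1
  push_cast
  linarith

end Pool.Agent.Work.MP_894cc0_al
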