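import Pool.Agent.Work.MP_894cc0_al.AltId

/-! The free non-unital alternative algebra on a vector space. -/

namespace Pool.Agent.Work.MP_894cc0_al

noncomputable section

variable (K : Type*) [Field K] (V : Type*) [AddCommGroup V] [Module K V]

/-- The free non-unital non-associative algebra on the elements of `V`
(basis: nonempty nonassociative monomials). -/
abbrev Mag : Type _ := FreeNonUnitalNonAssocAlgebra K V

/-- The generator attached to `v`. -/
def gen (v : V) : Mag K V := FreeNonUnitalNonAssocAlgebra.of K v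

/-- `I` is a two-sided ideal containing the linearity relations of the generators and the
alternative laws. -/
def IsAltIdeal (I : Submodule K (Mag K V)) : Prop :=
  (∀ a b : V, gen K V (a + b) - (gen K V a + gen K V b) ∈ I) ∧
  (∀ (c : K) (a : V), gen K V (c • a) - c • gen K V a ∈ I) ∧
  (∀ p q : Mag K V, p * p * q - p * (p * q) ∈ I) ∧
  (∀ p q : Mag K V, q * p * p - q * (p * p) ∈ I) ∧
  (∀ x ∈ I, ∀ y : Mag K V, x * y ∈ I ∧ y * x ∈ I)

/-- The smallest such ideal. -/
def altIdeal : Submodule K (Mag K V) := sInf {I | IsAltIdeal K V I}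

theorem altIdeal_spec : IsAltIdeal K V (altIdeal K V) :=
  ⟨fun a b => Submodule.mem_sInf.2 fun _ h => h.1 a b,
   fun c a => Submodule.mem_sInf.2 fun _ h => h.2.1 c a,
   fun p q => Submodule.mem_sInf.2 fun _ h => h.2.2.1 p q,
   fun p q => Submodule.mem_sInf.2 fun _ h => h.2.2.2.1 p q,
   fun x hx y => ⟨Submodule.mem_sInf.2 fun I h => (h.2.2.2.2 x (Submodule.mem_sInf.1 hx I h) y).1,
     Submodule.mem_sInf.2 fun I h => (h.2.2.2.2 x (Submodule.mem_sInf.1 hx I h) y).2⟩⟩

/-- The free non-unital alternative algebra on `V`. -/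
def Alt : Type _ := Mag K V ⧸ altIdeal K V

instance : AddCommGroup (Alt K V) := Submodule.Quotient.addCommGroup (altIdeal K V)

instance : Module K (Alt K V) := Submodule.Quotient.module (altIdeal K V)

/-- The quotient map. -/
def Alt.mk : Mag K V →ₗ[K] Alt K V := (altIdeal K V).mkQ

theorem Alt.mk_eq_zero (x : Mag K V) : Alt.mk K V x = 0 ↔ x ∈ altIdeal K V :=
  Submodule.Quotient.mk_eq_zero _

theorem Alt.mk_surj : Function.Surjective (Alt.mk K V) := Submodule.mkQ_surjective _

/-- The bilinear product on the quotient. -/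
def Alt.mulMap : Alt K V →ₗ[K] Alt K V →ₗ[K] Alt K V :=
  ((LinearMap.mul K (Mag K V)).compr₂ (Alt.mk K V)).liftQ₂ (altIdeal K V) (altIdeal K V)
    (fun x hx => LinearMap.ext fun y =>
      (Alt.mk_eq_zero K V _).2 ((altIdeal_spec K V).2.2.2.2 x hx y).1)
    (fun x hx => LinearMap.ext fun y =>
      (Alt.mk_eq_zero K V _).2 ((altIdeal_spec K V).2.2.2.2 x hx y).2)

theorem Alt.exists_mul : ∃ m : Alt K V → Alt K V → Alt K V,
    ∀ x y, m (Alt.mk K V x) (Alt.mk K V y) = Alt.mk K V (x * y) :=
  ⟨fun x y => Alt.mulMap K V x y, fun _ _ => rfl⟩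

/-- The product of classes is the class of the product. -/
def Alt.mul : Alt K V → Alt K V → Alt K V := Classical.choose (Alt.exists_mul K V)

theorem Alt.mul_eq (x y : Alt K V) : Alt.mul K V x y = Alt.mulMap K V x y := by
  obtain ⟨x, rfl⟩ := Alt.mk_surj K V x
  obtain ⟨y, rfl⟩ := Alt.mk_surj K V y
  exact Classical.choose_spec (Alt.exists_mul K V) x y

theorem Alt.mul_add (x y z : Alt K V) :
    Alt.mul K V x (y + z) = Alt.mul K V x y + Alt.mul K V x z := by
  simp only [Alt.mul_eq, map_add]

theorem Alt.add_mul (x y z : Alt K V) :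
    Alt.mul K V (x + y) z = Alt.mul K V x z + Alt.mul K V y z := by
  simp only [Alt.mul_eq, map_add, LinearMap.add_apply]

theorem Alt.zero_mul (x : Alt K V) : Alt.mul K V 0 x = 0 := by
  simp only [Alt.mul_eq, map_zero, LinearMap.zero_apply]

theorem Alt.mul_zero (x : Alt K V) : Alt.mul K V x 0 = 0 := by
  simp only [Alt.mul_eq, map_zero]

instance : NonUnitalNonAssocRing (Alt K V) where
  mul := Alt.mul K V
  left_distrib := Alt.mul_add K V
  right_distrib := Alt.add_mul K V
  zero_mul := Alt.zero_mul K V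
  mul_zero := Alt.mul_zero K V

theorem Alt.mul_def (x y : Alt K V) : x * y = Alt.mulMap K V x y := Alt.mul_eq K V x y

instance : IsScalarTower K (Alt K V) (Alt K V) :=
  ⟨fun c x y => by simp only [smul_eq_mul, Alt.mul_def, map_smul, LinearMap.smul_apply]⟩

instance : SMulCommClass K (Alt K V) (Alt K V) :=
  ⟨fun c x y => by simp only [smul_eq_mul, Alt.mul_def, map_smul]⟩

theorem Alt.mk_mul (x y : Mag K V) : Alt.mk K V (x * y) = Alt.mk K V x * Alt.mk K V y :=
  (Classical.choose_spec (Alt.exists_mul K V) x y).symm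

instance : IsAlt (Alt K V) where
  left p q := by
    obtain ⟨p, rfl⟩ := Alt.mk_surj K V p
    obtain ⟨q, rfl⟩ := Alt.mk_surj K V q
    have h := (Alt.mk_eq_zero K V _).2 ((altIdeal_spec K V).2.2.1 p q)
    simpa only [map_sub, sub_eq_zero, Alt.mk_mul] using h
  right p q := by
    obtain ⟨p, rfl⟩ := Alt.mk_surj K V p
    obtain ⟨q, rfl⟩ := Alt.mk_surj K V q
    have h := (Alt.mk_eq_zero K V _).2 ((altIdeal_spec K V).2.2.2.1 p q)
    simpa only [map_sub, sub_eq_zero, Alt.mk_mul] using h

/-- The linear map from `V` to the generators of `Alt K V`. -/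
def Alt.of : V →ₗ[K] Alt K V where
  toFun v := Alt.mk K V (gen K V v)
  map_add' a b := by
    have h := (Alt.mk_eq_zero K V _).2 ((altIdeal_spec K V).1 a b)
    rwa [map_sub, sub_eq_zero, map_add] at h
  map_smul' c a := by
    have h := (Alt.mk_eq_zero K V _).2 ((altIdeal_spec K V).2.1 c a)
    rwa [map_sub, sub_eq_zero, map_smul] at h

variable {K V} {A : Type*} [NonUnitalNonAssocRing A] [Module K A] [IsScalarTower K A A]
  [SMulCommClass K A A] [IsAlt A]

theorem altIdeal_le_ker (f : V →ₗ[K] A) : altIdeal K V ≤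
    LinearMap.ker (FreeNonUnitalNonAssocAlgebra.lift K f : Mag K V →ₗ[K] A) :=
  sInf_le (show IsAltIdeal K V _ from
    ⟨fun a b => by simp [gen], fun c a => by simp [gen], fun p q => by simp [IsAlt.left],
      fun p q => by simp [IsAlt.right], fun x hx y => by
        have h : FreeNonUnitalNonAssocAlgebra.lift K f x = 0 := hx
        simp [h]⟩)

/-- Universal property: a linear map from `V` to an alternative algebra extends to `Alt K V`. -/
def Alt.lift (f : V →ₗ[K] A) : Alt K V →ₙₐ[K] A where
  toFun := (altIdeal K V).liftQ _ (altIdeal_le_ker f)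
  map_smul' := map_smul ((altIdeal K V).liftQ _ (altIdeal_le_ker f))
  map_zero' := map_zero ((altIdeal K V).liftQ _ (altIdeal_le_ker f))
  map_add' := map_add ((altIdeal K V).liftQ _ (altIdeal_le_ker f))
  map_mul' x y := by
    obtain ⟨x, rfl⟩ := Alt.mk_surj K V x
    obtain ⟨y, rfl⟩ := Alt.mk_surj K V y
    rw [← Alt.mk_mul]
    exact map_mul (FreeNonUnitalNonAssocAlgebra.lift K f) x y

theorem Alt.lift_of (f : V →ₗ[K] A) (v : V) : Alt.lift f (Alt.of K V v) = f v :=
  FreeNonUnitalNonAssocAlgebra.lift_of_apply K f v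

/-- `Alt K V` is generated by `V`. -/
theorem Alt.ind {P : Alt K V → Prop} (h0 : P 0) (hv : ∀ v, P (Alt.of K V v))
    (ha : ∀ x y, P x → P y → P (x + y)) (hs : ∀ (c : K) x, P x → P (c • x))
    (hm : ∀ x y, P x → P y → P (x * y)) (x : Alt K V) : P x := by
  obtain ⟨x, rfl⟩ := Alt.mk_surj K V x
  have hmon : ∀ m : FreeMagma V, P (Alt.mk K V (MonoidAlgebra.single m 1)) := by
    intro m
    induction m using FreeMagma.recOnMul with
    | ih1 v => exact hv v
    | ih2 a b iha ihb =>
      have := hm _ _ iha ihb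
      rwa [← Alt.mk_mul, MonoidAlgebra.single_mul_single, mul_one] at this
  induction x using MonoidAlgebra.induction_linear with
  | zero => rw [map_zero]; exact h0
  | add x y hx hy => rw [map_add]; exact ha _ _ hx hy
  | single m c =>
    have := hs c _ (hmon m)
    rwa [← map_smul, MonoidAlgebra.smul_single, smul_eq_mul, mul_one] at this

omit [IsAlt A] in
theorem Alt.hom_ext {F G : Alt K V →ₙₐ[K] A} (h : ∀ v, F (Alt.of K V v) = G (Alt.of K V v)) :
    F = G :=
  NonUnitalAlgHom.ext (Alt.ind (by simp) h (fun x y hx hy => by simp [hx, hy])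
    (fun c x hx => by simp [hx]) (fun x y hx hy => by simp [hx, hy]))

/-- `Alt` is a functor. -/
def Alt.map {W : Type*} [AddCommGroup W] [Module K W] (f : V →ₗ[K] W) : Alt K V →ₙₐ[K] Alt K W :=
  Alt.lift (Alt.of K W ∘ₗ f)

theorem Alt.map_of {W : Type*} [AddCommGroup W] [Module K W] (f : V →ₗ[K] W) (v : V) :
    Alt.map f (Alt.of K V v) = Alt.of K W (f v) := Alt.lift_of _ v

end

end Pool.Agent.Work.MP_894cc0_al
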