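import Mathlib
import Pool.Agent.Work.MP_894cc0_al.Sl
import Pool.Agent.Work.MP_894cc0_al.Free

-- merged part: Pool.Agent.Work.MP_894cc0_al.Count
section
-- merged part: Pool.Agent.Work.MP_894cc0_al.PDefs
section
/-! Combinatorial definitions: weights of the adjoint module, Euler characteristic counts. -/

namespace Pool.Agent.Work.MP_894cc0_al

noncomputable section

/-- Weights (eigenvalues of `h1`, `h2`) of the basis `e1 e2 e3 f1 f2 f3 h1 h2` of `sl3`. -/
def swt : Fin 8 → ℤ × ℤ := ![(2, -1), (-1, 2), (1, 1), (-2, 1), (1, -2), (-1, -1), (0, 0), (0, 0)]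

/-- The two highest weights of interest. -/
def Good (l : ℤ × ℤ) : Prop := l = (0, 0) ∨ l = (1, 1)

/-- The alternating sum over sums of positive roots. -/
def phi (p : ℤ × ℤ → ℤ) (l : ℤ × ℤ) : ℤ :=
  p l - p (l + (2, -1)) - p (l + (-1, 2)) + p (l + (3, 0)) + p (l + (0, 3)) - p (l + (2, 2))

/-- Signed number of finite subsets of total degree `n` and total weight `μ`. -/
def pc {I : Type*} (deg : I → ℕ) (wt : I → ℤ × ℤ) (n : ℕ) (μ : ℤ × ℤ) : ℤ :=
  ∑ᶠ S ∈ {S : Finset I | ∑ i ∈ S, deg i = n ∧ ∑ i ∈ S, wt i = μ}, (-1 : ℤ) ^ S.card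

theorem finite_degSets {I : Type*} (deg : I → ℕ) (hpos : ∀ i, 1 ≤ deg i)
    (hfin : ∀ n, {i | deg i = n}.Finite) (n : ℕ) :
    {S : Finset I | ∑ i ∈ S, deg i = n}.Finite := by
  classical
  have h : {i | deg i ≤ n}.Finite :=
    ((Set.finite_Iic n).biUnion (fun m _ => hfin m)).subset (fun i hi => by simpa using hi)
  refine (h.toFinset.powerset.finite_toSet).subset (fun S hS => ?_)
  simp only [Finset.coe_powerset, Set.mem_preimage, Set.mem_powerset_iff, Set.Finite.coe_toFinset]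
  intro i hi
  have := Finset.single_le_sum (f := deg) (fun _ _ => Nat.zero_le _) hi
  exact this.trans (le_of_eq hS)

/-- Index set, degree and weight of the basis of `sl3 ⊗ A ⊕ B`. -/
def ideg {W J : Type*} (len : W → ℕ) (dg : J → ℕ) : (Fin 8 × W) ⊕ J → ℕ :=
  Sum.elim (fun p => len p.2) dg

/-- Weight of the basis vectors of `sl3 ⊗ A ⊕ B`. -/
def iwt (W J : Type*) : (Fin 8 × W) ⊕ J → ℤ × ℤ := Sum.elim (fun p => swt p.1) (fun _ => 0)

/-- The counting hypotheses: `2 ^ n` words of length `n` and `2 ^ n - 2 ^ n / n + O(n 2 ^ (n/2))`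
basis vectors of `B` in degree `n`. -/
structure Counts {W J : Type*} (len : W → ℕ) (dg : J → ℕ) : Prop where
  len_pos : ∀ w, 1 ≤ len w
  len_fin : ∀ n, {w | len w = n}.Finite
  len_card : ∀ n, 1 ≤ n → {w | len w = n}.ncard = 2 ^ n
  dg_pos : ∀ j, 1 ≤ dg j
  dg_fin : ∀ n, {j | dg j = n}.Finite
  dg_card : ∀ n : ℕ, 1 ≤ n →
    |(({j | dg j = n}.ncard : ℕ) : ℝ) - 2 ^ n + 2 ^ n / n| ≤ n * Real.sqrt 2 ^ n

theorem Counts.ideg_pos {W J : Type*} {len : W → ℕ} {dg : J → ℕ} (h : Counts len dg) (i) :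
    1 ≤ ideg len dg i := by
  rcases i with p | j
  · exact h.len_pos p.2
  · exact h.dg_pos j

theorem Counts.ideg_fin {W J : Type*} {len : W → ℕ} {dg : J → ℕ} (h : Counts len dg) (n : ℕ) :
    {i | ideg len dg i = n}.Finite := by
  refine ((((Set.finite_univ (α := Fin 8)).prod (h.len_fin n)).image Sum.inl).union
    ((h.dg_fin n).image Sum.inr)).subset ?_
  rintro (p | j) hi
  · exact Or.inl ⟨p, ⟨trivial, hi⟩, rfl⟩
  · exact Or.inr ⟨j, hi, rfl⟩

/-- Nonempty words in two letters. -/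
abbrev Wd : Type := FreeSemigroup (Fin 2)

/-- Cyclic rotation: the first letter moves to the end. -/
def rot (w : Wd) : Wd :=
  match w.tail with
  | [] => w
  | y :: l => ⟨y, l ++ [w.head]⟩

/-- `R` contains exactly one word of every rotation class. -/
def IsRepSet (R : Set Wd) : Prop := ∀ w, ∃! r, r ∈ R ∧ ∃ i, rot^[i] w = r

theorem rot_of (x : Fin 2) : rot (FreeSemigroup.of x) = FreeSemigroup.of x := rfl

theorem rot_of_mul (x : Fin 2) (w : Wd) : rot (FreeSemigroup.of x * w) = w * FreeSemigroup.of x :=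
  rfl

theorem length_rot (w : Wd) : (rot w).length = w.length := by
  obtain ⟨x, _ | ⟨y, l⟩⟩ := w
  · rfl
  · simp [rot, FreeSemigroup.length]

theorem rot_iterate_mul (u v : Wd) : rot^[u.length] (u * v) = v * u := by
  induction u using FreeSemigroup.recOnMul generalizing v with
  | ih1 x => rfl
  | ih2 x y _ ih =>
    rw [FreeSemigroup.length_mul, FreeSemigroup.length_of, add_comm, Function.iterate_succ_apply,
      mul_assoc, rot_of_mul, mul_assoc, ih, mul_assoc]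

theorem rot_iterate_length (w : Wd) : rot^[w.length] w = w := by
  induction w using FreeSemigroup.recOnMul with
  | ih1 x => rfl
  | ih2 x y _ _ =>
    rw [FreeSemigroup.length_mul, FreeSemigroup.length_of, add_comm, Function.iterate_succ_apply,
      rot_of_mul, rot_iterate_mul]

end

end Pool.Agent.Work.MP_894cc0_al
end

-- merged part: Pool.Agent.Work.MP_894cc0_al.Count
section
/-! Counting words and rotation classes. -/

namespace Pool.Agent.Work.MP_894cc0_al

/-- The list of letters. -/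
def Count_L (w : Wd) : List (Fin 2) := w.head :: w.tail

theorem Count_inj : Function.Injective Count_L := by
  rintro ⟨x, l⟩ ⟨y, m⟩ h
  obtain ⟨rfl, rfl⟩ := List.cons.inj h
  rfl

theorem Count_len (w : Wd) : (Count_L w).length = w.length := rfl

theorem Count_pos (w : Wd) : 1 ≤ w.length := Nat.le_add_left 1 _

theorem Count_rot (i : ℕ) (w : Wd) : Count_L (rot^[i] w) = (Count_L w).rotate i := by
  induction i generalizing w with
  | zero => simp
  | succ i ih =>
    rw [Function.iterate_succ_apply, ih, add_comm, ← List.rotate_rotate]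
    obtain ⟨x, _ | ⟨y, l⟩⟩ := w <;> simp [Count_L, rot]

theorem Count_lenit (i : ℕ) (w : Wd) : (rot^[i] w).length = w.length := by
  rw [← Count_len, Count_rot, List.length_rotate, Count_len]

theorem Count_symm {i : ℕ} {u v : Wd} (h : rot^[i] u = v) : ∃ k < u.length, rot^[k] v = u := by
  have hp := Count_pos u
  have h1 : Function.IsPeriodicPt rot u.length v := by
    rw [← Count_lenit i u, h]
    exact rot_iterate_length v
  refine ⟨(u.length - 1) * i % u.length, Nat.mod_lt _ hp, ?_⟩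
  rw [h1.iterate_mod_apply, ← h, ← Function.iterate_add_apply, ← Nat.succ_mul,
    Nat.succ_eq_add_one, Nat.sub_add_cancel hp]
  exact Function.IsPeriodicPt.mul_const (rot_iterate_length u) i

theorem exists_repSet : ∃ R, IsRepSet R := by
  let s : Setoid Wd := ⟨fun u v => ∃ i, rot^[i] u = v, fun u => ⟨0, rfl⟩,
    fun ⟨_, h⟩ => (Count_symm h).imp fun _ hk => hk.2,
    fun ⟨i, h⟩ ⟨j, h2⟩ => ⟨j + i, by rw [Function.iterate_add_apply, h, h2]⟩⟩
  refine ⟨Set.range (Quotient.out (s := s)), fun w => ⟨(Quotient.mk s w).out,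
    ⟨⟨_, rfl⟩, s.symm (Quotient.mk_out w)⟩, ?_⟩⟩
  rintro _ ⟨⟨q, rfl⟩, h⟩
  rw [Quotient.sound (s := s) h, Quotient.out_eq]

theorem Count_lists (n : ℕ) : {l : List (Fin 2) | l.length = n}.ncard = 2 ^ n := by
  rw [← Nat.card_coe_set_eq]
  change Nat.card (List.Vector (Fin 2) n) = _
  rw [Nat.card_eq_fintype_card, card_vector, Fintype.card_fin]

theorem Count_fin (n : ℕ) : {w : Wd | w.length = n}.Finite :=
  Set.Finite.of_finite_image ((List.finite_length_eq (Fin 2) n).subset (by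
    rintro _ ⟨w, hw, rfl⟩
    exact hw)) Count_inj.injOn

theorem Count_card {n : ℕ} (hn : 1 ≤ n) : {w : Wd | w.length = n}.ncard = 2 ^ n := by
  rw [← Count_lists, ← Set.ncard_image_of_injective _ Count_inj]
  refine congrArg _ (Set.ext fun l => ⟨?_, fun hl => ?_⟩)
  · rintro ⟨w, hw, rfl⟩
    exact hw
  · obtain _ | ⟨x, m⟩ := l
    · exact absurd hl (by simp; omega)
    · exact ⟨⟨x, m⟩, hl, rfl⟩

theorem Count_per {l m : List (Fin 2)} {j h : ℕ} (hj : 0 < j) (hjh : j ≤ h)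
    (hlm : l.length = m.length) (hl : l.rotate j = l) (hm : m.rotate j = m)
    (ht : l.take h = m.take h) : l = m := by
  refine List.ext_getElem?' fun k => ?_
  rw [← hlm, max_self]
  induction k using Nat.strong_induction_on with
  | _ k ih =>
    intro hk
    by_cases hkj : k < j
    · have := congrArg (fun x : List (Fin 2) => x[k]?) ht
      simpa only [List.getElem?_take_of_lt (hkj.trans_le hjh)] using this
    · have e : k - j + j = k := by omega
      have h1 := List.getElem?_rotate (l := l) (n := j) (m := k - j) (by omega)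
      have h2 := List.getElem?_rotate (l := m) (n := j) (m := k - j) (by omega)
      rw [hl, e, Nat.mod_eq_of_lt hk] at h1
      rw [hm, e, Nat.mod_eq_of_lt (hlm ▸ hk)] at h2
      rw [← h1, ← h2]
      exact ih _ (by omega) (by omega)

theorem Count_small (n : ℕ) :
    {w : Wd | w.length = n ∧ Function.minimalPeriod rot w ≠ n}.ncard ≤ n * 2 ^ (n / 2) := by
  have key : ∀ w : Wd, w.length = n → Function.minimalPeriod rot w ≠ n →
      0 < Function.minimalPeriod rot w ∧ Function.minimalPeriod rot w ≤ n / 2 := by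
    intro w h1 h2
    have hp : Function.IsPeriodicPt rot n w := h1 ▸ rot_iterate_length w
    have hn : 0 < n := h1 ▸ Count_pos w
    obtain ⟨c, hc⟩ := hp.minimalPeriod_dvd
    refine ⟨hp.minimalPeriod_pos hn, (Nat.le_div_iff_mul_le two_pos).2 ?_⟩
    rcases c with _ | _ | c
    · omega
    · omega
    · linarith only [hc, mul_nonneg_of_nonpos_of_nonpos (Mathlib.Tactic.Linarith.sub_nonpos_of_le (Mathlib.Tactic.Linarith.natCast_nonneg ℤ (Function.minimalPeriod rot w))) (Mathlib.Tactic.Linarith.sub_nonpos_of_le (Mathlib.Tactic.Linarith.natCast_nonneg ℤ c))]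
  have h := Set.ncard_le_ncard_of_injOn
    (s := {w : Wd | w.length = n ∧ Function.minimalPeriod rot w ≠ n})
    (t := Set.Iio n ×ˢ {l : List (Fin 2) | l.length = n / 2})
    (fun w => (Function.minimalPeriod rot w, (Count_L w).take (n / 2))) (fun w hw => ?_)
    (fun u hu v hv e => ?_) ((Set.finite_Iio n).prod (List.finite_length_eq _ _))
  · rwa [Set.ncard_prod, Count_lists, Set.ncard_Iio_nat] at h
  · have := key w hw.1 hw.2
    refine ⟨show Function.minimalPeriod rot w < n by omega, ?_⟩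
    show ((Count_L w).take (n / 2)).length = n / 2
    rw [List.length_take, Count_len, hw.1]
    omega
  · obtain ⟨e1, e2⟩ := Prod.mk.inj e
    obtain ⟨a, b⟩ := key u hu.1 hu.2
    refine Count_inj (Count_per a b (hu.1.trans hv.1.symm) ?_ ?_ e2)
    · rw [← Count_rot, Function.iterate_minimalPeriod]
    · rw [e1, ← Count_rot, Function.iterate_minimalPeriod]

theorem Count_low {R : Set Wd} (hR : IsRepSet R) {n : ℕ} (hn : 1 ≤ n) :
    2 ^ n ≤ ({w : Wd | w.length = n} ∩ R).ncard * n := by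
  have hf := ((Count_fin n).inter_of_left R).prod (Set.finite_Iio n)
  have h := (Set.ncard_le_ncard (s := {w : Wd | w.length = n}) (fun w hw => ?_)
    (hf.image fun p : Wd × ℕ => rot^[p.2] p.1)).trans (Set.ncard_image_le hf)
  · rwa [Set.ncard_prod, Count_card hn, Set.ncard_Iio_nat] at h
  · obtain ⟨r, ⟨hr, i, hi⟩, -⟩ := hR w
    obtain ⟨k, hk, e⟩ := Count_symm hi
    exact ⟨(r, k), ⟨⟨(hi ▸ Count_lenit i w).trans hw, hr⟩, hk.trans_eq hw⟩, e⟩

theorem Count_up {R : Set Wd} (hR : IsRepSet R) {n : ℕ} (hn : 1 ≤ n) :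
    (({w : Wd | w.length = n} ∩ R) \
      {w : Wd | w.length = n ∧ Function.minimalPeriod rot w ≠ n}).ncard * n ≤ 2 ^ n := by
  have h := Set.ncard_le_ncard_of_injOn (s := (({w : Wd | w.length = n} ∩ R) \
    {w : Wd | w.length = n ∧ Function.minimalPeriod rot w ≠ n}) ×ˢ Set.Iio n)
    (t := {w : Wd | w.length = n}) (fun p : Wd × ℕ => rot^[p.2] p.1)
    (fun p hp => (Count_lenit _ _).trans hp.1.1.1) ?_ (Count_fin n)
  · rwa [Set.ncard_prod, Count_card hn, Set.ncard_Iio_nat] at h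
  · rintro ⟨r, i⟩ ⟨⟨⟨h1, h2⟩, h3⟩, hi⟩ ⟨s, k⟩ ⟨⟨⟨-, h4⟩, -⟩, hk⟩ (e : rot^[i] r = rot^[k] s)
    obtain ⟨c, -, hc⟩ := Count_symm e.symm
    obtain rfl : r = s := (hR r).unique ⟨h2, 0, rfl⟩
      ⟨h4, c + i, by rw [Function.iterate_add_apply, hc]⟩
    have hm : Function.minimalPeriod rot r = n := not_not.1 fun h => h3 ⟨h1, h⟩
    rw [Function.iterate_injOn_Iio_minimalPeriod (hm ▸ hi) (hm ▸ hk) e]

theorem counts (R : Set Wd) (hR : IsRepSet R) :
    Counts (fun w : Wd => w.length) (fun j : {w : Wd // w ∉ R} => j.1.length) := by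
  refine ⟨Count_pos, Count_fin, fun n hn => Count_card hn, fun j => Count_pos j.1,
    fun n => (Count_fin n).preimage Subtype.val_injective.injOn, fun n hn => ?_⟩
  have e : {j : {w : Wd // w ∉ R} | j.1.length = n}.ncard = ({w : Wd | w.length = n} \ R).ncard := by
    rw [← Set.ncard_image_of_injective _ Subtype.val_injective]
    refine congrArg _ (Set.ext fun w => ⟨?_, fun hw => ⟨⟨w, hw.2⟩, hw.1, rfl⟩⟩)
    rintro ⟨j, hj, rfl⟩
    exact ⟨hj, j.2⟩
  have h1 := Set.ncard_inter_add_ncard_sdiff_eq_ncard _ R (Count_fin n)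
  have h2 := (Set.ncard_le_ncard_sdiff_add_ncard ({w : Wd | w.length = n} ∩ R) _
    ((Count_fin n).subset (s := {w : Wd | w.length = n})
      (t := {w : Wd | w.length = n ∧ Function.minimalPeriod rot w ≠ n}) fun w hw => hw.1)).trans
    (Nat.add_le_add_left (Count_small n) _)
  have h3 := Count_low hR hn
  have h4 := Count_up hR hn
  rw [Count_card hn] at h1
  rw [e]
  generalize ({w : Wd | w.length = n} \ R).ncard = b at h1 ⊢
  generalize (({w : Wd | w.length = n} ∩ R) \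
    {w : Wd | w.length = n ∧ Function.minimalPeriod rot w ≠ n}).ncard = a at h2 h4
  generalize ({w : Wd | w.length = n} ∩ R).ncard = N at h1 h2 h3
  have hn0 : (0 : ℝ) < n := by exact_mod_cast hn
  have g1 : (N : ℝ) + b = 2 ^ n := by exact_mod_cast h1
  have g2 : (N : ℝ) ≤ a + n * 2 ^ (n / 2) := by exact_mod_cast h2
  have g3 : (2 : ℝ) ^ n / n ≤ N := (div_le_iff₀ hn0).2 (by exact_mod_cast h3)
  have g4 : (a : ℝ) ≤ 2 ^ n / n := (le_div_iff₀ hn0).2 (by exact_mod_cast h4)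
  have g5 : (2 : ℝ) ^ (n / 2) ≤ Real.sqrt 2 ^ n := by
    have := pow_le_pow_right₀ (Real.one_le_sqrt.2 one_le_two) (Nat.mul_div_le n 2)
    rwa [pow_mul, Real.sq_sqrt zero_le_two] at this
  have g6 := mul_le_mul_of_nonneg_left g5 hn0.le
  have g7 : (0 : ℝ) ≤ n * Real.sqrt 2 ^ n := by positivity
  rw [abs_le]
  constructor <;> linarith only [g1, g2, g4, g6, g3]

end Pool.Agent.Work.MP_894cc0_al
end

-- merged part: Pool.Agent.Work.MP_894cc0_al.AnDefs
section
/-! The maximal torus of `SU(3)`, its characters and the Weyl density. -/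

open MeasureTheory

namespace Pool.Agent.Work.MP_894cc0_al

noncomputable section

/-- The two-dimensional torus. -/
abbrev TT : Type := AddCircle (1 : ℝ) × AddCircle (1 : ℝ)

/-- Haar probability measure. -/
def mT : Measure TT := (AddCircle.haarAddCircle).prod AddCircle.haarAddCircle

instance : IsProbabilityMeasure mT := by unfold mT; infer_instance

instance : mT.IsOpenPosMeasure := by unfold mT; infer_instance

/-- The character of weight `μ`. -/
def chr (μ : ℤ × ℤ) : C(TT, ℂ) := ⟨fun z => fourier μ.1 z.1 * fourier μ.2 z.2, by fun_prop⟩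

theorem chr_apply (μ : ℤ × ℤ) (z : TT) : chr μ z = fourier μ.1 z.1 * fourier μ.2 z.2 := rfl

theorem chr_add (μ ν : ℤ × ℤ) (z : TT) : chr (μ + ν) z = chr μ z * chr ν z := by
  simp only [chr_apply, Prod.fst_add, Prod.snd_add, fourier_add]; ring

theorem chr_zero (z : TT) : chr 0 z = 1 := by simp [chr_apply]

theorem norm_chr_apply (μ : ℤ × ℤ) (z : TT) : ‖chr μ z‖ = 1 := by simp [chr_apply, fourier_apply]

theorem norm_chr_le (μ : ℤ × ℤ) : ‖chr μ‖ ≤ 1 :=
  (ContinuousMap.norm_le _ zero_le_one).2 fun z => (norm_chr_apply μ z).le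

theorem conj_chr (μ : ℤ × ℤ) (z : TT) : (starRingEnd ℂ) (chr μ z) = chr (-μ) z := by
  simp only [chr_apply, map_mul, Prod.fst_neg, Prod.snd_neg, fourier_neg]

theorem chr_nsmul (k : ℕ) (μ : ℤ × ℤ) (z : TT) : chr (k • μ) z = chr μ z ^ k := by
  induction k with
  | zero => simp [chr_zero]
  | succ k ih => rw [succ_nsmul, chr_add, ih, pow_succ]

theorem chr_sum {I : Type*} (S : Finset I) (wt : I → ℤ × ℤ) (z : TT) :
    chr (∑ i ∈ S, wt i) z = ∏ i ∈ S, chr (wt i) z := by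
  classical
  induction S using Finset.induction_on with
  | empty => simp [chr_zero]
  | insert i S hi ih => rw [Finset.sum_insert hi, Finset.prod_insert hi, chr_add, ih]

theorem integral_fourier_one (n : ℤ) :
    ∫ x : AddCircle (1 : ℝ), fourier n x ∂AddCircle.haarAddCircle = if n = 0 then 1 else 0 := by
  have h := (orthonormal_iff_ite.mp (orthonormal_fourier (T := 1))) 0 n
  simp only [ContinuousMap.inner_toLp, fourier_zero, map_one, mul_one] at h
  rw [h]
  simp only [eq_comm]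

theorem integral_chr (μ : ℤ × ℤ) : ∫ z, chr μ z ∂mT = if μ = 0 then 1 else 0 := by
  simp only [chr_apply, mT]
  rw [integral_prod_mul (fun x => fourier μ.1 x) (fun x => fourier μ.2 x), integral_fourier_one,
    integral_fourier_one]
  obtain ⟨a, b⟩ := μ
  by_cases ha : a = 0 <;> by_cases hb : b = 0 <;> simp [ha, hb]

/-- `|z1 + z2 + z3| ^ 2`. -/
def xf : C(TT, ℝ) := ⟨fun z => ‖chr (1, 0) z + chr (-1, 1) z + chr (0, -1) z‖ ^ 2, by fun_prop⟩

/-- The Weyl density. -/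
def wf : C(TT, ℝ) :=
  ⟨fun z => ‖(1 - chr (2, -1) z) * (1 - chr (-1, 2) z) * (1 - chr (1, 1) z)‖ ^ 2, by fun_prop⟩

/-- The Weyl density times the character of highest weight `l`. -/
def Wf (l : ℤ × ℤ) : C(TT, ℝ) := if l = (0, 0) then wf else wf * (xf - 1)

theorem xf_nonneg (z : TT) : 0 ≤ xf z := sq_nonneg _

theorem wf_nonneg (z : TT) : 0 ≤ wf z := sq_nonneg _

theorem xf_eq (z : TT) : ((xf z : ℝ) : ℂ) = 1 + ∑ i : Fin 8, chr (swt i) z := by
  have h : ((xf z : ℝ) : ℂ) = (chr (1, 0) z + chr (-1, 1) z + chr (0, -1) z) *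
      (starRingEnd ℂ) (chr (1, 0) z + chr (-1, 1) z + chr (0, -1) z) := by
    rw [Complex.mul_conj, Complex.normSq_eq_norm_sq]; rfl
  rw [h]
  simp only [map_add, conj_chr, add_mul, mul_add, ← chr_add, Fin.sum_univ_eight, swt]
  have h0 : chr (0, 0) z = 1 := chr_zero z
  simp [h0, chr_zero]
  ring

/-- The degree `n` part of the Euler characteristic as a function on the torus. -/
def Pn {I : Type*} (deg : I → ℕ) (wt : I → ℤ × ℤ) (n : ℕ) : C(TT, ℂ) :=
  ∑ᶠ S ∈ {S : Finset I | ∑ i ∈ S, deg i = n}, ((-1 : ℂ) ^ S.card) • chr (∑ i ∈ S, wt i)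

end

end Pool.Agent.Work.MP_894cc0_al
end

-- merged part: Pool.Agent.Work.MP_894cc0_al.An1
section
/-! Weyl group invariance and the Weyl integration formula for the Euler characteristic. -/

open MeasureTheory

namespace Pool.Agent.Work.MP_894cc0_al

variable {W J : Type*} {len : W → ℕ} {dg : J → ℕ}

theorem an1_pc (e : Equiv.Perm (Fin 8)) (σ : ℤ × ℤ →+ ℤ × ℤ) (hσ : Function.Injective σ)
    (he : ∀ i, swt (e i) = σ (swt i)) (n : ℕ) (μ : ℤ × ℤ) :
    pc (ideg len dg) (iwt W J) n (σ μ) = pc (ideg len dg) (iwt W J) n μ := by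
  let E : (Fin 8 × W) ⊕ J ≃ (Fin 8 × W) ⊕ J :=
    Equiv.sumCongr (Equiv.prodCongr e (Equiv.refl W)) (Equiv.refl J)
  have h1 : ∀ i, ideg len dg (E i) = ideg len dg i := by rintro (p | j) <;> rfl
  have h2 : ∀ i, iwt W J (E i) = σ (iwt W J i) := by
    rintro (p | j)
    · exact he p.1
    · exact (map_zero σ).symm
  refine (finsum_mem_eq_of_bijOn E.finsetCongr (E.finsetCongr.bijOn fun S => ?_)
    fun S _ => ?_).symm
  · simp only [Equiv.finsetCongr_apply, Set.mem_ofPred_eq, Finset.sum_map, Equiv.coe_toEmbedding,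
      h1, h2, ← map_sum, hσ.eq_iff]
  · rw [Equiv.finsetCongr_apply, Finset.card_map]

theorem pc_s1 (n : ℕ) (a b : ℤ) :
    pc (ideg len dg) (iwt W J) n (-a, a + b) = pc (ideg len dg) (iwt W J) n (a, b) :=
  an1_pc (Equiv.swap 0 3 * Equiv.swap 1 2 * Equiv.swap 4 5)
    { toFun := fun μ => (-μ.1, μ.1 + μ.2)
      map_zero' := rfl
      map_add' := fun x y => Prod.ext (neg_add _ _) (add_add_add_comm _ _ _ _) }
    (fun x y h => by
      have h1 : -x.1 = -y.1 := congrArg Prod.fst h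
      have h2 : x.1 + x.2 = y.1 + y.2 := congrArg Prod.snd h
      exact Prod.ext (by omega) (by omega)) (by decide) n (a, b)

theorem pc_s2 (n : ℕ) (a b : ℤ) :
    pc (ideg len dg) (iwt W J) n (a + b, -b) = pc (ideg len dg) (iwt W J) n (a, b) :=
  an1_pc (Equiv.swap 1 4 * Equiv.swap 0 2 * Equiv.swap 3 5)
    { toFun := fun μ => (μ.1 + μ.2, -μ.2)
      map_zero' := rfl
      map_add' := fun x y => Prod.ext (add_add_add_comm _ _ _ _) (neg_add _ _) }
    (fun x y h => by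
      have h1 : x.1 + x.2 = y.1 + y.2 := congrArg Prod.fst h
      have h2 : -x.2 = -y.2 := congrArg Prod.snd h
      exact Prod.ext (by omega) (by omega)) (by decide) n (a, b)

theorem an1_integrable {f : TT → ℂ} (hf : Continuous f) : Integrable f mT :=
  hf.integrable_of_hasCompactSupport (HasCompactSupport.of_compactSpace f)

theorem integral_chr_Pn {I : Type*} (deg : I → ℕ) (wt : I → ℤ × ℤ) (n : ℕ)
    (hfin : {S : Finset I | ∑ i ∈ S, deg i = n}.Finite) (ν : ℤ × ℤ) :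
    ∫ z, chr ν z * Pn deg wt n z ∂mT = (pc deg wt n (-ν) : ℂ) := by
  have h1 : ∀ z, chr ν z * Pn deg wt n z =
      ∑ S ∈ hfin.toFinset, (-1 : ℂ) ^ S.card * chr (ν + ∑ i ∈ S, wt i) z := by
    intro z
    rw [Pn, finsum_mem_eq_finite_toFinset_sum _ hfin, ContinuousMap.sum_apply, Finset.mul_sum]
    refine Finset.sum_congr rfl fun S _ => ?_
    rw [ContinuousMap.smul_apply, smul_eq_mul, chr_add, mul_left_comm]
  have h2 : {S : Finset I | ∑ i ∈ S, deg i = n ∧ ∑ i ∈ S, wt i = -ν} =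
      ↑(hfin.toFinset.filter fun S => ν + ∑ i ∈ S, wt i = 0) := by
    ext S
    simp [eq_neg_iff_add_eq_zero, add_comm]
  simp only [h1]
  rw [integral_finsetSum _ fun S _ => an1_integrable (by fun_prop), pc, h2, finsum_mem_coe_finset,
    Finset.sum_filter]
  push_cast
  refine Finset.sum_congr rfl fun S _ => ?_
  rw [integral_const_mul, integral_chr, mul_ite, mul_one, mul_zero]

theorem an1_list {I : Type*} (deg : I → ℕ) (wt : I → ℤ × ℤ) (n : ℕ)
    (hfin : {S : Finset I | ∑ i ∈ S, deg i = n}.Finite) (L : List (ℤ × ℤ × ℤ)) :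
    ∫ z, (L.map fun t => (t.1 : ℂ) * chr t.2 z).sum * Pn deg wt n z ∂mT =
      (((L.map fun t => t.1 * pc deg wt n (-t.2)).sum : ℤ) : ℂ) := by
  induction L with
  | nil => simp
  | cons t L ih =>
    have hc : Continuous fun z => (L.map fun t => (t.1 : ℂ) * chr t.2 z).sum :=
      continuous_list_sum L fun t _ => by fun_prop
    simp only [List.map_cons, List.sum_cons, add_mul, mul_assoc]
    rw [integral_add (an1_integrable (by fun_prop)) (an1_integrable (by fun_prop)), ih,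
      integral_const_mul, integral_chr_Pn deg wt n hfin]
    push_cast
    rfl

theorem an1_chr (z : TT) : ∃ u v : ℂ, u ≠ 0 ∧ v ≠ 0 ∧ ∀ a b : ℤ, chr (a, b) z = u ^ a * v ^ b :=
  ⟨AddCircle.toCircle z.1, AddCircle.toCircle z.2, Circle.coe_ne_zero _, Circle.coe_ne_zero _,
    fun a b => by
      rw [chr_apply, fourier_apply, fourier_apply, AddCircle.toCircle_zsmul,
        AddCircle.toCircle_zsmul, Circle.coe_zpow, Circle.coe_zpow]⟩

theorem an1_wf (z : TT) : ((wf z : ℝ) : ℂ) =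
    ((1 - chr (2, -1) z) * (1 - chr (-1, 2) z) * (1 - chr (1, 1) z)) *
      ((1 - chr (-2, 1) z) * (1 - chr (1, -2) z) * (1 - chr (-1, -1) z)) := by
  have h : ((wf z : ℝ) : ℂ) = ((1 - chr (2, -1) z) * (1 - chr (-1, 2) z) * (1 - chr (1, 1) z)) *
      (starRingEnd ℂ) ((1 - chr (2, -1) z) * (1 - chr (-1, 2) z) * (1 - chr (1, 1) z)) := by
    rw [Complex.mul_conj, Complex.normSq_eq_norm_sq]; rfl
  rw [h]
  simp only [map_mul, map_sub, map_one, conj_chr]
  rfl

/-- The expansion of the Weyl density. -/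
def an1_L0 : List (ℤ × ℤ × ℤ) :=
  [(-1, -4, 2), (2, -3, 0), (2, -3, 3), (-1, -2, -2), (-2, -2, 1), (-1, -2, 4), (-2, -1, -1),
    (-2, -1, 2), (2, 0, -3), (6, 0, 0), (2, 0, 3), (-2, 1, -2), (-2, 1, 1), (-1, 2, -4),
    (-2, 2, -1), (-1, 2, 2), (2, 3, -3), (2, 3, 0), (-1, 4, -2)]

/-- The expansion of the Weyl density times the adjoint character. -/
def an1_L1 : List (ℤ × ℤ × ℤ) :=
  [(-1, -6, 3), (1, -5, 1), (1, -5, 4), (1, -4, -1), (1, -4, 5), (-1, -3, -3), (-2, -3, 0),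
    (-2, -3, 3), (-1, -3, 6), (1, -2, 1), (1, -1, -4), (1, -1, -1), (1, -1, 2), (1, -1, 5),
    (-2, 0, -3), (-2, 0, 3), (1, 1, -5), (1, 1, -2), (1, 1, 1), (1, 1, 4), (1, 2, -1), (-1, 3, -6),
    (-2, 3, -3), (-2, 3, 0), (-1, 3, 3), (1, 4, -5), (1, 4, 1), (1, 5, -4), (1, 5, -1), (-1, 6, -3)]

theorem an1_W0 (z : TT) :
    ((Wf (0, 0) z : ℝ) : ℂ) = (an1_L0.map fun t => (t.1 : ℂ) * chr t.2 z).sum := by
  obtain ⟨u, v, hu, hv, h⟩ := an1_chr z
  rw [Wf, if_pos rfl, an1_wf]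
  simp only [an1_L0, List.map_cons, List.map_nil, List.sum_cons, List.sum_nil, h, zpow_neg,
    zpow_ofNat]
  push_cast
  field_simp
  ring

theorem an1_W1 (z : TT) :
    ((Wf (1, 1) z : ℝ) : ℂ) = (an1_L1.map fun t => (t.1 : ℂ) * chr t.2 z).sum := by
  obtain ⟨u, v, hu, hv, h⟩ := an1_chr z
  have h1 : ∑ i : Fin 8, chr (swt i) z = chr (2, -1) z + chr (-1, 2) z + chr (1, 1) z +
      chr (-2, 1) z + chr (1, -2) z + chr (-1, -1) z + chr (0, 0) z + chr (0, 0) z :=
    Fin.sum_univ_eight _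
  rw [Wf, if_neg (by decide), ContinuousMap.mul_apply, ContinuousMap.sub_apply,
    ContinuousMap.one_apply, Complex.ofReal_mul, Complex.ofReal_sub, an1_wf, xf_eq, h1]
  simp only [an1_L1, List.map_cons, List.map_nil, List.sum_cons, List.sum_nil, h, zpow_neg,
    zpow_ofNat]
  push_cast
  field_simp
  ring

theorem an1_sum (p : ℤ × ℤ → ℤ) (s1 : ∀ a b, p (-a, a + b) = p (a, b))
    (s2 : ∀ a b, p (a + b, -b) = p (a, b)) :
    (an1_L0.map fun t => t.1 * p (-t.2)).sum = 6 * phi p (0, 0) ∧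
      (an1_L1.map fun t => t.1 * p (-t.2)).sum = 6 * phi p (1, 1) := by
  have h := And.intro (And.intro (And.intro (And.intro (s1 4 (-2)) (s1 3 (-3)))
    (And.intro (s1 3 0) (s1 2 (-4)))) (And.intro (And.intro (s1 2 (-1)) (s1 2 2))
    (And.intro (s1 1 (-2)) (s1 1 1)))) (And.intro (And.intro (And.intro (s2 (-3) 3) (s2 (-1) 2))
    (And.intro (s2 (-2) 4) (s2 1 1))) (And.intro (s2 0 3) (s2 2 2)))
  have h' := And.intro (And.intro (And.intro (And.intro (s1 6 (-3)) (s1 5 (-4)))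
    (And.intro (s1 5 (-1)) (s1 4 (-5)))) (And.intro (And.intro (s1 4 1) (s1 3 (-6)))
    (And.intro (s1 3 3) (s1 1 (-5))))) (And.intro (And.intro (And.intro (s1 1 4) (s2 (-4) 5))
    (And.intro (s2 (-3) 6) (s2 (-1) 5))) (And.intro (And.intro (s2 1 4) (s2 4 1)) (s2 3 3)))
  simp only [Int.reduceAdd, Int.reduceNeg, add_zero, zero_add] at h h'
  simp only [an1_L0, an1_L1, phi, List.map_cons, List.map_nil, List.sum_cons, List.sum_nil,
    Prod.neg_mk, Prod.mk_add_mk, Int.reduceAdd, Int.reduceNeg, neg_neg, neg_zero, add_zero,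
    zero_add]
  omega

theorem integral_Wf_Pn (h : Counts len dg) {l : ℤ × ℤ} (hl : Good l) (n : ℕ) :
    ∫ z, ((Wf l z : ℝ) : ℂ) * Pn (ideg len dg) (iwt W J) n z ∂mT =
      6 * (phi (pc (ideg len dg) (iwt W J) n) l : ℂ) := by
  have hfin := finite_degSets _ h.ideg_pos h.ideg_fin n
  have hs := an1_sum (pc (ideg len dg) (iwt W J) n) (pc_s1 n) (pc_s2 n)
  rcases hl with rfl | rfl
  · simp only [an1_W0]
    rw [an1_list _ _ n hfin, hs.1]
    push_cast
    rfl
  · simp only [an1_W1]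
    rw [an1_list _ _ n hfin, hs.2]
    push_cast
    rfl

end Pool.Agent.Work.MP_894cc0_al
end

-- merged part: Pool.Agent.Work.MP_894cc0_al.An2
section
/-! The product formula. -/

namespace Pool.Agent.Work.MP_894cc0_al

theorem An2_congr {X M : Type*} [AddCommMonoid M] [TopologicalSpace M] {f g : X → M} {a : M}
    (h : HasSum f a) (e : ∀ x, g x = f x) : HasSum g a := (funext e : g = f) ▸ h

theorem An2_mul {K X : Type*} [Fintype K] (u : K → ℂ) {g : X → ℂ} {a : ℂ} (h : HasSum g a) :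
    HasSum (fun p : K × X => u p.1 * g p.2) ((∑ k, u k) * a) := by
  have h1 : Summable fun p : K × X => u p.1 * g p.2 :=
    summable_mul_of_summable_norm Summable.of_finite h.summable.norm
  exact (hasSum_fintype u).mul h h1

theorem An2_fib {X M : Type*} [NormedAddCommGroup M] [CompleteSpace M] {f : X → M} {a : M}
    (h : HasSum f a) (d : X → ℕ) (hfin : ∀ n, {x | d x = n}.Finite) :
    HasSum (fun n => ∑ x ∈ (hfin n).toFinset, f x) a := by
  have e : ∀ n, ∑ x ∈ (hfin n).toFinset, f x = ∑' x : d ⁻¹' {n}, f x := fun n => by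
    rw [← Finset.tsum_subtype', Set.Finite.coe_toFinset]
    rfl
  simp only [e]
  exact h.tsum_fiberwise d

theorem An2_card {X M : Type*} [Semiring M] {d : X → ℕ} {n : ℕ} (hfin : {x | d x = n}.Finite)
    (t : M) : ∑ x ∈ hfin.toFinset, t ^ d x = ({x | d x = n}.ncard : M) * t ^ n := by
  rw [Finset.sum_congr rfl fun x hx => congrArg (t ^ ·) (hfin.mem_toFinset.1 hx), Finset.sum_const,
    nsmul_eq_mul, Set.ncard_eq_toFinset_card _ hfin]

theorem An2_zero {X : Type*} {d : X → ℕ} (hpos : ∀ x, 1 ≤ d x) : {x | d x = 0}.ncard = 0 := by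
  rw [Set.eq_empty_of_forall_notMem (s := {x | d x = 0}) fun x hx => (hpos x).not_gt
    ((le_of_eq hx).trans_lt one_pos), Set.ncard_empty]

theorem An2_summable {X : Type*} {d : X → ℕ} (hfin : ∀ n, {x | d x = n}.Finite) {r : ℝ}
    (h0 : 0 ≤ r) {u : ℕ → ℝ} (hu : Summable u)
    (h : ∀ n, ({x | d x = n}.ncard : ℝ) * r ^ n ≤ u n) : Summable fun x => r ^ d x := by
  refine (summable_partition (s := fun n => {x | d x = n}) (fun x => pow_nonneg h0 _)
    fun x => ⟨d x, rfl, fun n hn => Eq.symm hn⟩).2 ⟨fun n => (hfin n).summable fun x => r ^ d x, ?_⟩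
  refine hu.of_nonneg_of_le (fun n => tsum_nonneg fun x => pow_nonneg h0 _) fun n => ?_
  have h1 := h n
  rwa [← An2_card (hfin n), ← Finset.tsum_subtype', Set.Finite.coe_toFinset] at h1

theorem An2_hasSum {X : Type*} {d : X → ℕ} (hfin : ∀ n, {x | d x = n}.Finite) {t a : ℂ}
    (hs : Summable fun x => ‖t‖ ^ d x)
    (h : HasSum (fun n => ({x | d x = n}.ncard : ℂ) * t ^ n) a) : HasSum (fun x => t ^ d x) a := by
  have h1 : Summable fun x => t ^ d x := hs.of_norm_bounded fun x => (norm_pow _ _).le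
  have h2 := An2_fib h1.hasSum d hfin
  simp only [An2_card] at h2
  rw [h.unique h2]
  exact h1.hasSum

theorem An2_geo {r : ℝ} (h0 : 0 ≤ r) (hr : r ≤ 2 / 3) :
    Summable fun n : ℕ => n * (Real.sqrt 2 * r) ^ n := by
  refine (hasSum_coe_mul_geometric_of_norm_lt_one ?_).summable
  have h1 : Real.sqrt 2 < 3 / 2 := Real.sqrt_lt' (by norm_num) |>.2 (by norm_num)
  rw [Real.norm_of_nonneg (by positivity)]
  linarith only [h1, hr, Real.sqrt_nonneg 2, mul_nonneg_of_nonpos_of_nonpos (Mathlib.Tactic.Linarith.sub_nonpos_of_le hr) (Mathlib.Tactic.Linarith.sub_nonpos_of_le (Real.sqrt_nonneg (2 : ℝ)))]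

theorem An2_W {W J : Type*} {len : W → ℕ} {dg : J → ℕ} (h : Counts len dg) {r : ℝ}
    (h0 : 0 ≤ r) (hr : r < 1 / 2) : Summable fun w => r ^ len w := by
  refine An2_summable h.len_fin h0
    (summable_geometric_of_lt_one (r := 2 * r) (by positivity) (by linarith only [hr])) fun n => ?_
  rcases n.eq_zero_or_pos with rfl | hn
  · simp [An2_zero h.len_pos]
  · rw [h.len_card n hn, mul_pow]
    simp

theorem An2_J {W J : Type*} {len : W → ℕ} {dg : J → ℕ} (h : Counts len dg) {r : ℝ}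
    (h0 : 0 ≤ r) (hr : r < 1 / 2) : Summable fun j => r ^ dg j := by
  refine An2_summable h.dg_fin h0 ((summable_geometric_of_lt_one (r := 2 * r) (by positivity)
    (by linarith only [hr])).add (An2_geo h0 (by linarith only [hr]))) fun n => ?_
  rcases n.eq_zero_or_pos with rfl | hn
  · simp [An2_zero h.dg_pos]
  · have h1 := (abs_le.1 (h.dg_card n hn)).2
    have h2 : (0 : ℝ) ≤ 2 ^ n / n := by positivity
    rw [mul_pow, mul_pow, ← mul_assoc, ← add_mul]
    exact mul_le_mul_of_nonneg_right (by linarith only [h1, h2]) (pow_nonneg h0 _)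

theorem hasSum_Pn {I : Type*} (deg : I → ℕ) (wt : I → ℤ × ℤ) (hpos : ∀ i, 1 ≤ deg i)
    (hfin : ∀ n, {i | deg i = n}.Finite) (t : ℂ) (ht : ‖t‖ < 1)
    (hs : Summable fun i => ‖t‖ ^ deg i) :
    ∃ F : C(TT, ℂ), HasSum (fun n => t ^ n • Pn deg wt n) F ∧
      ∀ z, F z = Complex.exp (∑' i, Complex.log (1 - t ^ deg i * chr (wt i) z)) := by
  let f : I → C(TT, ℂ) := fun i => (-t ^ deg i) • chr (wt i)
  have hn : ∀ i z, ‖f i z‖ = ‖t‖ ^ deg i := fun i z => by
    simp [f, norm_chr_apply]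
  have h1 : Summable fun i => ‖f i‖ := hs.of_nonneg_of_le (fun _ => norm_nonneg _) fun i =>
    (ContinuousMap.norm_le _ (by positivity)).2 fun z => (hn i z).le
  have h2 := (summable_finsetProd_of_summable_norm h1).hasSum
  refine ⟨_, An2_congr (An2_fib h2 (fun S => ∑ i ∈ S, deg i) (finite_degSets deg hpos hfin))
    fun n => ?_, fun z => ?_⟩
  · rw [Pn, finsum_mem_eq_finite_toFinset_sum _ (finite_degSets deg hpos hfin n), Finset.smul_sum]
    refine Finset.sum_congr rfl fun S hS => ?_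
    have h4 : ∑ i ∈ S, deg i = n := (finite_degSets deg hpos hfin n).mem_toFinset.1 hS
    ext z
    simp only [f, ContinuousMap.prod_apply, ContinuousMap.smul_apply, smul_eq_mul, chr_sum,
      Finset.prod_mul_distrib, Finset.prod_neg, Finset.prod_pow_eq_pow_sum, h4]
    ring
  · have h3 := ContinuousMap.hasSum_apply h2 z
    simp only [ContinuousMap.prod_apply] at h3
    have h4 : Summable fun i => f i z := hs.of_norm_bounded fun i => (hn i z).le
    have h5 := Complex.hasProd_of_hasSum_log (fun i h => ?_)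
      (Complex.summable_log_one_add_of_summable h4).hasSum
    · rw [(hasProd_one_add_of_hasSum_prod h3).unique h5]
      simp only [f, ContinuousMap.smul_apply, smul_eq_mul, neg_mul, ← sub_eq_add_neg]
    · have h6 := hn i z
      rw [eq_neg_of_add_eq_zero_right h, norm_neg, norm_one] at h6
      exact (pow_lt_one₀ (norm_nonneg t) ht (Nat.one_le_iff_ne_zero.1 (hpos i))).ne' h6

/-- Sums over the index set are sums over degrees. -/
theorem Counts.summable_pow {W J : Type*} {len : W → ℕ} {dg : J → ℕ} (h : Counts len dg) (r : ℝ)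
    (h0 : 0 ≤ r) (hr : r < 1 / 2) : Summable fun i => r ^ ideg len dg i := by
  refine Summable.sum _ ?_ (An2_J h h0 hr)
  exact (summable_prod_of_nonneg (f := fun p : Fin 8 × W => r ^ len p.2)
    fun p => pow_nonneg h0 _).2 ⟨fun _ => An2_W h h0 hr, Summable.of_finite⟩

/-- The linear term of the logarithm of the product. -/
theorem Counts.exists_R {W J : Type*} {len : W → ℕ} {dg : J → ℕ} (h : Counts len dg) :
    ∃ R : ℂ → ℂ, DifferentiableOn ℂ R (Metric.ball 0 (2 / 3)) ∧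
      (∃ g : ℝ, ∀ t ∈ Metric.ball (0 : ℂ) (2 / 3), ‖R t‖ ≤ g) ∧
      (∀ t : ℝ, |t| < 2 / 3 → (R t).im = 0) ∧
      ∀ t : ℂ, ‖t‖ < 1 / 2 → ∀ z, ∑' i, t ^ ideg len dg i * chr (iwt W J i) z =
        (xf z : ℂ) * (2 * t / (1 - 2 * t)) + Complex.log (1 - 2 * t) - R t := by
  let c : ℕ → ℝ := fun n => {j | dg j = n}.ncard - {w | len w = n}.ncard + 2 ^ n / n
  have hc : ∀ n, |c n| ≤ n * Real.sqrt 2 ^ n := fun n => by
    rcases n.eq_zero_or_pos with rfl | hn
    · simp [c, An2_zero h.len_pos, An2_zero h.dg_pos]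
    · have h1 := h.dg_card n hn
      simp only [c, h.len_card n hn]
      push_cast
      exact h1
  have hu := An2_geo (r := 2 / 3) (by norm_num) le_rfl
  have hb : ∀ n, ∀ t ∈ Metric.ball (0 : ℂ) (2 / 3),
      ‖(c n : ℂ) * t ^ n‖ ≤ n * (Real.sqrt 2 * (2 / 3)) ^ n := fun n t ht => by
    rw [norm_mul, norm_pow, mul_pow, ← mul_assoc, Complex.norm_real, Real.norm_eq_abs]
    exact mul_le_mul (hc n) (pow_le_pow_left₀ (norm_nonneg t) (mem_ball_zero_iff.1 ht).le n)
      (by positivity) (by positivity)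
  refine ⟨fun t => -∑' n, (c n : ℂ) * t ^ n, (Complex.differentiableOn_tsum_of_summable_norm hu
    (fun n => by fun_prop) Metric.isOpen_ball hb).neg, ⟨_, fun t ht => (norm_neg _).trans_le
      (tsum_of_norm_bounded hu.hasSum fun n => hb n t ht)⟩, fun t _ => ?_, fun t ht z => ?_⟩
  · have h1 : ∑' n, (c n : ℂ) * (t : ℂ) ^ n = ((∑' n, c n * t ^ n : ℝ) : ℂ) := by
      push_cast
      rfl
    simp only [h1, Complex.neg_im, Complex.ofReal_im, neg_zero]
  have h2 : ‖2 * t‖ < 1 := by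
    rw [norm_mul, Complex.norm_two]
    linarith only [ht]
  have hA : HasSum (fun n => ({w | len w = n}.ncard : ℂ) * t ^ n) (2 * t / (1 - 2 * t)) := by
    refine (hasSum_nat_add_iff' 1).1 ?_
    have h3 := (hasSum_geometric_of_norm_lt_one h2).mul_left (2 * t)
    simp only [Finset.range_one, Finset.sum_singleton, An2_zero h.len_pos, Nat.cast_zero, zero_mul,
      sub_zero, h.len_card _ (Nat.succ_pos _), div_eq_mul_inv]
    refine An2_congr h3 fun n => ?_
    rw [Nat.succ_eq_add_one]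
    push_cast
    ring
  have hC : Summable fun n => (c n : ℂ) * t ^ n :=
    hu.of_norm_bounded fun n => hb n t (mem_ball_zero_iff.2 (by linarith only [ht]))
  have hB : HasSum (fun n => ({j | dg j = n}.ncard : ℂ) * t ^ n) (∑' n, (c n : ℂ) * t ^ n +
      2 * t / (1 - 2 * t) - -Complex.log (1 - 2 * t)) := by
    refine An2_congr ((hC.hasSum.add hA).sub (Complex.hasSum_taylorSeries_neg_log h2)) fun n => ?_
    simp only [c]
    push_cast
    ring
  have hW := An2_W h (norm_nonneg t) ht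
  have h4 := An2_mul (fun k => chr (swt k) z) (An2_hasSum h.len_fin hW hA)
  have h5 := An2_hasSum h.dg_fin (An2_J h (norm_nonneg t) ht) hB
  have h6 := HasSum.sum (f := fun i => t ^ ideg len dg i * chr (iwt W J i) z)
    (An2_congr h4 fun p => mul_comm (t ^ len p.2) (chr (swt p.1) z))
    (An2_congr h5 fun j => (congrArg (t ^ dg j * ·) (chr_zero z)).trans (mul_one _))
  rw [h6.tsum_eq, xf_eq]
  ring

end Pool.Agent.Work.MP_894cc0_al
end

-- merged part: Pool.Agent.Work.MP_894cc0_al.An4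
section
/-! The singularity at `t = 1/2`. -/

open MeasureTheory Filter

namespace Pool.Agent.Work.MP_894cc0_al

theorem An4_int : ∃ L : C(TT, ℂ) →L[ℂ] ℂ, ∀ f, L f = ∫ z, f z ∂mT :=
  ⟨(L1.integralCLM' ℂ).comp (ContinuousMap.toLp 1 mT ℂ), fun f => by
    rw [ContinuousLinearMap.comp_apply, ← L1.integral_eq', L1.integral_eq_integral]
    exact integral_congr_ae (ContinuousMap.coeFn_toLp _ _)⟩

theorem An4_F (W x : C(TT, ℝ)) (G : ℂ → C(TT, ℂ)) (U : Set ℂ) (hG : DifferentiableOn ℂ G U)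
    (s : ℂ → ℂ) (hs : DifferentiableOn ℂ s U) : DifferentiableOn ℂ
      (fun t => ∫ z, ((W z : ℝ) : ℂ) * Complex.exp (-(x z : ℂ) * s t + G t z) ∂mT) U := by
  obtain ⟨L, hL⟩ := An4_int
  let W' : C(TT, ℂ) := ⟨fun z => W z, by fun_prop⟩
  let x' : C(TT, ℂ) := ⟨fun z => -(x z : ℂ), by fun_prop⟩
  have he : Differentiable ℂ (NormedSpace.exp : C(TT, ℂ) → C(TT, ℂ)) := fun _ =>
    hasFDerivAt_exp.differentiableAt
  refine (L.differentiable.comp_differentiableOn
    ((he.comp_differentiableOn ((hs.smul_const x').add hG)).const_mul W')).congr fun t _ => ?_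
  simp only [Function.comp, hL, NormedSpace.exp_continuousMap_eq, Complex.exp_eq_exp_ℂ]
  refine integral_congr_ae (Eventually.of_forall fun z => ?_)
  simp [W', x', mul_comm]

theorem An4_sum (a : ℕ → ℂ) {c ρ : ℝ} (h0 : 0 ≤ c) (hρ : 0 ≤ ρ) (h : c * ρ < 1)
    (ha : ∀ᶠ n in atTop, ‖a n‖ ≤ c ^ n) :
    DifferentiableOn ℂ (fun t => ∑' n, a n * t ^ n) (Metric.ball 0 ρ) := by
  refine Complex.differentiableOn_tsum_of_summable_norm (u := fun n => ‖a n‖ * ρ ^ n) ?_
    (fun n => by fun_prop) Metric.isOpen_ball fun n w hw => ?_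
  · refine (summable_geometric_of_lt_one (mul_nonneg h0 hρ) h).of_norm_bounded_eventually_nat
      (ha.mono fun n hn => ?_)
    rw [Real.norm_of_nonneg (by positivity), mul_pow]
    gcongr
  · rw [norm_mul, norm_pow]
    have := (mem_ball_zero_iff.1 hw).le
    gcongr

theorem An4_id {f g : ℂ → ℂ} {ρ : ℝ} (hρ : 1 / 2 < ρ)
    (hf : DifferentiableOn ℂ f (Metric.ball 0 ρ \ {1 / 2}))
    (hg : DifferentiableOn ℂ g (Metric.ball 0 ρ \ {1 / 2}))
    (h : ∀ t : ℂ, ‖t‖ < 1 / 2 → f t = g t) {t : ℝ} (h1 : 1 / 2 < t) (h2 : t < ρ) :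
    f t = g t := by
  have ho : IsOpen (Metric.ball (0 : ℂ) ρ \ {1 / 2}) := Metric.isOpen_ball.sdiff isClosed_singleton
  have hb : (⟨1 / 4 + ρ / 2, ρ / 4 - 1 / 8⟩ : ℂ) ∈ Metric.ball (0 : ℂ) ρ := by
    refine mem_ball_zero_iff.2 ((Complex.norm_le_abs_re_add_abs_im _).trans_lt ?_)
    rw [abs_of_pos (by dsimp only; linarith only [h1, h2]), abs_of_pos (by dsimp only; linarith only [h1, h2])]
    dsimp only
    linarith only [h1, h2]
  have hU : IsPreconnected ((Metric.ball (0 : ℂ) ρ ∩ {c | 0 < c.im}) ∪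
      (Metric.ball (0 : ℂ) ρ ∩ {c | 1 / 2 < c.re})) :=
    IsPreconnected.union _ ⟨hb, by change (0 : ℝ) < ρ / 4 - 1 / 8; linarith only [h1, h2]⟩
      ⟨hb, by change (1 / 2 : ℝ) < 1 / 4 + ρ / 2; linarith only [h1, h2]⟩
      ((convex_ball _ _).inter (convex_halfSpace_im_gt _)).isPreconnected
      ((convex_ball _ _).inter (convex_halfSpace_re_gt _)).isPreconnected
  have hs : (Metric.ball (0 : ℂ) ρ ∩ {c | 0 < c.im}) ∪
      (Metric.ball (0 : ℂ) ρ ∩ {c | 1 / 2 < c.re}) ⊆ Metric.ball (0 : ℂ) ρ \ {1 / 2} := by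
    rintro c (⟨hc, hc'⟩ | ⟨hc, hc'⟩) <;> refine ⟨hc, ?_⟩ <;> rintro rfl <;> norm_num at hc'
  have hn : ‖Complex.I / 4‖ < 1 / 2 := by
    rw [norm_div, Complex.norm_I, Complex.norm_ofNat]
    norm_num
  refine ((hf.analyticOnNhd ho).mono hs).eqOn_of_preconnected_of_eventuallyEq
    ((hg.analyticOnNhd ho).mono hs) hU (z₀ := Complex.I / 4)
    (Or.inl ⟨mem_ball_zero_iff.2 (hn.trans hρ), by norm_num⟩) ?_ (Or.inr ⟨?_, h1⟩)
  · filter_upwards [Metric.isOpen_ball.mem_nhds (mem_ball_zero_iff.2 hn)] with w hw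
    exact h w (mem_ball_zero_iff.1 hw)
  · rw [mem_ball_zero_iff, Complex.norm_real, Real.norm_of_nonneg (by linarith only [h1])]
    exact h2

theorem sing (W : C(TT, ℝ)) (G : ℂ → C(TT, ℂ))
    (hG1 : DifferentiableOn ℂ G (Metric.ball 0 (2 / 3)))
    (hG2 : ∃ g : ℝ, ∀ t ∈ Metric.ball (0 : ℂ) (2 / 3), ‖G t‖ ≤ g)
    (hG3 : ∀ t : ℝ, |t| < 2 / 3 → ∀ z, (G t z).im = 0) (a : ℕ → ℂ)
    (ha : ∀ t : ℂ, ‖t‖ < 1 / 2 → ∃ A : ℂ, HasSum (fun n => a n * t ^ n) A ∧ (1 - 2 * t) * A =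
      ∫ z, ((W z : ℝ) : ℂ) * Complex.exp (-(xf z : ℂ) * (2 * t / (1 - 2 * t)) + G t z) ∂mT)
    (hW : ∀ g : ℝ, ∃ δ : ℝ, 0 < δ ∧ ∃ σ0 : ℝ, ∀ σ, σ0 ≤ σ → ∀ γ : C(TT, ℝ), (∀ z, |γ z| ≤ g) →
      δ ≤ ∫ z, W z * Real.exp (σ * xf z + γ z) ∂mT)
    (c : ℝ) (h0 : 0 ≤ c) (hc : c < 2) : ∃ᶠ n in atTop, c ^ n ≤ ‖a n‖ := by
  by_contra hn
  obtain ⟨ρ, h1, h2, h3⟩ : ∃ ρ : ℝ, 1 / 2 < ρ ∧ ρ ≤ 2 / 3 ∧ c * ρ < 1 := by
    refine ⟨4 / (c + 6), ?_, ?_, ?_⟩
    · rw [lt_div_iff₀ (by linarith)]; linarith only [hc]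
    · rw [div_le_iff₀ (by linarith)]; linarith only [h0]
    · rw [← mul_div_assoc, div_lt_one (by linarith)]; linarith
  have hΦ : DifferentiableOn ℂ (fun t => (1 - 2 * t) * ∑' n, a n * t ^ n) (Metric.ball 0 ρ) :=
    DifferentiableOn.mul (by fun_prop) (An4_sum a h0 (by linarith only [h1, h2]) h3
      ((not_frequently.1 hn).mono fun n hn => (not_le.1 hn).le))
  have hF := An4_F W xf G (Metric.ball 0 ρ \ {1 / 2})
    (hG1.mono (Set.diff_subset.trans (Metric.ball_subset_ball h2))) (fun t => 2 * t / (1 - 2 * t))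
    (DifferentiableOn.div (by fun_prop) (by fun_prop) fun t ht h =>
      ht.2 (show t = 1 / 2 by linear_combination -h / 2))
  obtain ⟨g, hg⟩ := hG2
  obtain ⟨δ, hδ, σ, hσ⟩ := hW g
  have hc : ContinuousAt (fun t : ℝ => ‖(1 - 2 * (t : ℂ)) * ∑' n, a n * (t : ℂ) ^ n‖) (1 / 2) := by
    refine ContinuousAt.norm (ContinuousAt.comp (f := fun t : ℝ => (t : ℂ))
      (hΦ.continuousOn.continuousAt (Metric.isOpen_ball.mem_nhds ?_))
      Complex.continuous_ofReal.continuousAt)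
    rw [mem_ball_zero_iff, Complex.norm_real, Real.norm_of_nonneg (by norm_num)]
    exact h1
  have e1 := hc.eventually_lt (continuousAt_const (y := δ)) (by simpa using hδ)
  have e2 : ∀ᶠ t : ℝ in nhds (1 / 2), σ * (2 * t - 1) < 2 * t :=
    ContinuousAt.eventually_lt (by fun_prop) (by fun_prop) (by norm_num)
  obtain ⟨t, ⟨k1, k2, k3⟩, k4⟩ := (((e1.and (e2.and (eventually_lt_nhds h1))).filter_mono
    nhdsWithin_le_nhds).and (self_mem_nhdsWithin (s := Set.Ioi (1 / 2 : ℝ)))).exists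
  replace k4 : 1 / 2 < t := k4
  have ht : |t| < 2 / 3 := by rw [abs_of_pos (by linarith only [h2, k3, k4])]; linarith only [h2, k3]
  have k5 := hσ (2 * t / (2 * t - 1)) ((le_div_iff₀ (by linarith only [k4])).2 k2.le)
    ⟨fun z => (G t z).re, by fun_prop⟩ fun z => (Complex.abs_re_le_norm _).trans
      (((G t).norm_coe_le_norm z).trans (hg _ (mem_ball_zero_iff.2 (by simpa using ht))))
  have k6 := An4_id h1 (hΦ.mono Set.diff_subset) hF (fun t ht => by
    obtain ⟨A, hA, e⟩ := ha t ht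
    rw [hA.tsum_eq, e]) k4 k3
  rw [k6] at k1
  refine (k5.trans (le_abs_self _)).not_gt (lt_of_eq_of_lt ?_ k1)
  rw [← Real.norm_eq_abs, ← Complex.norm_real, ← integral_complex_ofReal]
  congr 2
  funext z
  have e : G t z = ((G t z).re : ℂ) := Complex.ext rfl (hG3 t ht z)
  rw [e]
  push_cast
  congr 2
  rw [← neg_sub (2 * (t : ℂ)), div_neg]
  simp [mul_comm]

end Pool.Agent.Work.MP_894cc0_al
end

-- merged part: Pool.Agent.Work.MP_894cc0_al.An7
section
/-! The singularity at `t = 1/2`, quantitative form (Phragmen-Lindelof). -/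

open MeasureTheory Filter

namespace Pool.Agent.Work.MP_894cc0_al

theorem An7_xf_le (z : TT) : xf z ≤ 9 := by
  have h : ‖chr (1, 0) z + chr (-1, 1) z + chr (0, -1) z‖ ≤ 3 := by
    refine norm_add₃_le.trans ?_
    simp only [norm_chr_apply]
    norm_num
  change ‖chr (1, 0) z + chr (-1, 1) z + chr (0, -1) z‖ ^ 2 ≤ 9
  linarith only [h, norm_nonneg (chr (1, 0) z + chr (-1, 1) z + chr (0, -1) z), mul_nonneg_of_nonpos_of_nonpos (Mathlib.Tactic.Linarith.sub_nonpos_of_le h) (Mathlib.Tactic.Linarith.sub_nonpos_of_le (norm_nonneg ((chr ((1 : ℤ), (0 : ℤ))) z + (chr ((-1 : ℤ), (1 : ℤ))) z + (chr ((0 : ℤ), (-1 : ℤ))) z)))]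

theorem An7_rem {w : ℂ} (hw : ‖w‖ ≤ 1) (n : ℕ) :
    ‖w ^ n - (n.choose 0 + n.choose 1 * (w - 1) + n.choose 2 * (w - 1) ^ 2 +
      n.choose 3 * (w - 1) ^ 3)‖ ≤ n.choose 4 * ‖w - 1‖ ^ 4 := by
  induction n with
  | zero => simp
  | succ n ih =>
    have e : w ^ (n + 1) - ((n + 1).choose 0 + (n + 1).choose 1 * (w - 1) +
        (n + 1).choose 2 * (w - 1) ^ 2 + (n + 1).choose 3 * (w - 1) ^ 3) =
        w * (w ^ n - (n.choose 0 + n.choose 1 * (w - 1) + n.choose 2 * (w - 1) ^ 2 +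
          n.choose 3 * (w - 1) ^ 3)) + n.choose 3 * (w - 1) ^ 4 := by
      simp only [Nat.choose_succ_succ', Nat.choose_zero_right]
      push_cast
      ring
    rw [e, Nat.choose_succ_succ' n 3]
    refine (norm_add_le _ _).trans ?_
    rw [norm_mul, norm_mul, norm_pow, Complex.norm_natCast]
    push_cast
    linarith only [hw, ih, mul_le_mul hw ih (norm_nonneg _) zero_le_one]

theorem An7_summable {α : ℕ → ℂ} {C : ℝ} (h : ∀ᶠ n : ℕ in atTop, (n : ℝ) ^ 6 * ‖α n‖ ≤ C)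
    {i : ℕ} (hi : i ≤ 4) : Summable fun n => ‖α n‖ * n.choose i := by
  refine ((Real.summable_one_div_nat_pow.2 one_lt_two).mul_left C).of_norm_bounded_eventually_nat ?_
  filter_upwards [h, eventually_ge_atTop 1] with n hn h1
  have h2 : (1 : ℝ) ≤ n := by exact_mod_cast h1
  have h3 : (n.choose i : ℝ) ≤ (n : ℝ) ^ 4 :=
    le_trans (by exact_mod_cast Nat.choose_le_pow n i) (pow_le_pow_right₀ h2 hi)
  rw [Real.norm_of_nonneg (by positivity), mul_one_div, le_div_iff₀ (by positivity)]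
  calc ‖α n‖ * n.choose i * (n : ℝ) ^ 2 ≤ ‖α n‖ * (n : ℝ) ^ 4 * (n : ℝ) ^ 2 := by gcongr
    _ = (n : ℝ) ^ 6 * ‖α n‖ := by ring
    _ ≤ C := hn

theorem An7_taylor {α : ℕ → ℂ} {C : ℝ} (h : ∀ᶠ n : ℕ in atTop, (n : ℝ) ^ 6 * ‖α n‖ ≤ C) :
    ∃ (P : ℂ → ℂ) (M : ℝ), Differentiable ℂ P ∧ 0 ≤ M ∧ ∀ w A : ℂ, ‖w‖ ≤ 1 →
      HasSum (fun n => α n * w ^ n) A → ‖A - P w‖ ≤ M * ‖w - 1‖ ^ 4 := by
  have hs : ∀ i ≤ 4, HasSum (fun n => α n * n.choose i) (∑' n, α n * n.choose i) := fun i hi =>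
    ((An7_summable h hi).of_norm_bounded fun n => by
      rw [norm_mul, Complex.norm_natCast]).hasSum
  refine ⟨fun w => (∑' n, α n * n.choose 0) + (∑' n, α n * n.choose 1) * (w - 1) +
    (∑' n, α n * n.choose 2) * (w - 1) ^ 2 + (∑' n, α n * n.choose 3) * (w - 1) ^ 3,
    ∑' n, ‖α n‖ * n.choose 4, by fun_prop, tsum_nonneg fun n => by positivity,
    fun w A hw hA => ?_⟩
  refine (hA.sub ((((hs 0 (by omega)).add ((hs 1 (by omega)).mul_right (w - 1))).add
    ((hs 2 (by omega)).mul_right ((w - 1) ^ 2))).add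
    ((hs 3 (by omega)).mul_right ((w - 1) ^ 3)))).norm_le_of_bounded
    ((An7_summable h le_rfl).hasSum.mul_right (‖w - 1‖ ^ 4)) fun n => ?_
  rw [mul_assoc ‖α n‖]
  refine le_trans (le_of_eq ?_) (mul_le_mul_of_nonneg_left (An7_rem hw n) (norm_nonneg _))
  rw [← norm_mul]
  congr 1
  ring

theorem An7_re {w : ℂ} (hw : 1 ≤ ‖w‖) : w.re ≤ w.re ^ 2 + w.im ^ 2 := by
  have h1 := Complex.re_le_norm w
  have h2 : ‖w‖ ^ 2 = w.re ^ 2 + w.im ^ 2 := by
    rw [Complex.sq_norm, Complex.normSq_apply]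
    ring
  linarith only [hw, h1, h2, mul_nonneg_of_nonpos_of_nonpos (Mathlib.Tactic.Linarith.sub_nonpos_of_le hw) (Mathlib.Tactic.Linarith.sub_nonpos_of_le hw)]

theorem An7_s {w : ℂ} (hw : 1 ≤ ‖w‖) : (w / (1 - w)).re ≤ 0 := by
  rw [Complex.div_re, ← add_div]
  refine div_nonpos_of_nonpos_of_nonneg ?_ (Complex.normSq_nonneg _)
  simp only [Complex.sub_re, Complex.sub_im, Complex.one_re, Complex.one_im]
  linarith only [hw, An7_re hw]

theorem An7_den {w : ℂ} (hw : 1 ≤ ‖w‖) {ε : ℝ} (hε : 0 ≤ ε) : ‖1 - w‖ ≤ ‖1 - w - ε * w‖ := by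
  refine le_of_sq_le_sq ?_ (norm_nonneg _)
  rw [Complex.sq_norm, Complex.sq_norm, Complex.normSq_apply, Complex.normSq_apply]
  simp only [Complex.sub_re, Complex.sub_im, Complex.one_re, Complex.one_im, Complex.re_ofReal_mul,
    Complex.im_ofReal_mul]
  linarith only [hε, hw, mul_nonneg hε (sub_nonneg.2 (An7_re hw)), sq_nonneg (ε * w.re), sq_nonneg (ε * w.im), sq_nonneg (ε * w.im), sq_nonneg (ε * w.re)]

theorem An7_den' {w : ℂ} (hw : 1 ≤ ‖w‖) {ε : ℝ} (hε : 0 ≤ ε) : ε ≤ ‖1 - w - ε * w‖ := by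
  have h1 : ‖((1 + ε : ℝ) : ℂ) * w‖ - ‖(1 : ℂ)‖ ≤ ‖((1 + ε : ℝ) : ℂ) * w - 1‖ := norm_sub_norm_le _ _
  have h2 : ((1 + ε : ℝ) : ℂ) * w - 1 = -(1 - w - ε * w) := by
    push_cast
    ring
  rw [h2, norm_neg, norm_mul, norm_one, Complex.norm_real, Real.norm_of_nonneg (by linarith)] at h1
  linarith only [hw, h1, hε, mul_nonneg_of_nonpos_of_nonpos (Mathlib.Tactic.Linarith.sub_nonpos_of_le hw) (Mathlib.Tactic.Linarith.sub_nonpos_of_le hε)]

theorem An7_PL {H : ℂ → ℂ} (hd : DifferentiableOn ℂ H (Metric.ball 0 (4 / 3) \ {1})) {B M : ℝ}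
    (hB0 : 0 ≤ B) (hM0 : 0 ≤ M) (hB : ∀ w, 1 ≤ ‖w‖ → ‖w‖ ≤ 6 / 5 → w ≠ 1 → ‖H w‖ ≤ B)
    (hM : ∀ w, ‖w‖ = 1 → w ≠ 1 → ‖H w‖ ≤ M * ‖1 - w‖ ^ 5) {w : ℂ} (h1 : 1 < ‖w‖)
    (h2 : ‖w‖ < 6 / 5) : ‖H w‖ ≤ (M + 5 ^ 5 * B) * ‖1 - w‖ ^ 5 := by
  have ho : IsOpen {w : ℂ | 1 < ‖w‖ ∧ ‖w‖ < 6 / 5} :=
    (isOpen_lt continuous_const continuous_norm).inter (isOpen_lt continuous_norm continuous_const)
  have hcl : closure {w : ℂ | 1 < ‖w‖ ∧ ‖w‖ < 6 / 5} ⊆ {w : ℂ | 1 ≤ ‖w‖ ∧ ‖w‖ ≤ 6 / 5} :=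
    closure_minimal (fun w hw => ⟨hw.1.le, hw.2.le⟩)
      ((isClosed_le continuous_const continuous_norm).inter
        (isClosed_le continuous_norm continuous_const))
  have hat : ∀ z : ℂ, ‖z‖ ≤ 6 / 5 → z ≠ 1 → DifferentiableAt ℂ H z := fun z hz hz1 =>
    hd.differentiableAt ((Metric.isOpen_ball.sdiff isClosed_singleton).mem_nhds
      ⟨mem_ball_zero_iff.2 (by linarith only [h1, h2, hz]), hz1⟩)
  have key : ∀ ε : ℝ, 0 < ε →
      ‖H w‖ * ‖1 - w‖ ≤ (M + 5 ^ 5 * B) * ‖1 - w - ε * w‖ ^ 6 := fun ε hε => by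
    have hne : ∀ z : ℂ, 1 ≤ ‖z‖ → 0 < ‖1 - z - ε * z‖ := fun z hz => hε.trans_le (An7_den' hz hε.le)
    have hE : ∀ z : ℂ, 1 ≤ ‖z‖ → ‖z‖ ≤ 6 / 5 → z ≠ 1 →
        DifferentiableAt ℂ (fun z => H z * (1 - z) / (1 - z - ε * z) ^ 6) z := fun z k1 k2 k3 =>
      ((hat z k2 k3).mul (by fun_prop)).div (by fun_prop)
        (pow_ne_zero _ (norm_pos_iff.1 (hne z k1)))
    have hn : ∀ z : ℂ, ‖H z * (1 - z) / (1 - z - ε * z) ^ 6‖ =
        ‖H z‖ * ‖1 - z‖ / ‖1 - z - ε * z‖ ^ 6 := fun z => by rw [norm_div, norm_mul, norm_pow]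
    rw [← div_le_iff₀ (pow_pos (hne w h1.le) 6), ← hn]
    refine Complex.norm_le_of_forall_mem_frontier_norm_le
      (f := fun z => H z * (1 - z) / (1 - z - ε * z) ^ 6) (U := {w : ℂ | 1 < ‖w‖ ∧ ‖w‖ < 6 / 5})
      (Metric.isBounded_ball.subset fun z hz => mem_ball_zero_iff.2 hz.2)
      ⟨fun z hz => (hE z hz.1.le hz.2.le (by rintro rfl; simpa using hz.1)).differentiableWithinAt,
        ContinuousOn.mono (fun z hz => ?_) hcl⟩ (fun z hz => ?_) (subset_closure ⟨h1, h2⟩)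
    · by_cases hz1 : z = 1
      · subst hz1
        rw [ContinuousWithinAt, sub_self, mul_zero, zero_div]
        refine squeeze_zero_norm' (a := fun z => B * ‖1 - z‖ / ε ^ 6) ?_ ?_
        · filter_upwards [self_mem_nhdsWithin] with z hz
          rw [hn]
          by_cases hz1 : z = 1
          · simp [hz1]
          · have k1 := hB z hz.1 hz.2 hz1
            have k2 := An7_den' hz.1 hε.le
            gcongr
        · refine tendsto_nhdsWithin_of_tendsto_nhds (Continuous.tendsto' (by fun_prop) _ _ ?_)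
          simp
      · exact (hE z hz.1 hz.2 hz1).continuousAt.continuousWithinAt
    · rw [ho.frontier_eq] at hz
      obtain ⟨k1, k2⟩ := hcl hz.1
      rw [hn, div_le_iff₀ (pow_pos (hne z k1) 6)]
      by_cases hz1 : z = 1
      · rw [hz1, sub_self, norm_zero, mul_zero]
        positivity
      have k3 : ‖H z‖ ≤ (M + 5 ^ 5 * B) * ‖1 - z‖ ^ 5 := by
        rcases k1.eq_or_lt with k | k
        · refine (hM z k.symm hz1).trans ?_
          gcongr
          exact le_add_of_nonneg_right (by positivity)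
        · have k4 : 6 / 5 ≤ ‖z‖ := not_lt.1 fun k4 => hz.2 ⟨k, k4⟩
          have k5 : ‖z‖ - ‖(1 : ℂ)‖ ≤ ‖1 - z‖ := by
            rw [norm_sub_rev]
            exact norm_sub_norm_le _ _
          rw [norm_one] at k5
          have k6 : 1 ≤ (5 * ‖1 - z‖) ^ 5 := one_le_pow₀ (by linarith only [k4, k5])
          have k7 : 0 ≤ M * ‖1 - z‖ ^ 5 := by positivity
          linarith only [k7, hB, k1, k2, hz1, k6, hB0, hB z k1 k2 hz1, mul_le_mul_of_nonneg_left k6 hB0]
      calc ‖H z‖ * ‖1 - z‖ ≤ (M + 5 ^ 5 * B) * ‖1 - z‖ ^ 5 * ‖1 - z‖ := by gcongr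
        _ = (M + 5 ^ 5 * B) * ‖1 - z‖ ^ 6 := by ring
        _ ≤ _ := by
          gcongr
          exact An7_den k1 hε.le
  have hp : 0 < ‖1 - w‖ := norm_pos_iff.2 (sub_ne_zero.2 (by rintro rfl; simp at h1))
  have lim : Tendsto (fun ε : ℝ => (M + 5 ^ 5 * B) * ‖1 - w - ε * w‖ ^ 6) (nhdsWithin 0 (Set.Ioi 0))
      (nhds ((M + 5 ^ 5 * B) * ‖1 - w‖ ^ 5 * ‖1 - w‖)) :=
    tendsto_nhdsWithin_of_tendsto_nhds (Continuous.tendsto' (by fun_prop) _ _ (by
      rw [Complex.ofReal_zero, zero_mul, sub_zero]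
      ring))
  exact le_of_mul_le_mul_right (ge_of_tendsto lim (eventually_nhdsWithin_of_forall key)) hp

theorem An7_final {δ B M σ : ℝ} (hB : 0 ≤ B) (hM : 0 ≤ M) (hσ : 2 ≤ σ)
    (h : δ * Real.exp (9 * σ) / σ ^ 4 ≤ B + M * (1 / (σ - 1)) ^ 5 * Real.exp (9 * σ)) :
    δ * σ ≤ B + 32 * M := by
  have h0 : 0 < σ := by linarith only [hσ]
  have h1 : σ ^ 5 ≤ Real.exp (9 * σ) := by
    have := Real.pow_div_factorial_le_exp (x := 9 * σ) (by linarith) 5
    norm_num [Nat.factorial, mul_pow] at this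
    linarith only [this, h0, pow_pos h0 5]
  have h2 : 1 / (σ - 1) ≤ 2 / σ := by
    rw [div_le_div_iff₀ (by linarith) h0]
    linarith
  have h3 : (1 / (σ - 1)) ^ 5 ≤ (2 / σ) ^ 5 := pow_le_pow_left₀ (one_div_nonneg.2 (by linarith only [hσ])) h2 5
  have h4 : B ≤ B * Real.exp (9 * σ) / σ ^ 5 := by
    rw [le_div_iff₀ (by positivity)]
    gcongr
  have h5 : δ * σ * (Real.exp (9 * σ) / σ ^ 5) ≤ (B + 32 * M) * (Real.exp (9 * σ) / σ ^ 5) :=
    calc δ * σ * (Real.exp (9 * σ) / σ ^ 5) = δ * Real.exp (9 * σ) / σ ^ 4 := by field_simp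
      _ ≤ B * Real.exp (9 * σ) / σ ^ 5 + M * (2 / σ) ^ 5 * Real.exp (9 * σ) :=
        h.trans (by gcongr)
      _ = _ := by field_simp; norm_num
  exact le_of_mul_le_mul_right h5 (by positivity)

theorem sing2 (W : C(TT, ℝ)) (G : ℂ → C(TT, ℂ))
    (hG1 : DifferentiableOn ℂ G (Metric.ball 0 (2 / 3)))
    (hG2 : ∃ g : ℝ, ∀ t ∈ Metric.ball (0 : ℂ) (2 / 3), ‖G t‖ ≤ g)
    (hG3 : ∀ t : ℝ, |t| < 2 / 3 → ∀ z, (G t z).im = 0) (a : ℕ → ℂ)
    (ha : ∀ t : ℂ, ‖t‖ < 1 / 2 → ∃ A : ℂ, HasSum (fun n => a n * t ^ n) A ∧ (1 - 2 * t) * A =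
      ∫ z, ((W z : ℝ) : ℂ) * Complex.exp (-(xf z : ℂ) * (2 * t / (1 - 2 * t)) + G t z) ∂mT)
    (hW : ∀ g : ℝ, ∃ δ : ℝ, 0 < δ ∧ ∃ σ0 : ℝ, ∀ σ, σ0 ≤ σ → ∀ γ : C(TT, ℝ), (∀ z, |γ z| ≤ g) →
      δ * Real.exp (9 * σ) / σ ^ 4 ≤ ∫ z, W z * Real.exp (σ * xf z + γ z) ∂mT)
    (C : ℝ) : ∃ᶠ n : ℕ in atTop, C * 2 ^ n ≤ (n : ℝ) ^ 6 * ‖a n‖ := by
  by_contra hn
  obtain ⟨P, M, hP, hM0, hM⟩ := An7_taylor (α := fun n => a n / 2 ^ n) (C := C)
    ((not_frequently.1 hn).mono fun n hn => by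
      rw [norm_div, norm_pow, Complex.norm_ofNat, ← mul_div_assoc, div_le_iff₀ (by positivity)]
      exact (not_le.1 hn).le)
  obtain ⟨g, hg⟩ := hG2
  obtain ⟨δ, hδ, σ0, hσ⟩ := hW g
  have hb : ∀ w : ℂ, ‖w‖ < 4 / 3 → w / 2 ∈ Metric.ball (0 : ℂ) (2 / 3) := fun w hw => by
    rw [mem_ball_zero_iff, norm_div, Complex.norm_ofNat]
    linarith only [hw]
  have hs : DifferentiableOn ℂ (fun w : ℂ => w / (1 - w)) (Metric.ball 0 (4 / 3) \ {1}) :=
    DifferentiableOn.div (by fun_prop) (by fun_prop) fun w hw h => hw.2 (sub_eq_zero.1 h).symm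
  obtain ⟨F, hF⟩ : ∃ F : ℂ → ℂ, F = fun w => ∫ z, ((W z : ℝ) : ℂ) *
    Complex.exp (-(xf z : ℂ) * (w / (1 - w)) + G (w / 2) z) ∂mT := ⟨_, rfl⟩
  have hFd : DifferentiableOn ℂ F (Metric.ball 0 (4 / 3) \ {1}) :=
    hF ▸ An4_F W xf (fun w => G (w / 2)) _ (hG1.comp (by fun_prop)
      fun w hw => hb w (mem_ball_zero_iff.1 hw.1)) _ hs
  have hQ : Differentiable ℂ fun w => (1 - w) * P w := by fun_prop
  obtain ⟨B, hB⟩ := (isCompact_closedBall (0 : ℂ) (6 / 5)).exists_bound_of_continuousOn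
    hQ.continuous.continuousOn
  have hB0 : 0 ≤ B := (norm_nonneg _).trans (hB 0 (Metric.mem_closedBall_self (by norm_num)))
  have hin : ∀ w ∈ Metric.ball (0 : ℂ) 1, ‖F w - (1 - w) * P w‖ ≤ M * ‖1 - w‖ ^ 5 :=
    fun w hw => by
      rw [mem_ball_zero_iff] at hw
      obtain ⟨A, hA, e⟩ := ha (w / 2) (by rw [norm_div, Complex.norm_ofNat]; linarith only [hw])
      rw [show 2 * (w / 2) = w by ring] at e
      have k := hM w A hw.le (by simpa only [div_pow, mul_div_right_comm, mul_div_assoc'] using hA)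
      rw [hF]
      dsimp only
      rw [← e, ← mul_sub, norm_mul, pow_succ', mul_left_comm, norm_sub_rev 1 w]
      gcongr
  have he : ∀ w : ℂ, 1 ≤ ‖w‖ → ‖Complex.exp (9 * (w / (1 - w)))‖ ≤ 1 := fun w hw => by
    rw [Complex.norm_exp, Real.exp_le_one_iff]
    have := An7_s hw
    simp only [Complex.mul_re, Complex.re_ofNat, Complex.im_ofNat]
    linarith only [this]
  have hPL := fun w => An7_PL (H := fun w => (F w - (1 - w) * P w) *
      Complex.exp (9 * (w / (1 - w)))) (B := ‖W‖ * Real.exp g + B) (w := w)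
    ((hFd.sub hQ.differentiableOn).mul (hs.const_mul 9).cexp) (by positivity) hM0
    (fun w k1 k2 k3 => by
      have k4 : ‖F w * Complex.exp (9 * (w / (1 - w)))‖ ≤ ‖W‖ * Real.exp g := by
        rw [hF]
        dsimp only
        rw [← integral_mul_const]
        refine (norm_integral_le_of_norm_le_const (Eventually.of_forall fun z => ?_)).trans_eq
          (by rw [probReal_univ, mul_one])
        rw [mul_assoc, ← Complex.exp_add, norm_mul, Complex.norm_real, Complex.norm_exp]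
        refine mul_le_mul (W.norm_coe_le_norm z) (Real.exp_le_exp.2 ?_) (Real.exp_pos _).le
          (norm_nonneg _)
        have k5 := (Complex.re_le_norm _).trans
          (((G (w / 2)).norm_coe_le_norm z).trans (hg _ (hb w (by linarith only [k2]))))
        have k6 := mul_nonneg (sub_nonneg.2 (An7_xf_le z)) (neg_nonneg.2 (An7_s k1))
        simp only [Complex.add_re, Complex.mul_re, Complex.re_ofNat, Complex.im_ofNat,
          Complex.neg_re, Complex.neg_im, Complex.ofReal_re, Complex.ofReal_im]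
        linarith only [k5, k6]
      have k7 := mul_le_mul (hB w (mem_closedBall_zero_iff.2 k2)) (he w k1) (norm_nonneg _) hB0
      rw [← norm_mul, mul_one] at k7
      rw [sub_mul]
      exact (norm_sub_le _ _).trans (add_le_add k4 k7))
    (fun w k1 k2 => by
      have k3 : ‖F w - (1 - w) * P w‖ ≤ M * ‖1 - w‖ ^ 5 :=
        ContinuousWithinAt.closure_le (f := fun w => ‖F w - (1 - w) * P w‖)
          (g := fun w => M * ‖1 - w‖ ^ 5) (s := Metric.ball (0 : ℂ) 1)
          (by rw [closure_ball _ one_ne_zero, mem_closedBall_zero_iff, k1])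
          (((hFd.differentiableAt ((Metric.isOpen_ball.sdiff isClosed_singleton).mem_nhds
            ⟨mem_ball_zero_iff.2 (by linarith only [k1]), k2⟩)).sub
            (hQ w)).continuousAt.norm.continuousWithinAt) (by fun_prop) hin
      rw [norm_mul]
      exact (mul_le_mul k3 (he w k1.ge) (norm_nonneg _) (by positivity)).trans_eq (mul_one _))
  obtain ⟨N, hN⟩ : ∃ N, N = M + 5 ^ 5 * (‖W‖ * Real.exp g + B) := ⟨_, rfl⟩
  rw [← hN] at hPL
  have hN0 : 0 ≤ N := by rw [hN]; positivity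
  obtain ⟨σ, s1, s2, s3⟩ : ∃ σ : ℝ, σ0 ≤ σ ∧ 7 ≤ σ ∧ B + 32 * N < δ * σ := by
    have k : 0 ≤ (B + 32 * N) / δ := by positivity
    refine ⟨|σ0| + 7 + (B + 32 * N) / δ, by linarith only [k, le_abs_self σ0],
      by linarith only [k, abs_nonneg σ0], ?_⟩
    rw [mul_add, mul_div_cancel₀ _ hδ.ne']
    linarith only [hδ, abs_nonneg σ0, mul_nonneg_of_nonpos_of_nonpos (le_of_lt (Mathlib.Tactic.Linarith.sub_neg_of_lt hδ)) (Mathlib.Tactic.Linarith.sub_nonpos_of_le (abs_nonneg σ0))]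
  refine s3.not_ge (An7_final hB0 hN0 (by linarith only [s2]) ?_)
  obtain ⟨y, hy⟩ : ∃ y : ℝ, y = 1 / (σ - 1) := ⟨_, rfl⟩
  have y0 : 0 < y := hy ▸ one_div_pos.2 (by linarith only [s2])
  have y1 : y * (σ - 1) = 1 := hy ▸ one_div_mul_cancel (by linarith only [s2])
  have y2 : y < 1 / 5 := by linarith only [y0, y1, s2, mul_nonneg_of_nonpos_of_nonpos (Mathlib.Tactic.Linarith.sub_nonpos_of_le s2) (le_of_lt (Mathlib.Tactic.Linarith.sub_neg_of_lt y0))]
  have hx : ‖((1 + y : ℝ) : ℂ)‖ = 1 + y := by rw [Complex.norm_real, Real.norm_of_nonneg (by linarith only [y0, y2])]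
  have hsx : ((1 + y : ℝ) : ℂ) / (1 - ((1 + y : ℝ) : ℂ)) = ((-σ : ℝ) : ℂ) := by
    rw [← Complex.ofReal_one, ← Complex.ofReal_sub, ← Complex.ofReal_div, Complex.ofReal_inj,
      div_eq_iff (by linarith only [y0])]
    linarith only [y1]
  have k1 := hPL ((1 + y : ℝ) : ℂ) (by linarith only [y0, hx]) (by linarith only [y2, hx])
  have k2 : ‖1 - ((1 + y : ℝ) : ℂ)‖ = y := by
    rw [← Complex.ofReal_one, ← Complex.ofReal_sub, Complex.norm_real,
      Real.norm_of_nonpos (by linarith only [y0])]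
    ring
  rw [hsx, k2, norm_mul, Complex.norm_exp, show (9 * ((-σ : ℝ) : ℂ)).re = -(9 * σ) by simp,
    Real.exp_neg, mul_inv_le_iff₀ (Real.exp_pos _)] at k1
  have k3 := hB ((1 + y : ℝ) : ℂ) (mem_closedBall_zero_iff.2 (by linarith only [y2, hx]))
  have ht : |(1 + y) / 2| < 2 / 3 := by rw [abs_of_pos (by linarith only [y0, y2])]; linarith only [y0, y2]
  have et : ((1 + y : ℝ) : ℂ) / 2 = (((1 + y) / 2 : ℝ) : ℂ) := by push_cast; ring
  have k5 := hσ σ s1 ⟨fun z => (G (((1 + y : ℝ) : ℂ) / 2) z).re, by fun_prop⟩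
    fun z => (Complex.abs_re_le_norm _).trans (((G _).norm_coe_le_norm z).trans
      (hg _ (hb _ (by linarith only [y0, y2, hx]))))
  rw [← hy]
  refine (k5.trans (le_abs_self _)).trans (le_trans (le_of_eq ?_)
    ((norm_le_norm_add_norm_sub' (F ((1 + y : ℝ) : ℂ)) _).trans (add_le_add k3 k1)))
  rw [← Real.norm_eq_abs, ← Complex.norm_real, ← integral_complex_ofReal, hF]
  dsimp only
  rw [hsx]
  congr 2
  funext z
  have e : G (((1 + y : ℝ) : ℂ) / 2) z = ((G (((1 + y : ℝ) : ℂ) / 2) z).re : ℂ) :=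
    Complex.ext rfl (by rw [et]; exact hG3 _ ht z)
  rw [e]
  simp [mul_comm]

end Pool.Agent.Work.MP_894cc0_al
end

-- merged part: Pool.Agent.Work.MP_894cc0_al.An8
section
/-! Laplace type lower bounds for the torus integrals. -/

open MeasureTheory

namespace Pool.Agent.Work.MP_894cc0_al

open Real in
theorem An8_chr (m n : ℤ) (a b : ℝ) : chr (m, n) ((a : AddCircle (1 : ℝ)), (b : AddCircle (1 : ℝ))) =
    Complex.exp (Complex.I * ((2 * π * (m * a + n * b) : ℝ) : ℂ)) := by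
  rw [chr_apply, fourier_coe_apply, fourier_coe_apply, ← Complex.exp_add]
  refine congrArg Complex.exp ?_
  push_cast
  ring

open Real in
theorem An8_sin {y : ℝ} (h0 : 0 ≤ y) (h1 : y ≤ 1 / 2) :
    y ≤ ‖1 - Complex.exp (Complex.I * ((2 * π * y : ℝ) : ℂ))‖ := by
  rw [norm_sub_rev, Complex.norm_exp_I_mul_ofReal_sub_one]
  have hp := pi_pos
  have k := mul_le_sin (x := 2 * π * y / 2) (by positivity) (by linarith only [h1, hp, mul_nonneg_of_nonpos_of_nonpos (Mathlib.Tactic.Linarith.sub_nonpos_of_le h1) (le_of_lt (Mathlib.Tactic.Linarith.sub_neg_of_lt hp))])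
  have e : 2 / π * (2 * π * y / 2) = 2 * y := by field_simp
  rw [e] at k
  refine le_trans ?_ (le_abs_self _)
  linarith only [h0, k]

open Real in
theorem An8_cos {y r : ℝ} (h : y ^ 2 ≤ r) :
    1 - 20 * r ≤ (Complex.exp (Complex.I * ((2 * π * y : ℝ) : ℂ))).re := by
  rw [mul_comm Complex.I, Complex.exp_ofReal_mul_I_re]
  refine le_trans ?_ one_sub_sq_div_two_le_cos
  have hp := pi_pos
  have h2 : π ^ 2 ≤ 10 := by linarith only [hp, pi_lt_d2, mul_pos_of_neg_of_neg (Mathlib.Tactic.Linarith.sub_neg_of_lt hp) (Mathlib.Tactic.Linarith.sub_neg_of_lt pi_lt_d2)]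
  have h3 : π ^ 2 * y ^ 2 ≤ 10 * r := mul_le_mul h2 h (sq_nonneg _) (by norm_num)
  linarith only [h3]

theorem An8_box {r a b : ℝ} (r0 : 0 < r) (r1 : r ≤ 1 / 5) (ha : a ∈ Set.Icc r (11 * r / 10))
    (hb : b ∈ Set.Icc r (11 * r / 10)) :
    r ^ 6 / 4 ≤ wf ((a : AddCircle (1 : ℝ)), (b : AddCircle (1 : ℝ))) ∧
      9 - 300 * r ^ 2 ≤ xf ((a : AddCircle (1 : ℝ)), (b : AddCircle (1 : ℝ))) := by
  obtain ⟨a1, a2⟩ := ha
  obtain ⟨b1, b2⟩ := hb
  constructor
  · change _ ≤ ‖_‖ ^ 2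
    rw [An8_chr, An8_chr, An8_chr, norm_mul, norm_mul]
    have k1 := An8_sin (y := (2 : ℤ) * a + (-1 : ℤ) * b) (by push_cast; linarith only [r0, a1, b2])
      (by push_cast; linarith only [r0, r1, a2, b1])
    have k2 := An8_sin (y := (-1 : ℤ) * a + (2 : ℤ) * b) (by push_cast; linarith only [r0, a2, b1])
      (by push_cast; linarith only [r0, r1, a1, b2])
    have k3 := An8_sin (y := (1 : ℤ) * a + (1 : ℤ) * b) (by push_cast; linarith only [r0, a1, b1])
      (by push_cast; linarith only [r0, r1, a2, b2])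
    have l1 : r / 2 ≤ (2 : ℤ) * a + (-1 : ℤ) * b := by push_cast; linarith only [r0, a1, b2]
    have l2 : r / 2 ≤ (-1 : ℤ) * a + (2 : ℤ) * b := by push_cast; linarith only [r0, a2, b1]
    have l3 : 2 * r ≤ (1 : ℤ) * a + (1 : ℤ) * b := by push_cast; linarith only [a1, b1]
    calc r ^ 6 / 4 = (r / 2 * (r / 2) * (2 * r)) ^ 2 := by ring
      _ ≤ _ := by
        gcongr
        exacts [l1.trans k1, l2.trans k2, l3.trans k3]
  · change _ ≤ ‖_‖ ^ 2
    rw [An8_chr, An8_chr, An8_chr]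
    have k1 := An8_cos (y := (1 : ℤ) * a + (0 : ℤ) * b) (r := 121 / 100 * r ^ 2)
      (by push_cast; (refine le_of_not_gt fun h_nl => ?_; linarith only [h_nl, r0, a2, r1, a1, mul_nonneg_of_nonpos_of_nonpos (le_of_lt (Mathlib.Tactic.Linarith.sub_neg_of_lt r0)) (Mathlib.Tactic.Linarith.sub_nonpos_of_le a2), mul_pos_of_neg_of_neg (Mathlib.Tactic.Linarith.sub_neg_of_lt r0) (Mathlib.Tactic.Linarith.sub_neg_of_lt h_nl), mul_nonneg_of_nonpos_of_nonpos (Mathlib.Tactic.Linarith.sub_nonpos_of_le r1) (le_of_lt (Mathlib.Tactic.Linarith.sub_neg_of_lt h_nl)), mul_nonneg_of_nonpos_of_nonpos (Mathlib.Tactic.Linarith.sub_nonpos_of_le a1) (Mathlib.Tactic.Linarith.sub_nonpos_of_le a2)]))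
    have k2 := An8_cos (y := (-1 : ℤ) * a + (1 : ℤ) * b) (r := 1 / 100 * r ^ 2)
      (by push_cast; (refine le_of_not_gt fun h_nl => ?_; linarith only [h_nl, r0, r1, a1, a2, b1, b2, mul_pos_of_neg_of_neg (Mathlib.Tactic.Linarith.sub_neg_of_lt r0) (Mathlib.Tactic.Linarith.sub_neg_of_lt h_nl), mul_nonneg_of_nonpos_of_nonpos (Mathlib.Tactic.Linarith.sub_nonpos_of_le r1) (le_of_lt (Mathlib.Tactic.Linarith.sub_neg_of_lt h_nl)), mul_nonneg_of_nonpos_of_nonpos (Mathlib.Tactic.Linarith.sub_nonpos_of_le a1) (Mathlib.Tactic.Linarith.sub_nonpos_of_le a2), mul_nonneg_of_nonpos_of_nonpos (Mathlib.Tactic.Linarith.sub_nonpos_of_le a1) (Mathlib.Tactic.Linarith.sub_nonpos_of_le b1), mul_nonneg_of_nonpos_of_nonpos (Mathlib.Tactic.Linarith.sub_nonpos_of_le a2) (Mathlib.Tactic.Linarith.sub_nonpos_of_le b2), mul_nonneg_of_nonpos_of_nonpos (Mathlib.Tactic.Linarith.sub_nonpos_of_le b1) (Mathlib.Tactic.Linarith.sub_nonpos_of_le b2)]))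
    have k3 := An8_cos (y := (0 : ℤ) * a + (-1 : ℤ) * b) (r := 121 / 100 * r ^ 2)
      (by push_cast; (refine le_of_not_gt fun h_nl => ?_; linarith only [h_nl, r0, b2, r1, b1, mul_nonneg_of_nonpos_of_nonpos (le_of_lt (Mathlib.Tactic.Linarith.sub_neg_of_lt r0)) (Mathlib.Tactic.Linarith.sub_nonpos_of_le b2), mul_pos_of_neg_of_neg (Mathlib.Tactic.Linarith.sub_neg_of_lt r0) (Mathlib.Tactic.Linarith.sub_neg_of_lt h_nl), mul_nonneg_of_nonpos_of_nonpos (Mathlib.Tactic.Linarith.sub_nonpos_of_le r1) (le_of_lt (Mathlib.Tactic.Linarith.sub_neg_of_lt h_nl)), mul_nonneg_of_nonpos_of_nonpos (Mathlib.Tactic.Linarith.sub_nonpos_of_le b1) (Mathlib.Tactic.Linarith.sub_nonpos_of_le b2)]))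
    have r2 : r ^ 2 ≤ 1 / 25 := by linarith only [r1, r0, mul_nonneg_of_nonpos_of_nonpos (le_of_lt (Mathlib.Tactic.Linarith.sub_neg_of_lt r0)) (Mathlib.Tactic.Linarith.sub_nonpos_of_le r1)]
    calc 9 - 300 * r ^ 2 ≤ (3 - 50 * r ^ 2) ^ 2 := by linarith only [sq_nonneg (r ^ 2), sq_nonneg (r ^ (2 : ℕ))]
      _ ≤ _ := by
        refine pow_le_pow_left₀ (by linarith only [r0, r1, r2]) (le_trans ?_ (Complex.re_le_norm _)) 2
        rw [Complex.add_re, Complex.add_re]
        refine le_trans ?_ (add_le_add (add_le_add k1 k2) k3)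
        linarith only [sq_nonneg r]

theorem An8_meas {u v : ℝ} (u0 : 0 < u) (v1 : v ≤ 1) : ENNReal.ofReal (v - u) ≤
    AddCircle.haarAddCircle ((fun a : ℝ => (a : AddCircle (1 : ℝ))) '' Set.Icc u v) := by
  have e : (AddCircle.haarAddCircle : Measure (AddCircle (1 : ℝ))) = volume := by
    rw [AddCircle.volume_eq_smul_haarAddCircle, ENNReal.ofReal_one, one_smul]
  have hm : MeasurableSet ((fun a : ℝ => (a : AddCircle (1 : ℝ))) '' Set.Icc u v) :=
    (isCompact_Icc.image (AddCircle.continuous_mk' 1)).measurableSet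
  rw [e, AddCircle.add_projection_respects_measure 1 0 hm, ← Real.volume_Icc]
  exact measure_mono fun a ha => ⟨⟨a, ha, rfl⟩, u0.trans_le ha.1, by linarith [ha.2]⟩

theorem An8_int {F : TT → ℝ} (h : Continuous F) : Integrable F mT :=
  h.integrable_of_hasCompactSupport (HasCompactSupport.of_compactSpace F)

theorem An8_zero (g : ℝ) {σ : ℝ} (hσ : 25 ≤ σ) (γ : C(TT, ℝ)) (hγ : ∀ z, |γ z| ≤ g) :
    Real.exp (-300 - g) / 400 * Real.exp (9 * σ) / σ ^ 4 ≤
      ∫ z, wf z * Real.exp (σ * xf z + γ z) ∂mT := by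
  obtain ⟨r, r0, hr⟩ : ∃ r : ℝ, 0 < r ∧ σ * r ^ 2 = 1 := by
    have : 0 < σ := by linarith
    refine ⟨(√σ)⁻¹, by positivity, ?_⟩
    rw [inv_pow, Real.sq_sqrt this.le, mul_inv_cancel₀ this.ne']
  have r1 : r ≤ 1 / 5 := by
    by_contra k
    have : 1 / 25 < r ^ 2 := by linarith only [k, r0, not_le.1 k, mul_pos_of_neg_of_neg (Mathlib.Tactic.Linarith.sub_neg_of_lt r0) (Mathlib.Tactic.Linarith.sub_neg_of_lt (lt_of_not_ge k))]
    linarith only [hr, this, hσ, mul_nonneg_of_nonpos_of_nonpos (Mathlib.Tactic.Linarith.sub_nonpos_of_le (sq_nonneg r)) (Mathlib.Tactic.Linarith.sub_nonpos_of_le hσ)]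
  set m := r ^ 6 / 4 * Real.exp (9 * σ - 300 - g) with hm
  have k := mul_meas_ge_le_integral_of_nonneg (μ := mT)
    (f := fun z => wf z * Real.exp (σ * xf z + γ z))
    (ae_of_all _ fun z => mul_nonneg (wf_nonneg z) (Real.exp_pos _).le)
    (An8_int (by fun_prop)) m
  refine le_trans ?_ k
  have q : (r / 10) ^ 2 ≤ mT.real {z | m ≤ wf z * Real.exp (σ * xf z + γ z)} := by
    have q1 := An8_meas (u := r) (v := 11 * r / 10) r0 (by linarith only [r0, r1])
    rw [show 11 * r / 10 - r = r / 10 by ring] at q1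
    rw [measureReal_def, ← ENNReal.ofReal_le_iff_le_toReal (measure_ne_top _ _), sq,
      ENNReal.ofReal_mul (by positivity)]
    refine (mul_le_mul' q1 q1).trans ?_
    rw [← Measure.prod_prod]
    refine measure_mono (μ := mT) ?_
    rintro ⟨_, _⟩ ⟨⟨a, ha, rfl⟩, ⟨b, hb, rfl⟩⟩
    obtain ⟨c1, c2⟩ := An8_box r0 r1 ha hb
    refine mul_le_mul c1 (Real.exp_le_exp.2 ?_) (Real.exp_pos _).le (wf_nonneg _)
    have c3 := (abs_le.1 (hγ ((a : AddCircle (1 : ℝ)), (b : AddCircle (1 : ℝ))))).1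
    have c4 := mul_le_mul_of_nonneg_left c2 (show 0 ≤ σ by linarith only [hσ, r0, r1])
    linarith only [hr, c3, c4]
  refine le_trans (le_of_eq ?_) (mul_le_mul_of_nonneg_left q (by positivity))
  have e : σ = (r ^ 2)⁻¹ := eq_inv_of_mul_eq_one_left hr
  rw [hm, show 9 * σ - 300 - g = 9 * σ + (-300 - g) by ring, Real.exp_add]
  generalize Real.exp (9 * σ) = A
  rw [e]
  field_simp
  ring

theorem An8_wf (z : TT) : wf z ≤ 64 := by
  have k : ∀ μ, ‖1 - chr μ z‖ ≤ 2 := fun μ =>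
    (norm_sub_le _ _).trans (by rw [norm_one, norm_chr_apply]; norm_num)
  change ‖_‖ ^ 2 ≤ _
  rw [norm_mul, norm_mul]
  calc _ ≤ (2 * 2 * 2 : ℝ) ^ 2 := by
        gcongr
        exacts [k _, k _, k _]
    _ = _ := by norm_num

theorem lower2 {l : ℤ × ℤ} (hl : Good l) (g : ℝ) :
    ∃ δ : ℝ, 0 < δ ∧ ∃ σ0 : ℝ, ∀ σ, σ0 ≤ σ → ∀ γ : C(TT, ℝ), (∀ z, |γ z| ≤ g) →
      δ * Real.exp (9 * σ) / σ ^ 4 ≤ ∫ z, Wf l z * Real.exp (σ * xf z + γ z) ∂mT := by
  have d0 : 0 < Real.exp (-300 - g) / 400 := by positivity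
  rcases hl with rfl | rfl
  · exact ⟨_, d0, 25, fun σ hσ γ hγ => by simpa only [Wf, if_true] using An8_zero g hσ γ hγ⟩
  generalize hd : Real.exp (-300 - g) / 400 = d at d0
  refine ⟨d / 2, by positivity, max 25 (256 * Real.exp g / d), fun σ hσ γ hγ => ?_⟩
  obtain ⟨s1, s2⟩ := max_le_iff.1 hσ
  have s0 : 0 < σ := by linarith only [s1]
  have k := An8_zero g s1 γ hγ
  rw [hd] at k
  have pt : ∀ z, wf z * Real.exp (σ * xf z + γ z) - 128 * Real.exp (2 * σ + g) ≤
      Wf (1, 1) z * Real.exp (σ * xf z + γ z) := fun z => by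
    have e : Wf (1, 1) z = wf z * (xf z - 1) := by simp [Wf]
    have w0 := wf_nonneg z
    have w1 := An8_wf z
    have x0 := xf_nonneg z
    have e0 := Real.exp_pos (σ * xf z + γ z)
    have e1 := Real.exp_pos (2 * σ + g)
    rw [e]
    rcases le_total 2 (xf z) with c | c
    · linarith only [e1, w0, c, e0, mul_nonneg (mul_nonneg w0 (sub_nonneg.2 c)) e0.le]
    · have e2 : Real.exp (σ * xf z + γ z) ≤ Real.exp (2 * σ + g) :=
        Real.exp_le_exp.2 (by linarith only [c, hγ, s1, (abs_le.1 (hγ z)).2, mul_nonneg_of_nonpos_of_nonpos (Mathlib.Tactic.Linarith.sub_nonpos_of_le s1) (Mathlib.Tactic.Linarith.sub_nonpos_of_le c)])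
      have e3 : wf z * Real.exp (σ * xf z + γ z) ≤ 64 * Real.exp (2 * σ + g) :=
        mul_le_mul w1 e2 e0.le (by norm_num)
      linarith only [e3, w0, x0, e0, mul_nonneg (mul_nonneg w0 x0) e0.le]
  have i1 : Integrable (fun z => wf z * Real.exp (σ * xf z + γ z)) mT := An8_int (by fun_prop)
  have k2 := integral_mono (i1.sub (integrable_const (128 * Real.exp (2 * σ + g))))
    (An8_int (F := fun z => Wf (1, 1) z * Real.exp (σ * xf z + γ z)) (by fun_prop)) pt
  simp only [Pi.sub_apply] at k2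
  rw [integral_sub i1 (integrable_const _), integral_const, probReal_univ, one_smul] at k2
  refine le_trans ?_ k2
  have k3 : σ ^ 5 ≤ Real.exp (7 * σ) := by
    calc σ ^ 5 ≤ Real.exp σ ^ 5 := by
          gcongr
          linarith only [Real.add_one_le_exp σ]
      _ = Real.exp (5 * σ) := by rw [← Real.exp_nat_mul]; norm_num
      _ ≤ _ := Real.exp_le_exp.2 (by linarith only [s1])
  have k4 : 128 * Real.exp (2 * σ + g) ≤ d / 2 * Real.exp (9 * σ) / σ ^ 4 := by
    rw [le_div_iff₀ (by positivity), show 9 * σ = 2 * σ + 7 * σ by ring, Real.exp_add,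
      Real.exp_add]
    rw [div_le_iff₀ d0] at s2
    calc 128 * (Real.exp (2 * σ) * Real.exp g) * σ ^ 4
        = Real.exp (2 * σ) / 2 * σ ^ 4 * (256 * Real.exp g) := by ring
      _ ≤ Real.exp (2 * σ) / 2 * σ ^ 4 * (σ * d) := by gcongr
      _ = d / 2 * (Real.exp (2 * σ) * σ ^ 5) := by ring
      _ ≤ _ := by gcongr
  have k5 : d * Real.exp (9 * σ) / σ ^ 4 = 2 * (d / 2 * Real.exp (9 * σ) / σ ^ 4) := by ring
  linarith only [k, k4, k5]

end Pool.Agent.Work.MP_894cc0_al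
end
end

-- merged part: Pool.Agent.Work.MP_894cc0_al.RDefs
section
/-! Chevalley basis of `sl3`, weight spaces, highest weight vectors, Casimir operator. -/

open LieAlgebra.SpecialLinear

namespace Pool.Agent.Work.MP_894cc0_al

noncomputable section

variable (K : Type*) [Field K] [CharZero K]

def e1 : Sl3 K := single 0 1 (by decide) 1
def e2 : Sl3 K := single 1 2 (by decide) 1
def e3 : Sl3 K := single 0 2 (by decide) 1
def f1 : Sl3 K := single 1 0 (by decide) 1
def f2 : Sl3 K := single 2 1 (by decide) 1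
def f3 : Sl3 K := single 2 0 (by decide) 1
def h1 : Sl3 K := singleSubSingle 0 1 1
def h2 : Sl3 K := singleSubSingle 1 2 1

/-- The Chevalley basis vectors. -/
def sv : Fin 8 → Sl3 K := ![e1 K, e2 K, e3 K, f1 K, f2 K, f3 K, h1 K, h2 K]

theorem e1_val : (e1 K).val = !![0,1,0;0,0,0;0,0,0] := by
  ext i j; fin_cases i <;> fin_cases j <;> simp [e1]

theorem e2_val : (e2 K).val = !![0,0,0;0,0,1;0,0,0] := by
  ext i j; fin_cases i <;> fin_cases j <;> simp [e2]

theorem e3_val : (e3 K).val = !![0,0,1;0,0,0;0,0,0] := by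
  ext i j; fin_cases i <;> fin_cases j <;> simp [e3]

theorem f1_val : (f1 K).val = !![0,0,0;1,0,0;0,0,0] := by
  ext i j; fin_cases i <;> fin_cases j <;> simp [f1]

theorem f2_val : (f2 K).val = !![0,0,0;0,0,0;0,1,0] := by
  ext i j; fin_cases i <;> fin_cases j <;> simp [f2]

theorem f3_val : (f3 K).val = !![0,0,0;0,0,0;1,0,0] := by
  ext i j; fin_cases i <;> fin_cases j <;> simp [f3]

theorem h1_val : (h1 K).val = !![1,0,0;0,-1,0;0,0,0] := by
  ext i j; fin_cases i <;> fin_cases j <;> simp [h1]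

theorem h2_val : (h2 K).val = !![0,0,0;0,1,0;0,0,-1] := by
  ext i j; fin_cases i <;> fin_cases j <;> simp [h2]

/-! The bracket table (rewrite with `lie_x_y`). -/

theorem lie_e1_e2 : ⁅e1 K, e2 K⁆ = e3 K := by
  refine Subtype.ext ?_
  rw [sl_bracket]
  simp only [AddMemClass.coe_add, AddSubgroupClass.coe_sub, NegMemClass.coe_neg, SetLike.val_smul, ZeroMemClass.coe_zero,
    e1_val, e2_val, e3_val, f1_val, f2_val, f3_val, h1_val, h2_val, Matrix.mul_fin_three]
  ext i j; fin_cases i <;> fin_cases j <;> simp <;> norm_num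

theorem lie_e1_e3 : ⁅e1 K, e3 K⁆ = 0 := by
  refine Subtype.ext ?_
  rw [sl_bracket]
  simp only [AddMemClass.coe_add, AddSubgroupClass.coe_sub, NegMemClass.coe_neg, SetLike.val_smul, ZeroMemClass.coe_zero,
    e1_val, e2_val, e3_val, f1_val, f2_val, f3_val, h1_val, h2_val, Matrix.mul_fin_three]
  ext i j; fin_cases i <;> fin_cases j <;> simp <;> norm_num

theorem lie_e1_f1 : ⁅e1 K, f1 K⁆ = h1 K := by
  refine Subtype.ext ?_
  rw [sl_bracket]
  simp only [AddMemClass.coe_add, AddSubgroupClass.coe_sub, NegMemClass.coe_neg, SetLike.val_smul, ZeroMemClass.coe_zero,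
    e1_val, e2_val, e3_val, f1_val, f2_val, f3_val, h1_val, h2_val, Matrix.mul_fin_three]
  ext i j; fin_cases i <;> fin_cases j <;> simp <;> norm_num

theorem lie_e1_f2 : ⁅e1 K, f2 K⁆ = 0 := by
  refine Subtype.ext ?_
  rw [sl_bracket]
  simp only [AddMemClass.coe_add, AddSubgroupClass.coe_sub, NegMemClass.coe_neg, SetLike.val_smul, ZeroMemClass.coe_zero,
    e1_val, e2_val, e3_val, f1_val, f2_val, f3_val, h1_val, h2_val, Matrix.mul_fin_three]
  ext i j; fin_cases i <;> fin_cases j <;> simp <;> norm_num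

theorem lie_e1_f3 : ⁅e1 K, f3 K⁆ = -(f2 K) := by
  refine Subtype.ext ?_
  rw [sl_bracket]
  simp only [AddMemClass.coe_add, AddSubgroupClass.coe_sub, NegMemClass.coe_neg, SetLike.val_smul, ZeroMemClass.coe_zero,
    e1_val, e2_val, e3_val, f1_val, f2_val, f3_val, h1_val, h2_val, Matrix.mul_fin_three]
  ext i j; fin_cases i <;> fin_cases j <;> simp <;> norm_num

theorem lie_e1_h1 : ⁅e1 K, h1 K⁆ = -((2 : K) • e1 K) := by
  refine Subtype.ext ?_
  rw [sl_bracket]
  simp only [AddMemClass.coe_add, AddSubgroupClass.coe_sub, NegMemClass.coe_neg, SetLike.val_smul, ZeroMemClass.coe_zero,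
    e1_val, e2_val, e3_val, f1_val, f2_val, f3_val, h1_val, h2_val, Matrix.mul_fin_three]
  ext i j; fin_cases i <;> fin_cases j <;> simp <;> norm_num

theorem lie_e1_h2 : ⁅e1 K, h2 K⁆ = e1 K := by
  refine Subtype.ext ?_
  rw [sl_bracket]
  simp only [AddMemClass.coe_add, AddSubgroupClass.coe_sub, NegMemClass.coe_neg, SetLike.val_smul, ZeroMemClass.coe_zero,
    e1_val, e2_val, e3_val, f1_val, f2_val, f3_val, h1_val, h2_val, Matrix.mul_fin_three]
  ext i j; fin_cases i <;> fin_cases j <;> simp <;> norm_num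

theorem lie_e2_e3 : ⁅e2 K, e3 K⁆ = 0 := by
  refine Subtype.ext ?_
  rw [sl_bracket]
  simp only [AddMemClass.coe_add, AddSubgroupClass.coe_sub, NegMemClass.coe_neg, SetLike.val_smul, ZeroMemClass.coe_zero,
    e1_val, e2_val, e3_val, f1_val, f2_val, f3_val, h1_val, h2_val, Matrix.mul_fin_three]
  ext i j; fin_cases i <;> fin_cases j <;> simp <;> norm_num

theorem lie_e2_f1 : ⁅e2 K, f1 K⁆ = 0 := by
  refine Subtype.ext ?_
  rw [sl_bracket]
  simp only [AddMemClass.coe_add, AddSubgroupClass.coe_sub, NegMemClass.coe_neg, SetLike.val_smul, ZeroMemClass.coe_zero,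
    e1_val, e2_val, e3_val, f1_val, f2_val, f3_val, h1_val, h2_val, Matrix.mul_fin_three]
  ext i j; fin_cases i <;> fin_cases j <;> simp <;> norm_num

theorem lie_e2_f2 : ⁅e2 K, f2 K⁆ = h2 K := by
  refine Subtype.ext ?_
  rw [sl_bracket]
  simp only [AddMemClass.coe_add, AddSubgroupClass.coe_sub, NegMemClass.coe_neg, SetLike.val_smul, ZeroMemClass.coe_zero,
    e1_val, e2_val, e3_val, f1_val, f2_val, f3_val, h1_val, h2_val, Matrix.mul_fin_three]
  ext i j; fin_cases i <;> fin_cases j <;> simp <;> norm_num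

theorem lie_e2_f3 : ⁅e2 K, f3 K⁆ = f1 K := by
  refine Subtype.ext ?_
  rw [sl_bracket]
  simp only [AddMemClass.coe_add, AddSubgroupClass.coe_sub, NegMemClass.coe_neg, SetLike.val_smul, ZeroMemClass.coe_zero,
    e1_val, e2_val, e3_val, f1_val, f2_val, f3_val, h1_val, h2_val, Matrix.mul_fin_three]
  ext i j; fin_cases i <;> fin_cases j <;> simp <;> norm_num

theorem lie_e2_h1 : ⁅e2 K, h1 K⁆ = e2 K := by
  refine Subtype.ext ?_
  rw [sl_bracket]
  simp only [AddMemClass.coe_add, AddSubgroupClass.coe_sub, NegMemClass.coe_neg, SetLike.val_smul, ZeroMemClass.coe_zero,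
    e1_val, e2_val, e3_val, f1_val, f2_val, f3_val, h1_val, h2_val, Matrix.mul_fin_three]
  ext i j; fin_cases i <;> fin_cases j <;> simp <;> norm_num

theorem lie_e2_h2 : ⁅e2 K, h2 K⁆ = -((2 : K) • e2 K) := by
  refine Subtype.ext ?_
  rw [sl_bracket]
  simp only [AddMemClass.coe_add, AddSubgroupClass.coe_sub, NegMemClass.coe_neg, SetLike.val_smul, ZeroMemClass.coe_zero,
    e1_val, e2_val, e3_val, f1_val, f2_val, f3_val, h1_val, h2_val, Matrix.mul_fin_three]
  ext i j; fin_cases i <;> fin_cases j <;> simp <;> norm_num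

theorem lie_e3_f1 : ⁅e3 K, f1 K⁆ = -(e2 K) := by
  refine Subtype.ext ?_
  rw [sl_bracket]
  simp only [AddMemClass.coe_add, AddSubgroupClass.coe_sub, NegMemClass.coe_neg, SetLike.val_smul, ZeroMemClass.coe_zero,
    e1_val, e2_val, e3_val, f1_val, f2_val, f3_val, h1_val, h2_val, Matrix.mul_fin_three]
  ext i j; fin_cases i <;> fin_cases j <;> simp <;> norm_num

theorem lie_e3_f2 : ⁅e3 K, f2 K⁆ = e1 K := by
  refine Subtype.ext ?_
  rw [sl_bracket]
  simp only [AddMemClass.coe_add, AddSubgroupClass.coe_sub, NegMemClass.coe_neg, SetLike.val_smul, ZeroMemClass.coe_zero,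
    e1_val, e2_val, e3_val, f1_val, f2_val, f3_val, h1_val, h2_val, Matrix.mul_fin_three]
  ext i j; fin_cases i <;> fin_cases j <;> simp <;> norm_num

theorem lie_e3_f3 : ⁅e3 K, f3 K⁆ = h1 K + h2 K := by
  refine Subtype.ext ?_
  rw [sl_bracket]
  simp only [AddMemClass.coe_add, AddSubgroupClass.coe_sub, NegMemClass.coe_neg, SetLike.val_smul, ZeroMemClass.coe_zero,
    e1_val, e2_val, e3_val, f1_val, f2_val, f3_val, h1_val, h2_val, Matrix.mul_fin_three]
  ext i j; fin_cases i <;> fin_cases j <;> simp <;> norm_num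

theorem lie_e3_h1 : ⁅e3 K, h1 K⁆ = -(e3 K) := by
  refine Subtype.ext ?_
  rw [sl_bracket]
  simp only [AddMemClass.coe_add, AddSubgroupClass.coe_sub, NegMemClass.coe_neg, SetLike.val_smul, ZeroMemClass.coe_zero,
    e1_val, e2_val, e3_val, f1_val, f2_val, f3_val, h1_val, h2_val, Matrix.mul_fin_three]
  ext i j; fin_cases i <;> fin_cases j <;> simp <;> norm_num

theorem lie_e3_h2 : ⁅e3 K, h2 K⁆ = -(e3 K) := by
  refine Subtype.ext ?_
  rw [sl_bracket]
  simp only [AddMemClass.coe_add, AddSubgroupClass.coe_sub, NegMemClass.coe_neg, SetLike.val_smul, ZeroMemClass.coe_zero,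
    e1_val, e2_val, e3_val, f1_val, f2_val, f3_val, h1_val, h2_val, Matrix.mul_fin_three]
  ext i j; fin_cases i <;> fin_cases j <;> simp <;> norm_num

theorem lie_f1_f2 : ⁅f1 K, f2 K⁆ = -(f3 K) := by
  refine Subtype.ext ?_
  rw [sl_bracket]
  simp only [AddMemClass.coe_add, AddSubgroupClass.coe_sub, NegMemClass.coe_neg, SetLike.val_smul, ZeroMemClass.coe_zero,
    e1_val, e2_val, e3_val, f1_val, f2_val, f3_val, h1_val, h2_val, Matrix.mul_fin_three]
  ext i j; fin_cases i <;> fin_cases j <;> simp <;> norm_num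

theorem lie_f1_f3 : ⁅f1 K, f3 K⁆ = 0 := by
  refine Subtype.ext ?_
  rw [sl_bracket]
  simp only [AddMemClass.coe_add, AddSubgroupClass.coe_sub, NegMemClass.coe_neg, SetLike.val_smul, ZeroMemClass.coe_zero,
    e1_val, e2_val, e3_val, f1_val, f2_val, f3_val, h1_val, h2_val, Matrix.mul_fin_three]
  ext i j; fin_cases i <;> fin_cases j <;> simp <;> norm_num

theorem lie_f1_h1 : ⁅f1 K, h1 K⁆ = (2 : K) • f1 K := by
  refine Subtype.ext ?_
  rw [sl_bracket]
  simp only [AddMemClass.coe_add, AddSubgroupClass.coe_sub, NegMemClass.coe_neg, SetLike.val_smul, ZeroMemClass.coe_zero,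
    e1_val, e2_val, e3_val, f1_val, f2_val, f3_val, h1_val, h2_val, Matrix.mul_fin_three]
  ext i j; fin_cases i <;> fin_cases j <;> simp <;> norm_num

theorem lie_f1_h2 : ⁅f1 K, h2 K⁆ = -(f1 K) := by
  refine Subtype.ext ?_
  rw [sl_bracket]
  simp only [AddMemClass.coe_add, AddSubgroupClass.coe_sub, NegMemClass.coe_neg, SetLike.val_smul, ZeroMemClass.coe_zero,
    e1_val, e2_val, e3_val, f1_val, f2_val, f3_val, h1_val, h2_val, Matrix.mul_fin_three]
  ext i j; fin_cases i <;> fin_cases j <;> simp <;> norm_num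

theorem lie_f2_f3 : ⁅f2 K, f3 K⁆ = 0 := by
  refine Subtype.ext ?_
  rw [sl_bracket]
  simp only [AddMemClass.coe_add, AddSubgroupClass.coe_sub, NegMemClass.coe_neg, SetLike.val_smul, ZeroMemClass.coe_zero,
    e1_val, e2_val, e3_val, f1_val, f2_val, f3_val, h1_val, h2_val, Matrix.mul_fin_three]
  ext i j; fin_cases i <;> fin_cases j <;> simp <;> norm_num

theorem lie_f2_h1 : ⁅f2 K, h1 K⁆ = -(f2 K) := by
  refine Subtype.ext ?_
  rw [sl_bracket]
  simp only [AddMemClass.coe_add, AddSubgroupClass.coe_sub, NegMemClass.coe_neg, SetLike.val_smul, ZeroMemClass.coe_zero,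
    e1_val, e2_val, e3_val, f1_val, f2_val, f3_val, h1_val, h2_val, Matrix.mul_fin_three]
  ext i j; fin_cases i <;> fin_cases j <;> simp <;> norm_num

theorem lie_f2_h2 : ⁅f2 K, h2 K⁆ = (2 : K) • f2 K := by
  refine Subtype.ext ?_
  rw [sl_bracket]
  simp only [AddMemClass.coe_add, AddSubgroupClass.coe_sub, NegMemClass.coe_neg, SetLike.val_smul, ZeroMemClass.coe_zero,
    e1_val, e2_val, e3_val, f1_val, f2_val, f3_val, h1_val, h2_val, Matrix.mul_fin_three]
  ext i j; fin_cases i <;> fin_cases j <;> simp <;> norm_num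

theorem lie_f3_h1 : ⁅f3 K, h1 K⁆ = f3 K := by
  refine Subtype.ext ?_
  rw [sl_bracket]
  simp only [AddMemClass.coe_add, AddSubgroupClass.coe_sub, NegMemClass.coe_neg, SetLike.val_smul, ZeroMemClass.coe_zero,
    e1_val, e2_val, e3_val, f1_val, f2_val, f3_val, h1_val, h2_val, Matrix.mul_fin_three]
  ext i j; fin_cases i <;> fin_cases j <;> simp <;> norm_num

theorem lie_f3_h2 : ⁅f3 K, h2 K⁆ = f3 K := by
  refine Subtype.ext ?_
  rw [sl_bracket]
  simp only [AddMemClass.coe_add, AddSubgroupClass.coe_sub, NegMemClass.coe_neg, SetLike.val_smul, ZeroMemClass.coe_zero,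
    e1_val, e2_val, e3_val, f1_val, f2_val, f3_val, h1_val, h2_val, Matrix.mul_fin_three]
  ext i j; fin_cases i <;> fin_cases j <;> simp <;> norm_num

theorem lie_h1_h2 : ⁅h1 K, h2 K⁆ = 0 := by
  refine Subtype.ext ?_
  rw [sl_bracket]
  simp only [AddMemClass.coe_add, AddSubgroupClass.coe_sub, NegMemClass.coe_neg, SetLike.val_smul, ZeroMemClass.coe_zero,
    e1_val, e2_val, e3_val, f1_val, f2_val, f3_val, h1_val, h2_val, Matrix.mul_fin_three]
  ext i j; fin_cases i <;> fin_cases j <;> simp <;> norm_num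

theorem lie_e2_e1 : ⁅e2 K, e1 K⁆ = -(e3 K) := by
  rw [← lie_skew, lie_e1_e2] <;> module

theorem lie_e3_e1 : ⁅e3 K, e1 K⁆ = 0 := by
  rw [← lie_skew, lie_e1_e3] <;> module

theorem lie_e3_e2 : ⁅e3 K, e2 K⁆ = 0 := by
  rw [← lie_skew, lie_e2_e3] <;> module

theorem lie_f1_e1 : ⁅f1 K, e1 K⁆ = -(h1 K) := by
  rw [← lie_skew, lie_e1_f1] <;> module

theorem lie_f1_e2 : ⁅f1 K, e2 K⁆ = 0 := by
  rw [← lie_skew, lie_e2_f1] <;> module

theorem lie_f1_e3 : ⁅f1 K, e3 K⁆ = e2 K := by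
  rw [← lie_skew, lie_e3_f1] <;> module

theorem lie_f2_e1 : ⁅f2 K, e1 K⁆ = 0 := by
  rw [← lie_skew, lie_e1_f2] <;> module

theorem lie_f2_e2 : ⁅f2 K, e2 K⁆ = -(h2 K) := by
  rw [← lie_skew, lie_e2_f2] <;> module

theorem lie_f2_e3 : ⁅f2 K, e3 K⁆ = -(e1 K) := by
  rw [← lie_skew, lie_e3_f2] <;> module

theorem lie_f2_f1 : ⁅f2 K, f1 K⁆ = f3 K := by
  rw [← lie_skew, lie_f1_f2] <;> module

theorem lie_f3_e1 : ⁅f3 K, e1 K⁆ = f2 K := by
  rw [← lie_skew, lie_e1_f3] <;> module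

theorem lie_f3_e2 : ⁅f3 K, e2 K⁆ = -(f1 K) := by
  rw [← lie_skew, lie_e2_f3] <;> module

theorem lie_f3_e3 : ⁅f3 K, e3 K⁆ = -(h1 K) - h2 K := by
  rw [← lie_skew, lie_e3_f3] <;> module

theorem lie_f3_f1 : ⁅f3 K, f1 K⁆ = 0 := by
  rw [← lie_skew, lie_f1_f3] <;> module

theorem lie_f3_f2 : ⁅f3 K, f2 K⁆ = 0 := by
  rw [← lie_skew, lie_f2_f3] <;> module

theorem lie_h1_e1 : ⁅h1 K, e1 K⁆ = (2 : K) • e1 K := by
  rw [← lie_skew, lie_e1_h1] <;> module

theorem lie_h1_e2 : ⁅h1 K, e2 K⁆ = -(e2 K) := by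
  rw [← lie_skew, lie_e2_h1] <;> module

theorem lie_h1_e3 : ⁅h1 K, e3 K⁆ = e3 K := by
  rw [← lie_skew, lie_e3_h1] <;> module

theorem lie_h1_f1 : ⁅h1 K, f1 K⁆ = -((2 : K) • f1 K) := by
  rw [← lie_skew, lie_f1_h1] <;> module

theorem lie_h1_f2 : ⁅h1 K, f2 K⁆ = f2 K := by
  rw [← lie_skew, lie_f2_h1] <;> module

theorem lie_h1_f3 : ⁅h1 K, f3 K⁆ = -(f3 K) := by
  rw [← lie_skew, lie_f3_h1] <;> module

theorem lie_h2_e1 : ⁅h2 K, e1 K⁆ = -(e1 K) := by
  rw [← lie_skew, lie_e1_h2] <;> module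

theorem lie_h2_e2 : ⁅h2 K, e2 K⁆ = (2 : K) • e2 K := by
  rw [← lie_skew, lie_e2_h2] <;> module

theorem lie_h2_e3 : ⁅h2 K, e3 K⁆ = e3 K := by
  rw [← lie_skew, lie_e3_h2] <;> module

theorem lie_h2_f1 : ⁅h2 K, f1 K⁆ = f1 K := by
  rw [← lie_skew, lie_f1_h2] <;> module

theorem lie_h2_f2 : ⁅h2 K, f2 K⁆ = -((2 : K) • f2 K) := by
  rw [← lie_skew, lie_f2_h2] <;> module

theorem lie_h2_f3 : ⁅h2 K, f3 K⁆ = -(f3 K) := by
  rw [← lie_skew, lie_f3_h2] <;> module

theorem lie_h2_h1 : ⁅h2 K, h1 K⁆ = 0 := by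
  rw [← lie_skew, lie_h1_h2] <;> module

theorem sl_decomp (X : Sl3 K) : X = X.val 0 1 • e1 K + X.val 1 2 • e2 K + X.val 0 2 • e3 K
    + X.val 1 0 • f1 K + X.val 2 1 • f2 K + X.val 2 0 • f3 K + X.val 0 0 • h1 K
    + (X.val 0 0 + X.val 1 1) • h2 K := by
  refine Subtype.ext (Matrix.ext fun i j => ?_)
  fin_cases i <;> fin_cases j <;>
    simp [e1_val, e2_val, e3_val, f1_val, f2_val, f3_val, h1_val, h2_val, sl_22 K X]
  ring

/-- Induction over the Chevalley basis. -/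
theorem sl_ind {P : Sl3 K → Prop} (hv : ∀ i, P (sv K i)) (ha : ∀ X Y, P X → P Y → P (X + Y))
    (hs : ∀ (c : K) X, P X → P (c • X)) (X : Sl3 K) : P X := by
  rw [sl_decomp K X]
  exact ha _ _ (ha _ _ (ha _ _ (ha _ _ (ha _ _ (ha _ _ (ha _ _ (hs _ _ (hv 0)) (hs _ _ (hv 1)))
    (hs _ _ (hv 2))) (hs _ _ (hv 3))) (hs _ _ (hv 4))) (hs _ _ (hv 5))) (hs _ _ (hv 6)))
    (hs _ _ (hv 7))

theorem sv_li : LinearIndependent K (sv K) := by
  refine Fintype.linearIndependent_iff.2 fun c hc i => ?_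
  have h : ∀ a b, (∑ i, c i • sv K i).val a b = 0 := fun a b => by rw [hc]; rfl
  have h01 := h 0 1
  have h12 := h 1 2
  have h02 := h 0 2
  have h10 := h 1 0
  have h21 := h 2 1
  have h20 := h 2 0
  have h00 := h 0 0
  have h22 := h 2 2
  simp [Fin.sum_univ_eight, sv, e1_val, e2_val, e3_val, f1_val, f2_val, f3_val, h1_val, h2_val]
    at h01 h12 h02 h10 h21 h20 h00 h22
  fin_cases i <;> assumption

/-- The Chevalley basis. -/
def slb : Module.Basis (Fin 8) K (Sl3 K) :=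
  Module.Basis.mk (sv_li K) (fun X _ => sl_ind K (P := fun X => X ∈ Submodule.span K (Set.range (sv K)))
    (fun i => Submodule.subset_span ⟨i, rfl⟩) (fun _ _ => add_mem) (fun c _ => Submodule.smul_mem _ c) X)

theorem slb_apply (i : Fin 8) : slb K i = sv K i := Module.Basis.mk_apply _ _ i

instance : FiniteDimensional K (Sl3 K) := Module.Finite.of_basis (slb K)

variable (M : Type*) [AddCommGroup M] [Module K M] [LieRingModule (Sl3 K) M]
  [LieModule K (Sl3 K) M]

/-- Weight space of the integral weight `μ`. -/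
def wtSp (μ : ℤ × ℤ) : Submodule K M where
  carrier := {v | ⁅h1 K, v⁆ = (μ.1 : K) • v ∧ ⁅h2 K, v⁆ = (μ.2 : K) • v}
  add_mem' ha hb := ⟨by rw [lie_add, ha.1, hb.1, smul_add], by rw [lie_add, ha.2, hb.2, smul_add]⟩
  zero_mem' := ⟨by simp, by simp⟩
  smul_mem' c v hv := ⟨by rw [lie_smul, hv.1, smul_comm], by rw [lie_smul, hv.2, smul_comm]⟩

/-- `M` is spanned by integral weight vectors. -/
def IsWt : Prop := ⨆ μ, wtSp K M μ = ⊤

/-- Highest weight vectors of weight `μ` (and zero). -/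
def hw (μ : ℤ × ℤ) : Submodule K M where
  carrier := {v | v ∈ wtSp K M μ ∧ ⁅e1 K, v⁆ = 0 ∧ ⁅e2 K, v⁆ = 0}
  add_mem' ha hb := ⟨add_mem ha.1 hb.1, by rw [lie_add, ha.2.1, hb.2.1, add_zero],
    by rw [lie_add, ha.2.2, hb.2.2, add_zero]⟩
  zero_mem' := ⟨zero_mem _, by simp, by simp⟩
  smul_mem' c v hv := ⟨Submodule.smul_mem _ c hv.1, by rw [lie_smul, hv.2.1, smul_zero],
    by rw [lie_smul, hv.2.2, smul_zero]⟩

/-- The action of `X` as an endomorphism. -/
abbrev ro (X : Sl3 K) : Module.End K M := LieModule.toEnd K (Sl3 K) M X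

/-- The Casimir operator. -/
def cas : Module.End K M :=
  ro K M (e1 K) * ro K M (f1 K) + ro K M (f1 K) * ro K M (e1 K)
  + (ro K M (e2 K) * ro K M (f2 K) + ro K M (f2 K) * ro K M (e2 K))
  + (ro K M (e3 K) * ro K M (f3 K) + ro K M (f3 K) * ro K M (e3 K))
  + (2 / 3 : K) • (ro K M (h1 K) * ro K M (h1 K) + ro K M (h1 K) * ro K M (h2 K)
    + ro K M (h2 K) * ro K M (h2 K))

/-- The value of the Casimir operator on a highest weight vector of weight `μ`. -/
def cval (μ : ℤ × ℤ) : K :=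
  (2 / 3 : K) * ((μ.1 : K) ^ 2 + μ.1 * μ.2 + (μ.2 : K) ^ 2) + 2 * (μ.1 + μ.2)

/-- `cas - cval l`. -/
def casT (l : ℤ × ℤ) : Module.End K M := cas K M - cval K l • (1 : Module.End K M)

/-- `S` is a weight module generated by the nonzero highest weight vector `s0` of weight `l`. -/
structure Std (l : ℤ × ℤ) (s0 : M) : Prop where
  wt : IsWt K M
  mem : s0 ∈ hw K M l
  ne : s0 ≠ 0
  span : LieSubmodule.lieSpan K (Sl3 K) {s0} = ⊤

end

end Pool.Agent.Work.MP_894cc0_al
end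

-- merged part: Pool.Agent.Work.MP_894cc0_al.Artin
section
/-! Artin's theorem and the word basis of the free alternative algebra on two generators. -/

namespace Pool.Agent.Work.MP_894cc0_al

section Words

variable {A : Type*} [NonUnitalNonAssocRing A] (g : Fin 2 → A)

/-- Right-normed product of the letters of a word. -/
def Artin_wd : Fin 2 → List (Fin 2) → A
  | x, [] => g x
  | x, y :: l => g x * Artin_wd y l

/-- The value of a word. -/
def Artin_ev (w : Wd) : A := Artin_wd g w.head w.tail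

theorem Artin_ev_of (x : Fin 2) : Artin_ev g (FreeSemigroup.of x) = g x := rfl

theorem Artin_ev_cons (x : Fin 2) (w : Wd) :
    Artin_ev g (FreeSemigroup.of x * w) = g x * Artin_ev g w := rfl

theorem Artin_cases (w : Wd) :
    w = FreeSemigroup.of w.head ∨ ∃ v : Wd, w = FreeSemigroup.of w.head * v := by
  obtain ⟨x, _ | ⟨y, l⟩⟩ := w
  · exact Or.inl rfl
  · exact Or.inr ⟨⟨y, l⟩, rfl⟩

theorem Artin_pos (w : Wd) : 1 ≤ w.length := Nat.le_add_left _ _

/-- Associators of words of total length at most `n` vanish. -/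
def Artin_P (n : ℕ) : Prop := ∀ u v w : Wd, u.length + v.length + w.length ≤ n →
  asc (Artin_ev g u) (Artin_ev g v) (Artin_ev g w) = 0

variable {g}

theorem Artin_mul {n : ℕ} (h : Artin_P g n) (u v : Wd) (hn : u.length + v.length ≤ n) :
    Artin_ev g u * Artin_ev g v = Artin_ev g (u * v) := by
  induction u using FreeSemigroup.recOnMul with
  | ih1 x => rfl
  | ih2 x u _ ih =>
    rw [FreeSemigroup.length_mul] at hn
    have h1 := sub_eq_zero.1 (h (FreeSemigroup.of x) u v hn)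
    rw [mul_assoc, Artin_ev_cons, Artin_ev_cons, ← ih (by omega)]
    exact h1

variable [IsAlt A]

theorem Artin_one (h2 : ∀ a : A, a + a = 0 → a = 0) {n : ℕ} (h : Artin_P g n) (p r : Wd)
    (x : Fin 2) (hn : p.length + 1 + r.length ≤ n) :
    asc (Artin_ev g p) (g x * Artin_ev g r) (g x) = 0 := by
  have h1 := asc_mouf (Artin_ev g p) (g x) (Artin_ev g r) (g x)
  have h3 : asc (Artin_ev g p) (g x) (Artin_ev g r) = 0 := h p (FreeSemigroup.of x) r hn
  rw [h3, zero_mul, add_zero, add_zero] at h1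
  exact h2 _ h1

theorem Artin_key (h2 : ∀ a : A, a + a = 0 → a = 0) {n : ℕ} (h : Artin_P g n) (p q r : Wd)
    (e : q.head = r.head) (hn : p.length + q.length + r.length ≤ n + 1) :
    asc (Artin_ev g r) (Artin_ev g q) (Artin_ev g p) = 0 := by
  have hp := Artin_pos p
  have hq := Artin_cases q
  have hr := Artin_cases r
  rw [e] at hq
  generalize r.head = x at hq hr
  rcases hq with rfl | ⟨q, rfl⟩ <;> rcases hr with rfl | ⟨r, rfl⟩ <;>
    simp only [FreeSemigroup.length_mul, FreeSemigroup.length_of] at hn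
  · exact asc_aab _ _
  · rw [Artin_ev_cons, Artin_ev_of, s231, Artin_one h2 h p r x (by omega)]
  · rw [Artin_ev_cons, Artin_ev_of, s321, Artin_one h2 h p q x (by omega), neg_zero]
  · have hr := Artin_pos r
    have hq := Artin_pos q
    have h1 := asc_mouf (Artin_ev g (FreeSemigroup.of x * r)) (g x) (Artin_ev g q) (Artin_ev g p)
    have h3 : asc (Artin_ev g (FreeSemigroup.of x * r)) (g x) (Artin_ev g q) = 0 :=
      h _ (FreeSemigroup.of x) q (by
        simp only [FreeSemigroup.length_mul, FreeSemigroup.length_of]; omega)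
    have h4 := h (FreeSemigroup.of x * r) p q (by
      simp only [FreeSemigroup.length_mul, FreeSemigroup.length_of]; omega)
    have h5 := Artin_one h2 h (p * q) r x (by rw [FreeSemigroup.length_mul]; omega)
    rw [h3, h4, Artin_mul h p q (by omega), s213 (Artin_ev g (p * q)), Artin_ev_cons g x r, h5,
      zero_mul, zero_mul, neg_zero, add_zero, add_zero, add_zero] at h1
    exact h1

theorem Artin_all (h2 : ∀ a : A, a + a = 0 → a = 0) (n : ℕ) : Artin_P g n := by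
  induction n with
  | zero => exact fun u v w hn => absurd (Artin_pos u) (by omega)
  | succ n ih =>
    intro u v w hn
    have : v.head = u.head ∨ w.head = v.head ∨ u.head = w.head := by
      have := u.head.2
      have := v.head.2
      have := w.head.2
      simp only [Fin.ext_iff]
      omega
    rcases this with e | e | e
    · exact Artin_key h2 ih w v u e (by omega)
    · rw [← s231]
      exact Artin_key h2 ih u w v e (by omega)
    · rw [← s312]
      exact Artin_key h2 ih v u w e (by omega)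

end Words

variable (K : Type*) [Field K] [CharZero K]

/-- The two generators. -/
noncomputable def Artin_g (i : Fin 2) : Alt K (Fin 2 → K) := Alt.of K _ (Pi.single i 1)

theorem Artin_two (a : Alt K (Fin 2 → K)) (h : a + a = 0) : a = 0 := by
  rw [← two_smul K] at h
  exact (smul_eq_zero.1 h).resolve_left two_ne_zero

theorem Artin_ev_mul (u v : Wd) :
    Artin_ev (Artin_g K) (u * v) = Artin_ev (Artin_g K) u * Artin_ev (Artin_g K) v :=
  (Artin_mul (Artin_all (Artin_two K) _) u v le_rfl).symm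

theorem Artin_span (a : Alt K (Fin 2 → K)) :
    a ∈ Submodule.span K (Set.range (Artin_ev (Artin_g K))) := by
  have hw : ∀ w, Artin_ev (Artin_g K) w ∈ Submodule.span K (Set.range (Artin_ev (Artin_g K))) :=
    fun w => Submodule.subset_span ⟨w, rfl⟩
  refine Alt.ind (zero_mem _) (fun v => ?_) (fun _ _ => add_mem) (fun c _ => Submodule.smul_mem _ c)
    (fun x y hx hy => ?_) a
  · have : v = v 0 • Pi.single 0 1 + v 1 • Pi.single 1 1 := by
      funext i
      fin_cases i <;> simp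
    rw [this, map_add, map_smul, map_smul]
    exact add_mem (Submodule.smul_mem _ _ (hw (FreeSemigroup.of 0)))
      (Submodule.smul_mem _ _ (hw (FreeSemigroup.of 1)))
  · induction hx, hy using Submodule.span_induction₂ with
    | mem_mem x y hx hy =>
      obtain ⟨u, rfl⟩ := hx
      obtain ⟨v, rfl⟩ := hy
      rw [← Artin_ev_mul]
      exact hw _
    | zero_left => rw [zero_mul]; exact zero_mem _
    | zero_right => rw [mul_zero]; exact zero_mem _
    | add_left x y z _ _ _ h1 h2 => rw [add_mul]; exact add_mem h1 h2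
    | add_right x y z _ _ _ h1 h2 => rw [mul_add]; exact add_mem h1 h2
    | smul_left c x y _ _ h1 => rw [smul_mul_assoc]; exact Submodule.smul_mem _ c h1
    | smul_right c x y _ _ h1 => rw [mul_smul_comm]; exact Submodule.smul_mem _ c h1

theorem Artin_ind {P : Alt K (Fin 2 → K) → Prop} (h0 : P 0) (hw : ∀ w, P (Artin_ev (Artin_g K) w))
    (ha : ∀ x y, P x → P y → P (x + y)) (hs : ∀ (c : K) x, P x → P (c • x)) (a) : P a :=
  Submodule.span_induction (p := fun x _ => P x) (by rintro _ ⟨w, rfl⟩; exact hw w) h0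
    (fun x y _ _ => ha x y) (fun c x _ => hs c x) (Artin_span K a)

theorem artin (p q r : Alt K (Fin 2 → K)) : p * q * r = p * (q * r) := by
  induction p using Artin_ind K with
  | h0 => simp
  | ha x y hx hy => simp only [add_mul, hx, hy]
  | hs c x hx => simp only [smul_mul_assoc, hx]
  | hw u =>
  induction q using Artin_ind K with
  | h0 => simp
  | ha x y hx hy => simp only [add_mul, mul_add, hx, hy]
  | hs c x hx => simp only [smul_mul_assoc, mul_smul_comm, hx]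
  | hw v =>
  induction r using Artin_ind K with
  | h0 => simp
  | ha x y hx hy => simp only [mul_add, hx, hy]
  | hs c x hx => simp only [mul_smul_comm, hx]
  | hw w => simp only [← Artin_ev_mul, mul_assoc]

omit [CharZero K] in
theorem Artin_li : LinearIndependent K (Artin_ev (Artin_g K)) := by
  haveI : IsAlt (MonoidAlgebra K Wd) := ⟨fun p q => mul_assoc p p q, fun p q => mul_assoc q p p⟩
  let f : (Fin 2 → K) →ₗ[K] MonoidAlgebra K Wd :=
    (Pi.basisFun K (Fin 2)).constr K fun i => MonoidAlgebra.single (FreeSemigroup.of i) 1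
  have h1 : ∀ i, Alt.lift f (Artin_g K i) = MonoidAlgebra.single (FreeSemigroup.of i) 1 := fun i => by
    rw [Artin_g, Alt.lift_of, ← Pi.basisFun_apply, Module.Basis.constr_basis]
  have h2 : ∀ w, Alt.lift f (Artin_ev (Artin_g K) w) = MonoidAlgebra.single w 1 := fun w => by
    induction w using FreeSemigroup.recOnMul with
    | ih1 x => exact h1 x
    | ih2 x w _ ih => rw [Artin_ev_cons, map_mul, h1, ih, MonoidAlgebra.single_mul_single, mul_one]
  refine LinearIndependent.of_comp (Alt.lift f : Alt K (Fin 2 → K) →ₗ[K] MonoidAlgebra K Wd) ?_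
  have h3 : ((Alt.lift f : Alt K (Fin 2 → K) →ₗ[K] MonoidAlgebra K Wd) ∘ Artin_ev (Artin_g K)) =
      MonoidAlgebra.basis Wd K := funext h2
  rw [h3]
  exact (MonoidAlgebra.basis Wd K).linearIndependent

theorem exists_wb : ∃ b : Module.Basis Wd K (Alt K (Fin 2 → K)),
    (∀ u v, b (u * v) = b u * b v) ∧
    ∀ (c : K) w, Alt.map (c • (LinearMap.id : (Fin 2 → K) →ₗ[K] (Fin 2 → K))) (b w)
      = c ^ w.length • b w := by
  refine ⟨Module.Basis.mk (Artin_li K) fun a _ => Artin_span K a, fun u v => ?_, fun c w => ?_⟩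
  · simp only [Module.Basis.mk_apply, Artin_ev_mul]
  · have h1 : ∀ i, Alt.map (c • (LinearMap.id : (Fin 2 → K) →ₗ[K] (Fin 2 → K))) (Artin_g K i) =
        c • Artin_g K i := fun i => by
      rw [Artin_g, Alt.map_of, LinearMap.smul_apply, LinearMap.id_apply, map_smul]
    rw [Module.Basis.mk_apply]
    induction w using FreeSemigroup.recOnMul with
    | ih1 x => rw [FreeSemigroup.length_of, pow_one]; exact h1 x
    | ih2 x w _ ih =>
      rw [Artin_ev_cons, map_mul, h1, ih, FreeSemigroup.length_mul, FreeSemigroup.length_of,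
        smul_mul_smul_comm, pow_add, pow_one]

end Pool.Agent.Work.MP_894cc0_al
end
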