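import Pool.Agent.Work.MP_894cc0_al.Red
import Pool.Agent.Work.MP_894cc0_al.Euler
import Pool.Agent.Work.MP_894cc0_al.An6

/-! Assembly. -/

open Filter

namespace Pool.Agent.Work.MP_894cc0_al

theorem main (K : Type*) [Field K] [CharZero K] (V : Type*) [AddCommGroup V] [Module K V]
    [FiniteDimensional K V] (hV : 2 ≤ Module.finrank K V) {S : Type*} [AddCommGroup S]
    [Module K S] [LieRingModule (Sl3 K) S] [LieModule K (Sl3 K) S] [FiniteDimensional K S]
    {l : ℤ × ℤ} (hl : Good l) {s0 : S} (hS : Std K S l s0) (c : ℝ) (h0 : 0 ≤ c) (hc : c < 2) :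
    ∃ᶠ n in atTop, ∃ k m : ℕ, 2 ≤ k ∧ c ^ n ≤ m ∧ HasSummand K V S k n m := by
  obtain ⟨R, hR⟩ := exists_repSet
  obtain ⟨D, hd, hw, hσ⟩ := exists_gdata K R hR
  set c0 : ℝ := max c 1 with hc0
  have h1 : (1 : ℝ) ≤ c0 := le_max_right _ _
  have h2 : c0 < 2 := max_lt hc one_lt_two
  set c1 : ℝ := (c0 + 2) / 2 with hc1
  have hlt : c0 / c1 < 1 := by rw [div_lt_one (by linarith)]; linarith
  have hev : ∀ᶠ n : ℕ in atTop, (n : ℝ) * (c0 / c1) ^ n < 1 :=
    (tendsto_self_mul_const_pow_of_lt_one (by positivity) hlt).eventually (gt_mem_nhds one_pos)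
  refine (((growth (counts R hR) hl c1 (by linarith) (by linarith)).and_eventually
    (hev.and (eventually_ge_atTop 2))).mono ?_)
  rintro n ⟨hg, hn1, hn2⟩
  obtain ⟨k, m, hk, hb, Φ, Ψ, hΨ, hΦ⟩ := D.euler_bound hl hS hn2
  rw [hd, hw] at hb
  refine ⟨k, m, hk, ?_, hasSummand_of_two K V hV k n m Φ Ψ hΨ (fun x c => ?_)⟩
  · have hb' : c1 ^ n ≤ (n : ℝ) * m := hg.trans (by exact_mod_cast hb)
    have hc1pos : 0 < c1 ^ n := by positivity
    have hnpos : (0 : ℝ) < n := by exact_mod_cast (by omega : 0 < n)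
    rw [div_pow, ← mul_div_assoc, div_lt_one hc1pos] at hn1
    have h3 : c0 ^ n ≤ m := le_of_mul_le_mul_left (hn1.le.trans hb') hnpos
    have h4 : c ^ n ≤ c0 ^ n := pow_le_pow_left₀ h0 (le_max_left _ _) n
    exact h4.trans h3
  · have := (D.mem_Hn.1 (hΦ x)) c
    rwa [hσ] at this

end Pool.Agent.Work.MP_894cc0_al
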