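import Mathlib
import Pool.Agent.Work.MP_894cc0_al.ABG
import Pool.Agent.Work.MP_894cc0_al.Free
import Pool.Agent.Work.MP_894cc0_al.Artin

-- merged part: Pool.Agent.Work.MP_894cc0_al.Defs
section
-- merged part: Pool.Agent.Work.MP_894cc0_al.CE
section
/-! The Chevalley-Eilenberg complex and Lie algebra homology with trivial coefficients. -/

open ExteriorAlgebra

namespace Pool.Agent.Work.MP_894cc0_al

noncomputable section

variable {K : Type*} [Field K]

theorem ext_ind {g : Type*} [AddCommGroup g] [Module K g] {P : ExteriorAlgebra K g → Prop}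
    (h1 : ∀ r : K, P (algebraMap K _ r)) (ha : ∀ x y, P x → P y → P (x + y))
    (hi : ∀ x m, P x → P (ι K m * x)) (x : ExteriorAlgebra K g) : P x :=
  CliffordAlgebra.left_induction (Q := (0 : QuadraticForm K g)) h1 ha hi x

section theta

variable {g : Type*} [AddCommGroup g] [Module K g]

/-- The derivation of the exterior algebra extending a linear map `D`:
`theta D 1 = 0` and `theta D (x ∧ w) = D x ∧ w + x ∧ theta D w`. -/
def theta (D : Module.End K g) : Module.End K (ExteriorAlgebra K g) :=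
  CliffordAlgebra.foldr' (0 : QuadraticForm K g)
    (LinearMap.mk₂ K
      (fun (x : g) (p : ExteriorAlgebra K g × ExteriorAlgebra K g) => ι K (D x) * p.1 + ι K x * p.2)
      (fun x y p => by simp only [map_add, add_mul]; abel)
      (fun c x p => by simp only [map_smul, smul_mul_assoc, smul_add])
      (fun x p q => by simp only [Prod.fst_add, Prod.snd_add, mul_add]; abel)
      (fun c x p => by simp only [Prod.smul_fst, Prod.smul_snd, mul_smul_comm, smul_add]))
    (fun m x fx => by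
      change ι K (D m) * (ι K m * x) + ι K m * (ι K (D m) * x + ι K m * fx) = (0 : K) • fx
      rw [mul_add, ← mul_assoc, ← mul_assoc, ← mul_assoc, ι_sq_zero, ← add_assoc, ← add_mul,
        ι_add_mul_swap]
      simp)
    0

theorem theta_algebraMap (D : Module.End K g) (r : K) : theta D (algebraMap K _ r) = 0 :=
  (CliffordAlgebra.foldr'_algebraMap _ _ _ _ _).trans (smul_zero r)

theorem theta_one (D : Module.End K g) : theta D 1 = 0 := by
  simpa using theta_algebraMap D 1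

theorem theta_ι_mul (D : Module.End K g) (x : g) (w : ExteriorAlgebra K g) :
    theta D (ι K x * w) = ι K (D x) * w + ι K x * theta D w :=
  CliffordAlgebra.foldr'_ι_mul _ _ _ _ _ _

theorem theta_add (D E : Module.End K g) : theta (D + E) = theta D + theta E :=
  LinearMap.ext (ext_ind (by simp [theta_algebraMap]) (fun x y hx hy => by
    simp only [map_add, hx, hy]) (fun x m hx => by
    simp only [theta_ι_mul, hx, LinearMap.add_apply, map_add, add_mul, mul_add]; abel))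

theorem theta_smul (c : K) (D : Module.End K g) : theta (c • D) = c • theta D :=
  LinearMap.ext (ext_ind (by simp [theta_algebraMap]) (fun x y hx hy => by
    simp only [map_add, hx, hy]) (fun x m hx => by
    simp only [theta_ι_mul, hx, LinearMap.smul_apply, map_smul, smul_add, smul_mul_assoc,
      mul_smul_comm]))

theorem theta_comm (D E : Module.End K g) (w : ExteriorAlgebra K g) :
    theta D (theta E w) = theta (D * E - E * D) w + theta E (theta D w) := by
  induction w using ext_ind with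
  | h1 r => simp [theta_algebraMap]
  | ha x y hx hy => simp only [map_add, hx, hy]; abel
  | hi x m hx =>
    simp only [theta_ι_mul, map_add, hx, LinearMap.sub_apply, Module.End.mul_apply, map_sub,
      sub_mul, mul_add]
    abel

theorem theta_mem (D : Module.End K g) {k : ℕ} {w : ExteriorAlgebra K g} (hw : w ∈ ⋀[K]^k g) :
    theta D w ∈ ⋀[K]^k g := by
  induction hw using Submodule.pow_induction_on_left' with
  | algebraMap r => rw [theta_algebraMap]; exact zero_mem _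
  | add x y i _ _ hx hy => rw [map_add]; exact add_mem hx hy
  | mem_mul m hm i x hx ih =>
    obtain ⟨m, rfl⟩ := hm
    rw [theta_ι_mul]
    change _ ∈ LinearMap.range (ι K : g →ₗ[K] _) ^ (i + 1)
    rw [pow_succ']
    exact add_mem (Submodule.mul_mem_mul ⟨_, rfl⟩ hx) (Submodule.mul_mem_mul ⟨_, rfl⟩ ih)

theorem map_mem {g' : Type*} [AddCommGroup g'] [Module K g'] (f : g →ₗ[K] g') {k : ℕ}
    {w : ExteriorAlgebra K g} (hw : w ∈ ⋀[K]^k g) : ExteriorAlgebra.map f w ∈ ⋀[K]^k g' := by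
  induction hw using Submodule.pow_induction_on_left' with
  | algebraMap r => rw [AlgHom.commutes]; exact Submodule.algebraMap_mem r
  | add x y i _ _ hx hy => rw [map_add]; exact add_mem hx hy
  | mem_mul m hm i x hx ih =>
    obtain ⟨m, rfl⟩ := hm
    rw [map_mul, map_apply_ι]
    change _ ∈ LinearMap.range (ι K : g' →ₗ[K] _) ^ (i + 1)
    rw [pow_succ']
    exact Submodule.mul_mem_mul ⟨_, rfl⟩ ih

theorem map_theta {g' : Type*} [AddCommGroup g'] [Module K g'] (f : g →ₗ[K] g')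
    (D : Module.End K g) (D' : Module.End K g') (h : ∀ x, f (D x) = D' (f x))
    (w : ExteriorAlgebra K g) :
    ExteriorAlgebra.map f (theta D w) = theta D' (ExteriorAlgebra.map f w) := by
  induction w using ext_ind with
  | h1 r => simp [theta_algebraMap]
  | ha x y hx hy => simp only [map_add, hx, hy]
  | hi x m hx => simp only [theta_ι_mul, map_add, map_mul, map_apply_ι, hx, h]

end theta

variable (K) (g : Type*) [LieRing g] [LieAlgebra K g]

/-- The Chevalley-Eilenberg differential on the exterior algebra of `g`: `d 1 = 0` and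
`d (x ∧ w) = theta (ad x) w - x ∧ d w`; that is,
`d (x_1 ∧ ... ∧ x_k) = ∑_{i<j} (-1)^(i+j+1) [x_i,x_j] ∧ x_1 ∧ ... (omit x_i, x_j) ... ∧ x_k`. -/
def dCE : Module.End K (ExteriorAlgebra K g) :=
  CliffordAlgebra.foldr' (0 : QuadraticForm K g)
    (LinearMap.mk₂ K
      (fun (x : g) (p : ExteriorAlgebra K g × ExteriorAlgebra K g) =>
        theta (LieAlgebra.ad K g x) p.1 - ι K x * p.2)
      (fun x y p => by simp only [map_add, theta_add, LinearMap.add_apply, add_mul]; abel)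
      (fun c x p => by
        simp only [map_smul, theta_smul, LinearMap.smul_apply, smul_mul_assoc, smul_sub])
      (fun x p q => by simp only [Prod.fst_add, Prod.snd_add, map_add, mul_add]; abel)
      (fun c x p => by
        simp only [Prod.smul_fst, Prod.smul_snd, map_smul, mul_smul_comm, smul_sub]))
    (fun m x fx => by
      change theta (LieAlgebra.ad K g m) (ι K m * x)
        - ι K m * (theta (LieAlgebra.ad K g m) x - ι K m * fx) = (0 : K) • fx
      rw [theta_ι_mul, mul_sub, ← mul_assoc, ι_sq_zero]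
      simp)
    0

variable {K g}

theorem dCE_algebraMap (r : K) : dCE K g (algebraMap K _ r) = 0 :=
  (CliffordAlgebra.foldr'_algebraMap _ _ _ _ _).trans (smul_zero r)

theorem dCE_ι_mul (x : g) (w : ExteriorAlgebra K g) :
    dCE K g (ι K x * w) = theta (LieAlgebra.ad K g x) w - ι K x * dCE K g w :=
  CliffordAlgebra.foldr'_ι_mul _ _ _ _ _ _

theorem dCE_ι (x : g) : dCE K g (ι K x) = 0 := by
  have h := dCE_ι_mul (K := K) x 1
  have h1 : dCE K g 1 = 0 := by simpa using dCE_algebraMap (K := K) (g := g) 1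
  simpa [theta_one, h1] using h

theorem dCE_ι_ι (x y : g) : dCE K g (ι K x * ι K y) = ι K ⁅x, y⁆ := by
  have h := theta_ι_mul (LieAlgebra.ad K g x) y 1
  rw [mul_one, mul_one, theta_one, mul_zero, add_zero] at h
  rw [dCE_ι_mul, dCE_ι, h]; simp

/-- `d` commutes with the extension of a derivation of `g`. -/
theorem dCE_theta (D : Module.End K g) (hD : ∀ x y, D ⁅x, y⁆ = ⁅D x, y⁆ + ⁅x, D y⁆)
    (w : ExteriorAlgebra K g) : dCE K g (theta D w) = theta D (dCE K g w) := by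
  induction w using ext_ind with
  | h1 r => simp [theta_algebraMap, dCE_algebraMap]
  | ha x y hx hy => simp only [map_add, hx, hy]
  | hi x m hx =>
    have h : D * LieAlgebra.ad K g m - LieAlgebra.ad K g m * D = LieAlgebra.ad K g (D m) := by
      ext y; simp [hD]
    simp only [theta_ι_mul, dCE_ι_mul, map_add, map_sub, hx]
    rw [theta_comm D (LieAlgebra.ad K g m), h]
    abel

theorem dCE_dCE (w : ExteriorAlgebra K g) : dCE K g (dCE K g w) = 0 := by
  induction w using ext_ind with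
  | h1 r => simp [dCE_algebraMap]
  | ha x y hx hy => simp only [map_add, hx, hy, add_zero]
  | hi x m hx =>
    rw [dCE_ι_mul, map_sub, dCE_ι_mul, hx, dCE_theta _ (fun a b => by simp)]
    simp

theorem dCE_mem {k : ℕ} {w : ExteriorAlgebra K g} (hw : w ∈ ⋀[K]^(k + 1) g) :
    dCE K g w ∈ ⋀[K]^k g := by
  have key : ∀ (n : ℕ) (w : ExteriorAlgebra K g), w ∈ ⋀[K]^n g →
      dCE K g w ∈ ⋀[K]^(n - 1) g ∧ (n = 0 → dCE K g w = 0) := by
    intro n w hw
    induction hw using Submodule.pow_induction_on_left' with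
    | algebraMap r => rw [dCE_algebraMap]; exact ⟨zero_mem _, fun _ => rfl⟩
    | add x y i _ _ hx hy =>
      rw [map_add]; exact ⟨add_mem hx.1 hy.1, fun h => by rw [hx.2 h, hy.2 h, add_zero]⟩
    | mem_mul m hm i x hx ih =>
      obtain ⟨m, rfl⟩ := hm
      refine ⟨?_, fun h => absurd h (Nat.succ_ne_zero i)⟩
      rw [dCE_ι_mul]
      refine sub_mem (theta_mem _ hx) ?_
      rcases i with _ | i
      · rw [ih.2 rfl, mul_zero]; exact zero_mem _
      · change _ ∈ LinearMap.range (ι K : g →ₗ[K] _) ^ (i + 1)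
        rw [pow_succ']
        exact Submodule.mul_mem_mul ⟨_, rfl⟩ ih.1
  exact (key _ w hw).1

theorem map_dCE {g' : Type*} [LieRing g'] [LieAlgebra K g'] (f : g →ₗ⁅K⁆ g')
    (w : ExteriorAlgebra K g) :
    ExteriorAlgebra.map (f : g →ₗ[K] g') (dCE K g w) =
      dCE K g' (ExteriorAlgebra.map (f : g →ₗ[K] g') w) := by
  induction w using ext_ind with
  | h1 r => simp [dCE_algebraMap]
  | ha x y hx hy => simp only [map_add, hx, hy]
  | hi x m hx =>
    rw [dCE_ι_mul, map_sub, map_mul, map_mul, map_apply_ι, dCE_ι_mul, hx,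
      map_theta _ _ (LieAlgebra.ad K g' (f m)) (fun y => by simp)]
    rfl

variable (K g)

/-- Cycles in `Λ^k g`. -/
def Cyc (k : ℕ) : Submodule K (ExteriorAlgebra K g) := ⋀[K]^k g ⊓ LinearMap.ker (dCE K g)

/-- Boundaries `d (Λ^(k+1) g)`. -/
def Bdry (k : ℕ) : Submodule K (ExteriorAlgebra K g) := (⋀[K]^(k + 1) g).map (dCE K g)

theorem Bdry_le (k : ℕ) : Bdry K g k ≤ Cyc K g k := by
  rintro _ ⟨w, hw, rfl⟩
  exact ⟨dCE_mem hw, dCE_dCE w⟩

/-- The Lie algebra homology `H_k(g, K)`: cycles modulo boundaries. -/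
def LieH (k : ℕ) : Type _ := Cyc K g k ⧸ (Bdry K g k).submoduleOf (Cyc K g k)

instance (k : ℕ) : AddCommGroup (LieH K g k) :=
  inferInstanceAs (AddCommGroup (Cyc K g k ⧸ (Bdry K g k).submoduleOf (Cyc K g k)))

instance (k : ℕ) : Module K (LieH K g k) :=
  inferInstanceAs (Module K (Cyc K g k ⧸ (Bdry K g k).submoduleOf (Cyc K g k)))

/-- The class of a cycle. -/
def cls (k : ℕ) : Cyc K g k →ₗ[K] LieH K g k := ((Bdry K g k).submoduleOf (Cyc K g k)).mkQ

variable {K g}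

theorem cls_surj (k : ℕ) : Function.Surjective (cls K g k) := Submodule.mkQ_surjective _

theorem cls_eq_zero {k : ℕ} (z : Cyc K g k) : cls K g k z = 0 ↔ z.1 ∈ Bdry K g k :=
  Submodule.Quotient.mk_eq_zero _

/-- The map on homology induced by a degree preserving chain map `F`. -/
def indHom {g' : Type*} [LieRing g'] [LieAlgebra K g']
    (F : ExteriorAlgebra K g →ₗ[K] ExteriorAlgebra K g')
    (h1 : ∀ k w, w ∈ ⋀[K]^k g → F w ∈ ⋀[K]^k g') (h2 : ∀ w, F (dCE K g w) = dCE K g' (F w))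
    (k : ℕ) : LieH K g k →ₗ[K] LieH K g' k :=
  Submodule.mapQ _ _
    (F.restrict (p := Cyc K g k) (q := Cyc K g' k) (fun w hw => ⟨h1 k w hw.1, by
      have h : dCE K g w = 0 := hw.2
      change dCE K g' (F w) = 0
      rw [← h2, h, map_zero]⟩))
    (by rintro ⟨_, hz⟩ ⟨w, hw, rfl⟩; exact ⟨F w, h1 _ w hw, (h2 w).symm⟩)

/-- Functoriality of homology in the Lie algebra. -/
def LieH.map {g' : Type*} [LieRing g'] [LieAlgebra K g'] (f : g →ₗ⁅K⁆ g') (k : ℕ) :
    LieH K g k →ₗ[K] LieH K g' k :=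
  indHom (ExteriorAlgebra.map (f : g →ₗ[K] g')).toLinearMap (fun _ _ => map_mem _) (map_dCE f) k

variable {s : Type*} [LieRing s] [LieAlgebra K s] [LieRingModule s g] [LieModule K s g]
  [IsLieTower s g g]

/-- The action on homology of an element of a Lie algebra `s` acting on `g` by derivations. -/
def LieH.act (X : s) (k : ℕ) : LieH K g k →ₗ[K] LieH K g k :=
  indHom (theta (LieModule.toEnd K s g X)) (fun _ _ => theta_mem _)
    (fun w => (dCE_theta _ (fun x y => leibniz_lie X x y) w).symm) k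

instance (k : ℕ) : LieRingModule s (LieH K g k) where
  bracket X h := LieH.act X k h
  add_lie X Y h := by
    obtain ⟨z, rfl⟩ := cls_surj k h
    refine congrArg (cls K g k) (Subtype.ext ?_)
    change theta (LieModule.toEnd K s g (X + Y)) z.1 =
      theta (LieModule.toEnd K s g X) z.1 + theta (LieModule.toEnd K s g Y) z.1
    rw [map_add, theta_add]; rfl
  lie_add X h h' := map_add (LieH.act X k) h h'
  leibniz_lie X Y h := by
    obtain ⟨z, rfl⟩ := cls_surj k h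
    refine congrArg (cls K g k) (Subtype.ext ?_)
    change theta (LieModule.toEnd K s g X) (theta (LieModule.toEnd K s g Y) z.1) =
      theta (LieModule.toEnd K s g ⁅X, Y⁆) z.1 +
        theta (LieModule.toEnd K s g Y) (theta (LieModule.toEnd K s g X) z.1)
    have h : LieModule.toEnd K s g ⁅X, Y⁆ = LieModule.toEnd K s g X * LieModule.toEnd K s g Y
        - LieModule.toEnd K s g Y * LieModule.toEnd K s g X := by
      ext y; simp
    rw [theta_comm, h]

instance (k : ℕ) : LieModule K s (LieH K g k) where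
  smul_lie c X h := by
    obtain ⟨z, rfl⟩ := cls_surj k h
    refine congrArg (cls K g k) (Subtype.ext ?_)
    change theta (LieModule.toEnd K s g (c • X)) z.1 = c • theta (LieModule.toEnd K s g X) z.1
    rw [map_smul, theta_smul]; rfl
  lie_smul c X h := map_smul (LieH.act X k) c h

end

end Pool.Agent.Work.MP_894cc0_al
end

-- merged part: Pool.Agent.Work.MP_894cc0_al.Defs
section
/-! Homology of the Allison-Benkart-Gao algebra of the free alternative algebra, its grading by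
degree, and direct summands. -/

open scoped DirectSum

namespace Pool.Agent.Work.MP_894cc0_al

noncomputable section

variable (K : Type*) [Field K] [CharZero K] (V : Type*) [AddCommGroup V] [Module K V]

/-- `H_k(ABG(Alt V), K)` as an `sl3`-module. -/
abbrev HA (k : ℕ) : Type _ := LieH K (ABG K (Alt K V)) k

/-- The map on `H_k` induced by the scalar `c` acting on `V`; degree `n` is where it is `c ^ n`. -/
def scal (c : K) (k : ℕ) : HA K V k →ₗ[K] HA K V k :=
  LieH.map (ABG.map (Alt.map (c • (LinearMap.id : V →ₗ[K] V)))) k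

/-- `H_k(ABG(Alt V), K)` has a direct summand that is a sum of `m` copies of the `sl3`-module `S`
and lies in degree `n`. -/
def HasSummand (S : Type*) [AddCommGroup S] [Module K S] [LieRingModule (Sl3 K) S]
    [LieModule K (Sl3 K) S] (k n m : ℕ) : Prop :=
  ∃ N N' : LieSubmodule K (Sl3 K) (HA K V k), IsCompl N N' ∧
    Nonempty (N ≃ₗ⁅K, Sl3 K⁆ ⨁ _ : Fin m, S) ∧
    ∀ h ∈ N, ∀ c : K, scal K V c k h = c ^ n • h

end

end Pool.Agent.Work.MP_894cc0_al
end
end

-- merged part: Pool.Agent.Work.MP_894cc0_al.Rep1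
section
/-! Weight spaces and the Casimir operator: basic facts. -/

namespace Pool.Agent.Work.MP_894cc0_al

variable {K : Type*} [Field K] [CharZero K]
  {M : Type*} [AddCommGroup M] [Module K M] [LieRingModule (Sl3 K) M] [LieModule K (Sl3 K) M]
  {M' : Type*} [AddCommGroup M'] [Module K M'] [LieRingModule (Sl3 K) M'] [LieModule K (Sl3 K) M']

theorem Rep1_cas (v : M) : cas K M v = ⁅e1 K, ⁅f1 K, v⁆⁆ + ⁅f1 K, ⁅e1 K, v⁆⁆ +
    (⁅e2 K, ⁅f2 K, v⁆⁆ + ⁅f2 K, ⁅e2 K, v⁆⁆) + (⁅e3 K, ⁅f3 K, v⁆⁆ + ⁅f3 K, ⁅e3 K, v⁆⁆) +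
    ((2 / 3 : K) • (⁅h1 K, ⁅h1 K, v⁆⁆ + ⁅h2 K, ⁅h2 K, v⁆⁆) +
      (1 / 3 : K) • (⁅h1 K, ⁅h2 K, v⁆⁆ + ⁅h2 K, ⁅h1 K, v⁆⁆)) := by
  have h : ⁅h2 K, ⁅h1 K, v⁆⁆ = ⁅h1 K, ⁅h2 K, v⁆⁆ := by
    rw [leibniz_lie, lie_h2_h1, zero_lie, zero_add]
  simp only [cas, LinearMap.add_apply, LinearMap.smul_apply, Module.End.mul_apply,
    LieModule.toEnd_apply_apply, h]
  module

set_option linter.unusedSimpArgs false in
theorem cas_lie (X : Sl3 K) (v : M) : cas K M ⁅X, v⁆ = ⁅X, cas K M v⁆ := by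
  let T : Sl3 K → Sl3 K → Sl3 K → M := fun X A B => ⁅⁅X, A⁆, ⁅B, v⁆⁆ + ⁅A, ⁅⁅X, B⁆, v⁆⁆
  have h : ∀ X A B : Sl3 K, ⁅X, ⁅A, ⁅B, v⁆⁆⁆ = T X A B + ⁅A, ⁅B, ⁅X, v⁆⁆⁆ := fun X A B => by
    rw [leibniz_lie, leibniz_lie X B, lie_add, add_assoc]
  have key : ∀ X : Sl3 K, T X (e1 K) (f1 K) + T X (f1 K) (e1 K) +
      (T X (e2 K) (f2 K) + T X (f2 K) (e2 K)) + (T X (e3 K) (f3 K) + T X (f3 K) (e3 K)) +
      ((2 / 3 : K) • (T X (h1 K) (h1 K) + T X (h2 K) (h2 K)) +
        (1 / 3 : K) • (T X (h1 K) (h2 K) + T X (h2 K) (h1 K))) = 0 →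
      cas K M ⁅X, v⁆ = ⁅X, cas K M v⁆ := fun X hX => by
    simp only [Rep1_cas, lie_add, lie_smul, h X]
    linear_combination (norm := module) -hX
  induction X using sl_ind with
  | ha X Y hX hY => simp only [add_lie, map_add, hX, hY]
  | hs c X hX => simp only [smul_lie, map_smul, hX]
  | hv i =>
    fin_cases i
    · refine key (e1 K) ?_
      simp only [T, lie_e1_e2, lie_e1_e3, lie_e1_f1, lie_e1_f2, lie_e1_f3, lie_e1_h1, lie_e1_h2, lie_self,
        add_lie, sub_lie, neg_lie, smul_lie, zero_lie, lie_add, lie_sub, lie_neg, lie_smul, lie_zero]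
      module
    · refine key (e2 K) ?_
      simp only [T, lie_e2_e1, lie_e2_e3, lie_e2_f1, lie_e2_f2, lie_e2_f3, lie_e2_h1, lie_e2_h2, lie_self,
        add_lie, sub_lie, neg_lie, smul_lie, zero_lie, lie_add, lie_sub, lie_neg, lie_smul, lie_zero]
      module
    · refine key (e3 K) ?_
      simp only [T, lie_e3_e1, lie_e3_e2, lie_e3_f1, lie_e3_f2, lie_e3_f3, lie_e3_h1, lie_e3_h2, lie_self,
        add_lie, sub_lie, neg_lie, smul_lie, zero_lie, lie_add, lie_sub, lie_neg, lie_smul, lie_zero]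
      module
    · refine key (f1 K) ?_
      simp only [T, lie_f1_e1, lie_f1_e2, lie_f1_e3, lie_f1_f2, lie_f1_f3, lie_f1_h1, lie_f1_h2, lie_self,
        add_lie, sub_lie, neg_lie, smul_lie, zero_lie, lie_add, lie_sub, lie_neg, lie_smul, lie_zero]
      module
    · refine key (f2 K) ?_
      simp only [T, lie_f2_e1, lie_f2_e2, lie_f2_e3, lie_f2_f1, lie_f2_f3, lie_f2_h1, lie_f2_h2, lie_self,
        add_lie, sub_lie, neg_lie, smul_lie, zero_lie, lie_add, lie_sub, lie_neg, lie_smul, lie_zero]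
      module
    · refine key (f3 K) ?_
      simp only [T, lie_f3_e1, lie_f3_e2, lie_f3_e3, lie_f3_f1, lie_f3_f2, lie_f3_h1, lie_f3_h2, lie_self,
        add_lie, sub_lie, neg_lie, smul_lie, zero_lie, lie_add, lie_sub, lie_neg, lie_smul, lie_zero]
      module
    · refine key (h1 K) ?_
      simp only [T, lie_h1_e1, lie_h1_e2, lie_h1_e3, lie_h1_f1, lie_h1_f2, lie_h1_f3, lie_h1_h2, lie_self,
        add_lie, sub_lie, neg_lie, smul_lie, zero_lie, lie_add, lie_sub, lie_neg, lie_smul, lie_zero]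
      module
    · refine key (h2 K) ?_
      simp only [T, lie_h2_e1, lie_h2_e2, lie_h2_e3, lie_h2_f1, lie_h2_f2, lie_h2_f3, lie_h2_h1, lie_self,
        add_lie, sub_lie, neg_lie, smul_lie, zero_lie, lie_add, lie_sub, lie_neg, lie_smul, lie_zero]
      module

theorem map_cas (f : M →ₗ⁅K, Sl3 K⁆ M') (v : M) : f (cas K M v) = cas K M' (f v) := by
  simp only [Rep1_cas, map_add, map_smul, LieModuleHom.map_lie]

theorem casT_lie (l : ℤ × ℤ) (X : Sl3 K) (v : M) : casT K M l ⁅X, v⁆ = ⁅X, casT K M l v⁆ := by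
  simp [casT, cas_lie]

theorem map_casT (l : ℤ × ℤ) (f : M →ₗ⁅K, Sl3 K⁆ M') (v : M) :
    f (casT K M l v) = casT K M' l (f v) := by
  simp [casT, map_cas]

theorem Rep1_aeval (g : M →ₗ[K] M') (T : Module.End K M) (T' : Module.End K M')
    (h : ∀ v, g (T v) = T' (g v)) (q : Polynomial K) (v : M) :
    g (Polynomial.aeval T q v) = Polynomial.aeval T' q (g v) := by
  induction q using Polynomial.induction_on generalizing v with
  | C a => simp
  | add p q hp hq => simp [hp, hq]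
  | monomial n a ih =>
    rw [pow_succ, ← mul_assoc, map_mul, map_mul (Polynomial.aeval T'), Module.End.mul_apply,
      Module.End.mul_apply, ih]
    simp [h]

theorem aeval_casT_lie (l : ℤ × ℤ) (q : Polynomial K) (X : Sl3 K) (v : M) :
    Polynomial.aeval (casT K M l) q ⁅X, v⁆ = ⁅X, Polynomial.aeval (casT K M l) q v⁆ :=
  (Rep1_aeval (ro K M X) _ _ (fun v => (casT_lie l X v).symm) q v).symm

theorem map_aeval_casT (l : ℤ × ℤ) (q : Polynomial K) (f : M →ₗ⁅K, Sl3 K⁆ M') (v : M) :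
    f (Polynomial.aeval (casT K M l) q v) = Polynomial.aeval (casT K M' l) q (f v) :=
  Rep1_aeval (f : M →ₗ[K] M') _ _ (map_casT l f) q v

theorem cas_hw {μ : ℤ × ℤ} {v : M} (hv : v ∈ hw K M μ) : cas K M v = cval K μ • v := by
  obtain ⟨⟨a1, a2⟩, b1, b2⟩ := hv
  have b3 : ⁅e3 K, v⁆ = 0 := by rw [← lie_e1_e2, lie_lie, b1, b2, lie_zero, lie_zero, sub_zero]
  rw [Rep1_cas, leibniz_lie (e1 K), leibniz_lie (e2 K), leibniz_lie (e3 K)]
  simp only [lie_e1_f1, lie_e2_f2, lie_e3_f3, add_lie, a1, a2, b1, b2, b3, lie_zero, lie_smul, cval]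
  module

theorem casT_hw {l : ℤ × ℤ} {v : M} (hv : v ∈ hw K M l) : casT K M l v = 0 := by
  simp [casT, cas_hw hv]

theorem Rep1_sv (i : Fin 8) : ⁅h1 K, sv K i⁆ = ((swt i).1 : K) • sv K i ∧
    ⁅h2 K, sv K i⁆ = ((swt i).2 : K) • sv K i := by
  fin_cases i <;> simp [sv, swt, lie_h1_e1, lie_h1_e2, lie_h1_e3, lie_h1_f1, lie_h1_f2, lie_h1_f3, lie_h1_h2, lie_h2_e1,
    lie_h2_e2, lie_h2_e3, lie_h2_f1, lie_h2_f2, lie_h2_f3, lie_h2_h1]

theorem lie_sv_mem (i : Fin 8) {μ : ℤ × ℤ} {v : M} (hv : v ∈ wtSp K M μ) :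
    ⁅sv K i, v⁆ ∈ wtSp K M (μ + swt i) := by
  constructor
  · rw [leibniz_lie, (Rep1_sv i).1, hv.1, smul_lie, lie_smul, Prod.fst_add, Int.cast_add, add_smul,
      add_comm]
  · rw [leibniz_lie, (Rep1_sv i).2, hv.2, smul_lie, lie_smul, Prod.snd_add, Int.cast_add, add_smul,
      add_comm]

theorem sv_mem (i : Fin 8) : sv K i ∈ wtSp K (Sl3 K) (swt i) := Rep1_sv i

theorem map_wtSp (f : M →ₗ⁅K, Sl3 K⁆ M') {μ : ℤ × ℤ} {v : M} (hv : v ∈ wtSp K M μ) :
    f v ∈ wtSp K M' μ :=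
  ⟨by rw [← f.map_lie, hv.1, map_smul], by rw [← f.map_lie, hv.2, map_smul]⟩

theorem map_hw (f : M →ₗ⁅K, Sl3 K⁆ M') {μ : ℤ × ℤ} {v : M} (hv : v ∈ hw K M μ) :
    f v ∈ hw K M' μ :=
  ⟨map_wtSp f hv.1, by rw [← f.map_lie, hv.2.1, map_zero], by rw [← f.map_lie, hv.2.2, map_zero]⟩

theorem coe_mem_wtSp (N : LieSubmodule K (Sl3 K) M) {μ : ℤ × ℤ} (v : N) :
    (v : M) ∈ wtSp K M μ ↔ v ∈ wtSp K N μ :=
  ⟨fun h => ⟨Subtype.ext h.1, Subtype.ext h.2⟩, map_wtSp N.incl⟩

theorem coe_mem_hw (N : LieSubmodule K (Sl3 K) M) {μ : ℤ × ℤ} (v : N) :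
    (v : M) ∈ hw K M μ ↔ v ∈ hw K N μ :=
  ⟨fun h => ⟨(coe_mem_wtSp N v).1 h.1, Subtype.ext h.2.1, Subtype.ext h.2.2⟩, map_hw N.incl⟩

theorem wt_indep : iSupIndep (wtSp K M) := by
  have h := Module.End.independent_iInf_maxGenEigenspace_of_forall_mapsTo
    (![ro K M (h1 K), ro K M (h2 K)] : Fin 2 → Module.End K M) fun i j φ =>
      Module.End.mapsTo_maxGenEigenspace_of_comm (by
        have : Commute (ro K M (h1 K)) (ro K M (h2 K)) := LinearMap.ext fun v => by
          change ⁅h1 K, ⁅h2 K, v⁆⁆ = ⁅h2 K, ⁅h1 K, v⁆⁆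
          rw [leibniz_lie, lie_h1_h2, zero_lie, zero_add]
        fin_cases i <;> fin_cases j
        exacts [.refl _, this.symm, this, .refl _]) φ
  refine (h.comp (f := fun μ : ℤ × ℤ => (![(μ.1 : K), (μ.2 : K)] : Fin 2 → K)) fun μ ν e =>
    Prod.ext (Int.cast_injective (congrFun e 0)) (Int.cast_injective (congrFun e 1))).mono
    fun μ v hv => ?_
  refine (Submodule.mem_iInf _).2 fun i => Module.End.eigenspace_le_maxGenEigenspace ?_
  rw [Module.End.mem_eigenspace_iff]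
  fin_cases i
  exacts [hv.1, hv.2]

theorem IsWt.ind (hM : IsWt K M) {P : M → Prop} (h0 : P 0) (ha : ∀ x y, P x → P y → P (x + y))
    (hv : ∀ μ, ∀ v ∈ wtSp K M μ, P v) (v : M) : P v :=
  Submodule.iSup_induction (wtSp K M) (motive := P) (hM.ge Submodule.mem_top) hv h0 ha

/-- Projections onto the weight spaces. -/
theorem IsWt.exists_proj (hM : IsWt K M) : ∃ π : ℤ × ℤ → Module.End K M,
    (∀ μ v, π μ v ∈ wtSp K M μ) ∧ (∀ μ, ∀ v ∈ wtSp K M μ, π μ v = v) ∧
    (∀ μ ν, μ ≠ ν → ∀ v ∈ wtSp K M ν, π μ v = 0) := by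
  have h : ∀ μ, IsCompl (wtSp K M μ) (⨆ (ν) (_ : ν ≠ μ), wtSp K M ν) := fun μ =>
    ⟨wt_indep μ, codisjoint_iff.2 ((iSup_split_single (wtSp K M) μ).symm.trans hM)⟩
  exact ⟨fun μ => Submodule.projection _ _ (h μ), fun μ v => Submodule.projection_apply_mem _ v,
    fun μ v hv => Submodule.projection_apply_of_mem_left _ hv,
    fun μ ν e v hv => Submodule.projection_apply_of_mem_right _
      (Submodule.mem_iSup_of_mem ν (Submodule.mem_iSup_of_mem e.symm hv))⟩

theorem Rep1_comp (N : LieSubmodule K (Sl3 K) M) (s : Finset (ℤ × ℤ)) :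
    ∀ f : ℤ × ℤ → M, (∀ μ ∈ s, f μ ∈ wtSp K M μ) → ∑ μ ∈ s, f μ ∈ N → ∀ μ ∈ s, f μ ∈ N := by
  induction s using Finset.induction_on with
  | empty => simp
  | insert ν s hν ih =>
    intro f hf hs
    have key : ∀ (X : Sl3 K) (c : ℤ × ℤ → K), (∀ μ, ∀ v ∈ wtSp K M μ, ⁅X, v⁆ = c μ • v) →
        ∀ μ ∈ s, c μ ≠ c ν → f μ ∈ N := fun X c hc μ hμ hne => by
      have h1 := ih (fun μ => (c μ - c ν) • f μ)
        (fun μ hμ => Submodule.smul_mem _ _ (hf μ (Finset.mem_insert_of_mem hμ))) (by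
          have := N.sub_mem (N.lie_mem (x := X) hs) (N.smul_mem (c ν) hs)
          rwa [lie_sum, Finset.smul_sum, ← Finset.sum_sub_distrib, Finset.sum_congr rfl
            fun μ hμ => by rw [hc μ _ (hf μ hμ), ← sub_smul], Finset.sum_insert hν, sub_self,
            zero_smul, zero_add] at this) μ hμ
      exact (N.toSubmodule.smul_mem_iff (sub_ne_zero.2 hne)).1 h1
    have h2 : ∀ μ ∈ s, f μ ∈ N := fun μ hμ => by
      by_cases e : μ.1 = ν.1
      · exact key (h2 K) (fun μ => μ.2) (fun _ _ h => h.2) μ hμ fun e' =>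
          hν (Prod.ext e (Int.cast_injective e') ▸ hμ)
      · exact key (h1 K) (fun μ => μ.1) (fun _ _ h => h.1) μ hμ fun e' => e (Int.cast_injective e')
    rw [Finset.sum_insert hν] at hs
    exact Finset.forall_mem_insert _ _ _ |>.2
      ⟨(add_mem_cancel_right (sum_mem h2)).1 hs, h2⟩

theorem IsWt.sub (hM : IsWt K M) (N : LieSubmodule K (Sl3 K) M) : IsWt K N := by
  refine top_unique fun v _ => ?_
  obtain ⟨f, hf, e⟩ := (Submodule.mem_iSup_iff_exists_finsupp _ _).1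
    (hM.ge (Submodule.mem_top (x := (v : M))))
  have h := Rep1_comp N f.support f (fun μ _ => hf μ) (by
    change f.sum (fun _ x => x) ∈ N
    rw [e]
    exact v.2)
  have : v = ∑ μ ∈ f.support.attach, (⟨f μ, h μ μ.2⟩ : N) := by
    apply Subtype.ext
    rw [AddSubmonoidClass.coe_finsetSum, Finset.sum_attach f.support f]
    exact e.symm
  rw [this]
  exact sum_mem fun μ _ => Submodule.mem_iSup_of_mem μ.1 ((coe_mem_wtSp N _).1 (hf μ))

theorem IsWt.of_surjective (hM : IsWt K M) (f : M →ₗ⁅K, Sl3 K⁆ M') (hf : Function.Surjective f) :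
    IsWt K M' := by
  refine top_unique fun v _ => ?_
  obtain ⟨v, rfl⟩ := hf v
  exact hM.ind (P := fun v => f v ∈ ⨆ μ, wtSp K M' μ) (by simp)
    (fun x y hx hy => by simpa using add_mem hx hy)
    (fun μ v hv => Submodule.mem_iSup_of_mem μ (map_wtSp f hv)) v

theorem IsWt.directSum (hM : IsWt K M) (m : ℕ) : IsWt K (DirectSum (Fin m) fun _ => M) := by
  refine top_unique fun v _ => ?_
  induction v using DirectSum.induction_on with
  | zero => exact zero_mem _
  | add x y hx hy => exact add_mem (hx trivial) (hy trivial)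
  | of i v =>
    exact hM.ind (P := fun v => DirectSum.lieModuleOf K (Fin m) (Sl3 K) (fun _ => M) i v ∈
      ⨆ μ, wtSp K _ μ) (by simp) (fun x y hx hy => by simpa using add_mem hx hy)
      (fun μ v hv => Submodule.mem_iSup_of_mem μ (map_wtSp _ hv)) v

theorem std_ad : Std K (Sl3 K) (1, 1) (e3 K) := by
  refine ⟨top_unique fun X _ => sl_ind K (P := fun X => X ∈ ⨆ μ, wtSp K (Sl3 K) μ)
    (fun i => Submodule.mem_iSup_of_mem _ (sv_mem i)) (fun _ _ => add_mem)
    (fun c _ => Submodule.smul_mem _ c) X, ⟨sv_mem 2, lie_e1_e3 K, lie_e2_e3 K⟩,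
    (sv_li K).ne_zero 2, ?_⟩
  set N := LieSubmodule.lieSpan K (Sl3 K) {e3 K}
  have a3 : e3 K ∈ N := LieSubmodule.subset_lieSpan rfl
  have a2 : e2 K ∈ N := lie_f1_e3 K ▸ N.lie_mem a3
  have a1 : e1 K ∈ N := neg_mem_iff.1 (lie_f2_e3 K ▸ N.lie_mem a3)
  have c1 : h1 K ∈ N := neg_mem_iff.1 (lie_f1_e1 K ▸ N.lie_mem a1)
  have c2 : h2 K ∈ N := neg_mem_iff.1 (lie_f2_e2 K ▸ N.lie_mem a2)
  have b2 : f2 K ∈ N := lie_f3_e1 K ▸ N.lie_mem a1
  have b1 : f1 K ∈ N := neg_mem_iff.1 (lie_f3_e2 K ▸ N.lie_mem a2)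
  have b3 : f3 K ∈ N := lie_f3_h1 K ▸ N.lie_mem c1
  refine top_unique fun X _ => sl_ind K (P := fun X => X ∈ N) (fun i => ?_) (fun _ _ => add_mem)
    (fun c _ => N.smul_mem c) X
  fin_cases i
  exacts [a1, a2, a3, b1, b2, b3, c1, c2]

theorem std_triv : Std K (TrivialLieModule K (Sl3 K) K) (0, 0)
    ((TrivialLieModule.equiv K (Sl3 K) K).symm 1) := by
  have h : ∀ v : TrivialLieModule K (Sl3 K) K, v ∈ wtSp K _ (0, 0) := fun v =>
    ⟨by simp [trivial_lie_zero], by simp [trivial_lie_zero]⟩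
  refine ⟨top_unique fun v _ => Submodule.mem_iSup_of_mem _ (h v),
    ⟨h _, trivial_lie_zero _ _ _ _, trivial_lie_zero _ _ _ _⟩, by simp, top_unique fun v _ => ?_⟩
  have : v = TrivialLieModule.equiv K (Sl3 K) K v •
      (TrivialLieModule.equiv K (Sl3 K) K).symm 1 := by
    rw [← map_smul, smul_eq_mul, mul_one, LinearEquiv.symm_apply_apply]
  rw [this]
  exact SMulMemClass.smul_mem _ (LieSubmodule.subset_lieSpan rfl)

end Pool.Agent.Work.MP_894cc0_al
end

-- merged part: Pool.Agent.Work.MP_894cc0_al.Ch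
section
-- merged part: Pool.Agent.Work.MP_894cc0_al.Ch
section
/-! The chain complex as an `sl3`-module and graded data on a Lie algebra. -/

open ExteriorAlgebra

namespace Pool.Agent.Work.MP_894cc0_al

noncomputable section

variable (K : Type*) [Field K] [CharZero K] (g : Type*) [LieRing g] [LieAlgebra K g]
  [LieRingModule (Sl3 K) g] [LieModule K (Sl3 K) g] [IsLieTower (Sl3 K) g g]

/-- The exterior algebra of `g` as an `sl3`-module. -/
def Ch : Type _ := ExteriorAlgebra K g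

instance : AddCommGroup (Ch K g) := inferInstanceAs (AddCommGroup (ExteriorAlgebra K g))

instance : Module K (Ch K g) := inferInstanceAs (Module K (ExteriorAlgebra K g))

/-- The identity map to the exterior algebra. -/
def Ch.val : Ch K g ≃ₗ[K] ExteriorAlgebra K g := LinearEquiv.refl K _

instance : LieRingModule (Sl3 K) (Ch K g) where
  bracket X w := theta (LieModule.toEnd K (Sl3 K) g X) w
  add_lie X Y w := by
    change theta (LieModule.toEnd K (Sl3 K) g (X + Y)) w =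
      theta (LieModule.toEnd K (Sl3 K) g X) w + theta (LieModule.toEnd K (Sl3 K) g Y) w
    rw [map_add, theta_add]; rfl
  lie_add X w w' := map_add (theta (LieModule.toEnd K (Sl3 K) g X)) w w'
  leibniz_lie X Y w := by
    change theta (LieModule.toEnd K (Sl3 K) g X) (theta (LieModule.toEnd K (Sl3 K) g Y) w) =
      theta (LieModule.toEnd K (Sl3 K) g ⁅X, Y⁆) w +
        theta (LieModule.toEnd K (Sl3 K) g Y) (theta (LieModule.toEnd K (Sl3 K) g X) w)
    have h : LieModule.toEnd K (Sl3 K) g ⁅X, Y⁆ =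
        LieModule.toEnd K (Sl3 K) g X * LieModule.toEnd K (Sl3 K) g Y
        - LieModule.toEnd K (Sl3 K) g Y * LieModule.toEnd K (Sl3 K) g X := by
      ext y; simp
    rw [theta_comm, h]

instance : LieModule K (Sl3 K) (Ch K g) where
  smul_lie c X w := by
    change theta (LieModule.toEnd K (Sl3 K) g (c • X)) w =
      c • theta (LieModule.toEnd K (Sl3 K) g X) w
    rw [map_smul, theta_smul]; rfl
  lie_smul c X w := map_smul (theta (LieModule.toEnd K (Sl3 K) g X)) c w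

theorem Ch.val_lie (X : Sl3 K) (w : Ch K g) :
    Ch.val K g ⁅X, w⁆ = theta (LieModule.toEnd K (Sl3 K) g X) (Ch.val K g w) := rfl

/-- The differential as a map of `sl3`-modules. -/
def dL : Ch K g →ₗ⁅K, Sl3 K⁆ Ch K g where
  toLinearMap := (Ch.val K g).symm.toLinearMap ∘ₗ dCE K g ∘ₗ (Ch.val K g).toLinearMap
  map_lie' := fun {X w} => dCE_theta (LieModule.toEnd K (Sl3 K) g X)
    (fun x y => leibniz_lie X x y) (Ch.val K g w)

theorem val_dL (w : Ch K g) : Ch.val K g (dL K g w) = dCE K g (Ch.val K g w) := rfl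

theorem lie_cls (X : Sl3 K) (k : ℕ) (z z' : Cyc K g k)
    (h : z'.1 = theta (LieModule.toEnd K (Sl3 K) g X) z.1) : ⁅X, cls K g k z⁆ = cls K g k z' :=
  congrArg (cls K g k) (Subtype.ext h.symm)

theorem map_cls {g' : Type*} [LieRing g'] [LieAlgebra K g'] (f : g →ₗ⁅K⁆ g') (k : ℕ)
    (z : Cyc K g k) (z' : Cyc K g' k) (h : z'.1 = ExteriorAlgebra.map (f : g →ₗ[K] g') z.1) :
    LieH.map f k (cls K g k z) = cls K g' k z' :=
  congrArg (cls K g' k) (Subtype.ext h.symm)

/-- A homogeneous weight basis of `g`, with the scaling endomorphisms `σ c`. -/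
structure GData (I : Type*) where
  v : Module.Basis I K g
  deg : I → ℕ
  wt : I → ℤ × ℤ
  σ : K → (g →ₗ⁅K⁆ g)
  deg_pos : ∀ i, 1 ≤ deg i
  fin : ∀ n, {i | deg i = n}.Finite
  σ_v : ∀ c i, σ c (v i) = c ^ deg i • v i
  σ_lie : ∀ c (X : Sl3 K) x, σ c ⁅X, x⁆ = ⁅X, σ c x⁆
  v_wt : ∀ i, v i ∈ wtSp K g (wt i)
  bd : ∀ i, 2 ≤ deg i → ι K (v i) ∈ Bdry K g 1

variable {K g} {I : Type*} (D : GData K g I)

theorem GData.map_theta_σ (c : K) (X : Sl3 K) (w : ExteriorAlgebra K g) :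
    ExteriorAlgebra.map (D.σ c : g →ₗ[K] g) (theta (LieModule.toEnd K (Sl3 K) g X) w) =
      theta (LieModule.toEnd K (Sl3 K) g X) (ExteriorAlgebra.map (D.σ c : g →ₗ[K] g) w) :=
  map_theta _ _ _ (fun x => D.σ_lie c X x) w

/-- Chains in `Λ^k g` of degree `n`. -/
def GData.Cn (k n : ℕ) : LieSubmodule K (Sl3 K) (Ch K g) where
  carrier := {w | Ch.val K g w ∈ ⋀[K]^k g ∧
    ∀ c : K, ExteriorAlgebra.map (D.σ c : g →ₗ[K] g) (Ch.val K g w) = c ^ n • Ch.val K g w}
  add_mem' ha hb := ⟨by rw [map_add]; exact add_mem ha.1 hb.1, fun c => by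
    rw [map_add, map_add, ha.2, hb.2, smul_add]⟩
  zero_mem' := ⟨by rw [map_zero]; exact zero_mem _, fun c => by simp⟩
  smul_mem' a w hw := ⟨by rw [map_smul]; exact Submodule.smul_mem _ a hw.1, fun c => by
    rw [map_smul, map_smul, hw.2, smul_comm]⟩
  lie_mem {X w} hw := ⟨theta_mem _ hw.1, fun c => by
    rw [Ch.val_lie, D.map_theta_σ, hw.2, map_smul]⟩

theorem GData.mem_Cn {k n : ℕ} {w : Ch K g} : w ∈ D.Cn k n ↔ Ch.val K g w ∈ ⋀[K]^k g ∧
    ∀ c : K, ExteriorAlgebra.map (D.σ c : g →ₗ[K] g) (Ch.val K g w) = c ^ n • Ch.val K g w :=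
  Iff.rfl

theorem GData.dL_mem {k n : ℕ} {w : Ch K g} (hw : w ∈ D.Cn (k + 1) n) : dL K g w ∈ D.Cn k n :=
  ⟨dCE_mem hw.1, fun c => by rw [val_dL, map_dCE, hw.2, map_smul]⟩

theorem GData.map_σ_lie (c : K) (k : ℕ) (X : Sl3 K) (h : LieH K g k) :
    LieH.map (D.σ c) k ⁅X, h⁆ = ⁅X, LieH.map (D.σ c) k h⁆ := by
  obtain ⟨z, rfl⟩ := cls_surj k h
  exact congrArg (cls K g k) (Subtype.ext (D.map_theta_σ c X z.1))

/-- The degree `n` part of `H_k`. -/
def GData.Hn (k n : ℕ) : LieSubmodule K (Sl3 K) (LieH K g k) where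
  carrier := {h | ∀ c : K, LieH.map (D.σ c) k h = c ^ n • h}
  add_mem' ha hb := fun c => by rw [map_add, ha c, hb c, smul_add]
  zero_mem' := fun c => by simp
  smul_mem' a h hh := fun c => by rw [map_smul, hh c, smul_comm]
  lie_mem {X h} hh := fun c => by rw [D.map_σ_lie, hh c, lie_smul]

theorem GData.mem_Hn {k n : ℕ} {h : LieH K g k} :
    h ∈ D.Hn k n ↔ ∀ c : K, LieH.map (D.σ c) k h = c ^ n • h := Iff.rfl

/-- Highest weight vectors of weight `l` in `Cn k n`, as a subspace of the chains. -/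
def GData.Wk (l : ℤ × ℤ) (k n : ℕ) : Submodule K (Ch K g) :=
  hw K (Ch K g) l ⊓ (D.Cn k n).toSubmodule

end

end Pool.Agent.Work.MP_894cc0_al
end

-- merged part: Pool.Agent.Work.MP_894cc0_al.GradeA
section
/-! Diagonal operators on the monomial basis of an exterior algebra. -/

open ExteriorAlgebra

namespace Pool.Agent.Work.MP_894cc0_al

variable {K : Type*} [Field K] {g : Type*} [AddCommGroup g] [Module K g]

theorem Grade_theta_multi (D : Module.End K g) (n : ℕ) (u : Fin n → g) (a : Fin n → K)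
    (h : ∀ i, D (u i) = a i • u i) : theta D (ιMulti K n u) = (∑ i, a i) • ιMulti K n u := by
  induction n with
  | zero => simp [theta_one]
  | succ n ih =>
    rw [ιMulti_succ_apply, theta_ι_mul, h 0, map_smul, smul_mul_assoc,
      ih (Matrix.vecTail u) (fun i => a i.succ) (fun i => h i.succ), mul_smul_comm,
      Fin.sum_univ_succ, add_smul]

theorem Grade_map_multi (D : Module.End K g) (n : ℕ) (u : Fin n → g) (a : Fin n → K)
    (h : ∀ i, D (u i) = a i • u i) :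
    ExteriorAlgebra.map D (ιMulti K n u) = (∏ i, a i) • ιMulti K n u := by
  rw [map_apply_ιMulti, ← AlternatingMap.map_smul_univ]
  exact congrArg _ (funext h)

theorem Grade_theta_id {k : ℕ} {w : ExteriorAlgebra K g} (hw : w ∈ ⋀[K]^k g) :
    theta (1 : Module.End K g) w = (k : K) • w := by
  induction hw using Submodule.pow_induction_on_left' with
  | algebraMap r => simp [theta_algebraMap]
  | add x y i _ _ hx hy => rw [map_add, hx, hy, smul_add]
  | mem_mul m hm i x hx ih =>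
    obtain ⟨m, rfl⟩ := hm
    rw [theta_ι_mul, ih, mul_smul_comm, Module.End.one_apply, Nat.cast_succ, add_smul, one_smul,
      add_comm]

theorem Grade_eig {V J : Type*} [AddCommGroup V] [Module K V] (E : Module.Basis J K V)
    (T : Module.End K V) (a : J → K) (hT : ∀ j, T (E j) = a j • E j) {w : V} {c : K}
    (hw : T w = c • w) (j : J) (hj : E.repr w j ≠ 0) : a j = c := by
  have h : (E.coord j) ∘ₗ T = a j • E.coord j := by
    classical
    refine E.ext (fun i => ?_)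
    simp only [LinearMap.comp_apply, hT, map_smul, LinearMap.smul_apply, Module.Basis.coord_apply,
      Module.Basis.repr_self, Finsupp.single_apply]
    split_ifs with hij
    · rw [hij]
    · simp
  have h2 := LinearMap.congr_fun h w
  simp only [LinearMap.comp_apply, hw, map_smul, LinearMap.smul_apply, Module.Basis.coord_apply,
    smul_eq_mul] at h2
  exact (mul_right_cancel₀ hj h2).symm

theorem Grade_mem_of_repr {V J : Type*} [AddCommGroup V] [Module K V] (E : Module.Basis J K V)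
    (N : Submodule K V) {w : V} (h : ∀ j, E.repr w j ≠ 0 → E j ∈ N) : w ∈ N := by
  refine (Submodule.span_le.2 ?_ : _ ≤ N) (E.mem_span_repr_support w)
  rintro _ ⟨j, hj, rfl⟩
  exact h j (Finsupp.mem_support_iff.1 hj)

theorem Grade_finrank_span {V J : Type*} [AddCommGroup V] [Module K V] (E : Module.Basis J K V)
    (A : Set J) : Module.finrank K (Submodule.span K (E '' A)) = A.ncard := by
  have hli : LinearIndependent K (fun j : A => E j) :=
    E.linearIndependent.comp _ Subtype.val_injective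
  rw [Set.image_eq_range, Module.finrank_eq_nat_card_basis (Module.Basis.span hli),
    Nat.card_coe_set_eq]

theorem Grade_exists {I : Type*} (v : Module.Basis I K g) :
    ∃ E : Module.Basis (Finset I) K (ExteriorAlgebra K g),
      (∀ S, E S ∈ ⋀[K]^S.card g) ∧
      (∀ (D : Module.End K g) (a : I → K), (∀ i, D (v i) = a i • v i) → ∀ S,
        theta D (E S) = (∑ i ∈ S, a i) • E S) ∧
      (∀ (D : Module.End K g) (a : I → K), (∀ i, D (v i) = a i • v i) → ∀ S,
        ExteriorAlgebra.map D (E S) = (∏ i ∈ S, a i) • E S) ∧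
      (∀ i, E {i} = ι K (v i)) := by
  classical
  let _ : LinearOrder I := linearOrderOfSTO WellOrderingRel
  have hE : ∀ S : Finset I, v.ExteriorAlgebra S =
      ιMulti K S.card (fun j => v (S.orderEmbOfFin rfl j)) := fun S => basis_apply v S
  refine ⟨v.ExteriorAlgebra, fun S => ?_, fun D a h S => ?_, fun D a h S => ?_, fun i => ?_⟩
  · rw [hE]; exact ιMulti_range K _ ⟨_, rfl⟩
  · rw [hE, Grade_theta_multi D _ _ (fun j => a (S.orderEmbOfFin rfl j)) (fun j => h _)]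
    congr 1
    conv_rhs => rw [← Finset.map_orderEmbOfFin_univ S rfl, Finset.sum_map]
    rfl
  · rw [hE, Grade_map_multi D _ _ (fun j => a (S.orderEmbOfFin rfl j)) (fun j => h _)]
    congr 1
    conv_rhs => rw [← Finset.map_orderEmbOfFin_univ S rfl, Finset.prod_map]
    rfl
  · rw [basis_apply_ofCard v (Finset.card_singleton i)]
    change ιMulti K 1 (fun j => v (Finset.orderEmbOfFin {i} (Finset.card_singleton i) j)) = _
    simp [ιMulti_apply]

end Pool.Agent.Work.MP_894cc0_al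
end

-- merged part: Pool.Agent.Work.MP_894cc0_al.Grade
section
/-! The monomial basis of the chains and the grading by degree and weight. -/

open ExteriorAlgebra

namespace Pool.Agent.Work.MP_894cc0_al

variable {K : Type*} [Field K] [CharZero K] {g : Type*} [LieRing g] [LieAlgebra K g]
  [LieRingModule (Sl3 K) g] [LieModule K (Sl3 K) g] [IsLieTower (Sl3 K) g g]
  {I : Type*} (D : GData K g I)

/-- The monomial basis of the chains. -/
theorem GData.exists_basis : ∃ E : Module.Basis (Finset I) K (Ch K g),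
    (∀ S, E S ∈ D.Cn S.card (∑ i ∈ S, D.deg i)) ∧
    (∀ S, E S ∈ wtSp K (Ch K g) (∑ i ∈ S, D.wt i)) ∧
    (∀ k (w : Ch K g), Ch.val K g w ∈ ⋀[K]^k g → ∀ S, E.repr w S ≠ 0 → S.card = k) ∧
    (∀ i, ∃ S, E S = (Ch.val K g).symm (ι K (D.v i)) ∧ S = {i}) := by
  obtain ⟨E, h1', h2', h3', h4'⟩ := Grade_exists D.v
  have hv : ∀ S, Ch.val K g (E.map (Ch.val K g).symm S) = E S := fun S => by simp
  refine ⟨E.map (Ch.val K g).symm, fun S => ?_, fun S => ?_, fun k w hw S hS => ?_,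
    fun i => ⟨{i}, by simp [h4'], rfl⟩⟩
  · refine D.mem_Cn.2 ⟨by rw [hv]; exact h1' S, fun c => ?_⟩
    rw [hv, h3' _ (fun i => c ^ D.deg i) (fun i => D.σ_v c i), Finset.prod_pow_eq_pow_sum]
  · refine ⟨(Ch.val K g).injective ?_, (Ch.val K g).injective ?_⟩
    · rw [Ch.val_lie, map_smul, hv,
        h2' _ (fun i => ((D.wt i).1 : K)) (fun i => (D.v_wt i).1), Prod.fst_sum, Int.cast_sum]
    · rw [Ch.val_lie, map_smul, hv,
        h2' _ (fun i => ((D.wt i).2 : K)) (fun i => (D.v_wt i).2), Prod.snd_sum, Int.cast_sum]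
  · have h := Grade_eig E (theta 1) (fun S => (S.card : K))
      (fun S => Grade_theta_id (h1' S)) (Grade_theta_id hw) S (by simpa using hS)
    exact Nat.cast_injective h

/-- The scaling operator by `2` on the chains. -/
noncomputable def GData.Grade_sc : Module.End K (Ch K g) :=
  (Ch.val K g).symm.toLinearMap ∘ₗ (ExteriorAlgebra.map (D.σ 2 : g →ₗ[K] g)).toLinearMap ∘ₗ
    (Ch.val K g).toLinearMap

omit [CharZero K] [IsLieTower (Sl3 K) g g] in
theorem GData.Grade_val_sc (w : Ch K g) :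
    Ch.val K g (D.Grade_sc w) = ExteriorAlgebra.map (D.σ 2 : g →ₗ[K] g) (Ch.val K g w) := rfl

theorem GData.Grade_sc_of_mem {k n : ℕ} {w : Ch K g} (hw : w ∈ D.Cn k n) :
    D.Grade_sc w = (2 : K) ^ n • w :=
  (Ch.val K g).injective (by rw [D.Grade_val_sc, map_smul, (D.mem_Cn.1 hw).2])

theorem GData.Grade_deg {E : Module.Basis (Finset I) K (Ch K g)}
    (h1' : ∀ S, E S ∈ D.Cn S.card (∑ i ∈ S, D.deg i)) {n : ℕ} {w : Ch K g}
    (hw : D.Grade_sc w = (2 : K) ^ n • w) (S : Finset I) (hS : E.repr w S ≠ 0) :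
    ∑ i ∈ S, D.deg i = n := by
  have h := Grade_eig E D.Grade_sc (fun S => (2 : K) ^ (∑ i ∈ S, D.deg i))
    (fun S => D.Grade_sc_of_mem (h1' S)) hw S hS
  have h2' : ((2 ^ (∑ i ∈ S, D.deg i) : ℕ) : K) = ((2 ^ n : ℕ) : K) := by push_cast; exact h
  exact Nat.pow_right_injective le_rfl (Nat.cast_injective h2')

/-- The monomial basis with coordinate descriptions of the graded pieces. -/
theorem GData.Grade_basis : ∃ E : Module.Basis (Finset I) K (Ch K g),
    (∀ S, E S ∈ D.Cn S.card (∑ i ∈ S, D.deg i)) ∧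
    (∀ S, E S ∈ wtSp K (Ch K g) (∑ i ∈ S, D.wt i)) ∧
    (∀ k (w : Ch K g), Ch.val K g w ∈ ⋀[K]^k g → ∀ S, E.repr w S ≠ 0 → S.card = k) ∧
    (∀ i, E {i} = (Ch.val K g).symm (ι K (D.v i))) ∧
    (∀ k n w, w ∈ D.Cn k n ↔ ∀ S, E.repr w S ≠ 0 → S.card = k ∧ ∑ i ∈ S, D.deg i = n) ∧
    (∀ μ w, w ∈ wtSp K (Ch K g) μ ↔ ∀ S, E.repr w S ≠ 0 → ∑ i ∈ S, D.wt i = μ) := by
  obtain ⟨E, h1', h2', h3', h4'⟩ := D.exists_basis
  refine ⟨E, h1', h2', h3', fun i => ?_, fun k n w => ⟨fun hw S hS => ⟨?_, ?_⟩, fun h => ?_⟩,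
    fun μ w => ⟨fun hw S hS => ?_, fun h => ?_⟩⟩
  · obtain ⟨S, hS, rfl⟩ := h4' i
    exact hS
  · exact h3' k w (D.mem_Cn.1 hw).1 S hS
  · exact D.Grade_deg h1' (D.Grade_sc_of_mem hw) S hS
  · refine Grade_mem_of_repr E (D.Cn k n).toSubmodule (fun S hS => ?_)
    obtain ⟨rfl, rfl⟩ := h S hS
    exact h1' S
  · have ha := Grade_eig E (LieModule.toEnd K (Sl3 K) (Ch K g) (h1 K))
      (fun S => ((∑ i ∈ S, D.wt i).1 : K)) (fun S => (h2' S).1) hw.1 S hS
    have hb := Grade_eig E (LieModule.toEnd K (Sl3 K) (Ch K g) (h2 K))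
      (fun S => ((∑ i ∈ S, D.wt i).2 : K)) (fun S => (h2' S).2) hw.2 S hS
    exact Prod.ext (Int.cast_injective ha) (Int.cast_injective hb)
  · refine Grade_mem_of_repr E _ (fun S hS => ?_)
    rw [← h S hS]
    exact h2' S

theorem GData.finite_Cn (k n : ℕ) : FiniteDimensional K (D.Cn k n) := by
  obtain ⟨E, -, -, -, -, h5, -⟩ := D.Grade_basis
  have hfin := (finite_degSets D.deg D.deg_pos D.fin n).image E
  have := FiniteDimensional.span_of_finite K hfin
  have hle : (D.Cn k n).toSubmodule ≤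
      Submodule.span K (E '' {S : Finset I | ∑ i ∈ S, D.deg i = n}) := fun w hw =>
    E.mem_span_image.2 (fun S hS => ((h5 k n w).1 hw S (Finsupp.mem_support_iff.1 hS)).2)
  exact Submodule.finiteDimensional_of_le hle

theorem GData.isWt_Cn (k n : ℕ) : IsWt K (D.Cn k n) := by
  obtain ⟨E, -, h2', -⟩ := D.Grade_basis
  refine IsWt.sub ?_ _
  refine top_unique (fun w _ => Grade_mem_of_repr E _ (fun S _ => ?_))
  exact Submodule.mem_iSup_of_mem _ (h2' S)

theorem GData.finrank_wtSp (k n : ℕ) (μ : ℤ × ℤ) : Module.finrank K (wtSp K (D.Cn k n) μ) =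
    {S : Finset I | S.card = k ∧ ∑ i ∈ S, D.deg i = n ∧ ∑ i ∈ S, D.wt i = μ}.ncard := by
  obtain ⟨E, -, -, -, -, h5, h6⟩ := D.Grade_basis
  rw [← Grade_finrank_span E]
  refine (Submodule.finrank_map_subtype_eq (D.Cn k n).toSubmodule
    (wtSp K (D.Cn k n) μ)).symm.trans ?_
  refine congrArg (fun N : Submodule K (Ch K g) => Module.finrank K N) ?_
  ext w
  rw [E.mem_span_image, Submodule.mem_map]
  constructor
  · rintro ⟨x, hx, rfl⟩ S hS
    have hS' := Finsupp.mem_support_iff.1 hS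
    have ha := (h5 k n x.1).1 x.2 S hS'
    exact ⟨ha.1, ha.2, (h6 μ x.1).1 ((coe_mem_wtSp (D.Cn k n) x).2 hx) S hS'⟩
  · intro h
    have h' : ∀ S, E.repr w S ≠ 0 → S.card = k ∧ ∑ i ∈ S, D.deg i = n ∧ ∑ i ∈ S, D.wt i = μ :=
      fun S hS => h (Finsupp.mem_support_iff.2 hS)
    have hw : w ∈ D.Cn k n := (h5 k n w).2 (fun S hS => ⟨(h' S hS).1, (h' S hS).2.1⟩)
    exact ⟨⟨w, hw⟩, (coe_mem_wtSp (D.Cn k n) ⟨w, hw⟩).1
      ((h6 μ w).2 (fun S hS => (h' S hS).2.2)), rfl⟩

theorem GData.Cn_eq_bot {k n : ℕ} (h : n < k) : D.Cn k n = ⊥ := by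
  obtain ⟨E, -, -, -, -, h5, -⟩ := D.Grade_basis
  refine (LieSubmodule.eq_bot_iff _).2 (fun w hw => ?_)
  refine (Submodule.mem_bot K).1 (Grade_mem_of_repr E ⊥ (fun S hS => ?_))
  obtain ⟨ha, hb⟩ := (h5 k n w).1 hw S hS
  have hle : S.card ≤ ∑ i ∈ S, D.deg i := by
    rw [Finset.card_eq_sum_ones]
    exact Finset.sum_le_sum (fun i _ => D.deg_pos i)
  omega

theorem GData.Cn_zero {n : ℕ} (h : 1 ≤ n) : D.Cn 0 n = ⊥ := by
  obtain ⟨E, -, -, -, -, h5, -⟩ := D.Grade_basis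
  refine (LieSubmodule.eq_bot_iff _).2 (fun w hw => ?_)
  refine (Submodule.mem_bot K).1 (Grade_mem_of_repr E ⊥ (fun S hS => ?_))
  obtain ⟨ha, hb⟩ := (h5 0 n w).1 hw S hS
  rw [Finset.card_eq_zero.1 ha, Finset.sum_empty] at hb
  omega

theorem GData.Cn_one {n : ℕ} (h : 2 ≤ n) {w : Ch K g} (hw : w ∈ D.Cn 1 n) :
    Ch.val K g w ∈ Bdry K g 1 := by
  obtain ⟨E, -, -, -, h4', h5, -⟩ := D.Grade_basis
  refine Grade_mem_of_repr E ((Bdry K g 1).comap (Ch.val K g).toLinearMap) (fun S hS => ?_)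
  obtain ⟨ha, hb⟩ := (h5 1 n w).1 hw S hS
  obtain ⟨i, rfl⟩ := Finset.card_eq_one.1 ha
  rw [Finset.sum_singleton] at hb
  rw [h4', Submodule.mem_comap]
  simpa using D.bd i (by omega)

/-- The projections onto degree `n`. -/
theorem GData.exists_pr : ∃ pr : ℕ → (Ch K g →ₗ⁅K, Sl3 K⁆ Ch K g),
    (∀ n k w, Ch.val K g w ∈ ⋀[K]^k g → pr n w ∈ D.Cn k n) ∧
    (∀ n k, ∀ w ∈ D.Cn k n, pr n w = w) ∧
    (∀ n w, pr n (dL K g w) = dL K g (pr n w)) ∧
    (∀ w, ∃ T : Finset ℕ, w = ∑ m ∈ T, pr m w) := by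
  classical
  obtain ⟨E, h1', -, h3', -, -, -⟩ := D.Grade_basis
  let p : ℕ → Module.End K (Ch K g) := fun n =>
    E.constr K (fun S => if ∑ i ∈ S, D.deg i = n then E S else 0)
  have hp : ∀ n S, p n (E S) = if ∑ i ∈ S, D.deg i = n then E S else 0 :=
    fun n S => E.constr_basis K _ S
  have heig : ∀ n m w, D.Grade_sc w = (2 : K) ^ m • w → p n w = if m = n then w else 0 := by
    intro n m w hw
    have key : w ∈ LinearMap.eqLocus (p n) (if m = n then 1 else 0) := by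
      refine Grade_mem_of_repr E _ (fun S hS => ?_)
      rw [LinearMap.mem_eqLocus, hp, D.Grade_deg h1' hw S hS]
      split_ifs <;> rfl
    rw [LinearMap.mem_eqLocus.1 key]
    split_ifs <;> rfl
  have hcomm : ∀ (T : Module.End K (Ch K g)), (∀ w, D.Grade_sc (T w) = T (D.Grade_sc w)) →
      ∀ n w, p n (T w) = T (p n w) := by
    intro T hT n w
    have : p n ∘ₗ T = T ∘ₗ p n := by
      refine E.ext (fun S => ?_)
      rw [LinearMap.comp_apply, LinearMap.comp_apply, hp,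
        heig n (∑ i ∈ S, D.deg i) _ (by rw [hT, D.Grade_sc_of_mem (h1' S), map_smul])]
      split_ifs
      · rfl
      · exact (map_zero T).symm
    exact LinearMap.congr_fun this w
  refine ⟨fun n => { toLinearMap := p n, map_lie' := fun {X w} => ?_ }, fun n k w hw => ?_,
    fun n k w hw => ?_, fun n w => ?_, fun w => ?_⟩
  · exact hcomm (LieModule.toEnd K (Sl3 K) (Ch K g) X)
      (fun w => (Ch.val K g).injective (D.map_theta_σ 2 X (Ch.val K g w))) n w
  · change w ∈ (D.Cn k n).toSubmodule.comap (p n)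
    refine Grade_mem_of_repr E _ (fun S hS => ?_)
    rw [Submodule.mem_comap, hp]
    split_ifs with hd
    · rw [← hd, ← h3' k w hw S hS]; exact h1' S
    · exact zero_mem _
  · exact (heig n n w (D.Grade_sc_of_mem hw)).trans (if_pos rfl)
  · exact hcomm (dL K g).toLinearMap
      (fun w => (Ch.val K g).injective (map_dCE (D.σ 2) (Ch.val K g w))) n w
  · refine ⟨(E.repr w).support.image (fun S => ∑ i ∈ S, D.deg i), ?_⟩
    have key : w ∈ LinearMap.eqLocus (1 : Module.End K (Ch K g))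
        (∑ m ∈ (E.repr w).support.image (fun S => ∑ i ∈ S, D.deg i), p m) := by
      refine Grade_mem_of_repr E _ (fun S hS => ?_)
      rw [LinearMap.mem_eqLocus, LinearMap.sum_apply]
      simp only [hp]
      rw [Finset.sum_ite_eq, if_pos (Finset.mem_image_of_mem _ (Finsupp.mem_support_iff.2 hS))]
      rfl
    have h := LinearMap.mem_eqLocus.1 key
    rw [LinearMap.sum_apply] at h
    exact h

end Pool.Agent.Work.MP_894cc0_al
end
end

-- merged part: Pool.Agent.Work.MP_894cc0_al.BBasis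
section
/-! A homogeneous basis of `B(A)` for the free associative algebra on two generators. -/

namespace Pool.Agent.Work.MP_894cc0_al

variable {K : Type*} [Field K] [CharZero K] {A : Type*} [NonUnitalNonAssocRing A] [Module K A]
  [IsScalarTower K A A] [SMulCommClass K A A] [IsAlt A]

open Finset FreeSemigroup LinearMap

theorem BBasis_len (i : ℕ) (w : Wd) : (rot^[i] w).length = w.length := by
  induction i with
  | zero => rfl
  | succ i ih => rw [Function.iterate_succ_apply', length_rot, ih]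

/-- The wedge of the first letter with the rest. -/
noncomputable def BBasis_e (K : Type*) [Field K] [Module K A] (b : Wd → A) (w : Wd) : BB K A :=
  match w.tail with
  | [] => 0
  | y :: l => wedge K A (b (of w.head)) (b ⟨y, l⟩)

/-- The weighted sum over a rotation class. -/
noncomputable def BBasis_psi (K : Type*) [Field K] [Module K A] (b : Wd → A) (w : Wd) : BB K A :=
  -(w.length : K)⁻¹ • ∑ i ∈ range w.length, (i : K) • BBasis_e K b (rot^[i] w)

omit [IsAlt A] in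
theorem BBasis_wedge {b : Wd → A} (hb : ∀ u v, b (u * v) = b u * b v) (u v : Wd) :
    wedge K A (b u) (b v) = ∑ i ∈ range u.length, BBasis_e K b (rot^[i] (u * v)) := by
  induction u using FreeSemigroup.recOnMul generalizing v with
  | ih1 x => exact (sum_range_one fun i => BBasis_e K b (rot^[i] (of x * v))).symm
  | ih2 x y _ ih =>
    have h1 := wedge_cyc (K := K) (b (of x)) (b y) (b v)
    have h2 := wedge_comm (K := K) (b (of x)) (b (y * v))
    have h3 := wedge_comm (K := K) (b y) (b (v * of x))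
    have h4 : BBasis_e K b (rot^[0] (of x * y * v)) = wedge K A (b (of x)) (b (y * v)) := rfl
    rw [length_mul, length_of, add_comm, sum_range_succ', h4]
    simp only [Function.iterate_succ_apply, mul_assoc, rot_of_mul, ← ih]
    simp only [← hb] at h1
    linear_combination (norm := abel1) h1 - h2 - h3

omit [IsAlt A] in
theorem BBasis_step {b : Wd → A} (hb : ∀ u v, b (u * v) = b u * b v) (w : Wd) :
    BBasis_e K b w = BBasis_psi K b w - BBasis_psi K b (rot w) := by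
  have h0 : ∀ w : Wd, ∑ i ∈ range w.length, BBasis_e K b (rot^[i] w) = 0 := by
    intro w
    induction w using FreeSemigroup.recOnMul with
    | ih1 x => exact sum_range_one _
    | ih2 x y _ _ =>
      rw [length_mul, length_of, add_comm, sum_range_succ']
      simp only [Function.iterate_succ_apply, rot_of_mul, ← BBasis_wedge hb]
      exact add_eq_zero_iff_eq_neg.2 (wedge_comm _ _)
  have h1 := sum_range_succ' (fun i : ℕ => (i : K) • BBasis_e K b (rot^[i] w)) w.length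
  have h2 := h0 (rot w)
  have hn : (w.length : K) ≠ 0 := Nat.cast_ne_zero.2 (Nat.succ_ne_zero _)
  rw [length_rot] at h2
  simp only [sum_range_succ, rot_iterate_length, Nat.cast_succ, add_smul, one_smul, sum_add_distrib,
    Function.iterate_succ_apply, h2, Nat.cast_zero, zero_smul, add_zero] at h1
  rw [BBasis_psi, BBasis_psi, length_rot, ← h1, ← smul_sub, sub_add_cancel_left, neg_smul_neg,
    inv_smul_smul₀ hn]

theorem exists_bbasis (b : Module.Basis Wd K A) (hb : ∀ u v, b (u * v) = b u * b v)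
    (R : Set Wd) (hR : IsRepSet R) (f : K → (A →ₙₐ[K] A))
    (hf : ∀ c w, f c (b w) = c ^ w.length • b w) :
    ∃ β : Module.Basis {w : Wd // w ∉ R} K (BB K A),
      ∀ c j, mapB (f c) (β j) = c ^ j.1.length • β j := by
  classical
  have a1 : ∀ u v r, b u * b v * r = b u * (b v * r) := fun u v => LinearMap.congr_fun
    (b.ext (f₁ := mulLeft K (b u * b v)) (f₂ := mulLeft K (b u) ∘ₗ mulLeft K (b v))
      fun w => by simp [← hb, mul_assoc])
  have a2 : ∀ u q r, b u * q * r = b u * (q * r) := fun u q r => LinearMap.congr_fun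
    (b.ext (f₁ := mulRight K r ∘ₗ mulLeft K (b u)) (f₂ := mulLeft K (b u) ∘ₗ mulRight K r)
      fun w => a1 u w r) q
  have a3 : ∀ p q r : A, p * q * r = p * (q * r) := fun p q r => LinearMap.congr_fun
    (b.ext (f₁ := mulRight K r ∘ₗ mulRight K q) (f₂ := mulRight K (q * r)) fun w => a2 w q r) p
  let φ : BB K A →ₗ[K] A := liftB (com K A) (fun p => sub_self _) fun p q r => by
    simp only [com_apply, a3]
    abel
  have h1 : ∀ w, φ (BBasis_e K b w) = b w - b (rot w) := by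
    intro w
    induction w using FreeSemigroup.recOnMul with
    | ih1 x => exact (map_zero φ).trans (sub_self _).symm
    | ih2 x y _ _ =>
      rw [rot_of_mul, hb, hb]
      rfl
  have h2 : ∀ i w, φ (BBasis_psi K b w - BBasis_psi K b (rot^[i] w)) = b w - b (rot^[i] w) := by
    intro i w
    induction i with
    | zero => simp
    | succ i ih =>
      rw [Function.iterate_succ_apply', ← sub_add_sub_cancel _ (BBasis_psi K b (rot^[i] w)),
        map_add, ih, ← BBasis_step hb, h1, sub_add_sub_cancel]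
  choose rep hr hu using hR
  choose hr k hk using hr
  let β : Wd → BB K A := fun w => BBasis_psi K b w - BBasis_psi K b (rep w)
  have h3 : LinearIndependent K fun j : {w : Wd // w ∉ R} => β j := by
    refine .of_comp (b.constr K (fun w => if w ∈ R then 0 else b w) ∘ₗ φ) ?_
    rw [show _ ∘ _ = b ∘ Subtype.val from funext fun j => ?_]
    · exact b.linearIndependent.comp _ Subtype.val_injective
    · have := h2 (k j) j
      rw [hk] at this
      simp [β, this, hr, j.2, -map_sub, (b.constr K _).map_sub]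
  set N := Submodule.span K (Set.range fun j : {w : Wd // w ∉ R} => β j)
  have h4 : ∀ w, β w ∈ N := fun w => by
    by_cases h : w ∈ R
    · simp [β, ← hu w w ⟨h, 0, rfl⟩]
    · exact Submodule.subset_span ⟨⟨w, h⟩, rfl⟩
  have h5 : (wedge K A).compr₂ N.mkQ = 0 := b.ext fun u => b.ext fun v => by
    refine (Submodule.Quotient.mk_eq_zero _).2 ?_
    rw [BBasis_wedge hb]
    refine N.sum_mem fun i _ => ?_
    generalize rot^[i] (u * v) = w
    have := N.sub_mem (h4 w) (h4 (rot w))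
    simp only [β, hu w (rep (rot w)) ⟨hr _, k (rot w) + 1, hk _⟩] at this
    rwa [sub_sub_sub_cancel_right, ← BBasis_step hb] at this
  have h6 : ∀ c w, mapB (f c) (BBasis_e K b w) = c ^ w.length • BBasis_e K b w := by
    intro c w
    induction w using FreeSemigroup.recOnMul with
    | ih1 x => exact (map_zero _).trans (smul_zero _).symm
    | ih2 x y _ _ =>
      change mapB (f c) (wedge K A (b (of x)) (b y)) = _ • wedge K A (b (of x)) (b y)
      rw [mapB_wedge, hf, hf, length_mul, pow_add, mul_comm, mul_smul, map_smul, map_smul,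
        LinearMap.smul_apply]
  have h7 : ∀ c w, mapB (f c) (BBasis_psi K b w) = c ^ w.length • BBasis_psi K b w := by
    intro c w
    simp only [BBasis_psi, map_smul, map_sum, h6, BBasis_len, smul_comm _ (c ^ w.length),
      ← smul_sum]
  refine ⟨Module.Basis.mk h3 fun x _ => BB_ind N.zero_mem (fun p q =>
    (Submodule.Quotient.mk_eq_zero _).1 (LinearMap.congr_fun₂ h5 p q)) (fun _ _ => N.add_mem) x,
    fun c j => ?_⟩
  simp only [Module.Basis.mk_apply, β, map_sub, h7, ← hk, BBasis_len, smul_sub]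

end Pool.Agent.Work.MP_894cc0_al
end

-- merged part: Pool.Agent.Work.MP_894cc0_al.Two
section
/-! Graded data for two generators. -/

open scoped TensorProduct

namespace Pool.Agent.Work.MP_894cc0_al

variable (K : Type*) [Field K] [CharZero K]

theorem ABG.map_sl_lie {A A' : Type*} [NonUnitalNonAssocRing A] [Module K A] [IsScalarTower K A A]
    [SMulCommClass K A A] [IsAlt A] [NonUnitalNonAssocRing A'] [Module K A']
    [IsScalarTower K A' A'] [SMulCommClass K A' A'] [IsAlt A'] (f : A →ₙₐ[K] A') (X : Sl3 K)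
    (x : ABG K A) : ABG.map f ⁅X, x⁆ = ⁅X, ABG.map f x⁆ := by
  refine Prod.ext ?_ (map_zero (mapB f))
  change (f : A →ₗ[K] A').lTensor (Sl3 K) ((slLie K X).rTensor A x.1) =
    (slLie K X).rTensor A' ((f : A →ₗ[K] A').lTensor (Sl3 K) x.1)
  induction x.1 using TensorProduct.induction_on with
  | zero => simp
  | add a b ha hb => simp only [map_add, ha, hb]
  | tmul Y p => simp only [LinearMap.rTensor_tmul, LinearMap.lTensor_tmul]

theorem Two_lie_mem {g : Type*} [LieRing g] [LieAlgebra K g] (x y : g) :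
    ExteriorAlgebra.ι K ⁅x, y⁆ ∈ Bdry K g 1 := by
  refine ⟨ExteriorAlgebra.ι K x * ExteriorAlgebra.ι K y, ?_, dCE_ι_ι x y⟩
  change _ ∈ LinearMap.range (ExteriorAlgebra.ι K : g →ₗ[K] _) ^ (1 + 1)
  rw [pow_succ, pow_one]
  exact Submodule.mul_mem_mul ⟨_, rfl⟩ ⟨_, rfl⟩

theorem Two_sl_mem {g : Type*} [LieRing g] [LieAlgebra K g] [LieRingModule (Sl3 K) g]
    [LieModule K (Sl3 K) g] [IsLieTower (Sl3 K) g g] (Z : Sl3 K) (x : g)
    (hx : ExteriorAlgebra.ι K x ∈ Bdry K g 1) : ExteriorAlgebra.ι K ⁅Z, x⁆ ∈ Bdry K g 1 := by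
  obtain ⟨w, hw, hwx⟩ := hx
  refine ⟨theta (LieModule.toEnd K (Sl3 K) g Z) w, theta_mem _ hw, ?_⟩
  rw [dCE_theta _ (fun a b => leibniz_lie Z a b), hwx]
  have h := theta_ι_mul (LieModule.toEnd K (Sl3 K) g Z) x 1
  rw [mul_one, mul_one, theta_one, mul_zero, add_zero] at h
  exact h

/-- The map `X ↦ X ⊗ a`. -/
noncomputable def Two_emb {A : Type*} [NonUnitalNonAssocRing A] [Module K A]
    [IsScalarTower K A A] [SMulCommClass K A A] [IsAlt A] (a : A) : Sl3 K →ₗ[K] ABG K A :=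
  LinearMap.inl K (Sl3 K ⊗[K] A) (BB K A) ∘ₗ (TensorProduct.mk K (Sl3 K) A).flip a

theorem Two_sl_emb {A : Type*} [NonUnitalNonAssocRing A] [Module K A]
    [IsScalarTower K A A] [SMulCommClass K A A] [IsAlt A] (a : A) (Z X : Sl3 K) :
    ⁅Z, Two_emb K a X⁆ = Two_emb K a ⁅Z, X⁆ := rfl

theorem Two_lie_emb {A : Type*} [NonUnitalNonAssocRing A] [Module K A]
    [IsScalarTower K A A] [SMulCommClass K A A] [IsAlt A] (p q : A) (X Y : Sl3 K) :
    (⁅Two_emb K p X, Two_emb K q Y⁆ : ABG K A) =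
      (⁅X, Y⁆ ⊗ₜ[K] ((1 / 2 : K) • (p * q + q * p)) + slSym K X Y ⊗ₜ[K] (p * q - q * p),
        slTr K X Y • wedge K A p q) := by
  refine Prod.ext ?_ ?_
  · change brT K A (X ⊗ₜ p) (Y ⊗ₜ q) + actT K A 0 (Y ⊗ₜ q) - actT K A 0 (X ⊗ₜ p) = _
    rw [map_zero, LinearMap.zero_apply, LinearMap.zero_apply, add_zero, sub_zero, brT_tmul]
  · change brB K A (X ⊗ₜ p) (Y ⊗ₜ q) + actB K A 0 0 = _
    rw [map_zero, add_zero, brB_tmul]

theorem Two_slTr12 : slTr K (e1 K) (e2 K) = 0 := by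
  rw [slTr_apply, e1_val, e2_val]
  simp [Matrix.trace, Fin.sum_univ_three]

theorem Two_slTr11 : slTr K (e1 K) (f1 K) = 1 / 3 := by
  rw [slTr_apply, e1_val, f1_val]
  simp [Matrix.trace, Fin.sum_univ_three]

theorem Two_slSym12 : slSym K (e1 K) (e2 K) = (1 / 2 : K) • e3 K := by
  refine Subtype.ext ?_
  rw [slSym_val, Two_slTr12, SetLike.val_smul, e1_val, e2_val, e3_val]
  ext i j
  fin_cases i <;> fin_cases j <;> simp

/-- `X ⊗ pq` and `B(A)` lie in the derived algebra, hence give boundaries in degree one. -/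
theorem bdry_tmul_mul {A : Type*} [NonUnitalNonAssocRing A] [Module K A] [IsScalarTower K A A]
    [SMulCommClass K A A] [IsAlt A] (X : Sl3 K) (p q : A) :
    ExteriorAlgebra.ι K (show ABG K A from (X ⊗ₜ[K] (p * q), 0)) ∈ Bdry K (ABG K A) 1 := by
  let N : LieSubmodule K (Sl3 K) (Sl3 K) :=
    { toSubmodule := (Bdry K (ABG K A) 1).comap
        (ExteriorAlgebra.ι K ∘ₗ Two_emb K (p * q))
      lie_mem := fun {Z Y} hY => Two_sl_mem K Z (Two_emb K (p * q) Y) hY }
  have h3 : e3 K ∈ N := by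
    have h := Two_lie_mem K (Two_emb K p (e1 K)) (Two_emb K q (e2 K))
    have hb : (⁅Two_emb K p (e1 K), Two_emb K q (e2 K)⁆ : ABG K A) = Two_emb K (p * q) (e3 K) := by
      rw [Two_lie_emb, Two_slTr12, Two_slSym12, lie_e1_e2, zero_smul]
      refine Prod.ext ?_ rfl
      change _ = e3 K ⊗ₜ[K] (p * q)
      simp only [TensorProduct.tmul_add, TensorProduct.tmul_sub, TensorProduct.tmul_smul,
        ← TensorProduct.smul_tmul', smul_add]
      module
    rw [hb] at h
    exact h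
  have hN : LieSubmodule.lieSpan K (Sl3 K) {e3 K} ≤ N :=
    LieSubmodule.lieSpan_le.2 (Set.singleton_subset_iff.2 h3)
  rw [(std_ad (K := K)).span] at hN
  exact hN (LieSubmodule.mem_top X)

theorem bdry_B {A : Type*} [NonUnitalNonAssocRing A] [Module K A] [IsScalarTower K A A]
    [SMulCommClass K A A] [IsAlt A] (b : BB K A) :
    ExteriorAlgebra.ι K (show ABG K A from (0, b)) ∈ Bdry K (ABG K A) 1 := by
  let j : BB K A →ₗ[K] ABG K A := LinearMap.inr K (Sl3 K ⊗[K] A) (BB K A)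
  change ExteriorAlgebra.ι K (j b) ∈ Bdry K (ABG K A) 1
  induction b using BB_ind with
  | h0 => rw [map_zero, map_zero]; exact zero_mem _
  | ha x y hx hy => rw [map_add, map_add]; exact add_mem hx hy
  | hw p q =>
    have h := Two_lie_mem K (Two_emb K p (e1 K)) (Two_emb K q (f1 K))
    have hb : j (wedge K A p q) = (3 : K) • ((⁅Two_emb K p (e1 K), Two_emb K q (f1 K)⁆ : ABG K A)
        - ((1 / 2 : K) • (Two_emb K (p * q) (h1 K) + Two_emb K (q * p) (h1 K))
          + (Two_emb K (p * q) (slSym K (e1 K) (f1 K))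
            - Two_emb K (q * p) (slSym K (e1 K) (f1 K))))) := by
      rw [Two_lie_emb, Two_slTr11, lie_e1_f1]
      refine Prod.ext ?_ ?_
      · change (0 : Sl3 K ⊗[K] A) = (3 : K) • ((h1 K ⊗ₜ[K] ((1 / 2 : K) • (p * q + q * p))
          + slSym K (e1 K) (f1 K) ⊗ₜ[K] (p * q - q * p))
          - ((1 / 2 : K) • (h1 K ⊗ₜ[K] (p * q) + h1 K ⊗ₜ[K] (q * p))
            + (slSym K (e1 K) (f1 K) ⊗ₜ[K] (p * q) - slSym K (e1 K) (f1 K) ⊗ₜ[K] (q * p))))
        simp only [TensorProduct.tmul_add, TensorProduct.tmul_sub, TensorProduct.tmul_smul]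
        module
      · change wedge K A p q = (3 : K) • ((1 / 3 : K) • wedge K A p q
          - ((1 / 2 : K) • ((0 : BB K A) + 0) + (0 - 0)))
        module
    rw [hb, map_smul, map_sub, map_add, map_smul, map_add, map_sub]
    exact Submodule.smul_mem _ _ (sub_mem h (add_mem
      (Submodule.smul_mem _ _ (add_mem (bdry_tmul_mul K _ p q) (bdry_tmul_mul K _ q p)))
      (sub_mem (bdry_tmul_mul K _ p q) (bdry_tmul_mul K _ q p))))

theorem exists_gdata (R : Set Wd) (hR : IsRepSet R) :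
    ∃ D : GData K (ABG K (Alt K (Fin 2 → K))) ((Fin 8 × Wd) ⊕ {w : Wd // w ∉ R}),
      D.deg = ideg (fun w : Wd => w.length) (fun j : {w : Wd // w ∉ R} => j.1.length) ∧
      D.wt = iwt Wd {w : Wd // w ∉ R} ∧
      ∀ c, D.σ c = ABG.map (Alt.map (c • (LinearMap.id : (Fin 2 → K) →ₗ[K] (Fin 2 → K)))) := by
  obtain ⟨b, hb, hs⟩ := exists_wb K
  obtain ⟨β, hβ⟩ := exists_bbasis b hb R hR
    (fun c => Alt.map (c • (LinearMap.id : (Fin 2 → K) →ₗ[K] (Fin 2 → K)))) hs
  let v0 : Module.Basis ((Fin 8 × Wd) ⊕ {w : Wd // w ∉ R}) K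
      ((Sl3 K ⊗[K] Alt K (Fin 2 → K)) × BB K (Alt K (Fin 2 → K))) :=
    ((slb K).tensorProduct b).prod β
  have h1 : ∀ i w, v0 (Sum.inl (i, w)) = (sv K i ⊗ₜ[K] b w, 0) := fun i w => by
    simp only [v0, Module.Basis.prod_apply, Sum.elim_inl, Function.comp_apply,
      LinearMap.inl_apply, Module.Basis.tensorProduct_apply, slb_apply]
  have h2 : ∀ j, v0 (Sum.inr j) = (0, β j) := fun j => by
    simp only [v0, Module.Basis.prod_apply, Sum.elim_inr, Function.comp_apply,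
      LinearMap.inr_apply]
  let v : Module.Basis ((Fin 8 × Wd) ⊕ {w : Wd // w ∉ R}) K (ABG K (Alt K (Fin 2 → K))) := v0
  have hv1 : ∀ i w, v (Sum.inl (i, w)) = Two_emb K (b w) (sv K i) := h1
  have hv2 : ∀ j, v (Sum.inr j) = (show ABG K (Alt K (Fin 2 → K)) from (0, β j)) := h2
  refine ⟨⟨v, ideg (fun w : Wd => w.length) (fun j : {w : Wd // w ∉ R} => j.1.length),
    iwt Wd {w : Wd // w ∉ R},
    fun c => ABG.map (Alt.map (c • (LinearMap.id : (Fin 2 → K) →ₗ[K] (Fin 2 → K)))),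
    (counts R hR).ideg_pos, (counts R hR).ideg_fin, ?_,
    fun c X x => ABG.map_sl_lie K _ X x, ?_, ?_⟩, rfl, rfl, fun _ => rfl⟩
  · rintro c (⟨i, w⟩ | j)
    · rw [hv1]
      refine Prod.ext ?_ ?_
      · change sv K i ⊗ₜ[K]
            (Alt.map (c • (LinearMap.id : (Fin 2 → K) →ₗ[K] (Fin 2 → K))) (b w)) =
          c ^ w.length • (sv K i ⊗ₜ[K] b w)
        rw [hs, TensorProduct.tmul_smul]
      · change mapB (Alt.map (c • (LinearMap.id : (Fin 2 → K) →ₗ[K] (Fin 2 → K)))) 0 =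
          c ^ w.length • (0 : BB K (Alt K (Fin 2 → K)))
        rw [map_zero, smul_zero]
    · rw [hv2]
      refine Prod.ext ?_ (hβ c j)
      change ((Alt.map (c • (LinearMap.id : (Fin 2 → K) →ₗ[K] (Fin 2 → K))) :
          Alt K (Fin 2 → K) →ₙₐ[K] Alt K (Fin 2 → K)) :
          Alt K (Fin 2 → K) →ₗ[K] Alt K (Fin 2 → K)).lTensor (Sl3 K) 0 =
        c ^ j.1.length • (0 : Sl3 K ⊗[K] Alt K (Fin 2 → K))
      rw [map_zero, smul_zero]
  · rintro (⟨i, w⟩ | j)
    · rw [hv1]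
      have h := sv_mem (K := K) i
      exact ⟨by rw [Two_sl_emb, h.1, map_smul]; rfl, by rw [Two_sl_emb, h.2, map_smul]; rfl⟩
    · rw [hv2]
      have h0 : ∀ Z : Sl3 K, ⁅Z, (show ABG K (Alt K (Fin 2 → K)) from (0, β j))⁆ = 0 :=
        fun Z => Prod.ext (map_zero _) rfl
      exact ⟨by rw [h0]; simp [iwt], by rw [h0]; simp [iwt]⟩
  · rintro (⟨i, w⟩ | j) hd
    · rw [hv1]
      change 2 ≤ w.length at hd
      induction w using FreeSemigroup.recOnMul with
      | ih1 x => exact absurd hd (by simp)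
      | ih2 x y _ _ =>
        rw [hb]
        exact bdry_tmul_mul K _ _ _
    · rw [hv2]
      exact bdry_B K _

end Pool.Agent.Work.MP_894cc0_al
end

-- merged part: Pool.Agent.Work.MP_894cc0_al.Red
section
/-! Reduction to two generators and from retracts to direct summands. -/

open scoped DirectSum

namespace Pool.Agent.Work.MP_894cc0_al

variable (K : Type*) [Field K] [CharZero K] (V : Type*) [AddCommGroup V] [Module K V]

theorem Red_ABG_comp {A A' A'' : Type*} [NonUnitalNonAssocRing A] [Module K A]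
    [IsScalarTower K A A] [SMulCommClass K A A] [IsAlt A] [NonUnitalNonAssocRing A'] [Module K A']
    [IsScalarTower K A' A'] [SMulCommClass K A' A'] [IsAlt A'] [NonUnitalNonAssocRing A'']
    [Module K A''] [IsScalarTower K A'' A''] [SMulCommClass K A'' A''] [IsAlt A'']
    (f : A →ₙₐ[K] A') (f' : A' →ₙₐ[K] A'') :
    (ABG.map (f'.comp f) : ABG K A →ₗ[K] ABG K A'') =
      (ABG.map f' : ABG K A' →ₗ[K] ABG K A'') ∘ₗ (ABG.map f : ABG K A →ₗ[K] ABG K A') := by
  refine LinearMap.ext fun x => Prod.ext ?_ ?_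
  · change ((f'.comp f : A →ₙₐ[K] A'') : A →ₗ[K] A'').lTensor (Sl3 K) x.1 =
      (f' : A' →ₗ[K] A'').lTensor (Sl3 K) ((f : A →ₗ[K] A').lTensor (Sl3 K) x.1)
    induction x.1 using TensorProduct.induction_on with
    | zero => simp
    | add a b ha hb => simp only [map_add, ha, hb]
    | tmul Y p => rfl
  · change mapB (f'.comp f) x.2 = mapB f' (mapB f x.2)
    induction x.2 using BB_ind with
    | h0 => simp
    | ha a b ha hb => simp only [map_add, ha, hb]
    | hw p q => rfl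

theorem Red_ABG_id {A : Type*} [NonUnitalNonAssocRing A] [Module K A]
    [IsScalarTower K A A] [SMulCommClass K A A] [IsAlt A] :
    (ABG.map (NonUnitalAlgHom.id K A) : ABG K A →ₗ[K] ABG K A) = LinearMap.id := by
  refine LinearMap.ext fun x => Prod.ext ?_ ?_
  · change ((NonUnitalAlgHom.id K A : A →ₙₐ[K] A) : A →ₗ[K] A).lTensor (Sl3 K) x.1 = x.1
    induction x.1 using TensorProduct.induction_on with
    | zero => simp
    | add a b ha hb => simp only [map_add, ha, hb]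
    | tmul Y p => rfl
  · change mapB (NonUnitalAlgHom.id K A) x.2 = x.2
    induction x.2 using BB_ind with
    | h0 => simp
    | ha a b ha hb => simp only [map_add, ha, hb]
    | hw p q => rfl

theorem Red_retract {L M N : Type*} [LieRing L] [AddCommGroup M] [Module K M] [LieRingModule L M]
    [AddCommGroup N] [Module K N] [LieRingModule L N] (a : M →ₗ⁅K, L⁆ N) (b : N →ₗ⁅K, L⁆ M)
    (hab : ∀ x, b (a x) = x) :
    IsCompl a.range b.ker ∧ Nonempty (a.range ≃ₗ⁅K, L⁆ M) := by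
  constructor
  · constructor
    · rw [disjoint_iff, eq_bot_iff]
      intro y hy
      obtain ⟨x, rfl⟩ := (LieModuleHom.mem_range _ y).1 hy.1
      have h0 : b (a x) = 0 := LieModuleHom.mem_ker.1 hy.2
      rw [hab] at h0
      rw [h0, map_zero]
      exact zero_mem _
    · rw [codisjoint_iff, eq_top_iff]
      intro y _
      refine (LieSubmodule.mem_sup _ _ y).2 ⟨a (b y), (LieModuleHom.mem_range _ _).2 ⟨_, rfl⟩,
        y - a (b y), LieModuleHom.mem_ker.2 (by rw [map_sub, hab, sub_self]), by abel⟩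
  · refine ⟨{ toLieModuleHom := b.comp a.range.incl
              invFun := fun x => ⟨a x, (LieModuleHom.mem_range _ _).2 ⟨_, rfl⟩⟩
              left_inv := fun y => ?_
              right_inv := fun x => hab x }⟩
    obtain ⟨y, hy⟩ := y
    obtain ⟨x, rfl⟩ := (LieModuleHom.mem_range _ y).1 hy
    exact Subtype.ext (congrArg a (hab x))

/-- The map on homology induced by a linear map of the generating spaces. -/
theorem exists_homMap {W : Type*} [AddCommGroup W] [Module K W] (f : V →ₗ[K] W) (k : ℕ) :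
    ∃ F : HA K V k →ₗ⁅K, Sl3 K⁆ HA K W k, ∀ h, F h = LieH.map (ABG.map (Alt.map f)) k h := by
  refine ⟨{ toLinearMap := LieH.map (ABG.map (Alt.map f)) k, map_lie' := fun {X h} => ?_ },
    fun h => rfl⟩
  obtain ⟨z, rfl⟩ := cls_surj k h
  exact congrArg (cls K (ABG K (Alt K W)) k) (Subtype.ext
    (map_theta _ _ _ (fun x => ABG.map_sl_lie K (Alt.map f) X x) z.1))

theorem homMap_comp {W U : Type*} [AddCommGroup W] [Module K W] [AddCommGroup U] [Module K U]
    (f : V →ₗ[K] W) (f' : W →ₗ[K] U) (k : ℕ) (h : HA K V k) :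
    LieH.map (ABG.map (Alt.map f')) k (LieH.map (ABG.map (Alt.map f)) k h) =
      LieH.map (ABG.map (Alt.map (f' ∘ₗ f))) k h := by
  obtain ⟨z, rfl⟩ := cls_surj k h
  refine congrArg (cls K (ABG K (Alt K U)) k) (Subtype.ext ?_)
  have e : Alt.map (f' ∘ₗ f) = (Alt.map f').comp (Alt.map f) :=
    Alt.hom_ext fun v => by
      rw [NonUnitalAlgHom.comp_apply, Alt.map_of, Alt.map_of, Alt.map_of, LinearMap.comp_apply]
  change ExteriorAlgebra.map
      (ABG.map (Alt.map f') : ABG K (Alt K W) →ₗ[K] ABG K (Alt K U))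
      (ExteriorAlgebra.map (ABG.map (Alt.map f) : ABG K (Alt K V) →ₗ[K] ABG K (Alt K W)) z.1) =
    ExteriorAlgebra.map
      (ABG.map (Alt.map (f' ∘ₗ f)) : ABG K (Alt K V) →ₗ[K] ABG K (Alt K U)) z.1
  rw [← AlgHom.comp_apply, ExteriorAlgebra.map_comp_map, e, Red_ABG_comp]

theorem homMap_id (k : ℕ) (h : HA K V k) :
    LieH.map (ABG.map (Alt.map (LinearMap.id : V →ₗ[K] V))) k h = h := by
  obtain ⟨z, rfl⟩ := cls_surj k h
  refine congrArg (cls K (ABG K (Alt K V)) k) (Subtype.ext ?_)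
  have e : Alt.map (LinearMap.id : V →ₗ[K] V) = NonUnitalAlgHom.id K (Alt K V) :=
    Alt.hom_ext fun v => by rw [Alt.map_of]; rfl
  change ExteriorAlgebra.map
      (ABG.map (Alt.map (LinearMap.id : V →ₗ[K] V)) : ABG K (Alt K V) →ₗ[K] ABG K (Alt K V))
      z.1 = z.1
  rw [e, Red_ABG_id, ExteriorAlgebra.map_id]
  rfl

theorem hasSummand_of_two [FiniteDimensional K V] (hV : 2 ≤ Module.finrank K V) {S : Type*}
    [AddCommGroup S] [Module K S] [LieRingModule (Sl3 K) S] [LieModule K (Sl3 K) S] (k n m : ℕ)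
    (Φ : (⨁ _ : Fin m, S) →ₗ⁅K, Sl3 K⁆ HA K (Fin 2 → K) k)
    (Ψ : HA K (Fin 2 → K) k →ₗ⁅K, Sl3 K⁆ ⨁ _ : Fin m, S) (h : ∀ x, Ψ (Φ x) = x)
    (hn : ∀ x (c : K), scal K (Fin 2 → K) c k (Φ x) = c ^ n • Φ x) :
    HasSummand K V S k n m := by
  obtain ⟨i, r, hri⟩ : ∃ (i : (Fin 2 → K) →ₗ[K] V) (r : V →ₗ[K] (Fin 2 → K)),
      r ∘ₗ i = LinearMap.id := by
    obtain ⟨i, hi⟩ := (finrank_le_iff_exists_linearMap (R := K) (M := Fin 2 → K) (M' := V)).1
      (by simpa using hV)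
    obtain ⟨r, hr⟩ := i.exists_leftInverse_of_injective (LinearMap.ker_eq_bot.2 hi)
    exact ⟨i, r, hr⟩
  obtain ⟨Fi, hFi⟩ := exists_homMap K (Fin 2 → K) i k
  obtain ⟨Fr, hFr⟩ := exists_homMap K V r k
  have hid : ∀ y, Fr (Fi y) = y := fun y => by rw [hFr, hFi, homMap_comp, hri, homMap_id]
  have hab : ∀ x, (Ψ.comp Fr) ((Fi.comp Φ) x) = x := fun x => by
    rw [LieModuleHom.comp_apply, LieModuleHom.comp_apply, hid, h]
  obtain ⟨hc, he⟩ := Red_retract K (Fi.comp Φ) (Ψ.comp Fr) hab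
  refine ⟨_, _, hc, he, ?_⟩
  intro y hy c
  obtain ⟨x, rfl⟩ := (LieModuleHom.mem_range _ y).1 hy
  have e : (c • (LinearMap.id : V →ₗ[K] V)) ∘ₗ i =
      i ∘ₗ (c • (LinearMap.id : (Fin 2 → K) →ₗ[K] (Fin 2 → K))) := by
    refine LinearMap.ext fun t => ?_
    simp
  have h1 := hn x c
  rw [scal] at h1
  rw [LieModuleHom.comp_apply, scal, hFi, homMap_comp, e, ← homMap_comp, h1, map_smul]

end Pool.Agent.Work.MP_894cc0_al
end

-- merged part: Pool.Agent.Work.MP_894cc0_al.Euler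
section
-- merged part: Pool.Agent.Work.MP_894cc0_al.Rep2
section
/-! The generalized eigenspace of the Casimir operator for the value at a good weight. -/

namespace Pool.Agent.Work.MP_894cc0_al

variable {K : Type*} [Field K] [CharZero K]
  {M : Type*} [AddCommGroup M] [Module K M] [LieRingModule (Sl3 K) M] [LieModule K (Sl3 K) M]

theorem r2_h1_ne : h1 K ≠ 0 := fun h => by
  have h' := congrArg (fun X : Sl3 K => X.val 0 0) h
  simp [h1_val] at h'

theorem r2_h2_ne : h2 K ≠ 0 := fun h => by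
  have h' := congrArg (fun X : Sl3 K => X.val 1 1) h
  simp [h2_val] at h'

theorem r2_tr1 : IsSl2Triple (h1 K) (e1 K) (f1 K) where
  h_ne_zero := r2_h1_ne
  lie_e_f := lie_e1_f1 K
  lie_h_e_nsmul := by rw [lie_h1_e1, two_smul, two_smul]
  lie_h_f_nsmul := by rw [lie_h1_f1, two_smul, two_smul]

theorem r2_tr2 : IsSl2Triple (h2 K) (e2 K) (f2 K) where
  h_ne_zero := r2_h2_ne
  lie_e_f := lie_e2_f2 K
  lie_h_e_nsmul := by rw [lie_h2_e2, two_smul, two_smul]
  lie_h_f_nsmul := by rw [lie_h2_f2, two_smul, two_smul]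

theorem hw_dom [FiniteDimensional K M] {μ : ℤ × ℤ} {v : M} (hv : v ∈ hw K M μ) (h0 : v ≠ 0) :
    0 ≤ μ.1 ∧ 0 ≤ μ.2 := by
  have p1 : (r2_tr1 (K := K)).HasPrimitiveVectorWith v (μ.1 : K) := ⟨h0, hv.1.1, hv.2.1⟩
  have p2 : (r2_tr2 (K := K)).HasPrimitiveVectorWith v (μ.2 : K) := ⟨h0, hv.1.2, hv.2.2⟩
  obtain ⟨n, hn⟩ := p1.exists_nat
  obtain ⟨m, hm⟩ := p2.exists_nat
  have hn' : μ.1 = n := by exact_mod_cast hn
  have hm' : μ.2 = m := by exact_mod_cast hm
  omega

theorem cval_inj {l μ : ℤ × ℤ} (hl : Good l) (h1 : 0 ≤ μ.1) (h2 : 0 ≤ μ.2)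
    (h : cval K μ = cval K l) : μ = l := by
  obtain ⟨a, b⟩ := μ
  have key : ((a ^ 2 + a * b + b ^ 2 + 3 * (a + b) : ℤ) : K)
      = ((l.1 ^ 2 + l.1 * l.2 + l.2 ^ 2 + 3 * (l.1 + l.2) : ℤ) : K) := by
    simp only [cval] at h
    push_cast
    linear_combination (3 / 2 : K) * h
  have key' := Int.cast_injective key
  simp only at h1 h2
  rcases hl with rfl | rfl
  · simp only at key'
    have ha : a = 0 := by nlinarith [mul_nonneg h1 h2, sq_nonneg a, sq_nonneg b]
    have hb : b = 0 := by nlinarith [mul_nonneg h1 h2, sq_nonneg a, sq_nonneg b]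
    rw [ha, hb]
  · simp only at key'
    have ha : a ≤ 3 := by nlinarith [mul_nonneg h1 h2, sq_nonneg a, sq_nonneg b]
    have hb : b ≤ 3 := by nlinarith [mul_nonneg h1 h2, sq_nonneg a, sq_nonneg b]
    interval_cases a <;> interval_cases b <;> first | rfl | (exfalso; omega)

theorem r2_e1_mem {μ : ℤ × ℤ} {v : M} (hv : v ∈ wtSp K M μ) :
    ⁅e1 K, v⁆ ∈ wtSp K M (μ + (2, -1)) := lie_sv_mem 0 hv

theorem r2_e2_mem {μ : ℤ × ℤ} {v : M} (hv : v ∈ wtSp K M μ) :
    ⁅e2 K, v⁆ ∈ wtSp K M (μ + (-1, 2)) := lie_sv_mem 1 hv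

theorem r2_f1_mem {μ : ℤ × ℤ} {v : M} (hv : v ∈ wtSp K M μ) :
    ⁅f1 K, v⁆ ∈ wtSp K M (μ + (-2, 1)) := lie_sv_mem 3 hv

theorem r2_f2_mem {μ : ℤ × ℤ} {v : M} (hv : v ∈ wtSp K M μ) :
    ⁅f2 K, v⁆ ∈ wtSp K M (μ + (1, -2)) := lie_sv_mem 4 hv

/-- A family of vectors stable under the action and containing a nonzero weight vector contains a
nonzero highest weight vector of at least the same height. -/
theorem r2_max [FiniteDimensional K M] (Q : M → Prop) (hQ : ∀ (X : Sl3 K) v, Q v → Q ⁅X, v⁆)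
    {μ : ℤ × ℤ} {v : M} (hv : v ∈ wtSp K M μ) (h0 : v ≠ 0) (hq : Q v) :
    ∃ (ν : ℤ × ℤ) (w : M), Q w ∧ w ≠ 0 ∧ w ∈ hw K M ν ∧ μ.1 + μ.2 ≤ ν.1 + ν.2 := by
  have hfin : {ν : ℤ × ℤ | ∃ w, Q w ∧ w ≠ 0 ∧ w ∈ wtSp K M ν}.Finite := by
    refine (Submodule.finite_ne_bot_of_iSupIndep (wt_indep (K := K) (M := M))).subset ?_
    rintro ν ⟨w, -, hw0, hw⟩
    exact (Submodule.ne_bot_iff _).2 ⟨w, hw, hw0⟩
  obtain ⟨ν, ⟨w, hqw, hw0, hw⟩, hmax⟩ :=
    Set.exists_max_image _ (fun ν : ℤ × ℤ => ν.1 + ν.2) hfin ⟨μ, v, hq, h0, hv⟩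
  refine ⟨ν, w, hqw, hw0, ⟨hw, ?_, ?_⟩, hmax μ ⟨v, hq, h0, hv⟩⟩
  · by_contra hne
    have h := hmax _ ⟨_, hQ _ _ hqw, hne, r2_e1_mem hw⟩
    simp only [Prod.fst_add, Prod.snd_add] at h
    omega
  · by_contra hne
    have h := hmax _ ⟨_, hQ _ _ hqw, hne, r2_e2_mem hw⟩
    simp only [Prod.fst_add, Prod.snd_add] at h
    omega

theorem r2_pow_lie (l : ℤ × ℤ) (N : ℕ) (X : Sl3 K) (v : M) :
    (casT K M l ^ N) ⁅X, v⁆ = ⁅X, (casT K M l ^ N) v⁆ := by
  induction N with
  | zero => rfl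
  | succ N ih => rw [pow_succ', Module.End.mul_apply, Module.End.mul_apply, ih, casT_lie]

theorem r2_pow_hw (l : ℤ × ℤ) (N : ℕ) {ν : ℤ × ℤ} {w : M} (hw' : w ∈ hw K M ν) :
    (casT K M l ^ N) w = (cval K ν - cval K l) ^ N • w := by
  have h1 : casT K M l w = (cval K ν - cval K l) • w := by
    rw [casT, LinearMap.sub_apply, cas_hw hw', LinearMap.smul_apply, Module.End.one_apply, sub_smul]
  induction N with
  | zero => rw [pow_zero, pow_zero, one_smul, Module.End.one_apply]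
  | succ N ih => rw [pow_succ', Module.End.mul_apply, ih, map_smul, h1, smul_smul, pow_succ]

theorem r2_eq [FiniteDimensional K M] {l ν : ℤ × ℤ} (hl : Good l) {w : M} (hw' : w ∈ hw K M ν)
    (h0 : w ≠ 0) {N : ℕ} (hN : (casT K M l ^ N) w = 0) : ν = l := by
  rw [r2_pow_hw l N hw'] at hN
  have h := eq_zero_of_pow_eq_zero ((smul_eq_zero.1 hN).resolve_right h0)
  exact cval_inj hl (hw_dom hw' h0).1 (hw_dom hw' h0).2 (sub_eq_zero.1 h)

/-- A weight vector killed by a power of `casT l` has height at most that of `l`. -/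
theorem ht_le [FiniteDimensional K M] {l μ : ℤ × ℤ} (hl : Good l) {v : M} (hv : v ∈ wtSp K M μ)
    (h0 : v ≠ 0) {N : ℕ} (hN : (casT K M l ^ N) v = 0) : μ.1 + μ.2 ≤ l.1 + l.2 := by
  obtain ⟨ν, w, hq, hw0, hw', hle⟩ := r2_max (fun x => (casT K M l ^ N) x = 0)
    (fun X x hx => by rw [r2_pow_lie, hx, lie_zero]) hv h0 hN
  rwa [r2_eq hl hw' hw0 hq] at hle

theorem mem_hw_of_gen [FiniteDimensional K M] {l : ℤ × ℤ} (hl : Good l) {v : M}
    (hv : v ∈ wtSp K M l) {N : ℕ} (hN : (casT K M l ^ N) v = 0) : v ∈ hw K M l := by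
  refine ⟨hv, ?_, ?_⟩
  · by_contra hne
    have h := ht_le hl (r2_e1_mem hv) hne (N := N) (by rw [r2_pow_lie, hN, lie_zero])
    simp only [Prod.fst_add, Prod.snd_add] at h
    omega
  · by_contra hne
    have h := ht_le hl (r2_e2_mem hv) hne (N := N) (by rw [r2_pow_lie, hN, lie_zero])
    simp only [Prod.fst_add, Prod.snd_add] at h
    omega

/-- A nonzero submodule killed by a power of `casT l` contains a highest weight vector of
weight `l`. -/
theorem exists_hw [FiniteDimensional K M] {l : ℤ × ℤ} (hl : Good l) (hM : IsWt K M)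
    (P : LieSubmodule K (Sl3 K) M) (hP : P ≠ ⊥) {N : ℕ} (hN : ∀ v ∈ P, (casT K M l ^ N) v = 0) :
    ∃ v ∈ P, v ≠ 0 ∧ v ∈ hw K M l := by
  have hex : ∃ (μ : ℤ × ℤ) (v : M), v ∈ P ∧ v ≠ 0 ∧ v ∈ wtSp K M μ := by
    by_contra hcon
    refine hP ((LieSubmodule.eq_bot_iff P).2 fun m hm => ?_)
    have h := (hM.sub P).ind (P := fun x : P => (x : M) = 0) rfl
      (fun x y hx hy => by rw [LieSubmodule.coe_add, hx, hy, add_zero])
      (fun μ x hx => by
        by_contra hne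
        exact hcon ⟨μ, x, x.2, hne, (coe_mem_wtSp P x).2 hx⟩) ⟨m, hm⟩
    exact h
  obtain ⟨μ, v, hvP, h0, hv⟩ := hex
  obtain ⟨ν, w, hq, hw0, hw', -⟩ := r2_max (fun x => x ∈ P) (fun X x hx => P.lie_mem hx) hv h0 hvP
  exact ⟨w, hq, hw0, r2_eq hl hw' hw0 (hN w hq) ▸ hw'⟩

variable (K) in
/-- The smallest subspace containing `v` and stable under `f1` and `f2`. -/
def r2U (v : M) : Submodule K M :=
  sInf {U | v ∈ U ∧ ∀ x ∈ U, ⁅f1 K, x⁆ ∈ U ∧ ⁅f2 K, x⁆ ∈ U}

theorem r2U_self (v : M) : v ∈ r2U K v := Submodule.mem_sInf.2 fun _ hU => hU.1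

theorem r2U_f1 {v x : M} (hx : x ∈ r2U K v) : ⁅f1 K, x⁆ ∈ r2U K v :=
  Submodule.mem_sInf.2 fun U hU => (hU.2 x (Submodule.mem_sInf.1 hx U hU)).1

theorem r2U_f2 {v x : M} (hx : x ∈ r2U K v) : ⁅f2 K, x⁆ ∈ r2U K v :=
  Submodule.mem_sInf.2 fun U hU => (hU.2 x (Submodule.mem_sInf.1 hx U hU)).2

theorem r2U_le {v : M} {U : Submodule K M} (h0 : v ∈ U)
    (h : ∀ x ∈ U, ⁅f1 K, x⁆ ∈ U ∧ ⁅f2 K, x⁆ ∈ U) : r2U K v ≤ U := sInf_le ⟨h0, h⟩

theorem r2U_cl {v : M} (X : Sl3 K) (h0 : ⁅X, v⁆ ∈ r2U K v)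
    (h1 : ∀ x ∈ r2U K v, ⁅⁅X, f1 K⁆, x⁆ ∈ r2U K v) (h2 : ∀ x ∈ r2U K v, ⁅⁅X, f2 K⁆, x⁆ ∈ r2U K v)
    {x : M} (hx : x ∈ r2U K v) : ⁅X, x⁆ ∈ r2U K v := by
  have h : r2U K v ≤ r2U K v ⊓ (r2U K v).comap (ro K M X) := by
    refine r2U_le ⟨r2U_self v, h0⟩ fun y hy => ⟨⟨r2U_f1 hy.1, ?_⟩, ⟨r2U_f2 hy.1, ?_⟩⟩
    · change ⁅X, ⁅f1 K, y⁆⁆ ∈ r2U K v
      rw [leibniz_lie]
      exact add_mem (h1 y hy.1) (r2U_f1 hy.2)
    · change ⁅X, ⁅f2 K, y⁆⁆ ∈ r2U K v
      rw [leibniz_lie]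
      exact add_mem (h2 y hy.1) (r2U_f2 hy.2)
  exact (h hx).2

theorem r2U_lie {l : ℤ × ℤ} {v : M} (hv : v ∈ hw K M l) (X : Sl3 K) {x : M} (hx : x ∈ r2U K v) :
    ⁅X, x⁆ ∈ r2U K v := by
  have a1 : ∀ x ∈ r2U K v, ⁅h1 K, x⁆ ∈ r2U K v := fun x hx =>
    r2U_cl _ (by rw [hv.1.1]; exact Submodule.smul_mem _ _ (r2U_self v))
      (fun y hy => by
        rw [lie_h1_f1, neg_lie, smul_lie]
        exact neg_mem (Submodule.smul_mem _ _ (r2U_f1 hy)))
      (fun y hy => by rw [lie_h1_f2]; exact r2U_f2 hy) hx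
  have a2 : ∀ x ∈ r2U K v, ⁅h2 K, x⁆ ∈ r2U K v := fun x hx =>
    r2U_cl _ (by rw [hv.1.2]; exact Submodule.smul_mem _ _ (r2U_self v))
      (fun y hy => by rw [lie_h2_f1]; exact r2U_f1 hy)
      (fun y hy => by
        rw [lie_h2_f2, neg_lie, smul_lie]
        exact neg_mem (Submodule.smul_mem _ _ (r2U_f2 hy))) hx
  have b1 : ∀ x ∈ r2U K v, ⁅e1 K, x⁆ ∈ r2U K v := fun x hx =>
    r2U_cl _ (by rw [hv.2.1]; exact zero_mem _) (fun y hy => by rw [lie_e1_f1]; exact a1 y hy)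
      (fun y _ => by rw [lie_e1_f2, zero_lie]; exact zero_mem _) hx
  have b2 : ∀ x ∈ r2U K v, ⁅e2 K, x⁆ ∈ r2U K v := fun x hx =>
    r2U_cl _ (by rw [hv.2.2]; exact zero_mem _)
      (fun y _ => by rw [lie_e2_f1, zero_lie]; exact zero_mem _)
      (fun y hy => by rw [lie_e2_f2]; exact a2 y hy) hx
  have b3 : ⁅e3 K, x⁆ ∈ r2U K v := by
    rw [← lie_e1_e2, lie_lie]
    exact sub_mem (b1 _ (b2 _ hx)) (b2 _ (b1 _ hx))
  have c3 : ⁅f3 K, x⁆ ∈ r2U K v := by
    rw [← lie_f2_f1, lie_lie]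
    exact sub_mem (r2U_f2 (r2U_f1 hx)) (r2U_f1 (r2U_f2 hx))
  refine sl_ind K (P := fun X => ⁅X, x⁆ ∈ r2U K v) (fun i => ?_)
    (fun X Y hX hY => by rw [add_lie]; exact add_mem hX hY)
    (fun c X hX => by rw [smul_lie]; exact Submodule.smul_mem _ _ hX) X
  fin_cases i
  exacts [b1 x hx, b2 x hx, b3, r2U_f1 hx, r2U_f2 hx, c3, a1 x hx, a2 x hx]

theorem r2_span_le {l : ℤ × ℤ} {v : M} (hv : v ∈ hw K M l) {y : M}
    (hy : y ∈ LieSubmodule.lieSpan K (Sl3 K) {v}) : y ∈ r2U K v := by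
  induction hy using LieSubmodule.lieSpan_induction with
  | mem x h => rw [Set.mem_singleton_iff.1 h]; exact r2U_self v
  | zero => exact zero_mem _
  | add x y _ _ hx hy => exact add_mem hx hy
  | smul a x _ hx => exact Submodule.smul_mem _ _ hx
  | lie X x _ hx => exact r2U_lie hv X hx

theorem r2_low {l : ℤ × ℤ} {v : M} (hv : v ∈ wtSp K M l) (X : Sl3 K) (d : ℤ × ℤ)
    (hd : d.1 + d.2 < 0) (hX : ∀ μ, ∀ x ∈ wtSp K M μ, ⁅X, x⁆ ∈ wtSp K M (μ + d)) {x : M}
    (hx : x ∈ Submodule.span K {v} ⊔ ⨆ μ ∈ {μ : ℤ × ℤ | μ.1 + μ.2 < l.1 + l.2}, wtSp K M μ) :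
    ⁅X, x⁆ ∈ ⨆ μ ∈ {μ : ℤ × ℤ | μ.1 + μ.2 < l.1 + l.2}, wtSp K M μ := by
  have key : ∀ μ : ℤ × ℤ, μ.1 + μ.2 ≤ l.1 + l.2 → wtSp K M μ ≤
      (⨆ μ ∈ {μ : ℤ × ℤ | μ.1 + μ.2 < l.1 + l.2}, wtSp K M μ).comap (ro K M X) := by
    intro μ hμ z hz
    have hm : μ + d ∈ {μ : ℤ × ℤ | μ.1 + μ.2 < l.1 + l.2} := by
      simp only [Set.mem_ofPred_eq, Prod.fst_add, Prod.snd_add]
      omega
    exact le_iSup₂ (f := fun μ (_ : μ ∈ {μ : ℤ × ℤ | μ.1 + μ.2 < l.1 + l.2}) => wtSp K M μ)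
      (μ + d) hm (hX μ z hz)
  have h : Submodule.span K {v} ⊔ ⨆ μ ∈ {μ : ℤ × ℤ | μ.1 + μ.2 < l.1 + l.2}, wtSp K M μ ≤
      (⨆ μ ∈ {μ : ℤ × ℤ | μ.1 + μ.2 < l.1 + l.2}, wtSp K M μ).comap (ro K M X) :=
    sup_le ((Submodule.span_singleton_le_iff_mem _ _).2 (key l le_rfl hv))
      (iSup₂_le fun μ hμ => key μ (le_of_lt hμ))
  exact h hx

/-- The top weight space of the submodule generated by a highest weight vector is a line. -/
theorem span_top {l : ℤ × ℤ} {v : M} (hv : v ∈ hw K M l) {y : M}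
    (hy : y ∈ LieSubmodule.lieSpan K (Sl3 K) {v}) (hyl : y ∈ wtSp K M l) :
    ∃ a : K, y = a • v := by
  have h : r2U K v ≤
      Submodule.span K {v} ⊔ ⨆ μ ∈ {μ : ℤ × ℤ | μ.1 + μ.2 < l.1 + l.2}, wtSp K M μ :=
    r2U_le (Submodule.mem_sup_left (Submodule.mem_span_singleton_self v)) fun x hx =>
      ⟨Submodule.mem_sup_right
        (r2_low hv.1 _ (-2, 1) (by norm_num) (fun _ _ hz => r2_f1_mem hz) hx),
       Submodule.mem_sup_right
        (r2_low hv.1 _ (1, -2) (by norm_num) (fun _ _ hz => r2_f2_mem hz) hx)⟩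
  obtain ⟨p, hp, z, hz, hpz⟩ := Submodule.mem_sup.1 (h (r2_span_le hv hy))
  obtain ⟨a, rfl⟩ := Submodule.mem_span_singleton.1 hp
  have hz1 : z ∈ wtSp K M l := by
    rw [← eq_sub_iff_add_eq'] at hpz
    rw [hpz]
    exact sub_mem hyl (Submodule.smul_mem _ _ hv.1)
  have hle : ⨆ μ ∈ {μ : ℤ × ℤ | μ.1 + μ.2 < l.1 + l.2}, wtSp K M μ
      ≤ ⨆ (μ) (_ : μ ≠ l), wtSp K M μ :=
    iSup₂_le fun μ hμ => le_iSup₂ (f := fun μ (_ : μ ≠ l) => wtSp K M μ) μ
      (by rintro rfl; exact lt_irrefl (μ.1 + μ.2) hμ)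
  have hz0 : z = 0 := Submodule.disjoint_def.1 (wt_indep (K := K) (M := M) l) z hz1 (hle hz)
  exact ⟨a, by rw [← hpz, hz0, add_zero]⟩

/-- `casT l` kills the submodule generated by a highest weight vector of weight `l`. -/
theorem casT_span {l : ℤ × ℤ} {v : M} (hv : v ∈ hw K M l) {y : M}
    (hy : y ∈ LieSubmodule.lieSpan K (Sl3 K) {v}) : casT K M l y = 0 := by
  induction hy using LieSubmodule.lieSpan_induction with
  | mem x h => rw [Set.mem_singleton_iff.1 h]; exact casT_hw hv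
  | zero => exact map_zero _
  | add x y _ _ hx hy => rw [map_add, hx, hy, add_zero]
  | smul a x _ hx => rw [map_smul, hx, smul_zero]
  | lie X x _ hx => rw [casT_lie, hx, lie_zero]

end Pool.Agent.Work.MP_894cc0_al
end

-- merged part: Pool.Agent.Work.MP_894cc0_al.Rep3
section
/-! Trace identity, Fitting polynomials, the multiplicity formula, exactness of `hw`. -/

namespace Pool.Agent.Work.MP_894cc0_al

variable {K : Type*} [Field K] [CharZero K]
  {M : Type*} [AddCommGroup M] [Module K M] [LieRingModule (Sl3 K) M] [LieModule K (Sl3 K) M]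
  {M' : Type*} [AddCommGroup M'] [Module K M'] [LieRingModule (Sl3 K) M'] [LieModule K (Sl3 K) M']

open Polynomial in
theorem Rep3_fit {E : Type*} [AddCommGroup E] [Module K E] (T : Module.End K E) {N : ℕ}
    {u a b : K[X]} (hm : aeval T (X ^ N * u) = 0) (hc : IsCoprime X u)
    (hab : a * X ^ (N + 1) + b * u = 1) : T ^ N * aeval T (b * u) = 0 ∧
      ∀ (j : ℕ) (v : E), (T ^ j) v = 0 → aeval T (b * u) v = v := by
  have hX : ∀ j : ℕ, T ^ j = aeval T (X ^ j : K[X]) := fun j => by simp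
  refine ⟨by rw [hX, ← map_mul, mul_left_comm, map_mul, hm, mul_zero], fun j v hv => ?_⟩
  obtain ⟨a', b', h⟩ := hc.pow_left (m := j)
  have e : b * u = 1 - (a * X ^ (N + 1) * a' * X ^ j + a * X * b' * (X ^ N * u)) := by
    linear_combination hab + a * X ^ (N + 1) * h
  rw [e, map_sub, map_add, map_mul _ _ (X ^ j), map_mul _ _ (X ^ N * u), hm, ← hX]
  simp [hv]

/-- Common Fitting polynomials for two endomorphisms. -/
theorem exists_fit {E E' : Type*} [AddCommGroup E] [Module K E] [FiniteDimensional K E]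
    [AddCommGroup E'] [Module K E'] [FiniteDimensional K E'] (T : Module.End K E)
    (T' : Module.End K E') : ∃ (q p : Polynomial K) (N : ℕ), 1 - q = Polynomial.X * p ∧
      T ^ N * Polynomial.aeval T q = 0 ∧ T' ^ N * Polynomial.aeval T' q = 0 ∧
      (∀ (j : ℕ) (v : E), (T ^ j) v = 0 → Polynomial.aeval T q v = v) ∧
      (∀ (j : ℕ) (v : E'), (T' ^ j) v = 0 → Polynomial.aeval T' q v = v) := by
  have h0 : minpoly K T * minpoly K T' ≠ 0 :=
    mul_ne_zero (minpoly.ne_zero (Algebra.IsIntegral.isIntegral T))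
      (minpoly.ne_zero (Algebra.IsIntegral.isIntegral T'))
  obtain ⟨u, hu, hd⟩ := Polynomial.exists_eq_pow_rootMultiplicity_mul_and_not_dvd _ h0 0
  generalize Polynomial.rootMultiplicity 0 (minpoly K T * minpoly K T') = N at hu
  rw [map_zero, sub_zero] at hu hd
  have hc : IsCoprime Polynomial.X u := Polynomial.irreducible_X.coprime_iff_not_dvd.2 hd
  obtain ⟨a, b, hab⟩ := hc.pow_left (m := N + 1)
  have h1 := Rep3_fit T (by rw [← hu, map_mul, minpoly.aeval, zero_mul]) hc hab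
  have h2 := Rep3_fit T' (by rw [← hu, map_mul, minpoly.aeval, mul_zero]) hc hab
  exact ⟨b * u, a * Polynomial.X ^ N, N, by linear_combination -hab, h1.1, h2.1, h1.2, h2.2⟩

/-- The alternating sum with values in `K`. -/
def phiK (t : ℤ × ℤ → K) (l : ℤ × ℤ) : K :=
  t l - t (l + (2, -1)) - t (l + (-1, 2)) + t (l + (3, 0)) + t (l + (0, 3)) - t (l + (2, 2))

theorem Rep3_alg (A B C d : ℤ × ℤ → K) (hA : ∀ μ, A μ - A (μ + (2, -1)) = μ.1 * d μ)
    (hB : ∀ μ, B μ - B (μ + (-1, 2)) = μ.2 * d μ)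
    (hC : ∀ μ, C μ - C (μ + (1, 1)) = (μ.1 + μ.2) * d μ) (l : ℤ × ℤ) :
    phiK (fun μ => A μ + A (μ + (2, -1)) + (B μ + B (μ + (-1, 2))) + (C μ + C (μ + (1, 1)))
      + (2 / 3 * ((μ.1 : K) ^ 2 + μ.1 * μ.2 + (μ.2 : K) ^ 2) - cval K l) * d μ) l = 0 := by
  have a0 := hA l
  have a1 := hA (l + (2, -1))
  have a2 := hA (l + (-1, 2))
  have a3 := hA (l + (1, 1))
  have a4 := hA (l + (3, 0))
  have a5 := hA (l + (0, 3))
  have a6 := hA (l + (2, 2))
  have b0 := hB l
  have b1 := hB (l + (2, -1))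
  have b2 := hB (l + (-1, 2))
  have b3 := hB (l + (1, 1))
  have b4 := hB (l + (3, 0))
  have b5 := hB (l + (0, 3))
  have b6 := hB (l + (2, 2))
  have c0 := hC l
  have c1 := hC (l + (2, -1))
  have c2 := hC (l + (-1, 2))
  have c3 := hC (l + (1, 1))
  have c4 := hC (l + (3, 0))
  have c5 := hC (l + (0, 3))
  have c6 := hC (l + (2, 2))
  simp only [phiK, cval, add_assoc l, Prod.mk_add_mk, Int.reduceAdd, Int.reduceNeg, Prod.fst_add,
    Prod.snd_add, Int.cast_add, Int.cast_neg, Int.cast_ofNat, Int.cast_one, Int.cast_zero] at *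
  linear_combination a0 + a1 - a2 - 2 * a3 - a4 + a5 + a6 + b0 - b1 + b2 - 2 * b3 + b4 - b5 + b6
    + c0 - c1 - c2 + 2 * c3 - c4 - c5 + c6

theorem Rep3_root [FiniteDimensional K M] (hM : IsWt K M) (π : ℤ × ℤ → Module.End K M)
    (hπ2 : ∀ μ, ∀ v ∈ wtSp K M μ, π μ v = v)
    (hπ3 : ∀ μ ν, μ ≠ ν → ∀ v ∈ wtSp K M ν, π μ v = 0)
    (P : Module.End K M) (hP : ∀ (X : Sl3 K) v, P ⁅X, v⁆ = ⁅X, P v⁆) (i : Fin 8)
    (F : Module.End K M) (μ : ℤ × ℤ) :
    LinearMap.trace K M (P * (F * ro K M (sv K i)) * π μ) =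
      LinearMap.trace K M (P * (ro K M (sv K i) * F) * π (μ + swt i)) := by
  have h1 : ro K M (sv K i) * π μ = π (μ + swt i) * ro K M (sv K i) := by
    refine LinearMap.ext (hM.ind (by simp) (fun x y hx hy => by rw [map_add, map_add, hx, hy])
      fun ν v hv => ?_)
    change ⁅sv K i, π μ v⁆ = π (μ + swt i) ⁅sv K i, v⁆
    by_cases h : μ = ν
    · subst h
      rw [hπ2 _ _ hv, hπ2 _ _ (lie_sv_mem i hv)]
    · rw [hπ3 _ _ h _ hv, hπ3 _ _ (fun e => h (add_right_cancel e)) _ (lie_sv_mem i hv), lie_zero]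
  have h2 : ro K M (sv K i) * P = P * ro K M (sv K i) := LinearMap.ext fun v => (hP _ v).symm
  rw [mul_assoc, mul_assoc, h1, ← mul_assoc, ← mul_assoc, LinearMap.trace_mul_comm, ← mul_assoc,
    ← mul_assoc, h2, mul_assoc P]

theorem Rep3_add (X Y : Sl3 K) : ro K M (X + Y) = ro K M X + ro K M Y :=
  LinearMap.ext fun v => add_lie X Y v

theorem Rep3_comm (X Y : Sl3 K) :
    ro K M X * ro K M Y - ro K M Y * ro K M X = ro K M ⁅X, Y⁆ :=
  LinearMap.ext fun v => (lie_lie X Y v).symm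

/-- Freudenthal-Weyl trace identity for an operator `P` commuting with `sl3`. -/
theorem trace_id [FiniteDimensional K M] (hM : IsWt K M) (π : ℤ × ℤ → Module.End K M)
    (hπ1 : ∀ μ v, π μ v ∈ wtSp K M μ) (hπ2 : ∀ μ, ∀ v ∈ wtSp K M μ, π μ v = v)
    (hπ3 : ∀ μ ν, μ ≠ ν → ∀ v ∈ wtSp K M ν, π μ v = 0)
    (P : Module.End K M) (hP : ∀ (X : Sl3 K) v, P ⁅X, v⁆ = ⁅X, P v⁆) (l : ℤ × ℤ) :
    phiK (fun μ => LinearMap.trace K M (P * casT K M l * π μ)) l = 0 := by
  have k1 : ∀ μ, ro K M (h1 K) * π μ = (μ.1 : K) • π μ := fun μ =>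
    LinearMap.ext fun v => (hπ1 μ v).1
  have k2 : ∀ μ, ro K M (h2 K) * π μ = (μ.2 : K) • π μ := fun μ =>
    LinearMap.ext fun v => (hπ1 μ v).2
  have r1 : ∀ μ, LinearMap.trace K M (P * (ro K M (f1 K) * ro K M (e1 K)) * π μ) =
      LinearMap.trace K M (P * (ro K M (e1 K) * ro K M (f1 K)) * π (μ + (2, -1))) :=
    Rep3_root hM π hπ2 hπ3 P hP 0 _
  have r2 : ∀ μ, LinearMap.trace K M (P * (ro K M (f2 K) * ro K M (e2 K)) * π μ) =
      LinearMap.trace K M (P * (ro K M (e2 K) * ro K M (f2 K)) * π (μ + (-1, 2))) :=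
    Rep3_root hM π hπ2 hπ3 P hP 1 _
  have r3 : ∀ μ, LinearMap.trace K M (P * (ro K M (f3 K) * ro K M (e3 K)) * π μ) =
      LinearMap.trace K M (P * (ro K M (e3 K) * ro K M (f3 K)) * π (μ + (1, 1))) :=
    Rep3_root hM π hπ2 hπ3 P hP 2 _
  have key := Rep3_alg (fun μ => LinearMap.trace K M (P * (ro K M (e1 K) * ro K M (f1 K)) * π μ))
    (fun μ => LinearMap.trace K M (P * (ro K M (e2 K) * ro K M (f2 K)) * π μ))
    (fun μ => LinearMap.trace K M (P * (ro K M (e3 K) * ro K M (f3 K)) * π μ))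
    (fun μ => LinearMap.trace K M (P * π μ))
    (fun μ => by
      rw [← r1, ← map_sub, ← sub_mul, ← mul_sub, Rep3_comm, lie_e1_f1, mul_assoc, k1,
        mul_smul_comm, map_smul, smul_eq_mul])
    (fun μ => by
      rw [← r2, ← map_sub, ← sub_mul, ← mul_sub, Rep3_comm, lie_e2_f2, mul_assoc, k2,
        mul_smul_comm, map_smul, smul_eq_mul])
    (fun μ => by
      rw [← r3, ← map_sub, ← sub_mul, ← mul_sub, Rep3_comm, lie_e3_f3, Rep3_add, mul_assoc,
        add_mul, k1, k2, ← add_smul, mul_smul_comm, map_smul, smul_eq_mul]) l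
  refine Eq.trans (congrArg (fun t => phiK t l) (funext fun μ => ?_)) key
  rw [← r1, ← r2, ← r3]
  simp only [casT, cas, mul_sub, mul_add, sub_mul, add_mul, map_add, map_sub, mul_smul_comm,
    smul_mul_assoc, map_smul, smul_eq_mul, mul_one, mul_assoc, k1, k2]
  ring

theorem Rep3_wt (l : ℤ × ℤ) (q : Polynomial K) {μ : ℤ × ℤ} {v : M} (hv : v ∈ wtSp K M μ) :
    Polynomial.aeval (casT K M l) q v ∈ wtSp K M μ :=
  ⟨by rw [← aeval_casT_lie, hv.1, map_smul], by rw [← aeval_casT_lie, hv.2, map_smul]⟩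

/-- Multiplicity formula. -/
theorem phi_eq [FiniteDimensional K M] {l : ℤ × ℤ} (hl : Good l) (hM : IsWt K M) :
    phi (fun μ => (Module.finrank K (wtSp K M μ) : ℤ)) l = Module.finrank K (hw K M l) := by
  obtain ⟨π, hπ1, hπ2, hπ3⟩ := hM.exists_proj
  obtain ⟨q, p, N, e, hN, -, hq, -⟩ := exists_fit (casT K M l) (casT K M l)
  have hz : ∀ v, (casT K M l ^ N) (Polynomial.aeval (casT K M l) q v) = 0 := fun v =>
    LinearMap.congr_fun hN v
  have h1 : ∀ μ, (Module.finrank K (wtSp K M μ) : K) =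
      LinearMap.trace K M (Polynomial.aeval (casT K M l) q * π μ) +
      LinearMap.trace K M (Polynomial.aeval (casT K M l) p * casT K M l * π μ) := fun μ => by
    have e' : Polynomial.aeval (casT K M l) q + Polynomial.aeval (casT K M l) p * casT K M l = 1 := by
      have : q + p * Polynomial.X = 1 := by linear_combination -e
      simpa using congrArg (Polynomial.aeval (casT K M l)) this
    rw [← map_add, ← add_mul, e', one_mul]
    exact (LinearMap.IsProj.trace ⟨hπ1 μ, hπ2 μ⟩).symm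
  have h2 : ∀ a b : ℤ, 0 < a + b →
      LinearMap.trace K M (Polynomial.aeval (casT K M l) q * π (l + (a, b))) = 0 := fun a b h => by
    have : Polynomial.aeval (casT K M l) q * π (l + (a, b)) = 0 := LinearMap.ext fun v => by
      by_contra h0
      have := ht_le hl (Rep3_wt l q (hπ1 _ v)) h0 (hz _)
      simp only [Prod.fst_add, Prod.snd_add] at this
      omega
    rw [this, map_zero]
  have h3 : LinearMap.trace K M (Polynomial.aeval (casT K M l) q * π l) =
      Module.finrank K (hw K M l) :=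
    LinearMap.IsProj.trace ⟨fun v => mem_hw_of_gen hl (Rep3_wt l q (hπ1 l v)) (hz _),
      fun v hv => by
        rw [Module.End.mul_apply, hπ2 l v hv.1]
        exact hq 1 v (by rw [pow_one, casT_hw hv])⟩
  have h4 := trace_id hM π hπ1 hπ2 hπ3 _ (aeval_casT_lie l p) l
  apply Int.cast_injective (α := K)
  simp only [phi, phiK, Int.cast_sub, Int.cast_add, Int.cast_natCast, h1] at h4 ⊢
  rw [h3, h2 2 (-1) (by omega), h2 (-1) 2 (by omega), h2 3 0 (by omega), h2 0 3 (by omega),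
    h2 2 2 (by omega)]
  linear_combination h4

/-- Highest weight vectors in the image of a module map lift to highest weight vectors. -/
theorem hw_lift [FiniteDimensional K M] [FiniteDimensional K M'] {l : ℤ × ℤ} (hl : Good l)
    (hM : IsWt K M) (f : M →ₗ⁅K, Sl3 K⁆ M') (c : M) (hz : f c ∈ hw K M' l) :
    ∃ c' ∈ hw K M l, f c' = f c := by
  obtain ⟨π, hπ1, hπ2, hπ3⟩ := hM.exists_proj
  obtain ⟨q, p, N, -, hN, -, -, hq⟩ := exists_fit (casT K M l) (casT K M' l)
  refine ⟨Polynomial.aeval (casT K M l) q (π l c),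
    mem_hw_of_gen hl (Rep3_wt l q (hπ1 l c)) (LinearMap.congr_fun hN _), ?_⟩
  have h1 : ∀ c, f c - f (π l c) ∈ ⨆ (j) (_ : j ≠ l), wtSp K M' j := by
    refine hM.ind (by simp) (fun x y hx hy => ?_) fun ν v hv => ?_
    · rw [map_add, map_add, map_add, add_sub_add_comm]
      exact add_mem hx hy
    · by_cases h : l = ν
      · subst h
        rw [hπ2 _ _ hv, sub_self]
        exact zero_mem _
      · rw [hπ3 _ _ h _ hv, map_zero, sub_zero]
        exact Submodule.mem_iSup_of_mem ν (Submodule.mem_iSup_of_mem (Ne.symm h) (map_wtSp f hv))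
  have h2 : f c - f (π l c) = 0 := Submodule.disjoint_def.1 (wt_indep l) _
    (sub_mem hz.1 (map_wtSp f (hπ1 l c))) (h1 c)
  rw [map_aeval_casT, ← sub_eq_zero.1 h2]
  exact hq 1 _ (by rw [pow_one, casT_hw hz])

end Pool.Agent.Work.MP_894cc0_al
end

-- merged part: Pool.Agent.Work.MP_894cc0_al.Hn
section
/-! The degree `n` part of the homology. -/

open ExteriorAlgebra

namespace Pool.Agent.Work.MP_894cc0_al

variable {K : Type*} [Field K] [CharZero K] {g : Type*} [LieRing g] [LieAlgebra K g]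
  [LieRingModule (Sl3 K) g] [LieModule K (Sl3 K) g] [IsLieTower (Sl3 K) g g]
  {I : Type*} (D : GData K g I)

theorem Hn_eig {V : Type*} [AddCommGroup V] [Module K V] (T : Module.End K V)
    (x : ℕ → V) (hx : ∀ m, T (x m) = (2 : K) ^ m • x m) (S : Finset ℕ) (n : ℕ)
    (hh : T (∑ m ∈ S, x m) = (2 : K) ^ n • ∑ m ∈ S, x m) :
    ∑ m ∈ S, x m = x n ∨ ∑ m ∈ S, x m = 0 := by
  have hi : Function.Injective fun m : ℕ => (2 : K) ^ m := fun a b hab => by
    have h : (2 : K) ^ a = 2 ^ b := hab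
    have h' : 2 ^ a = 2 ^ b := by exact_mod_cast h
    exact Nat.pow_right_injective (le_refl 2) h'
  have dis := Submodule.disjoint_def.1 ((Module.End.eigenspaces_iSupIndep T).comp hi n)
  have hs : ∑ m ∈ S.erase n, x m ∈ ⨆ j, ⨆ (_ : j ≠ n), T.eigenspace ((2 : K) ^ j) :=
    Submodule.sum_mem _ fun m hm => Submodule.mem_iSup_of_mem m (Submodule.mem_iSup_of_mem
      (Finset.ne_of_mem_erase hm) (Module.End.mem_eigenspace_iff.2 (hx m)))
  by_cases hn : n ∈ S
  · left
    have h1 : ∑ m ∈ S.erase n, x m = ∑ m ∈ S, x m - x n :=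
      eq_sub_of_add_eq (Finset.sum_erase_add S x hn)
    rw [h1] at hs
    exact sub_eq_zero.1 (dis _ (sub_mem (Module.End.mem_eigenspace_iff.2 hh)
      (Module.End.mem_eigenspace_iff.2 (hx n))) hs)
  · right
    rw [Finset.erase_eq_of_notMem hn] at hs
    exact dis _ (Module.End.mem_eigenspace_iff.2 hh) hs

theorem GData.Hn_cls_mem {k n : ℕ} (z : Cyc K g k) (hz : (Ch.val K g).symm z.1 ∈ D.Cn k n) :
    cls K g k z ∈ D.Hn k n := fun c => by
  rw [map_cls K g (D.σ c) k z (c ^ n • z) (hz.2 c).symm, map_smul]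

/-- The projections of the homology onto the degree parts. -/
theorem GData.Hn_proj (k n : ℕ) : ∃ r : LieH K g k →ₗ⁅K, Sl3 K⁆ LieH K g k,
    (∀ h, ∃ z : Cyc K g k, (Ch.val K g).symm z.1 ∈ D.Cn k n ∧ r h = cls K g k z) ∧
      ∀ h ∈ D.Hn k n, r h = h := by
  obtain ⟨pr, h1, -, h3, h4⟩ := D.exists_pr
  have hc : ∀ m (z : Cyc K g k), Ch.val K g (pr m ((Ch.val K g).symm z.1)) ∈ Cyc K g k :=
    fun m z => ⟨(h1 m k _ z.2.1).1, by
      have h0 : dL K g ((Ch.val K g).symm z.1) = 0 := z.2.2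
      change dL K g (pr m ((Ch.val K g).symm z.1)) = 0
      rw [← h3, h0, map_zero]⟩
  obtain ⟨R, hR⟩ : ∃ R : ℕ → (LieH K g k →ₗ[K] LieH K g k),
      ∀ m z, R m (cls K g k z) = cls K g k ⟨_, hc m z⟩ :=
    ⟨fun m => indHom ((Ch.val K g).toLinearMap ∘ₗ (pr m).toLinearMap ∘ₗ
      (Ch.val K g).symm.toLinearMap) (fun j w hw => (h1 m j _ hw).1) (fun w => h3 m w) k,
      fun _ _ => rfl⟩
  have hm : ∀ m h, ∃ z : Cyc K g k, (Ch.val K g).symm z.1 ∈ D.Cn k m ∧ R m h = cls K g k z :=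
    fun m h => by
      obtain ⟨z, rfl⟩ := cls_surj k h
      exact ⟨⟨_, hc m z⟩, h1 m k _ z.2.1, hR m z⟩
  refine ⟨⟨R n, fun {X h} => ?_⟩, hm n, fun h hh => ?_⟩
  · obtain ⟨z, rfl⟩ := cls_surj k h
    have hz : theta (LieModule.toEnd K (Sl3 K) g X) z.1 ∈ Cyc K g k := ⟨theta_mem _ z.2.1, by
      have h0 : dCE K g z.1 = 0 := z.2.2
      change dCE K g (theta _ z.1) = 0
      rw [dCE_theta _ (fun x y => leibniz_lie X x y), h0, map_zero]⟩
    change R n ⁅X, cls K g k z⁆ = ⁅X, R n (cls K g k z)⁆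
    rw [lie_cls K g X k z ⟨_, hz⟩ rfl, hR, hR]
    exact (lie_cls K g X k _ _ ((pr n).map_lie X ((Ch.val K g).symm z.1))).symm
  · change R n h = h
    obtain ⟨z, rfl⟩ := cls_surj k h
    obtain ⟨T, hT⟩ := h4 ((Ch.val K g).symm z.1)
    have hs : ∑ m ∈ T, R m (cls K g k z) = cls K g k z := by
      simp only [hR]
      rw [← map_sum]
      refine congrArg _ (Subtype.ext ?_)
      rw [Submodule.coe_sum]
      exact hT.symm
    have he := Hn_eig (LieH.map (D.σ 2) k) (fun m => R m (cls K g k z)) (fun m => by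
      obtain ⟨y, hy, e⟩ := hm m (cls K g k z)
      rw [e]
      exact D.Hn_cls_mem y hy 2) T n (by rw [hs]; exact hh 2)
    rw [hs] at he
    rcases he with he | he
    · exact he.symm
    · rw [he, map_zero]

/-- Cycles of degree `n` map onto the degree `n` part of homology; the kernel is the boundaries. -/
theorem GData.exists_cls (k n : ℕ) :
    ∃ f : ↥(D.Cn k n ⊓ (dL K g).ker) →ₗ⁅K, Sl3 K⁆ D.Hn k n, Function.Surjective f ∧
      ∀ z, f z = 0 ↔ Ch.val K g z.1 ∈ Bdry K g k := by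
  have hc : ∀ z : ↥(D.Cn k n ⊓ (dL K g).ker), Ch.val K g z.1 ∈ Cyc K g k :=
    fun z => ⟨z.2.1.1, z.2.2⟩
  let f0 : ↥(D.Cn k n ⊓ (dL K g).ker) →ₗ⁅K, Sl3 K⁆ LieH K g k :=
    { toFun := fun z => cls K g k ⟨_, hc z⟩
      map_add' := fun a b => by rw [← map_add]; rfl
      map_smul' := fun c a => by rw [← map_smul]; rfl
      map_lie' := fun {X z} => (lie_cls K g X k _ _ rfl).symm }
  refine ⟨LieModuleHom.codRestrict _ f0 fun z => D.Hn_cls_mem _ z.2.1, fun h => ?_, fun z => ?_⟩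
  · obtain ⟨r, h1, h2⟩ := D.Hn_proj k n
    obtain ⟨z, hz, e⟩ := h1 h
    exact ⟨⟨(Ch.val K g).symm z.1, hz, z.2.2⟩, Subtype.ext (e.symm.trans (h2 _ h.2))⟩
  · exact Subtype.ext_iff.trans (cls_eq_zero ⟨_, hc z⟩)

theorem GData.exists_retr (k n : ℕ) :
    ∃ r : LieH K g k →ₗ⁅K, Sl3 K⁆ D.Hn k n, ∀ h : D.Hn k n, r h = h := by
  obtain ⟨r, h1, h2⟩ := D.Hn_proj k n
  refine ⟨LieModuleHom.codRestrict _ r fun h => ?_, fun h => Subtype.ext (h2 _ h.2)⟩
  obtain ⟨z, hz, e⟩ := h1 h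
  rw [e]
  exact D.Hn_cls_mem z hz

theorem GData.Hn_finite_Z (k n : ℕ) : FiniteDimensional K ↥(D.Cn k n ⊓ (dL K g).ker) :=
  haveI := D.finite_Cn k n
  Module.Finite.of_injective
    (LieSubmodule.inclusion (inf_le_left : D.Cn k n ⊓ (dL K g).ker ≤ _)).toLinearMap
    (LieSubmodule.inclusion_injective _)

theorem GData.Hn_isWt_Z (k n : ℕ) : IsWt K ↥(D.Cn k n ⊓ (dL K g).ker) :=
  ((D.isWt_Cn k n).sub ((dL K g).comp (D.Cn k n).incl).ker).of_surjective
    (LieModuleHom.codRestrict _ ((D.Cn k n).incl.comp (LieSubmodule.incl _))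
      fun z => ⟨z.1.2, z.2⟩) fun z => ⟨⟨⟨z.1, z.2.1⟩, z.2.2⟩, rfl⟩

theorem GData.finite_Hn (k n : ℕ) : FiniteDimensional K (D.Hn k n) := by
  obtain ⟨f, hf, -⟩ := D.exists_cls k n
  have := D.Hn_finite_Z k n
  exact Module.Finite.of_surjective f.toLinearMap hf

theorem GData.isWt_Hn (k n : ℕ) : IsWt K (D.Hn k n) := by
  obtain ⟨f, hf, -⟩ := D.exists_cls k n
  exact (D.Hn_isWt_Z k n).of_surjective f hf

theorem GData.Hn_low {k n : ℕ} (hk : k < 2) (hn : 2 ≤ n) : D.Hn k n = ⊥ := by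
  obtain ⟨f, hf, h0⟩ := D.exists_cls k n
  refine eq_bot_iff.2 fun h hh => ?_
  obtain ⟨z, hz⟩ := hf ⟨h, hh⟩
  have hb : Ch.val K g z.1 ∈ Bdry K g k := by
    obtain rfl | rfl : k = 0 ∨ k = 1 := by omega
    · have h1 : z.1 = 0 := (LieSubmodule.mem_bot _).1 ((D.Cn_zero (by omega)).le z.2.1)
      rw [h1, map_zero]
      exact zero_mem _
    · exact D.Cn_one hn z.2.1
  exact (LieSubmodule.mem_bot h).2 (congrArg Subtype.val (hz.symm.trans ((h0 z).2 hb)))

theorem GData.Hn_bdry {l : ℤ × ℤ} (hl : Good l) {k n : ℕ} {a : Ch K g} (ha : a ∈ D.Wk l k n)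
    (hb : Ch.val K g a ∈ Bdry K g k) : a ∈ (D.Wk l (k + 1) n).map (dL K g).toLinearMap := by
  obtain ⟨pr, h1, h2, h3, -⟩ := D.exists_pr
  obtain ⟨w, hw, e⟩ := hb
  have e1 : dL K g ((Ch.val K g).symm w) = a := e
  have e2 : dL K g (pr n ((Ch.val K g).symm w)) = a := by rw [← h3, e1, h2 n k a ha.2]
  have := D.finite_Cn k n
  have := D.finite_Cn (k + 1) n
  obtain ⟨c, hc, e3⟩ := hw_lift hl (D.isWt_Cn (k + 1) n)
    (LieModuleHom.codRestrict (D.Cn k n) ((dL K g).comp (D.Cn (k + 1) n).incl)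
      fun z => D.dL_mem z.2) ⟨_, h1 n (k + 1) _ hw⟩
    ((coe_mem_hw _ _).1 (by
      change dL K g (pr n ((Ch.val K g).symm w)) ∈ _
      rw [e2]
      exact ha.1))
  exact ⟨c.1, ⟨(coe_mem_hw _ _).2 hc, c.2⟩, (congrArg Subtype.val e3).trans e2⟩

theorem GData.finrank_hw_Hn {l : ℤ × ℤ} (hl : Good l) (k n : ℕ) :
    (Module.finrank K (hw K (D.Hn k n) l) : ℤ) =
      Module.finrank K ↥(D.Wk l k n ⊓ LinearMap.ker (dL K g).toLinearMap)
        - Module.finrank K ((D.Wk l (k + 1) n).map (dL K g).toLinearMap) := by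
  obtain ⟨f, hf, h0⟩ := D.exists_cls k n
  have := D.Hn_finite_Z k n
  have := D.finite_Hn k n
  have : FiniteDimensional K (D.Cn k n).toSubmodule := D.finite_Cn k n
  have : FiniteDimensional K ↥(D.Wk l k n ⊓ LinearMap.ker (dL K g).toLinearMap) :=
    Submodule.finiteDimensional_of_le (inf_le_left.trans inf_le_right)
  let φ : ↥(D.Wk l k n ⊓ LinearMap.ker (dL K g).toLinearMap) →ₗ[K] hw K (D.Hn k n) l :=
    { toFun := fun a => ⟨f ⟨a.1, a.2.1.2, a.2.2⟩, map_hw f ((coe_mem_hw _ _).1 a.2.1.1)⟩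
      map_add' := fun a b => Subtype.ext (map_add f ⟨a.1, a.2.1.2, a.2.2⟩ ⟨b.1, b.2.1.2, b.2.2⟩)
      map_smul' := fun c a => Subtype.ext (map_smul f c ⟨a.1, a.2.1.2, a.2.2⟩) }
  have hs : LinearMap.range φ = ⊤ := LinearMap.range_eq_top.2 fun h => by
    obtain ⟨z, hz⟩ := hf h.1
    obtain ⟨c, hc, e⟩ := hw_lift hl (D.Hn_isWt_Z k n) f z (by rw [hz]; exact h.2)
    exact ⟨⟨c.1, ⟨(coe_mem_hw _ _).2 hc, c.2.1⟩, c.2.2⟩, Subtype.ext (e.trans hz)⟩
  have hle : (D.Wk l (k + 1) n).map (dL K g).toLinearMap ≤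
      D.Wk l k n ⊓ LinearMap.ker (dL K g).toLinearMap := by
    rintro _ ⟨c, hc, rfl⟩
    exact ⟨⟨map_hw (dL K g) hc.1, D.dL_mem hc.2⟩, dCE_dCE (Ch.val K g c)⟩
  have hk : LinearMap.ker φ = ((D.Wk l (k + 1) n).map (dL K g).toLinearMap).comap
      (D.Wk l k n ⊓ LinearMap.ker (dL K g).toLinearMap).subtype := by
    ext a
    refine (Subtype.ext_iff.trans (h0 ⟨a.1, a.2.1.2, a.2.2⟩)).trans
      ⟨fun hb => D.Hn_bdry hl a.2.1 hb, ?_⟩
    rintro ⟨c, hc, e⟩
    exact ⟨Ch.val K g c, hc.2.1, e⟩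
  have h1 := φ.finrank_range_add_finrank_ker
  rw [hs, hk, finrank_top, (Submodule.comapSubtypeEquivOfLe hle).finrank_eq] at h1
  omega

end Pool.Agent.Work.MP_894cc0_al
end

-- merged part: Pool.Agent.Work.MP_894cc0_al.Rep4
section
/-! The isotypic component of a standard module is a retract. -/

open scoped DirectSum

namespace Pool.Agent.Work.MP_894cc0_al

/-- The product of two modules. -/
def R4P (M S : Type*) : Type _ := M × S

variable {K : Type*} [Field K] [CharZero K]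
  {M : Type*} [AddCommGroup M] [Module K M] [LieRingModule (Sl3 K) M] [LieModule K (Sl3 K) M]
  {S : Type*} [AddCommGroup S] [Module K S] [LieRingModule (Sl3 K) S] [LieModule K (Sl3 K) S]

instance : AddCommGroup (R4P M S) := inferInstanceAs (AddCommGroup (M × S))

instance : Module K (R4P M S) := inferInstanceAs (Module K (M × S))

instance : LieRingModule (Sl3 K) (R4P M S) where
  bracket X p := ((⁅X, p.1⁆, ⁅X, p.2⁆) : M × S)
  add_lie X Y p := Prod.ext (add_lie X Y p.1) (add_lie X Y p.2)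
  lie_add X p q := Prod.ext (lie_add X p.1 q.1) (lie_add X p.2 q.2)
  leibniz_lie X Y p := Prod.ext (leibniz_lie X Y p.1) (leibniz_lie X Y p.2)

instance : LieModule K (Sl3 K) (R4P M S) where
  smul_lie c X p := Prod.ext (smul_lie c X p.1) (smul_lie c X p.2)
  lie_smul c X p := Prod.ext (lie_smul c X p.1) (lie_smul c X p.2)

instance [FiniteDimensional K M] [FiniteDimensional K S] : FiniteDimensional K (R4P M S) :=
  inferInstanceAs (FiniteDimensional K (M × S))

/-- First projection. -/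
def r4fst : R4P M S →ₗ⁅K, Sl3 K⁆ M where
  toFun p := p.1
  map_add' _ _ := rfl
  map_smul' _ _ := rfl
  map_lie' := rfl

/-- Second projection. -/
def r4snd : R4P M S →ₗ⁅K, Sl3 K⁆ S where
  toFun p := p.2
  map_add' _ _ := rfl
  map_smul' _ _ := rfl
  map_lie' := rfl

/-- First inclusion. -/
def r4inl : M →ₗ⁅K, Sl3 K⁆ R4P M S where
  toFun m := ((m, 0) : M × S)
  map_add' _ _ := Prod.ext rfl (add_zero _).symm
  map_smul' c _ := Prod.ext rfl (smul_zero c).symm
  map_lie' := fun {X _} => Prod.ext rfl (lie_zero X).symm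

/-- Second inclusion. -/
def r4inr : S →ₗ⁅K, Sl3 K⁆ R4P M S where
  toFun s := ((0, s) : M × S)
  map_add' _ _ := Prod.ext (add_zero _).symm rfl
  map_smul' c _ := Prod.ext (smul_zero c).symm rfl
  map_lie' := fun {X _} => Prod.ext (lie_zero X).symm rfl

theorem r4_split (p : R4P M S) :
    p = r4inl (K := K) (r4fst (K := K) p) + r4inr (K := K) (r4snd (K := K) p) :=
  Prod.ext (add_zero _).symm (zero_add _).symm

theorem r4_mem_sup (hM : IsWt K M) (f : M →ₗ⁅K, Sl3 K⁆ S) (m : M) : f m ∈ ⨆ μ, wtSp K S μ :=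
  hM.ind (P := fun m => f m ∈ ⨆ μ, wtSp K S μ) (by rw [map_zero]; exact zero_mem _)
    (fun x y hx hy => by rw [map_add]; exact add_mem hx hy)
    (fun μ v hv => Submodule.mem_iSup_of_mem μ (map_wtSp f hv)) m

theorem r4_wt (hM : IsWt K M) (hS : IsWt K S) : IsWt K (R4P M S) := by
  refine eq_top_iff.2 fun p _ => ?_
  rw [r4_split (K := K) p]
  exact add_mem (r4_mem_sup hM _ _) (r4_mem_sup hS _ _)

theorem r4_factor {A : Type*} [AddCommGroup A] [Module K A] [LieRingModule (Sl3 K) A]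
    [LieModule K (Sl3 K) A] (Φ : A →ₗ⁅K, Sl3 K⁆ M) (hΦ : Function.Injective Φ)
    (Q : S →ₗ⁅K, Sl3 K⁆ M) (hQ : ∀ b, ∃ a, Φ a = Q b) :
    ∃ Ψ : S →ₗ⁅K, Sl3 K⁆ A, ∀ b, Φ (Ψ b) = Q b := by
  choose g hg using hQ
  exact ⟨{ toFun := g
           map_add' := fun x y => hΦ (by rw [map_add, hg, hg, hg, map_add])
           map_smul' := fun c x => hΦ (by rw [RingHom.id_apply, map_smul, hg, hg, map_smul])
           map_lie' := fun {X x} => hΦ (by
             show Φ (g ⁅X, x⁆) = Φ ⁅X, g x⁆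
             rw [LieModuleHom.map_lie, hg, hg, LieModuleHom.map_lie]) }, hg⟩

theorem exists_hom [FiniteDimensional K M] [FiniteDimensional K S] {l : ℤ × ℤ} (hl : Good l)
    {s0 : S} (hS : Std K S l s0) (hM : IsWt K M) {v : M} (hv : v ∈ hw K M l) :
    ∃ φ : S →ₗ⁅K, Sl3 K⁆ M, φ s0 = v := by
  obtain ⟨p0, hp0, h1, h2⟩ : ∃ p0 : R4P M S, p0 ∈ hw K (R4P M S) l ∧ r4fst (K := K) p0 = v ∧
      r4snd (K := K) p0 = s0 :=
    ⟨r4inl (K := K) v + r4inr (K := K) s0, add_mem (map_hw _ hv) (map_hw _ hS.mem), add_zero v,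
      zero_add s0⟩
  obtain ⟨N, hN⟩ : ∃ N, N = LieSubmodule.lieSpan K (Sl3 K) {p0} := ⟨_, rfl⟩
  have hmem : p0 ∈ N := by
    rw [hN]; exact LieSubmodule.subset_lieSpan rfl
  have hbot : N ⊓ (r4snd (K := K) (M := M) (S := S)).ker = ⊥ := by
    by_contra hne
    obtain ⟨y, hy, hy0, hyw⟩ := exists_hw hl (r4_wt hM hS.wt) _ hne (N := 1) (fun y hy => by
      rw [pow_one]
      exact casT_span hp0 (hN ▸ hy.1))
    obtain ⟨a, ha⟩ := span_top hp0 (hN ▸ hy.1) hyw.1
    have h3 : r4snd (K := K) y = 0 := LieModuleHom.mem_ker.1 hy.2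
    rw [ha, map_smul, h2] at h3
    rcases smul_eq_zero.1 h3 with h | h
    · exact hy0 (by rw [ha, h, zero_smul])
    · exact hS.ne h
  have hinj : Function.Injective ((r4snd (K := K) (M := M) (S := S)).comp N.incl) := by
    refine (injective_iff_map_eq_zero _).2 fun y hy => ?_
    have : (y : R4P M S) ∈ N ⊓ (r4snd (K := K) (M := M) (S := S)).ker :=
      ⟨y.2, LieModuleHom.mem_ker.2 hy⟩
    rw [hbot] at this
    exact Subtype.ext ((LieSubmodule.mem_bot _).1 this)
  have hsurj : ((r4snd (K := K) (M := M) (S := S)).comp N.incl).range = ⊤ := by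
    refine eq_top_iff.2 ?_
    rw [← hS.span, LieSubmodule.lieSpan_le]
    rintro _ rfl
    exact (LieModuleHom.mem_range _ _).2 ⟨⟨p0, hmem⟩, h2⟩
  obtain ⟨Ψ, hΨ⟩ := r4_factor _ hinj (LieModuleHom.id) (fun b => by
    have : b ∈ ((r4snd (K := K) (M := M) (S := S)).comp N.incl).range := by
      rw [hsurj]; exact LieSubmodule.mem_top b
    exact (LieModuleHom.mem_range _ _).1 this)
  refine ⟨((r4fst (K := K)).comp N.incl).comp Ψ, ?_⟩
  have : Ψ s0 = ⟨p0, hmem⟩ := hinj ((hΨ s0).trans h2.symm)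
  rw [LieModuleHom.comp_apply, this]
  exact h1

theorem exists_retract [FiniteDimensional K M] [FiniteDimensional K S] {l : ℤ × ℤ} (hl : Good l)
    {s0 : S} (hS : Std K S l s0) (hM : IsWt K M) :
    ∃ (Φ : (⨁ _ : Fin (Module.finrank K (hw K M l)), S) →ₗ⁅K, Sl3 K⁆ M)
      (Ψ : M →ₗ⁅K, Sl3 K⁆ ⨁ _ : Fin (Module.finrank K (hw K M l)), S), ∀ x, Ψ (Φ x) = x := by
  have b := Module.finBasis K (hw K M l)
  generalize Module.finrank K (hw K M l) = m at b ⊢
  choose φ hφ using fun j : Fin m => exists_hom hl hS hM (b j).2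
  obtain ⟨Φ, hΦ⟩ : ∃ Φ : (⨁ _ : Fin m, S) →ₗ⁅K, Sl3 K⁆ M, ∀ x, Φ x = ∑ j, φ j (x j) :=
    ⟨{ toFun := fun x => ∑ j, φ j (x j)
       map_add' := fun x y => by simp [Finset.sum_add_distrib]
       map_smul' := fun c x => by simp [Finset.smul_sum, DirectSum.smul_apply]
       map_lie' := fun {X x} => by
         show ∑ j, φ j (⁅X, x⁆ j) = ⁅X, ∑ j, φ j (x j)⁆
         simp [lie_sum] }, fun _ => rfl⟩
  have hcomp : ∀ (x : ⨁ _ : Fin m, S) j,
      DirectSum.lieModuleComponent K (Fin m) (Sl3 K) (fun _ => S) j x = x j := fun _ _ => rfl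
  have hkill : ∀ x : ⨁ _ : Fin m, S, casT K _ l x = 0 := by
    intro x
    ext j
    rw [← hcomp, map_casT, hcomp]
    exact casT_span hS.mem (by rw [hS.span]; exact LieSubmodule.mem_top _)
  have hsum : ∀ (a : Fin m → K) (x : ⨁ _ : Fin m, S), (∀ j, x j = a j • s0) →
      Φ x = ((∑ j, a j • b j : hw K M l) : M) := by
    intro a x hx
    rw [hΦ, Submodule.coe_sum]
    refine Finset.sum_congr rfl fun j _ => ?_
    rw [hx, map_smul, hφ, Submodule.coe_smul]
  have hinj : Function.Injective Φ := by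
    rw [← LieModuleHom.ker_eq_bot]
    by_contra hne
    obtain ⟨x, hx, hx0, hxw⟩ := exists_hw hl (hS.wt.directSum m) _ hne (N := 1) (fun y _ => by
      rw [pow_one]
      exact hkill y)
    have h1 : ∀ j, ∃ a : K, x j = a • s0 := fun j =>
      span_top hS.mem (by rw [hS.span]; exact LieSubmodule.mem_top _)
        (by rw [← hcomp]; exact map_wtSp _ hxw.1)
    choose a ha using h1
    have h2 := hsum a x ha
    rw [LieModuleHom.mem_ker.1 hx] at h2
    have h3 := Fintype.linearIndependent_iff.1 b.linearIndependent a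
      (Subtype.ext h2.symm)
    refine hx0 ?_
    ext j
    rw [ha, h3, zero_smul]
    rfl
  obtain ⟨q, _, N, -, hq1, -, hq2, -⟩ := exists_fit (casT K M l) (casT K M l)
  obtain ⟨Q, hQ⟩ : ∃ Q : M →ₗ⁅K, Sl3 K⁆ M, ∀ v, Q v = Polynomial.aeval (casT K M l) q v :=
    ⟨{ toLinearMap := Polynomial.aeval (casT K M l) q
       map_lie' := fun {X v} => aeval_casT_lie l q X v }, fun _ => rfl⟩
  have hle : Q.range ≤ Φ.range := by
    rw [← LieSubmodule.Quotient.map_mk'_eq_bot_le]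
    by_contra hne
    obtain ⟨y, hy, hy0, hyw⟩ := exists_hw hl
      (hM.of_surjective _ (LieSubmodule.Quotient.surjective_mk' Φ.range)) _ hne (N := N) (by
        intro y hy
        obtain ⟨c, hc, rfl⟩ := (LieSubmodule.mem_map _).1 hy
        obtain ⟨v, rfl⟩ := (LieModuleHom.mem_range _ _).1 hc
        have h1 := map_aeval_casT l (Polynomial.X ^ N) (LieSubmodule.Quotient.mk' Φ.range) (Q v)
        rw [map_pow, map_pow, Polynomial.aeval_X, Polynomial.aeval_X] at h1
        rw [← h1, hQ, ← Module.End.mul_apply, hq1, LinearMap.zero_apply, map_zero])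
    obtain ⟨c, -, rfl⟩ := (LieSubmodule.mem_map _).1 hy
    obtain ⟨c', hc', e⟩ := hw_lift hl hM _ c hyw
    refine hy0 ?_
    rw [← e, LieSubmodule.Quotient.mk_eq_zero]
    refine (LieModuleHom.mem_range _ _).2
      ⟨DirectSum.mk (fun _ => S) Finset.univ fun j => b.repr ⟨c', hc'⟩ j • s0, ?_⟩
    rw [hsum (fun j => b.repr ⟨c', hc'⟩ j) _ (fun j =>
      DirectSum.mk_apply_of_mem (Finset.mem_univ j)), b.sum_repr]
  obtain ⟨Ψ, hΨ⟩ := r4_factor Φ hinj Q fun v =>
    (LieModuleHom.mem_range _ _).1 (hle ((LieModuleHom.mem_range _ _).2 ⟨v, rfl⟩))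
  refine ⟨Φ, Ψ, fun x => hinj ?_⟩
  rw [hΨ, hQ]
  refine hq2 1 _ ?_
  rw [pow_one, ← map_casT, hkill, map_zero]

end Pool.Agent.Work.MP_894cc0_al
end

-- merged part: Pool.Agent.Work.MP_894cc0_al.Euler
section
/-! The Euler characteristic bound. -/

open ExteriorAlgebra
open scoped DirectSum

namespace Pool.Agent.Work.MP_894cc0_al

variable {K : Type*} [Field K] [CharZero K] {g : Type*} [LieRing g] [LieAlgebra K g]
  [LieRingModule (Sl3 K) g] [LieModule K (Sl3 K) g] [IsLieTower (Sl3 K) g g]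
  {I : Type*} (D : GData K g I)

theorem euler_rank {E : Type*} [AddCommGroup E] [Module K E] (d : E →ₗ[K] E) (W : Submodule K E)
    [FiniteDimensional K W] :
    Module.finrank K W = Module.finrank K ↥(W ⊓ LinearMap.ker d) + Module.finrank K (W.map d) := by
  have h := LinearMap.finrank_range_add_finrank_ker (d.domRestrict W)
  rw [LinearMap.range_domRestrict, LinearMap.ker_domRestrict] at h
  have h2 : Module.finrank K ↥((LinearMap.ker d).comap W.subtype) =
      Module.finrank K ↥(W ⊓ LinearMap.ker d) := by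
    rw [← Submodule.finrank_map_subtype_eq W, Submodule.map_comap_subtype]
  omega

theorem euler_tele (b : ℕ → ℤ) (n : ℕ) :
    ∑ k ∈ Finset.range (n + 1), (-1 : ℤ) ^ k * (b k + b (k + 1)) = b 0 + (-1) ^ n * b (n + 1) := by
  induction n with
  | zero => simp
  | succ n ih => rw [Finset.sum_range_succ, ih]; ring

/-- Euler-Poincare principle for a finite complex of subspaces. -/
theorem euler_sub {E : Type*} [AddCommGroup E] [Module K E] (d : E →ₗ[K] E) (W : ℕ → Submodule K E)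
    (hfin : ∀ k, FiniteDimensional K (W k)) (h0 : W 0 ≤ LinearMap.ker d) (n : ℕ)
    (hn : W (n + 1) = ⊥) :
    ∑ k ∈ Finset.range (n + 1), (-1 : ℤ) ^ k * Module.finrank K (W k) =
      ∑ k ∈ Finset.range (n + 1), (-1 : ℤ) ^ k *
        ((Module.finrank K ↥(W k ⊓ LinearMap.ker d) : ℤ)
          - Module.finrank K ((W (k + 1)).map d)) := by
  have ht := euler_tele (fun k => (Module.finrank K ((W k).map d) : ℤ)) n
  have hb0 : (W 0).map d = ⊥ := by
    rw [eq_bot_iff]
    rintro _ ⟨w, hw, rfl⟩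
    exact h0 hw
  have hbn : (W (n + 1)).map d = ⊥ := by rw [hn, Submodule.map_bot]
  rw [hb0, hbn, finrank_bot, Nat.cast_zero, mul_zero, add_zero] at ht
  rw [← sub_eq_zero, ← Finset.sum_sub_distrib, ← ht]
  refine Finset.sum_congr rfl fun k _ => ?_
  have := hfin k
  rw [euler_rank d (W k)]
  push_cast
  ring

theorem euler_Wk_eq (l : ℤ × ℤ) (k n : ℕ) :
    D.Wk l k n = (hw K (D.Cn k n) l).map (D.Cn k n).toSubmodule.subtype := by
  ext w
  constructor
  · rintro ⟨h1, h2⟩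
    exact ⟨⟨w, h2⟩, (coe_mem_hw (D.Cn k n) ⟨w, h2⟩).1 h1, rfl⟩
  · rintro ⟨v, hv, rfl⟩
    exact ⟨(coe_mem_hw (D.Cn k n) v).2 hv, v.2⟩

theorem euler_finrank_Wk (l : ℤ × ℤ) (k n : ℕ) :
    Module.finrank K (D.Wk l k n) = Module.finrank K (hw K (D.Cn k n) l) := by
  rw [euler_Wk_eq]
  exact Submodule.finrank_map_subtype_eq _ _

theorem euler_pc {I : Type*} (deg : I → ℕ) (wt : I → ℤ × ℤ) (hpos : ∀ i, 1 ≤ deg i)
    (hfin : ∀ n, {i | deg i = n}.Finite) (n : ℕ) (μ : ℤ × ℤ) :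
    ∑ k ∈ Finset.range (n + 1), (-1 : ℤ) ^ k *
      ({S : Finset I | S.card = k ∧ ∑ i ∈ S, deg i = n ∧ ∑ i ∈ S, wt i = μ}.ncard : ℤ) =
      pc deg wt n μ := by
  classical
  have hF : {S : Finset I | ∑ i ∈ S, deg i = n ∧ ∑ i ∈ S, wt i = μ}.Finite :=
    (finite_degSets deg hpos hfin n).subset fun S hS => hS.1
  unfold pc
  rw [finsum_mem_eq_finite_toFinset_sum _ hF,
    ← Finset.sum_fiberwise_of_maps_to (s := hF.toFinset) (t := Finset.range (n + 1))
      (g := Finset.card) (fun S hS => by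
        have h1 := (hF.mem_toFinset.1 hS).1
        have h2 : S.card ≤ ∑ i ∈ S, deg i := by
          rw [Finset.card_eq_sum_ones]
          exact Finset.sum_le_sum fun i _ => hpos i
        rw [Finset.mem_range]
        omega)]
  refine Finset.sum_congr rfl fun k _ => ?_
  have h3 : {S : Finset I | S.card = k ∧ ∑ i ∈ S, deg i = n ∧ ∑ i ∈ S, wt i = μ} =
      ↑(hF.toFinset.filter fun S => S.card = k) := by
    ext S
    simp only [Set.mem_ofPred_eq, Finset.coe_filter, Set.Finite.mem_toFinset]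
    tauto
  rw [h3, Set.ncard_coe_finset, Finset.sum_congr rfl (g := fun _ => (-1 : ℤ) ^ k)
    (fun S hS => by rw [(Finset.mem_filter.1 hS).2]), Finset.sum_const, nsmul_eq_mul, mul_comm]

theorem euler_phi_sum (s : Finset ℕ) (c : ℕ → ℤ) (p : ℕ → ℤ × ℤ → ℤ) (l : ℤ × ℤ) :
    ∑ k ∈ s, c k * phi (p k) l = phi (fun μ => ∑ k ∈ s, c k * p k μ) l := by
  simp only [phi, mul_add, mul_sub, Finset.sum_add_distrib, Finset.sum_sub_distrib]

theorem GData.sum_Wk {l : ℤ × ℤ} (hl : Good l) (n : ℕ) :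
    ∑ k ∈ Finset.range (n + 1), (-1 : ℤ) ^ k * Module.finrank K (D.Wk l k n) =
      phi (pc D.deg D.wt n) l := by
  have h1 : ∀ k, (Module.finrank K (D.Wk l k n) : ℤ) = phi (fun μ =>
      ({S : Finset I | S.card = k ∧ ∑ i ∈ S, D.deg i = n ∧ ∑ i ∈ S, D.wt i = μ}.ncard : ℤ)) l := by
    intro k
    have := D.finite_Cn k n
    rw [euler_finrank_Wk, ← phi_eq hl (D.isWt_Cn k n)]
    simp only [D.finrank_wtSp]
  simp only [h1]
  rw [euler_phi_sum]
  simp only [euler_pc D.deg D.wt D.deg_pos D.fin]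

theorem GData.sum_Hn {l : ℤ × ℤ} (hl : Good l) (n : ℕ) :
    ∑ k ∈ Finset.range (n + 1), (-1 : ℤ) ^ k * Module.finrank K (hw K (D.Hn k n) l) =
      phi (pc D.deg D.wt n) l := by
  have hfin : ∀ k, FiniteDimensional K (D.Wk l k n) := fun k => by
    have h : FiniteDimensional K (D.Cn k n).toSubmodule := D.finite_Cn k n
    exact Submodule.finiteDimensional_of_le (inf_le_right : D.Wk l k n ≤ _)
  have h0 : D.Wk l 0 n ≤ LinearMap.ker (dL K g).toLinearMap := by
    rintro w ⟨-, hw⟩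
    have h1 : Ch.val K g w ∈ (1 : Submodule K (ExteriorAlgebra K g)) := by
      have := (D.mem_Cn.1 hw).1
      rwa [ExteriorAlgebra.exteriorPower, pow_zero] at this
    obtain ⟨r, hr⟩ := Submodule.mem_one.1 h1
    change dL K g w = 0
    apply (Ch.val K g).injective
    rw [val_dL, ← hr, dCE_algebraMap, map_zero]
  have htop : D.Wk l (n + 1) n = ⊥ := by
    change hw K (Ch K g) l ⊓ (D.Cn (n + 1) n).toSubmodule = ⊥
    rw [D.Cn_eq_bot (Nat.lt_succ_self n)]
    simp
  rw [← D.sum_Wk hl n, euler_sub (dL K g).toLinearMap (fun k => D.Wk l k n) hfin h0 n htop]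
  exact Finset.sum_congr rfl fun k _ => by rw [D.finrank_hw_Hn hl k n]

theorem GData.euler_bound {S : Type*} [AddCommGroup S] [Module K S] [LieRingModule (Sl3 K) S]
    [LieModule K (Sl3 K) S] [FiniteDimensional K S] {l : ℤ × ℤ} (hl : Good l) {s0 : S}
    (hS : Std K S l s0) {n : ℕ} (hn : 2 ≤ n) :
    ∃ k m : ℕ, 2 ≤ k ∧ |phi (pc D.deg D.wt n) l| ≤ n * m ∧
      ∃ (Φ : (⨁ _ : Fin m, S) →ₗ⁅K, Sl3 K⁆ LieH K g k)
        (Ψ : LieH K g k →ₗ⁅K, Sl3 K⁆ ⨁ _ : Fin m, S),
        (∀ x, Ψ (Φ x) = x) ∧ ∀ x, Φ x ∈ D.Hn k n := by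
  obtain ⟨k, hk, hmax⟩ := (Finset.Icc 2 n).exists_max_image
    (fun k => Module.finrank K (hw K (D.Hn k n) l)) ⟨2, Finset.mem_Icc.2 ⟨le_rfl, hn⟩⟩
  have hfin := D.finite_Hn k n
  obtain ⟨Φ, Ψ, hΦ⟩ := exists_retract hl hS (D.isWt_Hn k n)
  obtain ⟨r, hr⟩ := D.exists_retr k n
  refine ⟨k, Module.finrank K (hw K (D.Hn k n) l), (Finset.mem_Icc.1 hk).1, ?_,
    (D.Hn k n).incl.comp Φ, Ψ.comp r, fun x => ?_, fun x => (Φ x).2⟩
  · rw [← D.sum_Hn hl n, Finset.sum_range_succ']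
    have hlow : ∀ j, j < 2 → Module.finrank K (hw K (D.Hn j n) l) = 0 := by
      intro j hj
      have hs : Subsingleton (D.Hn j n) := by
        rw [D.Hn_low hj hn]
        infer_instance
      exact Module.finrank_zero_of_subsingleton
    rw [hlow 0 (by norm_num), Nat.cast_zero, mul_zero, add_zero]
    refine (Finset.abs_sum_le_sum_abs _ _).trans ?_
    refine (Finset.sum_le_card_nsmul _ _ (Module.finrank K (hw K (D.Hn k n) l) : ℤ)
      fun j hj => ?_).trans ?_
    · rw [abs_mul, abs_pow, abs_neg, abs_one, one_pow, one_mul, Nat.abs_cast, Nat.cast_le]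
      by_cases h : j + 1 < 2
      · rw [hlow _ h]
        exact Nat.zero_le _
      · exact hmax _ (Finset.mem_Icc.2 ⟨not_lt.1 h, Finset.mem_range.1 hj⟩)
    · rw [Finset.card_range, nsmul_eq_mul]
  · change Ψ (r (Φ x)) = x
    rw [hr, hΦ]

end Pool.Agent.Work.MP_894cc0_al
end
end
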