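import Pool.Agent.Work.MP_894cc0_al.Red

/-! The definitions used in the final statement, each given by its defining formulas; existence
and uniqueness are proved from the constructions in `ABG`, `CE`, `Free` (where the Lie algebra
axioms, `d ∘ d = 0` and the universal property of `Alt` are proved). -/

open scoped TensorProduct
open ExteriorAlgebra

namespace Pool.Agent.Work.MP_894cc0_al

noncomputable section

section general

variable (K : Type*) [Field K] {E : Type*} [AddCommGroup E] [Module K E]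

/-- The module `Z / B` (action `θ`, scalings `σ`) is `N / B ⊕ N' / B` with `N / B` isomorphic,
through `e`, to `S ^ m`, and `σ c` acts on `N / B` by `c ^ n`. -/
def Summand {s : Type*} (S : Type*) [AddCommGroup S] [Module K S] [Bracket s S]
    (Z B : Submodule K E) (θ : s → E → E) (σ : K → E → E) (n m : ℕ) : Prop :=
  ∃ (N N' : Submodule K E) (e : E →ₗ[K] (Fin m → S)), N ⊓ N' = B ∧ N ⊔ N' = Z ∧
    (∀ X, ∀ z ∈ N, θ X z ∈ N) ∧ (∀ X, ∀ z ∈ N', θ X z ∈ N') ∧
    (∀ y, ∃ z ∈ N, e z = y) ∧ (∀ z ∈ N, e z = 0 ↔ z ∈ B) ∧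
    (∀ X, ∀ z ∈ N, ∀ i, e (θ X z) i = ⁅X, e z i⁆) ∧
    (∀ c, ∀ z ∈ N, σ c z - c ^ n • z ∈ B)

/-- `T` is the derivation of the exterior algebra extending `D`. -/
def IsTh (D : Module.End K E) (T : Module.End K (ExteriorAlgebra K E)) : Prop :=
  T 1 = 0 ∧ ∀ x w, T (ι K x * w) = ι K (D x) * w + ι K x * T w

theorem existsUnique_th (D : Module.End K E) : ∃! T, IsTh K D T := by
  refine ⟨theta D, ⟨theta_one D, theta_ι_mul D⟩, fun T hT => LinearMap.ext (ext_ind ?_ ?_ ?_)⟩
  · intro r
    rw [theta_algebraMap, Algebra.algebraMap_eq_smul_one, map_smul, hT.1, smul_zero]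
  · intro x y hx hy
    rw [map_add, map_add, hx, hy]
  · intro x m hx
    rw [hT.2, theta_ι_mul, hx]

/-- The derivation of the exterior algebra extending `D`. -/
def Th (D : Module.End K E) : Module.End K (ExteriorAlgebra K E) :=
  Classical.choose (existsUnique_th K D)

/-- `d` is the Chevalley-Eilenberg differential of the bracket `ad`:
`d 1 = 0`, `d (x ∧ w) = Th (ad x) w - x ∧ d w`. -/
def IsCE (ad : E → Module.End K E) (d : Module.End K (ExteriorAlgebra K E)) : Prop :=
  d 1 = 0 ∧ ∀ x w, d (ι K x * w) = Th K (ad x) w - ι K x * d w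

/-- `H_k = (Λ^k ∩ ker d) / d Λ^(k+1)`, with the action induced by `ρ` and the scalings induced by
`σ`, has a direct summand `S ^ m` lying in degree `n`. -/
def HSummand {s : Type*} (S : Type*) [AddCommGroup S] [Module K S] [Bracket s S]
    (d : Module.End K (ExteriorAlgebra K E)) (ρ : s → Module.End K E) (σ : K → Module.End K E)
    (k n m : ℕ) : Prop :=
  Summand K S (⋀[K]^k E ⊓ LinearMap.ker d) ((⋀[K]^(k + 1) E).map d) (fun X => Th K (ρ X))
    (fun c => ExteriorAlgebra.map (σ c)) n m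

theorem Th_eq (D : Module.End K E) : Th K D = theta D :=
  (existsUnique_th K D).unique (Classical.choose_spec (existsUnique_th K D)).1
    ⟨theta_one D, theta_ι_mul D⟩

end general

variable (K : Type*) [Field K] [CharZero K]

/-- `(1/3) tr(XY)`. -/
def trF (X Y : Sl3 K) : K := (1 / 3 : K) * Matrix.trace (X.val * Y.val)

/-- The matrix `(1/2)(XY+YX) - (1/3) tr(XY) I`. -/
def symM (X Y : Sl3 K) : Matrix (Fin 3) (Fin 3) K :=
  (1 / 2 : K) • (X.val * Y.val + Y.val * X.val) - trF K X Y • (1 : Matrix (Fin 3) (Fin 3) K)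

theorem symM_mem (X Y : Sl3 K) : symM K X Y ∈ LieAlgebra.SpecialLinear.sl (Fin 3) K :=
  slSym_mem K X Y

/-- `{X,Y}`. -/
def symF (X Y : Sl3 K) : Sl3 K := ⟨symM K X Y, symM_mem K X Y⟩

variable {A : Type*} [NonUnitalNonAssocRing A] [Module K A]

/-- `D_{p,q} r` for `D_{p,q} = [L_p,L_q] + [R_p,R_q] + [L_p,R_q]`. -/
def Dpq (p q r : A) : A :=
  p * (q * r) - q * (p * r) + (r * q * p - r * p * q) + (p * (r * q) - p * r * q)

/-- `X ⊗ p` in `ABG K A`. -/
def tT (X : Sl3 K) (p : A) : ABG K A := (X ⊗ₜ[K] p, 0)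

/-- `p ∧ q` in `ABG K A`. -/
def tB (p q : A) : ABG K A := (0, Submodule.Quotient.mk (p ⊗ₜ[K] q))

/-- `ad x y` is the bilinear skew-symmetric bracket with the three defining formulas. -/
structure IsBr (ad : ABG K A → Module.End K (ABG K A)) : Prop where
  add : ∀ x y, ad (x + y) = ad x + ad y
  smul : ∀ (c : K) x, ad (c • x) = c • ad x
  skew : ∀ x y, ad x y = -ad y x
  tt : ∀ X Y p q, ad (tT K X p) (tT K Y q) = tT K ⁅X, Y⁆ ((1 / 2 : K) • (p * q + q * p))
    + tT K (symF K X Y) (p * q - q * p) + trF K X Y • tB K p q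
  bt : ∀ p q X r, ad (tB K p q) (tT K X r) = tT K X (Dpq p q r)
  bb : ∀ p q r s, ad (tB K p q) (tB K r s) = tB K (Dpq p q r) s + tB K r (Dpq p q s)

/-- `ρ` is the action of `Z`: adjoint on the factor `sl3`, trivial on `A` and `B(A)`. -/
def IsAct (Z : Sl3 K) (ρ : Module.End K (ABG K A)) : Prop :=
  (∀ X p, ρ (tT K X p) = tT K ⁅Z, X⁆ p) ∧ ∀ p q, ρ (tB K p q) = 0

/-- `F` is the map induced by `f`. -/
def IsMap (f : A → A) (F : Module.End K (ABG K A)) : Prop :=
  (∀ X p, F (tT K X p) = tT K X (f p)) ∧ ∀ p q, F (tB K p q) = tB K (f p) (f q)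

variable (A) [IsScalarTower K A A] [SMulCommClass K A A] [IsAlt A]

theorem ABG_ind {P : ABG K A → Prop} (h0 : P 0) (hT : ∀ X p, P (tT K X p))
    (hB : ∀ p q, P (tB K p q)) (ha : ∀ x y, P x → P y → P (x + y)) (x : ABG K A) : P x := by
  obtain ⟨u, b⟩ := x
  have ha' : ∀ (u u' : Sl3 K ⊗[K] A) (b b' : BB K A), P (u, b) → P (u', b') → P (u + u', b + b') :=
    fun u u' b b' h h' => ha _ _ h h'
  have h1 : P (u, 0) := by
    induction u using TensorProduct.induction_on with
    | zero => exact h0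
    | tmul X p => exact hT X p
    | add x y hx hy => simpa only [add_zero] using ha' _ _ _ _ hx hy
  have h2 : P (0, b) := by
    induction b using BB_ind with
    | h0 => exact h0
    | hw p q => exact hB p q
    | ha x y hx hy => simpa only [add_zero] using ha' _ _ _ _ hx hy
  simpa only [add_zero, zero_add] using ha' _ _ _ _ h1 h2

theorem ABG_ext {F G : Module.End K (ABG K A)} (hT : ∀ X p, F (tT K X p) = G (tT K X p))
    (hB : ∀ p q, F (tB K p q) = G (tB K p q)) : F = G :=
  LinearMap.ext (ABG_ind K A (by simp) hT hB (fun x y hx hy => by rw [map_add, map_add, hx, hy]))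

theorem isBr_ad : IsBr K (fun x : ABG K A => LieAlgebra.ad K (ABG K A) x) where
  add x y := map_add (LieAlgebra.ad K (ABG K A)) x y
  smul c x := map_smul (LieAlgebra.ad K (ABG K A)) c x
  skew x y := (lie_skew x y).symm
  tt X Y p q := Prod.ext
    (by change brT K A (X ⊗ₜ p) (Y ⊗ₜ q) + actT K A 0 (Y ⊗ₜ q) - actT K A 0 (X ⊗ₜ p) =
          ⁅X, Y⁆ ⊗ₜ ((1 / 2 : K) • (p * q + q * p)) + slSym K X Y ⊗ₜ (p * q - q * p)
            + trF K X Y • (0 : Sl3 K ⊗[K] A)
        simp [brT_tmul])
    (by change brB K A (X ⊗ₜ p) (Y ⊗ₜ q) + actB K A 0 0 = 0 + 0 + slTr K X Y • wedge K A p q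
        simp [brB_tmul])
  bt p q X r := Prod.ext
    (by change brT K A 0 (X ⊗ₜ r) + actT K A (wedge K A p q) (X ⊗ₜ r) - actT K A 0 0 =
          X ⊗ₜ Dpq p q r
        simp [actT_tmul, DB_wedge, Dop_apply, Dpq])
    (by change brB K A 0 (X ⊗ₜ r) + actB K A (wedge K A p q) 0 = 0
        simp)
  bb p q r s := Prod.ext
    (by change brT K A 0 0 + actT K A (wedge K A p q) 0 - actT K A (wedge K A r s) 0 = 0 + 0
        simp)
    (by change brB K A 0 0 + actB K A (wedge K A p q) (wedge K A r s) =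
          wedge K A (Dpq p q r) s + wedge K A r (Dpq p q s)
        simp [actB_wedge, DB_wedge, Dop_apply, Dpq])

theorem existsUnique_br : ∃! ad : ABG K A → Module.End K (ABG K A), IsBr K ad := by
  refine ⟨_, isBr_ad K A, fun ad h => funext (ABG_ind K A ?_ ?_ ?_ ?_)⟩
  · have h0 := h.smul 0 0
    rw [zero_smul, zero_smul] at h0
    rw [h0, map_zero]
  · intro X p
    refine ABG_ext K A (fun Y q => ?_) (fun r s => ?_)
    · rw [h.tt, (isBr_ad K A).tt]
    · rw [h.skew, h.bt, (isBr_ad K A).skew, (isBr_ad K A).bt]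
  · intro p q
    refine ABG_ext K A (fun Y r => ?_) (fun r s => ?_)
    · rw [h.bt, (isBr_ad K A).bt]
    · rw [h.bb, (isBr_ad K A).bb]
  · intro x y hx hy
    rw [h.add, hx, hy, map_add]

/-- The bracket of `ABG K A`. -/
def adA : ABG K A → Module.End K (ABG K A) := Classical.choose (existsUnique_br K A)

theorem adA_eq : adA K A = fun x : ABG K A => LieAlgebra.ad K (ABG K A) x :=
  (existsUnique_br K A).unique (Classical.choose_spec (existsUnique_br K A)).1 (isBr_ad K A)

theorem isCE_dCE : IsCE K (adA K A) (dCE K (ABG K A)) :=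
  ⟨by simpa using dCE_algebraMap (K := K) (g := ABG K A) 1, fun x w => by
    rw [adA_eq, Th_eq]; exact dCE_ι_mul x w⟩

theorem existsUnique_d : ∃! d, IsCE K (adA K A) d := by
  refine ⟨_, isCE_dCE K A, fun d hd => LinearMap.ext (ext_ind ?_ ?_ ?_)⟩
  · intro r
    rw [Algebra.algebraMap_eq_smul_one, map_smul, map_smul, hd.1, (isCE_dCE K A).1]
  · intro x y hx hy
    rw [map_add, map_add, hx, hy]
  · intro x m hx
    rw [hd.2, (isCE_dCE K A).2, hx]

/-- The Chevalley-Eilenberg differential of `ABG K A`. -/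
def dA : Module.End K (ExteriorAlgebra K (ABG K A)) := Classical.choose (existsUnique_d K A)

theorem dA_eq : dA K A = dCE K (ABG K A) :=
  (existsUnique_d K A).unique (Classical.choose_spec (existsUnique_d K A)).1 (isCE_dCE K A)

theorem isAct_toEnd (Z : Sl3 K) : IsAct K Z (LieModule.toEnd K (Sl3 K) (ABG K A) Z) :=
  ⟨fun _ _ => rfl, fun _ _ => Prod.ext (map_zero ((slLie K Z).rTensor A)) rfl⟩

theorem existsUnique_act (Z : Sl3 K) : ∃! ρ : Module.End K (ABG K A), IsAct K Z ρ :=
  ⟨_, isAct_toEnd K A Z, fun _ h => ABG_ext K A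
    (fun X p => (h.1 X p).trans ((isAct_toEnd K A Z).1 X p).symm)
    (fun p q => (h.2 p q).trans ((isAct_toEnd K A Z).2 p q).symm)⟩

/-- The action of `sl3` on `ABG K A`. -/
def actA (Z : Sl3 K) : Module.End K (ABG K A) := Classical.choose (existsUnique_act K A Z)

theorem actA_eq (Z : Sl3 K) : actA K A Z = LieModule.toEnd K (Sl3 K) (ABG K A) Z :=
  (existsUnique_act K A Z).unique (Classical.choose_spec (existsUnique_act K A Z)).1
    (isAct_toEnd K A Z)

theorem isMap_map (f : A →ₙₐ[K] A) : IsMap K f (ABG.map f).toLinearMap :=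
  ⟨fun _ _ => Prod.ext rfl (map_zero (mapB f)),
    fun _ _ => Prod.ext (map_zero ((f : A →ₗ[K] A).lTensor (Sl3 K))) rfl⟩

theorem existsUnique_map (f : A →ₙₐ[K] A) : ∃! F : Module.End K (ABG K A), IsMap K f F :=
  ⟨_, isMap_map K A f, fun _ h => ABG_ext K A
    (fun X p => (h.1 X p).trans ((isMap_map K A f).1 X p).symm)
    (fun p q => (h.2 p q).trans ((isMap_map K A f).2 p q).symm)⟩

/-- The endomorphism of `ABG K A` induced by an endomorphism of `A`. -/
def mapA (f : A →ₙₐ[K] A) : Module.End K (ABG K A) := Classical.choose (existsUnique_map K A f)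

theorem mapA_eq (f : A →ₙₐ[K] A) : mapA K A f = (ABG.map f).toLinearMap :=
  (existsUnique_map K A f).unique (Classical.choose_spec (existsUnique_map K A f)).1
    (isMap_map K A f)

/-- `H_k(ABG A)` has a direct summand `S ^ m` on which the maps induced by `f c` are `c ^ n`. -/
def ASummand (f : K → (A →ₙₐ[K] A)) (S : Type*) [AddCommGroup S] [Module K S] [Bracket (Sl3 K) S]
    (k n m : ℕ) : Prop :=
  HSummand K S (dA K A) (actA K A) (fun c => mapA K A (f c)) k n m

variable (V : Type*) [AddCommGroup V] [Module K V]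

omit [CharZero K] in
theorem existsUnique_scale (c : K) : ∃! f : Alt K V →ₙₐ[K] Alt K V,
    ∀ v, f (Alt.mk K V (gen K V v)) = c • Alt.mk K V (gen K V v) :=
  ⟨Alt.map (c • (LinearMap.id : V →ₗ[K] V)),
    fun v => (Alt.map_of _ v).trans (map_smul (Alt.of K V) c v),
    fun _ h => Alt.hom_ext fun v =>
      (h v).trans ((Alt.map_of _ v).trans (map_smul (Alt.of K V) c v)).symm⟩

/-- The endomorphism of `Alt K V` multiplying the generators by `c`. -/
def scale (c : K) : Alt K V →ₙₐ[K] Alt K V := Classical.choose (existsUnique_scale K V c)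

omit [CharZero K] in
theorem scale_eq (c : K) : scale K V c = Alt.map (c • (LinearMap.id : V →ₗ[K] V)) :=
  (existsUnique_scale K V c).unique (Classical.choose_spec (existsUnique_scale K V c)).1
    (fun v => (Alt.map_of _ v).trans (map_smul (Alt.of K V) c v))

/-- `H_k(ABG(Alt V), K)` has a direct summand `S ^ m` lying in degree `n`. -/
def AltSummand (S : Type*) [AddCommGroup S] [Module K S] [Bracket (Sl3 K) S] (k n m : ℕ) : Prop :=
  ASummand K (Alt K V) (scale K V) S k n m

end

end Pool.Agent.Work.MP_894cc0_al
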