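import Pool.Agent.Work.MP_894cc0_al.Artin
import Pool.Agent.Work.MP_894cc0_al.Red
import Pool.Agent.Work.MP_894cc0_al.Stmt

-- merged part: Pool.Agent.Work.MP_894cc0_al.An3
section
/-! The analytic remainder `G`. -/

namespace Pool.Agent.Work.MP_894cc0_al

variable {W J : Type*} {len : W → ℕ} {dg : J → ℕ}

/-- One term of the remainder. -/
noncomputable def an3_u {I : Type*} (deg : I → ℕ) (wt : I → ℤ × ℤ) (p : I × ℕ) (t : ℂ) :
    C(TT, ℂ) :=
  (t ^ (deg p.1 * (p.2 + 2)) / ((p.2 + 2 : ℕ) : ℂ)) • chr ((p.2 + 2) • wt p.1)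

theorem an3_norm {I : Type*} (deg : I → ℕ) (wt : I → ℤ × ℤ) (hpos : ∀ i, 1 ≤ deg i) (p : I × ℕ)
    (t : ℂ) (ht : ‖t‖ < 2 / 3) :
    ‖an3_u deg wt p t‖ ≤ (4 / 9 : ℝ) ^ deg p.1 * (2 / 3 : ℝ) ^ p.2 := by
  unfold an3_u
  rw [norm_smul, norm_div, norm_pow, Complex.norm_natCast]
  have h1 : ‖t‖ ^ (deg p.1 * (p.2 + 2)) ≤ (2 / 3 : ℝ) ^ (deg p.1 * (p.2 + 2)) :=
    pow_le_pow_left₀ (norm_nonneg _) ht.le _
  have h2 : (2 / 3 : ℝ) ^ (deg p.1 * (p.2 + 2)) ≤ (2 / 3 : ℝ) ^ (2 * deg p.1 + p.2) := by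
    refine pow_le_pow_of_le_one (by norm_num) (by norm_num) ?_
    have := Nat.mul_le_mul_right p.2 (hpos p.1)
    nlinarith
  have h3 : (2 / 3 : ℝ) ^ (2 * deg p.1 + p.2) = (4 / 9 : ℝ) ^ deg p.1 * (2 / 3 : ℝ) ^ p.2 := by
    rw [pow_add, pow_mul]; norm_num
  have h4 : (1 : ℝ) ≤ ((p.2 + 2 : ℕ) : ℝ) := by exact_mod_cast Nat.le_add_left 1 (p.2 + 1)
  have h5 : ‖t‖ ^ (deg p.1 * (p.2 + 2)) / ((p.2 + 2 : ℕ) : ℝ) ≤ ‖t‖ ^ (deg p.1 * (p.2 + 2)) :=
    div_le_self (by positivity) h4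
  calc _ ≤ ‖t‖ ^ (deg p.1 * (p.2 + 2)) / ((p.2 + 2 : ℕ) : ℝ) * 1 :=
        mul_le_mul_of_nonneg_left (norm_chr_le _) (by positivity)
    _ ≤ _ := by rw [mul_one, ← h3]; exact h5.trans (h1.trans h2)

theorem an3_apply {I : Type*} (deg : I → ℕ) (wt : I → ℤ × ℤ) (p : I × ℕ) (t : ℂ) (z : TT) :
    an3_u deg wt p t z = (t ^ deg p.1 * chr (wt p.1) z) ^ (p.2 + 2) / ((p.2 + 2 : ℕ) : ℂ) := by
  unfold an3_u
  rw [ContinuousMap.smul_apply, chr_nsmul, smul_eq_mul, mul_pow, ← pow_mul]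
  ring

/-- The involution of the basis of `sl3` that negates weights. -/
def an3_s : Fin 8 ≃ Fin 8 :=
  ⟨![3, 4, 5, 0, 1, 2, 6, 7], ![3, 4, 5, 0, 1, 2, 6, 7], by decide, by decide⟩

theorem an3_swt (i : Fin 8) : swt (an3_s i) = -swt i := by
  revert i; decide

theorem an3_log (x : ℂ) (hx : ‖x‖ < 1) :
    HasSum (fun k : ℕ => x ^ (k + 2) / ((k + 2 : ℕ) : ℂ)) (-Complex.log (1 - x) - x) := by
  have h := (hasSum_nat_add_iff' 2).2 (Complex.hasSum_taylorSeries_neg_log hx)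
  simpa [Finset.sum_range_succ] using h

theorem an3_H {I : Type*} (deg : I → ℕ) (wt : I → ℤ × ℤ) (hpos : ∀ i, 1 ≤ deg i)
    (hs : ∀ r : ℝ, 0 ≤ r → r < 1 / 2 → Summable fun i => r ^ deg i)
    (σ : I ≃ I) (hσd : ∀ i, deg (σ i) = deg i) (hσw : ∀ i, wt (σ i) = -wt i) :
    ∃ H : ℂ → C(TT, ℂ), DifferentiableOn ℂ H (Metric.ball 0 (2 / 3)) ∧
      (∃ g : ℝ, ∀ t ∈ Metric.ball (0 : ℂ) (2 / 3), ‖H t‖ ≤ g) ∧
      (∀ t : ℝ, |t| < 2 / 3 → ∀ z, (H t z).im = 0) ∧
      ∀ t : ℂ, ‖t‖ < 1 / 2 → ∀ z,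
        ∑' i, Complex.log (1 - t ^ deg i * chr (wt i) z) =
          -(∑' i, t ^ deg i * chr (wt i) z) - H t z := by
  have hb : Summable fun p : I × ℕ => (4 / 9 : ℝ) ^ deg p.1 * (2 / 3 : ℝ) ^ p.2 :=
    Summable.mul_of_nonneg (f := fun i => (4 / 9 : ℝ) ^ deg i) (g := fun n : ℕ => (2 / 3 : ℝ) ^ n)
      (hs (4 / 9) (by norm_num) (by norm_num))
      (summable_geometric_of_lt_one (by norm_num) (by norm_num))
      (fun _ => by positivity) (fun _ => by positivity)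
  have hsum : ∀ t : ℂ, ‖t‖ < 2 / 3 → Summable fun p => an3_u deg wt p t :=
    fun t ht => Summable.of_norm_bounded hb (fun p => an3_norm deg wt hpos p t ht)
  have hev : ∀ t : ℂ, ‖t‖ < 2 / 3 → ∀ z,
      HasSum (fun p => an3_u deg wt p t z) ((∑' p, an3_u deg wt p t) z) :=
    fun t ht z => by
      have h := (ContinuousMap.evalCLM ℂ z : C(TT, ℂ) →L[ℂ] ℂ).hasSum (hsum t ht).hasSum
      simp only [ContinuousMap.evalCLM_apply] at h
      exact h
  refine ⟨fun t => ∑' p, an3_u deg wt p t, ?_, ?_, ?_, ?_⟩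
  · refine Complex.differentiableOn_tsum_of_summable_norm hb (fun p => ?_) Metric.isOpen_ball
      (fun p t ht => an3_norm deg wt hpos p t (by simpa using ht))
    unfold an3_u
    exact (((differentiable_id.pow _).div_const _).smul_const _).differentiableOn
  · exact ⟨_, fun t ht => tsum_of_norm_bounded hb.hasSum
      (fun p => an3_norm deg wt hpos p t (by simpa using ht))⟩
  · intro t ht z
    have ht' : ‖(t : ℂ)‖ < 2 / 3 := by simpa using ht
    have h1 := hev t ht' z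
    have h2 := Complex.conjCLE.toContinuousLinearMap.hasSum h1
    have h3 := (Equiv.hasSum_iff (σ.prodCongr (Equiv.refl ℕ))).2 h1
    have h4 : (fun p => Complex.conjCLE.toContinuousLinearMap (an3_u deg wt p t z)) =
        (fun p => an3_u deg wt p t z) ∘ (σ.prodCongr (Equiv.refl ℕ)) := by
      funext p
      show (starRingEnd ℂ) (an3_u deg wt p t z) = an3_u deg wt (σ p.1, p.2) t z
      rw [an3_apply, an3_apply]
      simp only [map_div₀, map_pow, map_mul, conj_chr, Complex.conj_ofReal, map_natCast, hσd, hσw]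
    rw [h4] at h2
    exact Complex.conj_eq_iff_im.1 (h2.unique h3)
  · intro t ht z
    have ht' : ‖t‖ < 2 / 3 := by linarith
    have hx : ∀ i, ‖t ^ deg i * chr (wt i) z‖ = ‖t‖ ^ deg i := fun i => by
      rw [norm_mul, norm_chr_apply, mul_one, norm_pow]
    have hx1 : ∀ i, ‖t ^ deg i * chr (wt i) z‖ < 1 := fun i => by
      rw [hx]
      exact pow_lt_one₀ (norm_nonneg _) (by linarith) (by have := hpos i; omega)
    have h1 : Summable fun i => t ^ deg i * chr (wt i) z :=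
      Summable.of_norm_bounded (hs ‖t‖ (norm_nonneg _) ht) (fun i => (hx i).le)
    have h2 := (hev t ht' z).prod_fiberwise (g := fun i =>
      -Complex.log (1 - t ^ deg i * chr (wt i) z) - t ^ deg i * chr (wt i) z) (fun i => by
        simp only [an3_apply]
        exact an3_log _ (hx1 i))
    have h3 := h1.hasSum.neg.sub h2
    refine HasSum.tsum_eq ?_
    refine h3.congr_fun ?_
    intro i
    ring

/-- The higher order terms of the logarithm of the product. -/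
theorem Counts.exists_H (h : Counts len dg) :
    ∃ H : ℂ → C(TT, ℂ), DifferentiableOn ℂ H (Metric.ball 0 (2 / 3)) ∧
      (∃ g : ℝ, ∀ t ∈ Metric.ball (0 : ℂ) (2 / 3), ‖H t‖ ≤ g) ∧
      (∀ t : ℝ, |t| < 2 / 3 → ∀ z, (H t z).im = 0) ∧
      ∀ t : ℂ, ‖t‖ < 1 / 2 → ∀ z,
        ∑' i, Complex.log (1 - t ^ ideg len dg i * chr (iwt W J i) z) =
          -(∑' i, t ^ ideg len dg i * chr (iwt W J i) z) - H t z := by
  refine an3_H _ _ h.ideg_pos h.summable_pow
    (Equiv.sumCongr (an3_s.prodCongr (Equiv.refl W)) (Equiv.refl J)) ?_ ?_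
  · rintro (p | j) <;> rfl
  · rintro (p | j)
    · exact an3_swt p.1
    · exact neg_zero.symm

theorem Counts.exists_G (h : Counts len dg) :
    ∃ G : ℂ → C(TT, ℂ), DifferentiableOn ℂ G (Metric.ball 0 (2 / 3)) ∧
      (∃ g : ℝ, ∀ t ∈ Metric.ball (0 : ℂ) (2 / 3), ‖G t‖ ≤ g) ∧
      (∀ t : ℝ, |t| < 2 / 3 → ∀ z, (G t z).im = 0) ∧
      ∀ t : ℂ, ‖t‖ < 1 / 2 → ∃ F : C(TT, ℂ),
        HasSum (fun n => t ^ n • Pn (ideg len dg) (iwt W J) n) F ∧
        ∀ z, (1 - 2 * t) * F z = Complex.exp (-(xf z : ℂ) * (2 * t / (1 - 2 * t)) + G t z) := by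
  obtain ⟨H, hH1, ⟨g, hg⟩, hH3, hH4⟩ := h.exists_H
  obtain ⟨R, hR1, ⟨g', hg'⟩, hR3, hR4⟩ := h.exists_R
  refine ⟨fun t => R t • (1 : C(TT, ℂ)) - H t, (hR1.smul_const _).sub hH1, ⟨g' + g, ?_⟩, ?_, ?_⟩
  · intro t ht
    refine (norm_sub_le _ _).trans (add_le_add ?_ (hg t ht))
    rw [norm_smul, norm_one, mul_one]
    exact hg' t ht
  · intro t ht z
    simp [hR3 t ht, hH3 t ht z]
  · intro t ht
    obtain ⟨F, hF, hFz⟩ := hasSum_Pn (ideg len dg) (iwt W J) h.ideg_pos h.ideg_fin t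
      (by linarith) (h.summable_pow _ (norm_nonneg _) ht)
    refine ⟨F, hF, fun z => ?_⟩
    have hne : (1 : ℂ) - 2 * t ≠ 0 := by
      intro h0
      have h1 : t = 1 / 2 := by linear_combination (-1 / 2 : ℂ) * h0
      rw [h1] at ht
      norm_num at ht
    rw [hFz, hH4 t ht z, hR4 t ht z]
    nth_rewrite 1 [← Complex.exp_log hne]
    rw [← Complex.exp_add]
    refine congrArg Complex.exp ?_
    simp only [ContinuousMap.sub_apply, ContinuousMap.smul_apply, ContinuousMap.one_apply,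
      smul_eq_mul]
    ring

end Pool.Agent.Work.MP_894cc0_al
end

-- merged part: Pool.Agent.Work.MP_894cc0_al.Stmt2
section
-- merged part: Pool.Agent.Work.MP_894cc0_al.An9
section
/-! Growth of the Euler characteristic up to a polynomial factor. -/

open MeasureTheory Filter

namespace Pool.Agent.Work.MP_894cc0_al

/-- Integration against a continuous weight as a continuous linear functional. -/
noncomputable def intW (W : C(TT, ℝ)) : C(TT, ℂ) →L[ℂ] ℂ :=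
  LinearMap.mkContinuous
    { toFun := fun F => ∫ z, ((W z : ℝ) : ℂ) * F z ∂mT
      map_add' := fun F G => by
        simp only [ContinuousMap.add_apply, mul_add]
        exact integral_add (an1_integrable (by fun_prop)) (an1_integrable (by fun_prop))
      map_smul' := fun c F => by
        simp only [ContinuousMap.smul_apply, smul_eq_mul, RingHom.id_apply]
        rw [← integral_const_mul]
        exact integral_congr_ae (Eventually.of_forall fun z => by ring) }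
    ‖W‖ (fun F => by
      have h := norm_integral_le_of_norm_le_const (μ := mT)
        (f := fun z => ((W z : ℝ) : ℂ) * F z) (C := ‖W‖ * ‖F‖)
        (Eventually.of_forall fun z => by
          rw [norm_mul, Complex.norm_real]
          exact mul_le_mul (W.norm_coe_le_norm z) (F.norm_coe_le_norm z) (norm_nonneg _)
            (norm_nonneg _))
      simpa using h)

theorem intW_apply (W : C(TT, ℝ)) (F : C(TT, ℂ)) :
    intW W F = ∫ z, ((W z : ℝ) : ℂ) * F z ∂mT := rfl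

theorem growth2 {W J : Type*} {len : W → ℕ} {dg : J → ℕ} (h : Counts len dg) {l : ℤ × ℤ}
    (hl : Good l) :
    ∃ᶠ n : ℕ in atTop, (2 : ℤ) ^ n ≤ (n : ℤ) ^ 6 * |phi (pc (ideg len dg) (iwt W J) n) l| := by
  obtain ⟨G, hG1, hG2, hG3, hG4⟩ := h.exists_G
  have key := sing2 (Wf l) G hG1 hG2 hG3
    (fun n => 6 * (phi (pc (ideg len dg) (iwt W J) n) l : ℂ)) (fun t ht => by
      obtain ⟨F, hF, hFz⟩ := hG4 t ht
      refine ⟨intW (Wf l) F, ?_, ?_⟩
      · have h1 := (intW (Wf l)).hasSum hF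
        simp only [map_smul, intW_apply, integral_Wf_Pn h hl, smul_eq_mul] at h1
        simpa only [intW_apply, mul_comm] using h1
      · rw [intW_apply, ← integral_const_mul]
        exact integral_congr_ae (Eventually.of_forall fun z => by
          simp only [← hFz z]; ring))
    (lower2 hl) 6
  refine key.mono fun n hn => ?_
  rw [norm_mul, Complex.norm_intCast] at hn
  have h6 : ‖(6 : ℂ)‖ = 6 := by simp
  rw [h6] at hn
  have h2 : (2 : ℝ) ^ n ≤ (n : ℝ) ^ 6 * |((phi (pc (ideg len dg) (iwt W J) n) l : ℤ) : ℝ)| := by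
    linarith
  exact_mod_cast h2

end Pool.Agent.Work.MP_894cc0_al
end

-- merged part: Pool.Agent.Work.MP_894cc0_al.Main2
section
/-! Assembly. -/

open Filter

namespace Pool.Agent.Work.MP_894cc0_al

theorem main2 (K : Type*) [Field K] [CharZero K] (V : Type*) [AddCommGroup V] [Module K V]
    [FiniteDimensional K V] (hV : 2 ≤ Module.finrank K V) {S : Type*} [AddCommGroup S]
    [Module K S] [LieRingModule (Sl3 K) S] [LieModule K (Sl3 K) S] [FiniteDimensional K S]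
    {l : ℤ × ℤ} (hl : Good l) {s0 : S} (hS : Std K S l s0) :
    ∃ᶠ n in atTop, ∃ k m : ℕ, 2 ≤ k ∧ 2 ^ n ≤ n ^ 7 * m ∧ HasSummand K V S k n m := by
  obtain ⟨R, hR⟩ := exists_repSet
  obtain ⟨D, hd, hw, hσ⟩ := exists_gdata K R hR
  refine (((growth2 (counts R hR) hl).and_eventually (eventually_ge_atTop 2))).mono ?_
  rintro n ⟨hg, hn2⟩
  obtain ⟨k, m, hk, hb, Φ, Ψ, hΨ, hΦ⟩ := D.euler_bound hl hS hn2
  rw [hd, hw] at hb
  refine ⟨k, m, hk, ?_, hasSummand_of_two K V hV k n m Φ Ψ hΨ (fun x c => ?_)⟩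
  · have h1 : (2 : ℤ) ^ n ≤ (n : ℤ) ^ 6 * (n * m) :=
      hg.trans (mul_le_mul_of_nonneg_left hb (by positivity))
    have h2 : (2 : ℤ) ^ n ≤ (n : ℤ) ^ 7 * m := by
      calc (2 : ℤ) ^ n ≤ _ := h1
        _ = _ := by ring
    exact_mod_cast h2
  · have := (D.mem_Hn.1 (hΦ x)) c
    rwa [hσ] at this

end Pool.Agent.Work.MP_894cc0_al
end

-- merged part: Pool.Agent.Work.MP_894cc0_al.Stmt2
section
/-! From summands of the homology module to the chain level description. -/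

open scoped DirectSum
open ExteriorAlgebra Filter

namespace Pool.Agent.Work.MP_894cc0_al

theorem summand_of {K : Type*} [Field K] [CharZero K] {g : Type*} [LieRing g] [LieAlgebra K g]
    [LieRingModule (Sl3 K) g] [LieModule K (Sl3 K) g] [IsLieTower (Sl3 K) g g]
    {S : Type*} [AddCommGroup S] [Module K S] [LieRingModule (Sl3 K) S] [LieModule K (Sl3 K) S]
    (σ : K → (g →ₗ⁅K⁆ g)) (k n m : ℕ) (N N' : LieSubmodule K (Sl3 K) (LieH K g k))
    (hc : IsCompl N N') (ε : N ≃ₗ⁅K, Sl3 K⁆ ⨁ _ : Fin m, S)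
    (hn : ∀ h ∈ N, ∀ c : K, LieH.map (σ c) k h = c ^ n • h) :
    Summand K S (Cyc K g k) (Bdry K g k) (fun X => theta (LieModule.toEnd K (Sl3 K) g X))
      (fun c => ExteriorAlgebra.map (σ c : g →ₗ[K] g)) n m := by
  have hc' : IsCompl N.toSubmodule N'.toSubmodule := LieSubmodule.isCompl_toSubmodule.2 hc
  let up : LieSubmodule K (Sl3 K) (LieH K g k) → Submodule K (ExteriorAlgebra K g) :=
    fun P => (P.toSubmodule.comap (cls K g k)).map (Cyc K g k).subtype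
  have mem_up : ∀ P z, z ∈ up P ↔ ∃ h : z ∈ Cyc K g k, cls K g k ⟨z, h⟩ ∈ P := by
    intro P z
    constructor
    · rintro ⟨w, hw, rfl⟩
      exact ⟨w.2, hw⟩
    · rintro ⟨h, hz⟩
      exact ⟨⟨z, h⟩, hz, rfl⟩
  have hθ : ∀ (X : Sl3 K) z, z ∈ Cyc K g k →
      theta (LieModule.toEnd K (Sl3 K) g X) z ∈ Cyc K g k := fun X z hz =>
    ⟨theta_mem _ hz.1, by
      have h : dCE K g z = 0 := hz.2
      change dCE K g _ = 0
      rw [dCE_theta _ (fun x y => leibniz_lie X x y), h, map_zero]⟩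
  have hσ : ∀ (c : K) z, z ∈ Cyc K g k → ExteriorAlgebra.map (σ c : g →ₗ[K] g) z ∈ Cyc K g k :=
    fun c z hz => ⟨map_mem _ hz.1, by
      have h : dCE K g z = 0 := hz.2
      change dCE K g _ = 0
      rw [← map_dCE, h, map_zero]⟩
  have stab : ∀ P (X : Sl3 K), ∀ z ∈ up P, theta (LieModule.toEnd K (Sl3 K) g X) z ∈ up P := by
    intro P X z hz
    obtain ⟨h, hz⟩ := (mem_up P z).1 hz
    refine (mem_up P _).2 ⟨hθ X z h, ?_⟩
    rw [← lie_cls K g X k ⟨z, h⟩ ⟨_, hθ X z h⟩ rfl]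
    exact P.lie_mem hz
  let e0 : Cyc K g k →ₗ[K] (Fin m → S) :=
    (DirectSum.linearEquivFunOnFintype K (Fin m) (fun _ => S)).toLinearMap ∘ₗ
      (ε : N →ₗ[K] ⨁ _ : Fin m, S) ∘ₗ
        (Submodule.projectionOnto N.toSubmodule N'.toSubmodule hc') ∘ₗ cls K g k
  obtain ⟨e, he⟩ := LinearMap.exists_extend e0
  have he' : ∀ z (h : z ∈ Cyc K g k) (hz : cls K g k ⟨z, h⟩ ∈ N) i,
      e z i = ε ⟨cls K g k ⟨z, h⟩, hz⟩ i := by
    intro z h hz i
    have h1 : e z = e0 ⟨z, h⟩ := LinearMap.congr_fun he ⟨z, h⟩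
    have h2 : Submodule.projectionOnto N.toSubmodule N'.toSubmodule hc' (cls K g k ⟨z, h⟩) =
        ⟨cls K g k ⟨z, h⟩, hz⟩ :=
      Submodule.projectionOnto_apply_left hc' ⟨cls K g k ⟨z, h⟩, hz⟩
    rw [h1]
    change ε (Submodule.projectionOnto N.toSubmodule N'.toSubmodule hc' (cls K g k ⟨z, h⟩)) i = _
    rw [h2]
  refine ⟨up N, up N', e, le_antisymm ?_ ?_, le_antisymm ?_ ?_, stab N, stab N', ?_, ?_, ?_, ?_⟩
  · rintro z ⟨h1, h2⟩
    obtain ⟨h, h1⟩ := (mem_up N z).1 h1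
    obtain ⟨_, h2⟩ := (mem_up N' z).1 h2
    exact (cls_eq_zero ⟨z, h⟩).1 ((Submodule.disjoint_def.1 hc'.disjoint) _ h1 h2)
  · intro z hz
    have h := Bdry_le K g k hz
    have h0 : cls K g k ⟨z, h⟩ = 0 := (cls_eq_zero ⟨z, h⟩).2 hz
    exact ⟨(mem_up N z).2 ⟨h, h0 ▸ zero_mem _⟩, (mem_up N' z).2 ⟨h, h0 ▸ zero_mem _⟩⟩
  · exact sup_le (fun z hz => ((mem_up N z).1 hz).1) (fun z hz => ((mem_up N' z).1 hz).1)
  · intro z hz
    obtain ⟨a, ha, b, hb, hab⟩ := Submodule.mem_sup.1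
      (hc'.sup_eq_top ▸ Submodule.mem_top : cls K g k ⟨z, hz⟩ ∈ N.toSubmodule ⊔ N'.toSubmodule)
    obtain ⟨za, rfl⟩ := cls_surj k a
    refine Submodule.mem_sup.2 ⟨za.1, (mem_up N _).2 ⟨za.2, ha⟩, z - za.1,
      (mem_up N' _).2 ⟨sub_mem hz za.2, ?_⟩, add_sub_cancel _ _⟩
    have h1 : cls K g k ⟨z - za.1, sub_mem hz za.2⟩ = b := by
      rw [eq_sub_of_add_eq' hab, ← map_sub]; rfl
    rw [h1]; exact hb
  · intro y
    obtain ⟨h, hh⟩ := ε.surjective
      ((DirectSum.linearEquivFunOnFintype K (Fin m) (fun _ => S)).symm y)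
    obtain ⟨z, hz⟩ := cls_surj k h.1
    have hzN : cls K g k ⟨z.1, z.2⟩ ∈ N := hz ▸ h.2
    refine ⟨z.1, (mem_up N _).2 ⟨z.2, hzN⟩, funext fun i => ?_⟩
    rw [he' z.1 z.2 hzN, show (⟨cls K g k ⟨z.1, z.2⟩, hzN⟩ : N) = h from Subtype.ext hz, hh]
    exact congrFun ((DirectSum.linearEquivFunOnFintype K (Fin m) (fun _ => S)).apply_symm_apply y) i
  · intro z hz
    obtain ⟨h, hz⟩ := (mem_up N z).1 hz
    rw [← cls_eq_zero ⟨z, h⟩]
    constructor
    · intro h0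
      have h1 : ε ⟨cls K g k ⟨z, h⟩, hz⟩ = 0 := by
        ext i
        rw [← he' z h hz i, h0]; rfl
      exact congrArg Subtype.val (ε.injective (h1.trans (map_zero ε).symm))
    · intro h0
      funext i
      rw [he' z h hz, show (⟨cls K g k ⟨z, h⟩, hz⟩ : N) = 0 from Subtype.ext h0, map_zero]; rfl
  · intro X z hz i
    obtain ⟨h, hz⟩ := (mem_up N z).1 hz
    have h1 := lie_cls K g X k ⟨z, h⟩ ⟨_, hθ X z h⟩ rfl
    have h2 : cls K g k ⟨_, hθ X z h⟩ ∈ N := h1 ▸ N.lie_mem hz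
    rw [he' _ (hθ X z h) h2, he' z h hz,
      show (⟨cls K g k ⟨_, hθ X z h⟩, h2⟩ : N) = ⁅X, (⟨cls K g k ⟨z, h⟩, hz⟩ : N)⁆ from
        Subtype.ext h1.symm]
    exact congrArg (fun y : ⨁ _ : Fin m, S => y i)
      (ε.toLieModuleHom.map_lie X (⟨cls K g k ⟨z, h⟩, hz⟩ : N))
  · intro c z hz
    obtain ⟨h, hz⟩ := (mem_up N z).1 hz
    have h1 := map_cls K g (σ c) k ⟨z, h⟩ ⟨_, hσ c z h⟩ rfl
    have h2 : cls K g k (⟨_, hσ c z h⟩ - c ^ n • ⟨z, h⟩) = 0 := by
      rw [map_sub, map_smul, ← h1, hn _ hz c, sub_self]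
    exact (cls_eq_zero _).1 h2

theorem altSummand_of (K : Type*) [Field K] [CharZero K] (V : Type*) [AddCommGroup V] [Module K V]
    {S : Type*} [AddCommGroup S] [Module K S] [LieRingModule (Sl3 K) S] [LieModule K (Sl3 K) S]
    {k n m : ℕ} (h : HasSummand K V S k n m) : AltSummand K V S k n m := by
  obtain ⟨N, N', hc, ⟨ε⟩, hn⟩ := h
  have key := summand_of (fun c => ABG.map (Alt.map (c • (LinearMap.id : V →ₗ[K] V)))) k n m
    N N' hc ε hn
  simp only [AltSummand, ASummand, HSummand, dA_eq, actA_eq, mapA_eq, scale_eq, Th_eq]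
  exact key

theorem main3 (K : Type*) [Field K] [CharZero K] (V : Type*) [AddCommGroup V] [Module K V]
    [FiniteDimensional K V] (hV : 2 ≤ Module.finrank K V) {S : Type*} [AddCommGroup S]
    [Module K S] [LieRingModule (Sl3 K) S] [LieModule K (Sl3 K) S] [FiniteDimensional K S]
    {l : ℤ × ℤ} (hl : Good l) {s0 : S} (hS : Std K S l s0) :
    ∃ᶠ n in atTop, ∃ k m : ℕ, 2 ≤ k ∧ 2 ^ n ≤ n ^ 7 * m ∧ AltSummand K V S k n m :=
  (main2 K V hV hl hS).mono fun _ ⟨k, m, h1, h2, h3⟩ => ⟨k, m, h1, h2, altSummand_of K V h3⟩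

end Pool.Agent.Work.MP_894cc0_al
end
end

-- merged part: Pool.Agent.Work.MP_894cc0_al.Stmt3
section
/-! The statement for every module isomorphic to the trivial or to the adjoint module. -/

open Filter

namespace Pool.Agent.Work.MP_894cc0_al

theorem Summand.congr {K : Type*} [Field K] {E : Type*} [AddCommGroup E] [Module K E] {s : Type*}
    {S S' : Type*} [AddCommGroup S] [Module K S] [Bracket s S] [AddCommGroup S'] [Module K S']
    [Bracket s S'] (φ : S' ≃ₗ[K] S) (hφ : ∀ (X : s) y, φ ⁅X, y⁆ = ⁅X, φ y⁆)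
    {Z B : Submodule K E} {θ : s → E → E} {σ : K → E → E} {n m : ℕ}
    (h : Summand K S' Z B θ σ n m) : Summand K S Z B θ σ n m := by
  obtain ⟨N, N', e, h1, h2, h3, h4, h5, h6, h7, h8⟩ := h
  refine ⟨N, N', (φ.toLinearMap.compLeft (Fin m)) ∘ₗ e, h1, h2, h3, h4, fun y => ?_,
    fun z hz => ?_, fun X z hz i => ?_, h8⟩
  · obtain ⟨z, hz, e1⟩ := h5 fun i => φ.symm (y i)
    refine ⟨z, hz, funext fun i => ?_⟩
    change φ (e z i) = y i
    rw [e1, φ.apply_symm_apply]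
  · rw [← h6 z hz, funext_iff, funext_iff]
    exact forall_congr' fun i => φ.map_eq_zero_iff
  · change φ (e (θ X z) i) = ⁅X, φ (e z i)⁆
    rw [h7 X z hz, hφ]

theorem main4 (K : Type*) [Field K] [CharZero K] (V : Type*) [AddCommGroup V] [Module K V]
    [FiniteDimensional K V] (hV : 2 ≤ Module.finrank K V) (S : Type*) [AddCommGroup S]
    [Module K S] [LieRingModule (Sl3 K) S]
    (hS : Nonempty (S ≃ₗ⁅K, Sl3 K⁆ TrivialLieModule K (Sl3 K) K) ∨
      Nonempty (S ≃ₗ⁅K, Sl3 K⁆ Sl3 K)) :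
    ∃ᶠ n in atTop, ∃ k m : ℕ, 2 ≤ k ∧ 2 ^ n ≤ n ^ 7 * m ∧ AltSummand K V S k n m := by
  have : FiniteDimensional K (TrivialLieModule K (Sl3 K) K) :=
    inferInstanceAs (FiniteDimensional K K)
  rcases hS with ⟨⟨ε⟩⟩ | ⟨⟨ε⟩⟩
  · exact (main3 K V hV (Or.inl rfl) std_triv).mono fun _ ⟨k, m, h1, h2, h3⟩ =>
      ⟨k, m, h1, h2, Summand.congr ε.symm.toLinearEquiv ε.symm.toLieModuleHom.map_lie h3⟩
  · exact (main3 K V hV (Or.inr rfl) std_ad).mono fun _ ⟨k, m, h1, h2, h3⟩ =>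
      ⟨k, m, h1, h2, Summand.congr ε.symm.toLinearEquiv ε.symm.toLieModuleHom.map_lie h3⟩

end Pool.Agent.Work.MP_894cc0_al
end
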